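import Pool.Agent.H43.X6.Stm

/-!
# Project X6 (stub COREX): mean square of a product of twisted factors
-/

set_option autoImplicit false

namespace Pool.Agent.H43.X6

open Finset Filter Pool.Agent.H376R2.MR Pool.Agent.Q240.KS Pool.Agent.Q240.KT

lemma crx_cg {G : ℕ} {s x : ℝ} (hs : 0 ≤ s) :
    (1 ≤ cg G s x → x ≤ Real.exp (-(cg G s x * s))) ∧
    (cg G s x < G → Real.exp (-((cg G s x + 1) * s)) < x) ∧ cg G s x ≤ G := by
  set F : Finset ℕ := (Icc 1 G).filter (fun j : ℕ => x ≤ Real.exp (-(j * s))) with hF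
  have hg : cg G s x = F.card := rfl
  have hdown : ∀ i j : ℕ, 1 ≤ i → i ≤ j → j ∈ F → i ∈ F := by
    intro i j hi hij hj
    rw [hF, mem_filter, mem_Icc] at hj ⊢
    refine ⟨⟨hi, by omega⟩, hj.2.trans (Real.exp_le_exp.2 ?_)⟩
    have : (i : ℝ) ≤ j := by exact_mod_cast hij
    have := mul_le_mul_of_nonneg_right this hs
    linarith
  have hle : F.card ≤ G := by
    rw [hF]
    exact (card_filter_le _ _).trans (by simp)
  have hup : ∀ j ∈ F, j ≤ F.card := by
    intro j hj
    have h1 : Icc 1 j ⊆ F := by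
      intro i hi
      rw [mem_Icc] at hi
      exact hdown i j hi.1 hi.2 hj
    have := card_le_card h1
    simpa using this
  rw [hg]
  refine ⟨?_, ?_, hle⟩
  · intro h1
    have h2 : F.card ∈ F := by
      by_contra h3
      have h4 : F ⊆ Icc 1 (F.card - 1) := by
        intro j hj
        rw [mem_Icc]
        have h5 : 1 ≤ j := (mem_Icc.1 (mem_filter.1 hj).1).1
        refine ⟨h5, ?_⟩
        by_contra h6
        exact h3 (hdown _ j h1 (by omega) hj)
      have := card_le_card h4
      rw [Nat.card_Icc] at this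
      omega
    exact (mem_filter.1 h2).2
  · intro h1
    by_contra h2
    push Not at h2
    have h3 : F.card + 1 ∈ F :=
      mem_filter.2 ⟨mem_Icc.2 ⟨by omega, by omega⟩, by push_cast; exact h2⟩
    have := hup _ h3
    omega

lemma crx_fact (b : ℝ) (hb : 0 < b) (D : ℕ) : ∀ᶠ Y : ℝ in atTop,
    2 * (50 * Y) ^ 20 * Real.exp (-(b * Y)) ≤ 1 / Y ^ (D + 2) := by
  have h1 := tendsto_rpow_mul_exp_neg_mul_atTop_nhds_zero ((D + 22 : ℕ) : ℝ) b hb
  have h2 := h1.eventually_le_const (show (0:ℝ) < 1 / (2 * 50 ^ 20) by positivity)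
  filter_upwards [h2, eventually_ge_atTop 1] with Y hY hY1
  have hY0 : 0 < Y := by linarith
  rw [Real.rpow_natCast] at hY
  rw [le_div_iff₀ (by positivity)]
  have e : 2 * (50 * Y) ^ 20 * Real.exp (-(b * Y)) * Y ^ (D + 2) =
      (2 * 50 ^ 20) * (Y ^ (D + 22) * Real.exp (-b * Y)) := by
    rw [neg_mul]
    have : Y ^ (D + 22) = Y ^ 20 * Y ^ (D + 2) := by rw [← pow_add]; congr 1; omega
    rw [this, mul_pow]
    ring
  rw [e]
  calc (2 * 50 ^ 20 : ℝ) * (Y ^ (D + 22) * Real.exp (-b * Y))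
      ≤ (2 * 50 ^ 20) * (1 / (2 * 50 ^ 20)) := mul_le_mul_of_nonneg_left hY (by positivity)
    _ = 1 := by norm_num

theorem corex (hF : S_FARX) (hN : S_NEARX) (hT : S_TRIX) : S_COREX := by
  classical
  intro δ hδ hδ1 B D
  obtain ⟨ε₀, hε₀, hε₀1, hN⟩ := hN
  obtain ⟨ε', η, Y₁, hε', hε'2, hη, hF⟩ := hF δ (ε₀ / 2) hδ hδ1 (by linarith) (by linarith) B
  obtain ⟨Y₂, hN⟩ := hN B (D + 2)
  set G : ℕ := ⌈3 / ε'⌉₊ with hGdef
  have hG : 3 ≤ ε' * G := by
    have h1 : 3 / ε' ≤ G := Nat.le_ceil _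
    rw [div_le_iff₀ hε'] at h1
    linarith
  have hf3 : ∀ᶠ Y : ℝ in atTop, (2 * Y + 2) * ((G : ℝ) + 1) ^ 10 ≤ Y ^ 2 := by
    filter_upwards [eventually_ge_atTop 1, eventually_ge_atTop (4 * ((G : ℝ) + 1) ^ 10)]
      with Y h1 h2
    have h3 : (0:ℝ) < ((G : ℝ) + 1) ^ 10 := by positivity
    calc (2 * Y + 2) * ((G : ℝ) + 1) ^ 10 ≤ (4 * Y) * ((G : ℝ) + 1) ^ 10 :=
          mul_le_mul_of_nonneg_right (by linarith) h3.le
      _ = Y * (4 * ((G : ℝ) + 1) ^ 10) := by ring
      _ ≤ Y * Y := mul_le_mul_of_nonneg_left h2 (by linarith)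
      _ = Y ^ 2 := by ring
  obtain ⟨Y₃, hY₃⟩ := eventually_atTop.1 ((crx_fact η hη D).and ((crx_fact 5 (by norm_num) D).and hf3))
  refine ⟨max (max Y₁ Y₂) (max Y₃ 20), fun Y hY q hq hqB f hf hper d hd K hK => ?_⟩
  simp only [max_le_iff] at hY
  obtain ⟨⟨hY1, hY2⟩, ⟨hY3, hY20⟩⟩ := hY
  obtain ⟨hA1, hA2, hA3⟩ := hY₃ Y hY3
  have hY0 : 0 < Y := by linarith
  set s : ℝ := ε' * Y with hs
  have hs0 : 0 ≤ s := by positivity
  set PP' : Fin 10 → ℤ → ℂ := fun i k => PX f (zY Y) (ty i) (d i) k with hPP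
  have hdi : ∀ i, (d i : ℝ) ≤ 20 * (Y + 1) := by
    intro i
    unfold DY at hd
    rw [mem_filter, Fintype.mem_piFinset] at hd
    have h1 := hd.1 i
    rw [mem_range] at h1
    have h2 : d i ≤ ⌊20 * (Y + 1)⌋₊ := by omega
    exact (Nat.cast_le.2 h2).trans (Nat.floor_le (by positivity))
  have htri : ∀ i k, ‖PP' i k‖ ≤ 50 * Y := by
    intro i k
    refine ((hT.1 f hf.norm_le (zY Y) (ty i) (d i) k).1).trans ?_
    have := hdi i
    linarith
  set S : Finset ℤ := (FK K).filter (fun k : ℤ => Real.exp (0.6 * Y) ≤ |(k : ℝ)|) with hS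
  set φ : ℤ → ℕ × (Fin 10 → ℕ) := fun k => (Nat.log 2 k.natAbs, fun i => cg G s ‖PP' i k‖) with hφ
  set t : Finset (ℕ × (Fin 10 → ℕ)) :=
    (range (Nat.log 2 K + 1)) ×ˢ (Fintype.piFinset (fun _ : Fin 10 => range (G + 1))) with ht
  have hSK : ∀ k ∈ S, |(k : ℝ)| < K ∧ Real.exp (0.6 * Y) ≤ |(k : ℝ)| := by
    intro k hk
    rw [hS, mem_filter, FK, mem_Ioo] at hk
    refine ⟨?_, hk.2⟩
    rw [abs_lt]
    constructor
    · have : ((-(K : ℤ) : ℤ) : ℝ) < k := by exact_mod_cast hk.1.1
      push_cast at this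
      exact this
    · exact_mod_cast hk.1.2
  have hmaps : ∀ k ∈ S, φ k ∈ t := by
    intro k hk
    rw [ht, mem_product]
    have h0 := hk
    rw [hS, mem_filter, FK, mem_Ioo] at h0
    refine ⟨?_, ?_⟩
    · rw [mem_range]
      have h1 : k.natAbs ≤ K := by omega
      have h2 := Nat.log_mono_right (b := 2) h1
      show Nat.log 2 k.natAbs < _
      omega
    · rw [Fintype.mem_piFinset]
      intro i
      rw [mem_range]
      have := (crx_cg (G := G) (x := ‖PP' i k‖) hs0).2.2
      show cg G s ‖PP' i k‖ < _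
      omega
  -- the bound in one class
  have hclass : ∀ p ∈ t, ∑ k ∈ S.filter (fun k => φ k = p), ‖EX f (zY Y) d k‖ ^ 2 ≤
      1 / Y ^ (D + 2) := by
    intro p hp
    obtain ⟨r, g⟩ := p
    set L : Finset ℤ := S.filter (fun k => φ k = (r, g)) with hL
    have hLS : ∀ k ∈ L, k ∈ S := fun k hk => (mem_filter.1 hk).1
    have hLr : ∀ k ∈ L, Nat.log 2 k.natAbs = r := fun k hk => congrArg Prod.fst (mem_filter.1 hk).2
    have hLg : ∀ k ∈ L, ∀ i, cg G s ‖PP' i k‖ = g i := fun k hk i =>
      congrFun (congrArg Prod.snd (mem_filter.1 hk).2) i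
    rcases L.eq_empty_or_nonempty with hempty | hne
    · rw [hempty, sum_empty]
      positivity
    set κ : Fin 10 → ℝ := fun i => ε' * g i with hκ
    have hκ0 : ∀ i, 0 ≤ κ i := fun i => by positivity
    have hup : ∀ k ∈ L, ∀ i, ‖PP' i k‖ ≤ 50 * Y * Real.exp (-(κ i * Y)) := by
      intro k hk i
      have h1 := (crx_cg (G := G) (x := ‖PP' i k‖) hs0).1
      rw [hLg k hk i] at h1
      rcases Nat.eq_zero_or_pos (g i) with h2 | h2
      · have h3 : κ i = 0 := by rw [hκ]; simp [h2]
        rw [h3]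
        simpa using htri i k
      · have h3 := h1 h2
        have h4 : -((g i : ℝ) * s) = -(κ i * Y) := by rw [hκ, hs]; ring
        rw [h4] at h3
        refine h3.trans ?_
        apply le_mul_of_one_le_left (Real.exp_pos _).le
        linarith
    have hEX : ∀ k ∈ L, ‖EX f (zY Y) d k‖ ^ 2 ≤ (50 * Y) ^ 20 * Real.exp (-(2 * (∑ i, κ i) * Y)) := by
      intro k hk
      unfold EX
      rw [norm_prod, ← prod_pow]
      have h1 : ∏ i, ‖PX f (zY Y) (ty i) (d i) k‖ ^ 2 ≤
          ∏ i, (50 * Y * Real.exp (-(κ i * Y))) ^ 2 :=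
        prod_le_prod (fun i _ => by positivity)
          (fun i _ => pow_le_pow_left₀ (norm_nonneg _) (hup k hk i) 2)
      refine h1.trans (le_of_eq ?_)
      have h2 : ∀ i, (50 * Y * Real.exp (-(κ i * Y))) ^ 2 =
          (50 * Y) ^ 2 * Real.exp (-(2 * κ i * Y)) := by
        intro i
        rw [mul_pow, ← Real.exp_nat_mul]
        congr 2
        push_cast
        ring
      rw [prod_congr rfl (fun i _ => h2 i), prod_mul_distrib, prod_const, ← Real.exp_sum]
      rw [Finset.card_univ, Fintype.card_fin, ← pow_mul]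
      congr 2
      rw [mul_sum, sum_mul, ← sum_neg_distrib]
    have hsum : ∑ k ∈ L, ‖EX f (zY Y) d k‖ ^ 2 ≤
        L.card * ((50 * Y) ^ 20 * Real.exp (-(2 * (∑ i, κ i) * Y))) := by
      refine (sum_le_sum hEX).trans (le_of_eq ?_)
      rw [sum_const, nsmul_eq_mul]
    by_cases hgG : ∃ i, g i = G
    · -- some factor is very small
      obtain ⟨i, hi⟩ := hgG
      have h1 : 3 ≤ ∑ j, κ j := by
        have h2 : κ i ≤ ∑ j, κ j := single_le_sum (fun j _ => hκ0 j) (mem_univ i)
        have h3 : κ i = ε' * G := by rw [hκ]; simp [hi]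
        linarith
      have hcard : (L.card : ℝ) ≤ 2 * Real.exp Y := by
        have h2 : L.card ≤ 2 * K := by
          have h3 : L ⊆ FK K := fun k hk => (mem_filter.1 (hLS k hk)).1
          have h4 := card_le_card h3
          have h5 : (FK K).card ≤ 2 * K := by
            unfold FK
            rw [Int.card_Ioo]
            omega
          omega
        have h6 : (L.card : ℝ) ≤ 2 * K := by exact_mod_cast h2
        have h7 : (K : ℝ) ≤ Real.exp Y := by
          refine hK.trans (Real.exp_le_exp.2 ?_)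
          have : (5 / 6 - δ) * Y ≤ 1 * Y := mul_le_mul_of_nonneg_right (by linarith) hY0.le
          linarith
        linarith
      refine hsum.trans (le_trans ?_ hA2)
      have h8 : Real.exp (-(2 * (∑ i, κ i) * Y)) ≤ Real.exp (-(6 * Y)) := by
        apply Real.exp_le_exp.2
        have := mul_le_mul_of_nonneg_right h1 hY0.le
        linarith
      calc (L.card : ℝ) * ((50 * Y) ^ 20 * Real.exp (-(2 * (∑ i, κ i) * Y)))
          ≤ (2 * Real.exp Y) * ((50 * Y) ^ 20 * Real.exp (-(6 * Y))) := by gcongr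
        _ = 2 * (50 * Y) ^ 20 * (Real.exp Y * Real.exp (-(6 * Y))) := by ring
        _ = 2 * (50 * Y) ^ 20 * Real.exp (-(5 * Y)) := by
            rw [← Real.exp_add]
            congr 2
            ring
    · push Not at hgG
      have hlo : ∀ k ∈ L, ∀ i, Real.exp (-((κ i + ε') * Y)) ≤ ‖PP' i k‖ := by
        intro k hk i
        have h1 := crx_cg (G := G) (x := ‖PP' i k‖) hs0
        rw [hLg k hk i] at h1
        have h2 := h1.2.1 (lt_of_le_of_ne h1.2.2 (hgG i))
        have h3 : -(((g i : ℝ) + 1) * s) = -((κ i + ε') * Y) := by rw [hκ, hs]; ring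
        rw [h3] at h2
        exact h2.le
      by_cases hκs : ∑ i, κ i < ε₀ / 2
      · -- near the line one
        refine hN Y hY2 q hq hqB f hf hper d hd L ?_ ?_
        · intro k hk
          obtain ⟨h1, h2⟩ := hSK k (hLS k hk)
          constructor
          · refine le_trans (Real.exp_le_exp.2 ?_) h2
            linarith
          · refine h1.le.trans (hK.trans (Real.exp_le_exp.2 ?_))
            apply mul_le_mul_of_nonneg_right _ hY0.le
            linarith
        · intro k hk i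
          refine le_trans (Real.exp_le_exp.2 ?_) (hlo k hk i)
          have h1 : κ i ≤ ∑ j, κ j := single_le_sum (fun j _ => hκ0 j) (mem_univ i)
          have h2 : (κ i + ε') * Y ≤ ε₀ * Y := mul_le_mul_of_nonneg_right (by linarith) hY0.le
          linarith
      · -- far from the line one
        push Not at hκs
        have hkr : ∀ k ∈ L, (2:ℝ) ^ r ≤ |(k : ℝ)| ∧ |(k : ℝ)| < 2 * 2 ^ r := by
          intro k hk
          have h1 := hLr k hk
          have h2 := (hSK k (hLS k hk)).2
          have hk0 : k.natAbs ≠ 0 := by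
            intro h0
            rw [Int.natAbs_eq_zero] at h0
            rw [h0] at h2
            simp only [Int.cast_zero, abs_zero] at h2
            exact absurd h2 (not_le.2 (Real.exp_pos _))
          rw [Nat.log_eq_iff (Or.inr ⟨by norm_num, hk0⟩)] at h1
          have h3 : |(k : ℝ)| = (k.natAbs : ℝ) := by
            rw [Nat.cast_natAbs, Int.cast_abs]
          rw [h3]
          constructor
          · exact_mod_cast h1.1
          · have : ((k.natAbs : ℕ) : ℝ) < ((2 ^ (r + 1) : ℕ) : ℝ) := by exact_mod_cast h1.2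
            push_cast at this
            rw [pow_succ] at this
            linarith
        obtain ⟨k₀, hk₀⟩ := hne
        have hk₀r := hkr k₀ hk₀
        have hk₀S := hSK k₀ (hLS k₀ hk₀)
        have hcard := hF Y hY1 q hq hqB f hf hper d hd ((2:ℝ) ^ r) ?_ ?_ L ⟨k₀, hk₀⟩ hkr κ hκ0 hκs hlo
        · refine hsum.trans (le_trans ?_ hA1)
          calc (L.card : ℝ) * ((50 * Y) ^ 20 * Real.exp (-(2 * (∑ i, κ i) * Y)))
              ≤ Real.exp ((2 * ∑ i, κ i - η) * Y) *
                ((50 * Y) ^ 20 * Real.exp (-(2 * (∑ i, κ i) * Y))) := by gcongr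
            _ = (50 * Y) ^ 20 * (Real.exp ((2 * ∑ i, κ i - η) * Y) *
                Real.exp (-(2 * (∑ i, κ i) * Y))) := by ring
            _ = (50 * Y) ^ 20 * Real.exp (-(η * Y)) := by
                rw [← Real.exp_add]
                congr 2
                ring
            _ ≤ 2 * (50 * Y) ^ 20 * Real.exp (-(η * Y)) := by
                have : 0 ≤ (50 * Y) ^ 20 * Real.exp (-(η * Y)) := by positivity
                linarith
        · -- lower bound for the height
          have h1 : Real.exp (0.6 * Y) ≤ 2 * 2 ^ r := hk₀S.2.trans hk₀r.2.le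
          have h2 : 2 * Real.exp (0.55 * Y) ≤ Real.exp (0.6 * Y) := by
            have h3 : Real.exp (0.6 * Y) = Real.exp (0.05 * Y) * Real.exp (0.55 * Y) := by
              rw [← Real.exp_add]
              congr 1
              ring
            rw [h3]
            apply mul_le_mul_of_nonneg_right _ (Real.exp_pos _).le
            have h4 := Real.add_one_le_exp (0.05 * Y)
            linarith
          linarith
        · exact hk₀r.1.trans (hk₀S.1.le.trans hK)
  -- summation over the classes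
  rw [← sum_fiberwise_of_maps_to hmaps]
  refine (sum_le_sum hclass).trans ?_
  rw [sum_const, nsmul_eq_mul, ht, card_product, card_range, Fintype.card_piFinset]
  simp only [card_range, prod_const, card_univ, Fintype.card_fin]
  have hlogK : (Nat.log 2 K : ℝ) + 1 ≤ 2 * Y + 2 := by
    rcases Nat.eq_zero_or_pos K with h | h
    · subst h
      simp
      linarith
    · have h1 : 2 ^ Nat.log 2 K ≤ K := Nat.pow_log_le_self 2 h.ne'
      have h2 : ((2:ℝ)) ^ Nat.log 2 K ≤ K := by exact_mod_cast h1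
      have h3 : (2:ℝ) ^ Nat.log 2 K ≤ Real.exp Y := by
        refine h2.trans (hK.trans (Real.exp_le_exp.2 ?_))
        have : (5 / 6 - δ) * Y ≤ 1 * Y := mul_le_mul_of_nonneg_right (by linarith) hY0.le
        linarith
      have h4 : Real.log ((2:ℝ) ^ Nat.log 2 K) ≤ Y := by
        rw [Real.log_le_iff_le_exp (by positivity)]
        exact h3
      rw [Real.log_pow] at h4
      have h5 : (1:ℝ) / 2 ≤ Real.log 2 := by
        have := Real.log_two_gt_d9
        linarith
      have h6 : (Nat.log 2 K : ℝ) * (1 / 2) ≤ (Nat.log 2 K : ℝ) * Real.log 2 :=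
        mul_le_mul_of_nonneg_left h5 (Nat.cast_nonneg _)
      linarith
  have hG0 : (0:ℝ) ≤ ((G : ℝ) + 1) ^ 10 := by positivity
  push_cast
  calc ((Nat.log 2 K : ℝ) + 1) * ((G : ℝ) + 1) ^ 10 * (1 / Y ^ (D + 2))
      ≤ (2 * Y + 2) * ((G : ℝ) + 1) ^ 10 * (1 / Y ^ (D + 2)) := by gcongr
    _ ≤ Y ^ 2 * (1 / Y ^ (D + 2)) := by gcongr
    _ = 1 / Y ^ D := by
        rw [pow_add]
        field_simp

end Pool.Agent.H43.X6
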