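import Pool.Agent.H43.X6.Stm
import Pool.Agent.H43.G.R_pool_sql_team_seeded_3997aac3.Q278.KS.Far

/-!
# Project X6 (statements of helper43): job FARX (helper81), few frequencies with given sizes of the factors.
-/

set_option autoImplicit false

namespace Pool.Agent.H43.X6

open Finset Filter Topology Pool.Agent.H376R2.MR Pool.Agent.Q240.KS Pool.Agent.Q240.KT Pool.Agent.Q278.KS

namespace FARXaux

/-- bound of the number of elements, mean value theorem -/
theorem bndM' {c C5 e ε' Y κ lam al d : ℝ} {m : ℕ} {K : ℝ} (hY : 0 < Y) (he : 0 < e)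
    (hmε : m * ε' ≤ e / 100) (hd : d ≤ 40 * Y) (hal : d / 20 = al * Y)
    (hK0 : 0 ≤ K) (hK : K ≤ 3 * Real.exp (lam * Y)) (hC0 : 0 ≤ C5) (hC : C5 * 4 ≤ Real.exp (e / 10 * Y))
    (h : c ≤ C5 * Real.exp (e / 400 * d) * (1 + K * Real.exp (-(m * d / 20 : ℝ))) /
      Real.exp (-((κ + ε') * Y)) ^ (2 * m)) :
    c ≤ Real.exp ((max (2 * m * κ) (lam - m * al + 2 * m * κ) + e / 2) * Y) := by
  set M : ℝ := max (2 * m * κ) (lam - m * al + 2 * m * κ) with hM
  have e1 : Real.exp (-((κ + ε') * Y)) ^ (2 * m) = Real.exp (-(2 * m * (κ + ε') * Y)) := by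
    rw [← Real.exp_nat_mul]; congr 1; push_cast; ring
  rw [e1, div_exp_neg] at h
  refine h.trans ?_
  have e2 : K * Real.exp (-(m * d / 20 : ℝ)) ≤ 3 * Real.exp ((lam - m * al) * Y) := by
    calc K * Real.exp (-(m * d / 20 : ℝ)) ≤ 3 * Real.exp (lam * Y) * Real.exp (-(m * d / 20 : ℝ)) := by gcongr
      _ = 3 * Real.exp ((lam - m * al) * Y) := by
        rw [mul_assoc, ← Real.exp_add]; congr 2
        have : (m:ℝ) * d / 20 = m * (al * Y) := by rw [← hal]; ring
        rw [this]; ring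
  have e3 : (1 + K * Real.exp (-(m * d / 20 : ℝ))) * Real.exp (2 * m * κ * Y) ≤ 4 * Real.exp (M * Y) := by
    have a1 : Real.exp (2 * m * κ * Y) ≤ Real.exp (M * Y) := by
      apply Real.exp_le_exp.2; exact mul_le_mul_of_nonneg_right (le_max_left _ _) hY.le
    have a2 : Real.exp ((lam - m * al) * Y) * Real.exp (2 * m * κ * Y) ≤ Real.exp (M * Y) := by
      rw [← Real.exp_add]; apply Real.exp_le_exp.2
      have := mul_le_mul_of_nonneg_right (le_max_right (2 * m * κ) (lam - m * al + 2 * m * κ)) hY.le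
      linarith
    calc (1 + K * Real.exp (-(m * d / 20 : ℝ))) * Real.exp (2 * m * κ * Y)
        ≤ (1 + 3 * Real.exp ((lam - m * al) * Y)) * Real.exp (2 * m * κ * Y) := by gcongr
      _ = Real.exp (2 * m * κ * Y) + 3 * (Real.exp ((lam - m * al) * Y) * Real.exp (2 * m * κ * Y)) := by ring
      _ ≤ Real.exp (M * Y) + 3 * Real.exp (M * Y) := by gcongr
      _ = 4 * Real.exp (M * Y) := by ring
  have e4 : Real.exp (e / 400 * d) ≤ Real.exp (e / 10 * Y) := by
    apply Real.exp_le_exp.2; nlinarith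
  have e5 : Real.exp (2 * m * ε' * Y) ≤ Real.exp (e / 10 * Y) := by
    apply Real.exp_le_exp.2
    have b2 : 2 * m * ε' ≤ e / 10 := by linarith
    exact mul_le_mul_of_nonneg_right b2 hY.le
  have e6 : Real.exp (2 * m * (κ + ε') * Y) = Real.exp (2 * m * κ * Y) * Real.exp (2 * m * ε' * Y) := by
    rw [← Real.exp_add]; congr 1; ring
  rw [e6]
  calc C5 * Real.exp (e / 400 * d) * (1 + K * Real.exp (-(m * d / 20 : ℝ))) *
        (Real.exp (2 * m * κ * Y) * Real.exp (2 * m * ε' * Y))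
      = (C5 * Real.exp (e / 400 * d) * Real.exp (2 * m * ε' * Y)) *
        ((1 + K * Real.exp (-(m * d / 20 : ℝ))) * Real.exp (2 * m * κ * Y)) := by ring
    _ ≤ (C5 * Real.exp (e / 10 * Y) * Real.exp (e / 10 * Y)) * (4 * Real.exp (M * Y)) := by
        gcongr
    _ = (C5 * 4) * (Real.exp (e / 10 * Y) * Real.exp (e / 10 * Y) * Real.exp (M * Y)) := by ring
    _ ≤ Real.exp (e / 10 * Y) * (Real.exp (e / 10 * Y) * Real.exp (e / 10 * Y) * Real.exp (M * Y)) := by gcongr
    _ = Real.exp ((M + 3 * (e / 10)) * Y) := by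
        rw [← Real.exp_add, ← Real.exp_add, ← Real.exp_add]; congr 1; ring
    _ ≤ Real.exp ((M + e / 2) * Y) := by
        apply Real.exp_le_exp.2; apply mul_le_mul_of_nonneg_right _ hY.le; linarith

/-- bound of the number of elements, Huxley -/
theorem bndH' {c C5 e ε' Y κ lam al d : ℝ} {m : ℕ} {K : ℝ} (hY : 0 < Y) (he : 0 < e)
    (hmε : m * ε' ≤ e / 100) (hd : d ≤ 40 * Y) (hal : d / 20 = al * Y)
    (hK0 : 0 ≤ K) (hK : K ≤ 3 * Real.exp (lam * Y)) (hC0 : 0 ≤ C5) (hC : C5 * 4 ≤ Real.exp (e / 10 * Y))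
    (h : c ≤ C5 * Real.exp (e / 400 * d) * (1 / Real.exp (-((κ + ε') * Y)) ^ (2 * m) +
      K * Real.exp (-(m * d / 10 : ℝ)) / Real.exp (-((κ + ε') * Y)) ^ (6 * m))) :
    c ≤ Real.exp ((max (2 * m * κ) (lam - 2 * m * al + 6 * m * κ) + e / 2) * Y) := by
  set M : ℝ := max (2 * m * κ) (lam - 2 * m * al + 6 * m * κ) with hM
  have e1 : Real.exp (-((κ + ε') * Y)) ^ (2 * m) = Real.exp (-(2 * m * (κ + ε') * Y)) := by
    rw [← Real.exp_nat_mul]; congr 1; push_cast; ring
  have e1' : Real.exp (-((κ + ε') * Y)) ^ (6 * m) = Real.exp (-(6 * m * (κ + ε') * Y)) := by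
    rw [← Real.exp_nat_mul]; congr 1; push_cast; ring
  rw [e1, e1', div_exp_neg, div_exp_neg, one_mul] at h
  refine h.trans ?_
  have e2 : K * Real.exp (-(m * d / 10 : ℝ)) ≤ 3 * Real.exp ((lam - 2 * m * al) * Y) := by
    calc K * Real.exp (-(m * d / 10 : ℝ)) ≤ 3 * Real.exp (lam * Y) * Real.exp (-(m * d / 10 : ℝ)) := by gcongr
      _ = 3 * Real.exp ((lam - 2 * m * al) * Y) := by
        rw [mul_assoc, ← Real.exp_add]; congr 2
        have : (m:ℝ) * d / 10 = 2 * m * (al * Y) := by rw [← hal]; ring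
        rw [this]; ring
  have a1 : Real.exp (2 * m * (κ + ε') * Y) ≤ Real.exp ((M + e / 10) * Y) := by
    apply Real.exp_le_exp.2; apply mul_le_mul_of_nonneg_right _ hY.le
    have := le_max_left (2 * m * κ) (lam - 2 * m * al + 6 * m * κ)
    nlinarith
  have a2 : K * Real.exp (-(m * d / 10 : ℝ)) * Real.exp (6 * m * (κ + ε') * Y) ≤
      3 * Real.exp ((M + e / 10) * Y) := by
    calc K * Real.exp (-(m * d / 10 : ℝ)) * Real.exp (6 * m * (κ + ε') * Y)
        ≤ 3 * Real.exp ((lam - 2 * m * al) * Y) * Real.exp (6 * m * (κ + ε') * Y) := by gcongr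
      _ = 3 * Real.exp ((lam - 2 * m * al + 6 * m * (κ + ε')) * Y) := by
        rw [mul_assoc, ← Real.exp_add]; congr 2; ring
      _ ≤ 3 * Real.exp ((M + e / 10) * Y) := by
        apply mul_le_mul_of_nonneg_left _ (by norm_num)
        apply Real.exp_le_exp.2; apply mul_le_mul_of_nonneg_right _ hY.le
        have := le_max_right (2 * m * κ) (lam - 2 * m * al + 6 * m * κ)
        nlinarith
  have e4 : Real.exp (e / 400 * d) ≤ Real.exp (e / 10 * Y) := by
    apply Real.exp_le_exp.2; nlinarith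
  calc C5 * Real.exp (e / 400 * d) * (Real.exp (2 * m * (κ + ε') * Y) +
        K * Real.exp (-(m * d / 10 : ℝ)) * Real.exp (6 * m * (κ + ε') * Y))
      ≤ C5 * Real.exp (e / 10 * Y) * (Real.exp ((M + e / 10) * Y) + 3 * Real.exp ((M + e / 10) * Y)) := by
        gcongr
    _ = (C5 * 4) * (Real.exp (e / 10 * Y) * Real.exp ((M + e / 10) * Y)) := by ring
    _ ≤ Real.exp (e / 10 * Y) * (Real.exp (e / 10 * Y) * Real.exp ((M + e / 10) * Y)) := by gcongr
    _ = Real.exp ((M + 3 * (e / 10)) * Y) := by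
        rw [← Real.exp_add, ← Real.exp_add]; congr 1; ring
    _ ≤ Real.exp ((M + e / 2) * Y) := by
        apply Real.exp_le_exp.2; apply mul_le_mul_of_nonneg_right _ hY.le; linarith

/-- an index with a long and large factor -/
theorem pick' {Y kap δ : ℝ} {a κ : Fin 10 → ℝ} (hδ : 0 < δ) (hδ1 : δ ≤ 1) (hY : 1000 / δ ≤ Y) (hκ : ∀ i, 0 ≤ κ i)
    (hk : kap = ∑ i, κ i) (hk0 : 0 < kap) (hs : 1 - 1 / Y ≤ ∑ i, a i) :
    ∃ i, δ / 1000 ≤ a i ∧ κ i ≤ (1 + δ / 8) * kap * a i := by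
  by_contra hcon
  push Not at hcon
  have hpos : 0 < (1 + δ / 8) * kap := by positivity
  have h1 : ∀ i, (1 + δ / 8) * kap * (a i - δ / 1000) ≤ κ i := by
    intro i
    by_cases h : δ / 1000 ≤ a i
    · have := hcon i h
      nlinarith [mul_pos hpos hδ]
    · push Not at h
      have : (1 + δ / 8) * kap * (a i - δ / 1000) ≤ 0 := by nlinarith
      linarith [hκ i]
  have h2 : ∑ i, (1 + δ / 8) * kap * (a i - δ / 1000) ≤ kap := by
    rw [hk]; exact Finset.sum_le_sum fun i _ => by rw [← hk]; exact h1 i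
  rw [← Finset.mul_sum, Finset.sum_sub_distrib] at h2
  simp only [Finset.sum_const, Finset.card_univ, Fintype.card_fin, nsmul_eq_mul] at h2
  have h3 : 1 / Y ≤ δ / 1000 := by
    have : 0 < 1000 / δ := by positivity
    calc 1 / Y ≤ 1 / (1000 / δ) := one_div_le_one_div_of_le this hY
      _ = δ / 1000 := by rw [one_div_div]
  have h4 : 1 - 11 * (δ / 1000) ≤ ∑ i, a i - ((10 : ℕ) : ℝ) * (δ / 1000) := by
    push_cast; linarith
  have h5 : (1 + δ / 8) * kap * (1 - 11 * (δ / 1000)) ≤ kap :=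
    (mul_le_mul_of_nonneg_left h4 hpos.le).trans h2
  have h6 : (1 + δ / 8) * (1 - 11 * (δ / 1000)) ≤ 1 := by
    have : ((1 + δ / 8) * (1 - 11 * (δ / 1000))) * kap ≤ 1 * kap := by linarith
    exact le_of_mul_le_mul_right this hk0
  nlinarith

/-- the Moebius factors are short -/
theorem moe_short' {f : ℕ → ℂ} {Y : ℝ} {d : ℕ} {k : ℤ} (h : PX f (zY Y) 0 d k ≠ 0) :
    (d : ℝ) < 4 * (Y + 2) + 1 := by
  unfold PX DP at h
  obtain ⟨n, hn, hne⟩ := Finset.exists_ne_zero_of_sum_ne_zero h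
  have h1 : cf (zY Y) 0 d n ≠ 0 := by
    intro h0
    apply hne
    simp [h0]
  unfold cf at h1
  simp only [if_true] at h1
  have h2 : n ≤ zY Y := by
    by_contra hc
    apply h1
    simp [hc]
  have h3 : w (20 * Real.log n - d) ≠ 0 := by
    intro h0
    apply h1
    rw [h0]; simp
  have h4 : |20 * Real.log n - d| < 1 := by
    by_contra hc
    push Not at hc
    apply h3
    unfold w
    rw [max_eq_left]
    linarith
  have h5 := (abs_lt.1 h4).1
  have hn1 : 1 ≤ n := by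
    unfold sp at hn
    exact (mem_Icc.1 hn).1
  have h6 : Real.log n ≤ (Y + 2) / 5 := by
    have h7 : (n : ℝ) ≤ Real.exp ((Y + 2) / 5) := by
      unfold zY at h2
      exact (Nat.le_floor_iff (Real.exp_pos _).le).1 h2
    have h8 : (0:ℝ) < n := by exact_mod_cast hn1
    calc Real.log n ≤ Real.log (Real.exp ((Y + 2) / 5)) := Real.log_le_log h8 h7
      _ = _ := Real.log_exp _
  linarith

/-- number of elements, long smooth factors: splitting into classes -/
theorem class_split {q : ℕ} (hq : 1 ≤ q) {f : ℕ → ℂ} (hf1 : ∀ n, ‖f n‖ ≤ 1) {z : ℕ} {t : Fin 3} {d : ℕ} {L : Finset ℤ}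
    {V B : ℝ} (hV : 0 < V)
    (hPX : ∀ k ∈ L, PX f z t d k = ∑ a ∈ range q, f a * PC q a z t d k)
    (hL : ∀ k ∈ L, V ≤ ‖PX f z t d k‖)
    (hB : ∀ a < q, ∀ L' ⊆ L, (∀ k ∈ L', V / q ≤ ‖PC q a z t d k‖) → (L'.card : ℝ) ≤ B) :
    (L.card : ℝ) ≤ q * B := by
  classical
  have hq0 : (0 : ℝ) < q := by exact_mod_cast hq
  have h1 : L ⊆ (range q).biUnion fun a => L.filter fun k => V / q ≤ ‖PC q a z t d k‖ := by
    intro k hk
    by_contra hcon
    simp only [mem_biUnion, mem_range, mem_filter, not_exists, not_and, not_le] at hcon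
    have h2 : ‖PX f z t d k‖ < V := by
      rw [hPX k hk]
      calc ‖∑ a ∈ range q, f a * PC q a z t d k‖ ≤ ∑ a ∈ range q, ‖f a * PC q a z t d k‖ := norm_sum_le _ _
        _ ≤ ∑ a ∈ range q, ‖PC q a z t d k‖ := by
          apply sum_le_sum; intro a _
          rw [norm_mul]
          exact mul_le_of_le_one_left (norm_nonneg _) (hf1 a)
        _ < ∑ a ∈ range q, V / q := by
          apply sum_lt_sum_of_nonempty (nonempty_range_iff.2 (by omega))
          intro a ha
          exact hcon a (mem_range.1 ha) hk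
        _ = V := by
          rw [sum_const, card_range, nsmul_eq_mul]; field_simp
    linarith [hL k hk]
  have h2 := (card_le_card h1).trans card_biUnion_le
  have h3 : (L.card : ℝ) ≤ ∑ a ∈ range q, ((L.filter fun k => V / q ≤ ‖PC q a z t d k‖).card : ℝ) := by
    exact_mod_cast h2
  refine h3.trans ?_
  calc ∑ a ∈ range q, ((L.filter fun k => V / q ≤ ‖PC q a z t d k‖).card : ℝ) ≤ ∑ a ∈ range q, B := by
        apply sum_le_sum
        intro a ha
        exact hB a (mem_range.1 ha) _ (filter_subset _ _) (fun k hk => (mem_filter.1 hk).2)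
    _ = q * B := by rw [sum_const, card_range, nsmul_eq_mul]

end FARXaux

open FARXaux

theorem farx (h4 : S_LVMX) (h5 : S_LVHX) (hR : S_LVRC) (hS : S_SBA) (hT : S_TRIX) (hO : S_OPT6) : S_FARX := by
  intro δ ε₀ hδ hδ1 hε₀ hε₀' B
  obtain ⟨e, he, heδ, hopt⟩ := hO δ ε₀ hδ hδ1 hε₀ hε₀'
  set ρ : ℝ := δ / 1000 with hρ
  have hρ0 : 0 < ρ := by positivity
  set ε' : ℝ := min (min (e * ρ / 1000) ε₀) (e / 1000) with hε'
  have hε'pos : 0 < ε' := lt_min (lt_min (by positivity) hε₀) (by positivity)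
  have hε'1 : ε' ≤ e * ρ / 1000 := (min_le_left _ _).trans (min_le_left _ _)
  have hε'2 : ε' ≤ ε₀ := (min_le_left _ _).trans (min_le_right _ _)
  have hε'3 : ε' ≤ e / 1000 := min_le_right _ _
  set M : ℕ := ⌊2 / ρ⌋₊ with hM
  obtain ⟨C1, hC1, H1⟩ := hS
  obtain ⟨C2, hC2, H2⟩ := hR (e / 10) (by positivity)
  obtain ⟨C4, hC4, H4⟩ := sup_const (P := fun m C => 1 ≤ m → ∀ (f : ℕ → ℂ), CM f → ∀ (z : ℕ) (t : Fin 3)
      (d K : ℕ) (V : ℝ) (L : Finset ℤ), 1 ≤ K → 0 < V → (∀ k ∈ L, k ∈ FK K ∧ V ≤ ‖PX f z t d k‖) →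
      (L.card : ℝ) ≤ C * Real.exp (e / 400 * d) * (1 + K * Real.exp (-(m * d / 20 : ℝ))) / V ^ (2 * m))
    (by
      intro m x y hxy hx hm f hf z t d K V L hK hV hL
      refine (hx hm f hf z t d K V L hK hV hL).trans ?_
      gcongr)
    (by
      intro m
      by_cases hm : 1 ≤ m
      · obtain ⟨C, hC, H⟩ := h4 m (e / 400) hm (by positivity)
        exact ⟨C, hC, fun _ => H⟩
      · exact ⟨1, le_refl _, fun h => absurd h hm⟩) M
  obtain ⟨C5, hC5, H5⟩ := sup_const (P := fun m C => 1 ≤ m → ∀ (f : ℕ → ℂ), CM f → ∀ (z : ℕ) (t : Fin 3)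
      (d K : ℕ) (V : ℝ) (L : Finset ℤ), 1 ≤ K → 0 < V → (∀ k ∈ L, k ∈ FK K ∧ V ≤ ‖PX f z t d k‖) →
      (L.card : ℝ) ≤ C * Real.exp (e / 400 * d) * (1 / V ^ (2 * m) + K * Real.exp (-(m * d / 10 : ℝ)) / V ^ (6 * m)))
    (by
      intro m x y hxy hx hm f hf z t d K V L hK hV hL
      refine (hx hm f hf z t d K V L hK hV hL).trans ?_
      gcongr)
    (by
      intro m
      by_cases hm : 1 ≤ m
      · obtain ⟨C, hC, H⟩ := h5 m (e / 400) hm (by positivity)
        exact ⟨C, hC, fun _ => H⟩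
      · exact ⟨1, le_refl _, fun h => absurd h hm⟩) M
  have hev : ∀ᶠ Y : ℝ in atTop, 1000 / δ ≤ Y ∧ 1000 ≤ Y ∧ C1 * (1 + 50 * Y) ^ (B + 2) ≤ Real.exp (ε' * Y) ∧
      2 * C2 * (1 + 50 * Y) ^ (45 * B) ≤ Real.exp (e / 10 * Y) ∧
      6 * (1 + 50 * Y) ^ 0 ≤ Real.exp (ε' * Y) ∧ C4 * 4 * (1 + 50 * Y) ^ 0 ≤ Real.exp (e / 10 * Y) ∧
      C5 * 4 * (1 + 50 * Y) ^ 0 ≤ Real.exp (e / 10 * Y) := by
    refine (eventually_ge_atTop _).and ((eventually_ge_atTop _).and
      ((ev_poly' _ (by linarith) _ hε'pos).and ((ev_poly' _ (by linarith) _ (by positivity)).and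
      ((ev_poly' _ (by norm_num) 0 hε'pos).and
      ((ev_poly' _ (by linarith) 0 (by positivity)).and (ev_poly' _ (by linarith) 0 (by positivity)))))))
  obtain ⟨Y₀, hY₀⟩ := eventually_atTop.1 hev
  refine ⟨ε', e / 2, Y₀, hε'pos, hε'2, by positivity, ?_⟩
  intro Y hYY q hq hqB f hf hfp d hd T₁ hT1 hT2 L hLne hL κ hκ hsum hPX
  obtain ⟨hYδ, hY, g1, g2, g4, g5, g6⟩ := hY₀ Y hYY
  simp only [pow_zero, mul_one] at g4 g5 g6
  have hYpos : 0 < Y := by linarith
  have hq0 : (0 : ℝ) < q := by exact_mod_cast hq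
  have hT0 : 0 < T₁ := lt_of_lt_of_le (Real.exp_pos _) hT1
  have hT1' : 1 ≤ T₁ := le_trans (by rw [Real.one_le_exp_iff]; positivity) hT1
  set lam : ℝ := Real.log T₁ / Y with hlam
  have hTlam : T₁ = Real.exp (lam * Y) := by
    rw [hlam, div_mul_cancel₀ _ hYpos.ne', Real.exp_log hT0]
  have hlam1 : 0.55 ≤ lam := by
    rw [hTlam] at hT1
    have := Real.exp_le_exp.1 hT1
    exact le_of_mul_le_mul_right this hYpos
  have hlam2 : lam ≤ 5 / 6 - δ := by
    rw [hTlam] at hT2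
    have := Real.exp_le_exp.1 hT2
    exact le_of_mul_le_mul_right this hYpos
  set kap : ℝ := ∑ i, κ i with hkap
  set al : Fin 10 → ℝ := fun i => (d i : ℝ) / 20 / Y with hal
  have halY : ∀ i, (d i : ℝ) / 20 = al i * Y := by
    intro i; simp only [hal]; rw [div_mul_cancel₀ _ hYpos.ne']
  have hd40 : ∀ i, (d i : ℝ) ≤ 40 * Y := by
    intro i
    have := DY_le (by linarith) hd i
    linarith
  have hal0 : ∀ i, 0 ≤ al i := fun i => by simp only [hal]; positivity
  have hkle : ∀ i, κ i ≤ kap := fun i => Finset.single_le_sum (fun j _ => hκ j) (mem_univ i)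
  have hLc := card_le hT1' hL
  have hqY : (q : ℝ) ≤ (1 + 50 * Y) ^ B := hqB.trans (pow_le_pow_left₀ hYpos.le (by linarith) B)
  by_contra hcon
  push Not at hcon
  have hLpos : (0 : ℝ) < L.card := by exact_mod_cast hLne.card_pos
  set R : ℝ := Real.log L.card / Y with hR'
  have hLR : (L.card : ℝ) = Real.exp (R * Y) := by
    rw [hR', div_mul_cancel₀ _ hYpos.ne', Real.exp_log hLpos]
  have hRle : ∀ x : ℝ, (L.card : ℝ) ≤ Real.exp (x * Y) → R ≤ x := by
    intro x hx
    rw [hLR] at hx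
    exact le_of_mul_le_mul_right (Real.exp_le_exp.1 hx) hYpos
  have hR1 : 2 * kap - e / 2 < R := by
    rw [hLR] at hcon
    exact lt_of_mul_lt_mul_right (Real.exp_lt_exp.1 hcon) hYpos.le
  have hR2 : R ≤ lam + ε' := by
    apply hRle
    refine hLc.trans ?_
    rw [hTlam, add_mul, Real.exp_add, mul_comm (Real.exp (lam * Y))]
    exact mul_le_mul_of_nonneg_right g4 (Real.exp_pos _).le
  obtain ⟨k₁, hk₁⟩ := id hLne
  have he1 : e ≤ 1 / 6400 := by linarith
  by_cases hA : ∃ i : Fin 10, ¬ ((i : ℕ) < 5) ∧ T₁ * q ≤ Real.exp ((d i : ℝ) / 20) / 20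
  · obtain ⟨i, hi, hTi⟩ := hA
    have hk := hL k₁ hk₁
    have hkne : k₁ ≠ 0 := by
      intro h0; rw [h0] at hk; simp at hk; linarith [hk.1]
    have hkpos : 0 < |(k₁ : ℝ)| := lt_of_lt_of_le hT0 hk.1
    have b0 : ∀ a < q, ‖PC q a (zY Y) (ty i) (d i) k₁‖ ≤ C1 * (1 + d i) ^ 2 / |(k₁ : ℝ)| := by
      intro a ha
      refine H1 q a (zY Y) (ty i) (d i) k₁ hq ha (ty_big hi) hkne ?_
      have : |(k₁ : ℝ)| * q ≤ 2 * T₁ * q := mul_le_mul_of_nonneg_right hk.2.le hq0.le
      linarith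
    have b1 : ‖PX f (zY Y) (ty i) (d i) k₁‖ ≤ q * (C1 * (1 + d i) ^ 2 / |(k₁ : ℝ)|) := by
      rw [(hT.2 q f hq hfp (zY Y) (ty i) (d i) k₁)]
      calc ‖∑ a ∈ range q, f a * PC q a (zY Y) (ty i) (d i) k₁‖
          ≤ ∑ a ∈ range q, ‖f a * PC q a (zY Y) (ty i) (d i) k₁‖ := norm_sum_le _ _
        _ ≤ ∑ a ∈ range q, (C1 * (1 + d i) ^ 2 / |(k₁ : ℝ)|) := by
          apply sum_le_sum; intro a ha
          rw [norm_mul]
          exact (mul_le_of_le_one_left (norm_nonneg _) (hf.norm_le a)).trans (b0 a (mem_range.1 ha))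
        _ = _ := by rw [sum_const, card_range, nsmul_eq_mul]
    have b4 : Real.exp (-((κ i + ε') * Y)) ≤ (C1 * (1 + 50 * Y) ^ (B + 2)) * Real.exp (-lam * Y) := by
      refine (hPX k₁ hk₁ i).trans (b1.trans ?_)
      have c1 : 1 / |(k₁ : ℝ)| ≤ Real.exp (-lam * Y) := by
        rw [neg_mul, Real.exp_neg, ← hTlam, ← one_div]
        exact one_div_le_one_div_of_le hT0 hk.1
      have c2 : 1 + (d i : ℝ) ≤ 1 + 50 * Y := by linarith [hd40 i]
      calc q * (C1 * (1 + (d i : ℝ)) ^ 2 / |(k₁ : ℝ)|)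
          = q * (C1 * (1 + (d i : ℝ)) ^ 2) * (1 / |(k₁ : ℝ)|) := by ring
        _ ≤ (1 + 50 * Y) ^ B * (C1 * (1 + 50 * Y) ^ 2) * Real.exp (-lam * Y) := by gcongr
        _ = _ := by ring
    have b5 := exp_cmp hYpos g1 b4
    have b8 := hkle i
    linarith
  · push Not at hA
    have hM' : ∀ i : Fin 10, (i : ℕ) < 5 → al i ≤ 0.21 := by
      intro i hi
      have c1 : PX f (zY Y) 0 (d i) k₁ ≠ 0 := by
        intro h0
        have c2 := hPX k₁ hk₁ i
        rw [ty_small hi, h0, norm_zero] at c2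
        linarith [Real.exp_pos (-((κ i + ε') * Y))]
      have c3 := moe_short' c1
      have c4 := halY i
      have c5 : al i * Y ≤ 0.21 * Y := by rw [← c4]; linarith
      exact le_of_mul_le_mul_right c5 hYpos
    have hsumal : 1 - 1 / Y ≤ ∑ i, al i := by
      have c1 := DY_sum hd
      have c2 : ∑ i, al i = (∑ i, (d i : ℝ)) / 20 / Y := by
        simp only [hal]; rw [Finset.sum_div, Finset.sum_div]
      rw [c2, le_div_iff₀ hYpos]
      have c3 := (abs_le.1 c1).1
      have : (1 - 1 / Y) * Y = Y - 1 := by field_simp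
      rw [this]; linarith
    have hkap0 : 0 < kap := lt_of_lt_of_le hε₀ hsum
    obtain ⟨i, hi1, hi2⟩ := pick' hδ (by linarith) hYδ hκ hkap hkap0 hsumal
    have hal_pos : 0 < al i := lt_of_lt_of_le hρ0 hi1
    have hfour : 0.42 ≤ al i → R ≤ lam - 2 * al i + 4 * κ i + e := by
      intro h42
      have hi5 : ¬ ((i : ℕ) < 5) := by
        intro h; have := hM' i h; linarith
      have hAi := hA i (by omega)
      have hexp : Real.exp ((d i : ℝ) / 20) ≤ 20 * q * T₁ := by linarith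
      set V : ℝ := Real.exp (-((κ i + ε') * Y)) with hV
      have hV0 : 0 < V := Real.exp_pos _
      have hcl := class_split hq hf.norm_le (z := zY Y) (t := ty i) (d := d i) (L := L) (V := V)
        (B := C2 * q ^ 40 * T₁ ^ (e / 10) * (T₁ * Real.exp (-((d i : ℝ) / 10)) + T₁ ^ 2 * Real.exp (-((d i : ℝ) / 5))) /
          (V / q) ^ 4) hV0 (fun k _ => hT.2 q f hq hfp (zY Y) (ty i) (d i) k) (fun k hk => hPX k hk i) (by
            intro a ha L' hL' hL''
            exact H2 q a (zY Y) (ty i) (d i) T₁ (V / q) L' (ty_big hi5) hq ha hT1' hexp (by positivity)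
              (fun k hk => ⟨(hL k (hL' hk)).1, (hL k (hL' hk)).2.le, hL'' k hk⟩))
      apply hRle
      refine hcl.trans ?_
      have d1 : T₁ ^ (e / 10) ≤ Real.exp (e / 10 * Y) := by
        rw [hTlam, ← Real.exp_mul]
        apply Real.exp_le_exp.2
        have : lam * Y * (e / 10) ≤ 1 * Y * (e / 10) := by
          have : lam ≤ 1 := by linarith
          gcongr
        linarith
      have d2 : T₁ * Real.exp (-((d i : ℝ) / 10)) = Real.exp ((lam - 2 * al i) * Y) := by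
        rw [hTlam, ← Real.exp_add]; congr 1
        have : (d i : ℝ) / 10 = 2 * (al i * Y) := by rw [← halY i]; ring
        rw [this]; ring
      have d3 : T₁ ^ 2 * Real.exp (-((d i : ℝ) / 5)) ≤ Real.exp ((lam - 2 * al i) * Y) := by
        rw [hTlam, ← Real.exp_nat_mul, ← Real.exp_add]
        apply Real.exp_le_exp.2
        have : (d i : ℝ) / 5 = 4 * (al i * Y) := by rw [← halY i]; ring
        rw [this]
        have : lam * Y ≤ 2 * al i * Y := by
          apply mul_le_mul_of_nonneg_right _ hYpos.le; linarith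
        push_cast
        linarith
      have d4 : (1 : ℝ) / V ^ 4 = Real.exp (4 * (κ i + ε') * Y) := by
        rw [hV, ← Real.exp_nat_mul, one_div, ← Real.exp_neg]; congr 1; push_cast; ring
      have d5 : (q : ℝ) ^ 45 ≤ (1 + 50 * Y) ^ (45 * B) := by
        rw [mul_comm 45 B, pow_mul]
        exact pow_le_pow_left₀ hq0.le hqY 45
      have d6 : Real.exp (4 * (κ i + ε') * Y) ≤ Real.exp (e / 10 * Y) * Real.exp (4 * κ i * Y) := by
        rw [← Real.exp_add]
        apply Real.exp_le_exp.2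
        have : 4 * ε' * Y ≤ e / 10 * Y := by
          apply mul_le_mul_of_nonneg_right _ hYpos.le; linarith
        linarith
      calc (q : ℝ) * (C2 * q ^ 40 * T₁ ^ (e / 10) *
            (T₁ * Real.exp (-((d i : ℝ) / 10)) + T₁ ^ 2 * Real.exp (-((d i : ℝ) / 5))) / (V / q) ^ 4)
          = C2 * q ^ 45 * T₁ ^ (e / 10) *
            (T₁ * Real.exp (-((d i : ℝ) / 10)) + T₁ ^ 2 * Real.exp (-((d i : ℝ) / 5))) * (1 / V ^ 4) := by
            field_simp
        _ ≤ C2 * (1 + 50 * Y) ^ (45 * B) * Real.exp (e / 10 * Y) *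
            (Real.exp ((lam - 2 * al i) * Y) + Real.exp ((lam - 2 * al i) * Y)) *
              (Real.exp (e / 10 * Y) * Real.exp (4 * κ i * Y)) := by
            rw [d4]
            gcongr
            exact d2.le
        _ = (2 * C2 * (1 + 50 * Y) ^ (45 * B)) * (Real.exp (e / 10 * Y) * Real.exp ((lam - 2 * al i) * Y) *
              Real.exp (e / 10 * Y) * Real.exp (4 * κ i * Y)) := by ring
        _ ≤ Real.exp (e / 10 * Y) * (Real.exp (e / 10 * Y) * Real.exp ((lam - 2 * al i) * Y) *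
              Real.exp (e / 10 * Y) * Real.exp (4 * κ i * Y)) := by
            gcongr
        _ = Real.exp ((lam - 2 * al i + 4 * κ i + 3 * (e / 10)) * Y) := by
            rw [← Real.exp_add, ← Real.exp_add, ← Real.exp_add, ← Real.exp_add]; congr 1; ring
        _ ≤ Real.exp ((lam - 2 * al i + 4 * κ i + e) * Y) := by
            apply Real.exp_le_exp.2; apply mul_le_mul_of_nonneg_right _ hYpos.le; linarith
    set K : ℕ := ⌈2 * T₁⌉₊ with hKdef
    have hK1 : 1 ≤ K := by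
      rw [hKdef, Nat.one_le_ceil_iff]; linarith
    have hK2 : (K : ℝ) ≤ 3 * Real.exp (lam * Y) := by
      have := Nat.ceil_lt_add_one (by linarith : 0 ≤ 2 * T₁)
      rw [← hTlam]; linarith
    have hLK : ∀ k ∈ L, k ∈ FK K ∧ Real.exp (-((κ i + ε') * Y)) ≤ ‖PX f (zY Y) (ty i) (d i) k‖ := by
      intro k hk
      refine ⟨?_, hPX k hk i⟩
      have h2 := (hL k hk).2
      have h3 : |(k : ℝ)| < (K : ℝ) := lt_of_lt_of_le h2 (Nat.le_ceil _)
      unfold FK
      rw [mem_Ioo]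
      have h4 := abs_lt.1 h3
      constructor
      · exact_mod_cast h4.1
      · exact_mod_cast h4.2
    have hfin := hopt lam kap (al i) (κ i) R (by linarith) hlam2 hsum hal_pos (hκ i) hi2 (by linarith) hfour (by
      intro m hm1 hm2
      have hmρ : (m : ℝ) ≤ 2 / ρ := by
        refine hm2.trans ?_
        exact div_le_div_of_nonneg_left (by norm_num) hρ0 hi1
      have hmM : m ≤ M := Nat.le_floor hmρ
      have hmε : (m : ℝ) * ε' ≤ e / 100 := by
        calc (m : ℝ) * ε' ≤ 2 / ρ * (e * ρ / 1000) := by gcongr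
          _ = e / 500 := by field_simp; ring
          _ ≤ e / 100 := by linarith
      have q1 := bndM' hYpos he hmε (hd40 i) (halY i) (Nat.cast_nonneg K) hK2
        (by linarith) g5 (H4 m hmM hm1 f hf (zY Y) (ty i) (d i) K _ L hK1 (Real.exp_pos _) hLK)
      have q2 := bndH' hYpos he hmε (hd40 i) (halY i) (Nat.cast_nonneg K) hK2
        (by linarith) g6 (H5 m hmM hm1 f hf (zY Y) (ty i) (d i) K _ L hK1 (Real.exp_pos _) hLK)
      have q3 := hRle _ q1
      have q4 := hRle _ q2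
      exact ⟨by linarith, by linarith⟩)
    linarith

end Pool.Agent.H43.X6
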