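import Pool.Agent.H43.X6.Stm
import Pool.Agent.H43.G.R_seed8.H376R2.MR.Fej

/-!
# Project X6 (stub FEJ): the Fejer-smoothed indicator function
-/

set_option autoImplicit false

namespace Pool.Agent.H43.X6

open Finset Pool.Agent.H376R2.MR Pool.Agent.Q240.KS Pool.Agent.Q240.KT MeasureTheory

lemma fej_cont (K : ℕ) : Continuous (Fj K) := by
  unfold Fj
  fun_prop

lemma fej_even (K : ℕ) (u : ℝ) : Fj K (-u) = Fj K u := by
  unfold Fj
  refine sum_congr rfl fun k _ => ?_
  rw [mul_neg, Real.cos_neg]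

lemma fej_cos_int (k : ℤ) : ∫ u in (-Real.pi)..Real.pi, Real.cos (k * u) =
    if k = 0 then 2 * Real.pi else 0 := by
  split_ifs with h
  · subst h
    simp
    ring
  · have hk : (k : ℝ) ≠ 0 := by exact_mod_cast h
    rw [intervalIntegral.integral_comp_mul_left (fun x => Real.cos x) hk, integral_cos]
    have h1 : (k : ℝ) * -Real.pi = -(k * Real.pi) := by ring
    rw [h1, Real.sin_neg, Real.sin_int_mul_pi]
    simp

lemma fej_int {M : ℕ} (hM : 1 ≤ M) : ∫ u in (-Real.pi)..Real.pi, Fj M u = 2 * Real.pi := by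
  unfold Fj
  rw [intervalIntegral.integral_finsetSum]
  · have h1 : ∀ k ∈ FK M, ∫ u in (-Real.pi)..Real.pi, (1 - |(k : ℝ)| / M) * Real.cos (k * u) =
        if k = 0 then 2 * Real.pi else 0 := by
      intro k _
      rw [intervalIntegral.integral_const_mul, fej_cos_int]
      split_ifs with h
      · subst h
        simp
      · simp
    rw [sum_congr rfl h1, sum_ite_eq' , if_pos]
    simp only [FK, mem_Ioo]
    omega
  · intro k _
    apply Continuous.intervalIntegrable
    fun_prop

lemma fej_tail {M : ℕ} (hM : 1 ≤ M) {η a b : ℝ} (hη : 0 < η) (ha : η ≤ a) (hab : a ≤ b)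
    (hb : b ≤ Real.pi) : ∫ u in a..b, Fj M u ≤ Real.pi ^ 2 / (M * η) := by
  have hM0 : (0:ℝ) < M := by exact_mod_cast hM
  have ha0 : 0 < a := lt_of_lt_of_le hη ha
  have h0 : (0:ℝ) ∉ Set.uIcc a b := by
    rw [Set.uIcc_of_le hab]
    intro h
    linarith [h.1]
  have h1 : ∫ u in a..b, Fj M u ≤ ∫ u in a..b, Real.pi ^ 2 / M * u ^ (-2 : ℤ) := by
    apply intervalIntegral.integral_mono_on hab
    · exact (fej_cont M).intervalIntegrable _ _
    · apply ContinuousOn.intervalIntegrable
      apply ContinuousOn.mul continuousOn_const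
      intro u hu
      apply ContinuousAt.continuousWithinAt
      apply continuousAt_zpow₀
      left
      rintro rfl
      exact h0 hu
    · intro u hu
      have hu0 : 0 < u := lt_of_lt_of_le ha0 hu.1
      have h2 := Fj_le_sq hM hu0.ne' (by rw [abs_of_pos hu0]; exact hu.2.trans hb)
      refine h2.trans (le_of_eq ?_)
      rw [zpow_neg]
      have : (u ^ (2:ℤ) : ℝ) = u ^ 2 := by norm_cast
      rw [this]
      field_simp
  refine h1.trans ?_
  rw [intervalIntegral.integral_const_mul, integral_zpow (Or.inr ⟨by norm_num, h0⟩)]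
  have h3 : ((b ^ (-2 + 1 : ℤ) - a ^ (-2 + 1 : ℤ)) / (((-2 : ℤ) : ℝ) + 1)) = 1 / a - 1 / b := by
    norm_num
    ring
  rw [h3]
  have h4 : 1 / a - 1 / b ≤ 1 / η := by
    have h5 : 1 / a ≤ 1 / η := one_div_le_one_div_of_le hη ha
    have h6 : 0 < 1 / b := by
      have : 0 < b := lt_of_lt_of_le ha0 hab
      positivity
    linarith
  calc Real.pi ^ 2 / M * (1 / a - 1 / b) ≤ Real.pi ^ 2 / M * (1 / η) :=
        mul_le_mul_of_nonneg_left h4 (by positivity)
    _ = Real.pi ^ 2 / (M * η) := by field_simp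

lemma fej_tail' {M : ℕ} (hM : 1 ≤ M) {η a b : ℝ} (hη : 0 < η) (ha : η ≤ -b) (hab : a ≤ b)
    (hb : -Real.pi ≤ a) : ∫ u in a..b, Fj M u ≤ Real.pi ^ 2 / (M * η) := by
  have h1 : ∫ u in a..b, Fj M u = ∫ u in (-b)..(-a), Fj M u := by
    rw [← intervalIntegral.integral_comp_neg]
    refine intervalIntegral.integral_congr fun u _ => ?_
    exact (fej_even M u).symm
  rw [h1]
  exact fej_tail hM hη ha (by linarith) (by linarith)

lemma fej_nonneg_int {M : ℕ} {a b : ℝ} (hab : a ≤ b) : 0 ≤ ∫ u in a..b, Fj M u :=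
  intervalIntegral.integral_nonneg hab fun u _ => Fj_nonneg M u

/-- the sum is an integral of Fejer's kernel -/
lemma fej_sum (M : ℕ) (α β x : ℝ) :
    ∑ m ∈ FK M, (((1 - |(m : ℝ)| / M : ℝ) : ℂ) * ((1 / (2 * Real.pi) : ℝ) : ℂ) *
      ∫ y in α..β, Complex.exp (-((m * y : ℝ) : ℂ) * Complex.I)) * ch (-m) x =
    ((1 / (2 * Real.pi) * ∫ u in (α - x)..(β - x), Fj M u : ℝ) : ℂ) := by
  have h1 : ∀ m ∈ FK M, (((1 - |(m : ℝ)| / M : ℝ) : ℂ) * ((1 / (2 * Real.pi) : ℝ) : ℂ) *
      ∫ y in α..β, Complex.exp (-((m * y : ℝ) : ℂ) * Complex.I)) * ch (-m) x =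
      ((1 / (2 * Real.pi) : ℝ) : ℂ) * ∫ y in α..β, ((1 - |(m : ℝ)| / M : ℝ) : ℂ) *
        Complex.exp (-((m * (y - x) : ℝ) : ℂ) * Complex.I) := by
    intro m _
    have h2 : ∀ y : ℝ, ((1 - |(m : ℝ)| / M : ℝ) : ℂ) *
        Complex.exp (-((m * (y - x) : ℝ) : ℂ) * Complex.I) =
        (((1 - |(m : ℝ)| / M : ℝ) : ℂ) * ch (-m) x) *
          Complex.exp (-((m * y : ℝ) : ℂ) * Complex.I) := by
      intro y
      unfold ch
      rw [mul_assoc, ← Complex.exp_add]
      congr 2
      push_cast
      ring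
    simp only [h2]
    rw [intervalIntegral.integral_const_mul]
    ring
  rw [sum_congr rfl h1, ← mul_sum, ← intervalIntegral.integral_finsetSum]
  · have h3 : ∀ y : ℝ, ∑ m ∈ FK M, ((1 - |(m : ℝ)| / M : ℝ) : ℂ) *
        Complex.exp (-((m * (y - x) : ℝ) : ℂ) * Complex.I) = ((Fj M (y - x) : ℝ) : ℂ) :=
      fun y => fej_exp M (y - x)
    simp only [h3]
    rw [intervalIntegral.integral_ofReal, intervalIntegral.integral_comp_sub_right (fun u => Fj M u)]
    push_cast
    ring
  · intro m _
    apply Continuous.intervalIntegrable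
    fun_prop

lemma fej_coef (m : ℤ) (hm : m ≠ 0) (α β : ℝ) :
    ‖∫ y in α..β, Complex.exp (-((m * y : ℝ) : ℂ) * Complex.I)‖ ≤ 2 / |(m : ℝ)| := by
  have hm0 : (m : ℝ) ≠ 0 := by exact_mod_cast hm
  have hmc : -((m : ℂ)) * Complex.I ≠ 0 := by
    apply mul_ne_zero
    · exact neg_ne_zero.2 (by exact_mod_cast hm)
    · exact Complex.I_ne_zero
  have h1 : ∀ y : ℝ, Complex.exp (-((m * y : ℝ) : ℂ) * Complex.I) =
      Complex.exp ((-((m : ℂ)) * Complex.I) * y) := by
    intro y
    congr 1
    push_cast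
    ring
  simp only [h1]
  rw [integral_exp_mul_complex hmc, norm_div]
  have h2 : ‖-((m : ℂ)) * Complex.I‖ = |(m : ℝ)| := by
    rw [norm_mul, norm_neg, Complex.norm_I, mul_one]
    have : ((m : ℂ)) = (((m : ℝ)) : ℂ) := by push_cast; rfl
    rw [this, Complex.norm_real, Real.norm_eq_abs]
  rw [h2]
  apply div_le_div_of_nonneg_right _ (abs_nonneg _)
  refine (norm_sub_le _ _).trans ?_
  have h3 : ∀ y : ℝ, ‖Complex.exp ((-((m : ℂ)) * Complex.I) * y)‖ = 1 := by
    intro y
    rw [← h1]
    have : -((m * y : ℝ) : ℂ) * Complex.I = ((-(m * y) : ℝ) : ℂ) * Complex.I := by push_cast; ring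
    rw [this, Complex.norm_exp_ofReal_mul_I]
  rw [h3, h3]
  norm_num

lemma fej_harm {M : ℕ} (hM : 1 ≤ M) (f : ℤ → ℝ) (h0 : f 0 ≤ 1)
    (hf : ∀ m : ℤ, m ≠ 0 → f m ≤ 1 / |(m : ℝ)|) :
    ∑ m ∈ FK M, f m ≤ 1 + 2 * (harmonic (M - 1) : ℝ) := by
  induction M, hM using Nat.le_induction with
  | base =>
    rw [fej_FK_one]
    simp
    exact h0
  | succ K hK ih =>
    rw [fej_FK_succ _ hK]
    have hK0 : (K : ℤ) ≠ 0 := by omega
    have h1 := hf K hK0
    have h2 := hf (-K) (by omega)
    have e1 : |((K : ℤ) : ℝ)| = K := by simp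
    have e2 : |((-(K : ℤ) : ℤ) : ℝ)| = K := by simp
    rw [e1] at h1
    rw [e2] at h2
    obtain ⟨j, rfl⟩ : ∃ j, K = j + 1 := ⟨K - 1, by omega⟩
    have e3 : j + 1 + 1 - 1 = j + 1 := by omega
    have e4 : j + 1 - 1 = j := by omega
    rw [e3, harmonic_succ]
    rw [e4] at ih
    push_cast at h1 h2 ih ⊢
    rw [one_div] at h1 h2
    linarith

theorem fej : S_FEJ := by
  refine ⟨4, by norm_num, ?_⟩
  intro M α β hM hαβ hβ
  have hM0 : (0:ℝ) < M := by exact_mod_cast hM
  have hpi := Real.pi_pos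
  have hpi3 := Real.pi_gt_three
  have hpi4 := Real.pi_lt_four
  refine ⟨fun m => ((1 - |(m : ℝ)| / M : ℝ) : ℂ) * ((1 / (2 * Real.pi) : ℝ) : ℂ) *
      ∫ y in α..β, Complex.exp (-((m * y : ℝ) : ℂ) * Complex.I), ?_, ?_⟩
  · -- the coefficients
    have hw : ∀ m ∈ FK M, |1 - |(m : ℝ)| / M| ≤ 1 := by
      intro m hm
      simp only [FK, mem_Ioo] at hm
      have h1 : |(m : ℝ)| ≤ M := by
        rw [abs_le]
        constructor
        · have : (-(M : ℤ) : ℝ) ≤ m := by exact_mod_cast hm.1.le
          push_cast at this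
          exact this
        · exact_mod_cast hm.2.le
      have h2 : |(m : ℝ)| / M ≤ 1 := by rw [div_le_one hM0]; exact h1
      have h3 : 0 ≤ |(m : ℝ)| / M := by positivity
      rw [abs_le]
      constructor <;> linarith
    have hle : ∀ m ∈ FK M, ‖((1 - |(m : ℝ)| / M : ℝ) : ℂ) * ((1 / (2 * Real.pi) : ℝ) : ℂ) *
        ∫ y in α..β, Complex.exp (-((m * y : ℝ) : ℂ) * Complex.I)‖ ≤
        1 / (2 * Real.pi) * ‖∫ y in α..β, Complex.exp (-((m * y : ℝ) : ℂ) * Complex.I)‖ := by
      intro m hm
      rw [norm_mul, norm_mul, Complex.norm_real, Complex.norm_real, Real.norm_eq_abs,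
        Real.norm_eq_abs, abs_of_pos (show (0:ℝ) < 1 / (2 * Real.pi) by positivity)]
      have := hw m hm
      have h4 : |1 - |(m : ℝ)| / M| * (1 / (2 * Real.pi)) ≤ 1 * (1 / (2 * Real.pi)) :=
        mul_le_mul_of_nonneg_right this (by positivity)
      rw [one_mul] at h4
      exact mul_le_mul_of_nonneg_right h4 (norm_nonneg _)
    refine (sum_le_sum hle).trans ?_
    have hinv : 1 / (2 * Real.pi) ≤ 1 / 2 := by
      apply one_div_le_one_div_of_le (by norm_num)
      linarith
    refine (fej_harm hM (fun m : ℤ => 1 / (2 * Real.pi) *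
      ‖∫ y in α..β, Complex.exp (-((m * y : ℝ) : ℂ) * Complex.I)‖) ?_ ?_).trans ?_
    · have h1 : ‖∫ y in α..β, Complex.exp (-((((0 : ℤ) : ℝ) * y : ℝ) : ℂ) * Complex.I)‖ ≤ 1 := by
        simp only [Int.cast_zero, zero_mul, Complex.ofReal_zero, neg_zero, Complex.exp_zero]
        rw [intervalIntegral.integral_const]
        simp only [norm_smul, norm_one, mul_one, Real.norm_eq_abs]
        rw [abs_of_nonneg (by linarith)]
        linarith
      exact (mul_le_mul hinv h1 (norm_nonneg _) (by norm_num)).trans (by norm_num)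
    · intro m hm
      have h1 := fej_coef m hm α β
      have h2 := mul_le_mul hinv h1 (norm_nonneg _) (by norm_num)
      have e : (1 / 2 : ℝ) * (2 / |(m : ℝ)|) = 1 / |(m : ℝ)| := by ring
      rw [e] at h2
      exact h2
    · have h1 : (harmonic (M - 1) : ℝ) ≤ 1 + Real.log M := by
        have h2 := harmonic_le_one_add_log (M - 1)
        rcases Nat.eq_or_lt_of_le hM with h | h
        · rw [← h]
          simp
        · refine h2.trans ?_
          have h3 : Real.log ((M - 1 : ℕ) : ℝ) ≤ Real.log M := by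
            apply Real.log_le_log
            · exact_mod_cast (by omega : 0 < M - 1)
            · exact_mod_cast (by omega : M - 1 ≤ M)
          linarith
      have h4 : 0 ≤ Real.log M := Real.log_natCast_nonneg M
      linarith
  · intro x hxα hxβ
    rw [fej_sum]
    rw [abs_le] at hxα hxβ
    set I0 : ℝ := ∫ u in (α - x)..(β - x), Fj M u with hI0
    have hfi : ∀ a b : ℝ, IntervalIntegrable (Fj M) volume a b := fun a b =>
      (fej_cont M).intervalIntegrable a b
    have hfull : (∫ u in (-Real.pi)..(α - x), Fj M u) + I0 + ∫ u in (β - x)..Real.pi, Fj M u =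
        2 * Real.pi := by
      rw [hI0, intervalIntegral.integral_add_adjacent_intervals (hfi _ _) (hfi _ _),
        intervalIntegral.integral_add_adjacent_intervals (hfi _ _) (hfi _ _), fej_int hM]
    have hI1 : 0 ≤ I0 := fej_nonneg_int (by linarith)
    have hA : 0 ≤ ∫ u in (-Real.pi)..(α - x), Fj M u := fej_nonneg_int (by linarith)
    have hB : 0 ≤ ∫ u in (β - x)..Real.pi, Fj M u := fej_nonneg_int (by linarith)
    have hI2 : I0 ≤ 2 * Real.pi := by linarith
    have hq0 : 0 ≤ 1 / (2 * Real.pi) * I0 := by positivity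
    have hq1 : 1 / (2 * Real.pi) * I0 ≤ 1 := by
      rw [one_div, inv_mul_le_iff₀ (by positivity)]
      linarith
    have hnorm : ‖(if α < x ∧ x ≤ β then (1 : ℂ) else 0) -
        ((1 / (2 * Real.pi) * I0 : ℝ) : ℂ)‖ =
        |(if α < x ∧ x ≤ β then (1 : ℝ) else 0) - 1 / (2 * Real.pi) * I0| := by
      rw [← Real.norm_eq_abs, ← Complex.norm_real]
      congr 1
      split_ifs <;> push_cast <;> rfl
    rw [hnorm]
    constructor
    · split_ifs
      · rw [abs_le]
        constructor <;> linarith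
      · rw [abs_le]
        constructor <;> linarith
    · intro η hη hη1 hη2
      have hCη : 2 * (Real.pi ^ 2 / (M * η)) = (2 * Real.pi) * (Real.pi / (M * η)) := by ring
      have hC4 : Real.pi / (M * η) ≤ 4 / (M * η) :=
        div_le_div_of_nonneg_right hpi4.le (by positivity)
      have hCp : 0 < Real.pi ^ 2 / (M * η) := by positivity
      split_ifs with hx
      · -- inside
        have h1 : α < x := hx.1
        have h2 : x ≤ β := hx.2
        rw [abs_of_pos (by linarith)] at hη1
        rw [abs_of_nonpos (by linarith)] at hη2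
        have t1 := fej_tail' hM hη (a := -Real.pi) (b := α - x) (by linarith) (by linarith) le_rfl
        have t2 := fej_tail hM hη (a := β - x) (b := Real.pi) (by linarith) (by linarith) le_rfl
        have h3 : 2 * Real.pi - I0 ≤ (2 * Real.pi) * (Real.pi / (M * η)) := by linarith
        have h4 : 1 - 1 / (2 * Real.pi) * I0 = (2 * Real.pi - I0) / (2 * Real.pi) := by
          field_simp
        rw [abs_of_nonneg (by linarith), h4]
        rw [div_le_iff₀ (by positivity)]
        have h5 : (2 * Real.pi) * (Real.pi / (M * η)) ≤ (2 * Real.pi) * (4 / (M * η)) :=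
          mul_le_mul_of_nonneg_left hC4 (by positivity)
        linarith
      · -- outside
        have h3 : I0 ≤ (2 * Real.pi) * (Real.pi / (M * η)) := by
          by_cases h1 : α < x
          · have h2 : β < x := by
              by_contra h
              exact hx ⟨h1, not_lt.1 h⟩
            rw [abs_of_pos (by linarith)] at hη2
            have t1 := fej_tail' hM hη (a := α - x) (b := β - x) (by linarith) (by linarith)
              (by linarith)
            linarith
          · have h2 : x ≤ α := not_lt.1 h1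
            rw [abs_of_nonpos (by linarith)] at hη1
            have t1 := fej_tail hM hη (a := α - x) (b := β - x) (by linarith) (by linarith)
              (by linarith)
            linarith
        rw [zero_sub, abs_neg, abs_of_nonneg hq0, one_div, inv_mul_le_iff₀ (by positivity)]
        have h5 : (2 * Real.pi) * (Real.pi / (M * η)) ≤ (2 * Real.pi) * (4 / (M * η)) :=
          mul_le_mul_of_nonneg_left hC4 (by positivity)
        linarith

end Pool.Agent.H43.X6
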