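import Pool.Agent.H43.X6.Stm

/-!
# HF (helper94): Abel summation, Dirichlet characters, two centres
-/

set_option autoImplicit false

namespace Pool.Agent.H43.X6

open Finset Pool.Agent.H376R2.MR Pool.Agent.Q240.KS

theorem hf_abel (g : ℕ → ℂ) (N₁ N₂ : ℕ) (h : N₁ ≤ N₂) :
    ∑ n ∈ Ioc N₁ N₂, (n : ℂ) * g n = (N₂ : ℂ) * ∑ n ∈ Ioc N₁ N₂, g n -
      ∑ N ∈ Ico N₁ N₂, ∑ n ∈ Ioc N₁ N, g n := by
  induction N₂, h using Nat.le_induction with
  | base => simp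
  | succ m hm ih =>
    rw [Finset.sum_Ioc_succ_top hm, ih, Finset.sum_Ioc_succ_top hm, Finset.sum_Ico_succ_top hm]
    push_cast
    ring

theorem hf_ms (F : Finset ℤ) (S : ℕ → ℤ → ℂ) (N₁ N₂ : ℕ) (h : N₁ ≤ N₂) (E : ℝ)
    (hS : ∀ N, N₁ ≤ N → N ≤ N₂ → ∑ k ∈ F, ‖S N k‖ ^ 2 ≤ E) :
    ∑ k ∈ F, ‖(N₂ : ℂ) * S N₂ k - ∑ N ∈ Ico N₁ N₂, S N k‖ ^ 2 ≤ 4 * (N₂ : ℝ) ^ 2 * E := by
  have hE : 0 ≤ E := (Finset.sum_nonneg fun _ _ => by positivity).trans (hS N₂ h le_rfl)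
  have hN : (0 : ℝ) ≤ N₂ := Nat.cast_nonneg _
  have h1 : ∀ k ∈ F, ‖(N₂ : ℂ) * S N₂ k - ∑ N ∈ Ico N₁ N₂, S N k‖ ^ 2 ≤
      2 * (N₂ : ℝ) ^ 2 * ‖S N₂ k‖ ^ 2 + 2 * (N₂ : ℝ) * ∑ N ∈ Ico N₁ N₂, ‖S N k‖ ^ 2 := by
    intro k _
    have e1 : ‖(N₂ : ℂ) * S N₂ k - ∑ N ∈ Ico N₁ N₂, S N k‖ ≤
        N₂ * ‖S N₂ k‖ + ∑ N ∈ Ico N₁ N₂, ‖S N k‖ := by
      refine (norm_sub_le _ _).trans ?_
      rw [norm_mul, Complex.norm_natCast]
      exact add_le_add le_rfl (norm_sum_le _ _)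
    have e2 : (∑ N ∈ Ico N₁ N₂, ‖S N k‖) ^ 2 ≤ N₂ * ∑ N ∈ Ico N₁ N₂, ‖S N k‖ ^ 2 := by
      refine (sq_sum_le_card_mul_sum_sq).trans ?_
      apply mul_le_mul_of_nonneg_right _ (Finset.sum_nonneg fun _ _ => by positivity)
      rw [Nat.card_Ico]
      exact_mod_cast Nat.sub_le _ _
    calc _ ≤ (N₂ * ‖S N₂ k‖ + ∑ N ∈ Ico N₁ N₂, ‖S N k‖) ^ 2 :=
          pow_le_pow_left₀ (norm_nonneg _) e1 2
      _ ≤ 2 * (N₂ * ‖S N₂ k‖) ^ 2 + 2 * (∑ N ∈ Ico N₁ N₂, ‖S N k‖) ^ 2 := by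
          nlinarith [sq_nonneg (N₂ * ‖S N₂ k‖ - ∑ N ∈ Ico N₁ N₂, ‖S N k‖)]
      _ ≤ _ := by
          rw [mul_pow]
          linarith
  refine (Finset.sum_le_sum h1).trans ?_
  rw [Finset.sum_add_distrib, ← Finset.mul_sum, ← Finset.mul_sum, Finset.sum_comm]
  have h2 : ∑ N ∈ Ico N₁ N₂, ∑ k ∈ F, ‖S N k‖ ^ 2 ≤ N₂ * E := by
    calc _ ≤ ∑ N ∈ Ico N₁ N₂, E := Finset.sum_le_sum (fun N hN => by
          rw [mem_Ico] at hN
          exact hS N hN.1 hN.2.le)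
      _ = ((N₂ - N₁ : ℕ) : ℝ) * E := by
          rw [Finset.sum_const, Nat.card_Ico, nsmul_eq_mul]
      _ ≤ _ := mul_le_mul_of_nonneg_right (by exact_mod_cast Nat.sub_le _ _) hE
  have h3 := hS N₂ h le_rfl
  have h4 : 2 * (N₂ : ℝ) ^ 2 * ∑ k ∈ F, ‖S N₂ k‖ ^ 2 ≤ 2 * (N₂ : ℝ) ^ 2 * E :=
    mul_le_mul_of_nonneg_left h3 (by positivity)
  have h5 : 2 * (N₂ : ℝ) * ∑ N ∈ Ico N₁ N₂, ∑ k ∈ F, ‖S N k‖ ^ 2 ≤ 2 * (N₂ : ℝ) * (N₂ * E) :=
    mul_le_mul_of_nonneg_left h2 (by positivity)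
  calc _ ≤ 2 * (N₂ : ℝ) ^ 2 * E + 2 * (N₂ : ℝ) * (N₂ * E) := add_le_add h4 h5
    _ = _ := by ring

theorem hf_char (q r : ℕ) (hq : 1 ≤ q) (hr : r.Coprime q) (s : Finset ℕ) (a : ℕ → ℂ) (F : Finset ℤ)
    (M : ℝ) (hM : ∀ χ : DirichletCharacter ℂ q,
      ∑ k ∈ F, ‖DP s (fun n => a n * χ (n : ZMod q)) k‖ ^ 2 ≤ M) :
    ∑ k ∈ F, ‖DP (s.filter (fun n => n % q = r % q)) a k‖ ^ 2 ≤ M := by
  classical
  haveI : NeZero q := ⟨by omega⟩
  have hφ : 0 < q.totient := Nat.totient_pos.mpr (by omega)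
  have hφ' : (0 : ℝ) < q.totient := by exact_mod_cast hφ
  have hφc : (q.totient : ℂ) ≠ 0 := by exact_mod_cast hφ.ne'
  have hcard : (Finset.univ : Finset (DirichletCharacter ℂ q)).card = q.totient := by
    rw [Finset.card_univ, ← Nat.card_eq_fintype_card]
    exact DirichletCharacter.card_eq_totient_of_hasEnoughRootsOfUnity ℂ q
  have hunit : IsUnit (r : ZMod q) := (ZMod.isUnit_iff_coprime r q).mpr hr
  have key : ∀ k : ℤ, DP (s.filter (fun n => n % q = r % q)) a k =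
      (1 / (q.totient : ℂ)) * ∑ χ : DirichletCharacter ℂ q, χ ((r : ZMod q)⁻¹) *
        DP s (fun n => a n * χ (n : ZMod q)) k := by
    intro k
    unfold DP
    rw [Finset.sum_filter]
    have h1 : ∑ χ : DirichletCharacter ℂ q, χ ((r : ZMod q)⁻¹) *
        ∑ n ∈ s, a n * χ (n : ZMod q) * ch k (Real.log n) =
        ∑ n ∈ s, (if (r : ZMod q) = (n : ZMod q) then (q.totient : ℂ) else 0) *
          (a n * ch k (Real.log n)) := by
      simp only [Finset.mul_sum]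
      rw [Finset.sum_comm]
      refine Finset.sum_congr rfl fun n _ => ?_
      rw [← DirichletCharacter.sum_char_inv_mul_char_eq ℂ hunit, Finset.sum_mul]
      refine Finset.sum_congr rfl fun χ _ => ?_
      ring
    rw [h1, Finset.mul_sum]
    refine Finset.sum_congr rfl fun n _ => ?_
    have h2 : ((r : ZMod q) = (n : ZMod q)) ↔ n % q = r % q := by
      rw [ZMod.natCast_eq_natCast_iff']
      exact eq_comm
    by_cases h3 : n % q = r % q
    · rw [if_pos h3, if_pos (h2.mpr h3)]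
      field_simp
    · rw [if_neg h3, if_neg (fun h => h3 (h2.mp h))]
      simp
  have h1 : ∀ k ∈ F, ‖DP (s.filter (fun n => n % q = r % q)) a k‖ ^ 2 ≤
      (1 / (q.totient : ℝ)) * ∑ χ : DirichletCharacter ℂ q,
        ‖DP s (fun n => a n * χ (n : ZMod q)) k‖ ^ 2 := by
    intro k _
    rw [key k]
    have e1 : ‖(1 / (q.totient : ℂ)) * ∑ χ : DirichletCharacter ℂ q, χ ((r : ZMod q)⁻¹) *
        DP s (fun n => a n * χ (n : ZMod q)) k‖ ≤ (1 / (q.totient : ℝ)) *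
          ∑ χ : DirichletCharacter ℂ q, ‖DP s (fun n => a n * χ (n : ZMod q)) k‖ := by
      rw [norm_mul, norm_div, norm_one, Complex.norm_natCast]
      apply mul_le_mul_of_nonneg_left _ (by positivity)
      refine (norm_sum_le _ _).trans (Finset.sum_le_sum fun χ _ => ?_)
      rw [norm_mul]
      exact mul_le_of_le_one_left (norm_nonneg _) (DirichletCharacter.norm_le_one χ _)
    have e2 : (∑ χ : DirichletCharacter ℂ q, ‖DP s (fun n => a n * χ (n : ZMod q)) k‖) ^ 2 ≤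
        q.totient * ∑ χ : DirichletCharacter ℂ q, ‖DP s (fun n => a n * χ (n : ZMod q)) k‖ ^ 2 := by
      refine (sq_sum_le_card_mul_sum_sq).trans ?_
      rw [hcard]
    calc _ ≤ ((1 / (q.totient : ℝ)) *
          ∑ χ : DirichletCharacter ℂ q, ‖DP s (fun n => a n * χ (n : ZMod q)) k‖) ^ 2 :=
          pow_le_pow_left₀ (norm_nonneg _) e1 2
      _ = (1 / (q.totient : ℝ)) ^ 2 *
          (∑ χ : DirichletCharacter ℂ q, ‖DP s (fun n => a n * χ (n : ZMod q)) k‖) ^ 2 := by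
          rw [mul_pow]
      _ ≤ (1 / (q.totient : ℝ)) ^ 2 * (q.totient *
          ∑ χ : DirichletCharacter ℂ q, ‖DP s (fun n => a n * χ (n : ZMod q)) k‖ ^ 2) :=
          mul_le_mul_of_nonneg_left e2 (by positivity)
      _ = _ := by
          field_simp
  refine (Finset.sum_le_sum h1).trans ?_
  rw [← Finset.mul_sum, Finset.sum_comm]
  have h2 : ∑ χ : DirichletCharacter ℂ q, ∑ k ∈ F, ‖DP s (fun n => a n * χ (n : ZMod q)) k‖ ^ 2 ≤
      q.totient * M := by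
    refine (Finset.sum_le_sum fun χ _ => hM χ).trans (le_of_eq ?_)
    rw [Finset.sum_const, hcard, nsmul_eq_mul]
  calc _ ≤ (1 / (q.totient : ℝ)) * (q.totient * M) := mul_le_mul_of_nonneg_left h2 (by positivity)
    _ = M := by field_simp

theorem hf_cm (q : ℕ) (χ : DirichletCharacter ℂ q) : CM (fun n => χ (n : ZMod q)) where
  one := by simp
  mul := by
    intro m n _ _
    simp
  norm_le := fun n => DirichletCharacter.norm_le_one χ _

theorem hf (hS : S_SHP) : S_HF := by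
  intro δ hδ hδ1 A B
  obtain ⟨Y₀, hY₀⟩ := hS δ hδ hδ1 B (A + 1)
  refine ⟨⌈Real.exp (max Y₀ 144)⌉₊, fun Y hY q r hq hqB hr K₁ hK₁ => ?_⟩
  have hYexp : Real.exp (max Y₀ 144) ≤ Y := (Nat.le_ceil _).trans (by exact_mod_cast hY)
  have hYpos : (0 : ℝ) < Y := lt_of_lt_of_le (Real.exp_pos _) hYexp
  have hY1 : 1 ≤ Y := by exact_mod_cast hYpos
  set L := Real.log Y with hL
  have hLmax : max Y₀ 144 ≤ L := by
    rw [hL, Real.le_log_iff_exp_le hYpos]
    exact hYexp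
  have hL0 : Y₀ ≤ L := (le_max_left _ _).trans hLmax
  have hL144 : 144 ≤ L := (le_max_right _ _).trans hLmax
  have hYL : (Y : ℝ) = Real.exp L := by rw [hL, Real.exp_log hYpos]
  have hlog2 : Real.log 2 < 0.6931471808 := Real.log_two_lt_d9
  have hlog2' : 0.6931471803 < Real.log 2 := Real.log_two_gt_d9
  have hlog3 : Real.log 3 < 1.1 := by
    rw [Real.log_lt_iff_lt_exp (by norm_num)]
    have h1 := Real.add_one_le_exp (0.1 : ℝ)
    have h2 : Real.exp 1 * Real.exp 0.1 = Real.exp 1.1 := by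
      rw [← Real.exp_add]; norm_num
    rw [← h2]
    have h3 := Real.exp_one_gt_d9
    have h4 : (0 : ℝ) < Real.exp 0.1 := Real.exp_pos _
    have h5 : Real.exp 0.1 ≥ 1 + 0.1 + 0.1 ^ 2 / 2 := by
      have := Real.quadratic_le_exp_of_nonneg (show (0 : ℝ) ≤ 0.1 by norm_num)
      linarith
    nlinarith
  set F := (FK K₁).filter (fun k : ℤ => (Y : ℝ) ^ (0.65 : ℝ) ≤ |(k : ℝ)|) with hF
  -- the bound for one range
  have one : ∀ (y : ℝ) (M₁ M₂ : ℕ), L ≤ y → y ≤ L + 0.9 → 1 ≤ M₁ → M₁ ≤ M₂ → M₂ ≤ 3 * Y →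
      y - 2 / 5 ≤ Real.log M₁ → Real.log M₂ ≤ y + 2 / 5 →
      ∑ k ∈ F, ‖DP ((Ioc M₁ M₂).filter (fun n => n % q = r % q))
        (fun n => ((ArithmeticFunction.vonMangoldt n : ℝ) : ℂ)) k‖ ^ 2 ≤
        36 * (Y : ℝ) ^ 2 / L ^ (A + 1) := by
    intro y M₁ M₂ hy1 hy2 hM1 hM12 hM2 hl1 hl2
    have hyL : L ^ (A + 1) ≤ y ^ (A + 1) := pow_le_pow_left₀ (by linarith) hy1 _
    have hLp : 0 < L ^ (A + 1) := pow_pos (by linarith) _
    apply hf_char q r hq hr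
    intro χ
    have hE : ∀ N, M₁ ≤ N → N ≤ M₂ → ∑ k ∈ F, ‖DP (Ioc M₁ N)
        (fun n => ((ArithmeticFunction.vonMangoldt n / n : ℝ) : ℂ) * χ (n : ZMod q)) k‖ ^ 2 ≤
          1 / L ^ (A + 1) := by
      intro N hN1 hN2
      have hN0 : (0 : ℝ) < M₁ := by exact_mod_cast hM1
      have hNN : (M₁ : ℝ) ≤ N := by exact_mod_cast hN1
      have hNM : (N : ℝ) ≤ M₂ := by exact_mod_cast hN2
      have e1 : Real.log M₁ ≤ Real.log N := Real.log_le_log hN0 hNN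
      have e2 : Real.log N ≤ Real.log M₂ := Real.log_le_log (by linarith) hNM
      have h := hY₀ y (hL0.trans hy1) q hq
        (hqB.trans (pow_le_pow_left₀ (by linarith) hy1 _)) (fun n => χ (n : ZMod q)) (hf_cm q χ)
        (fun n => by push_cast; simp) K₁ M₁ N
        (by
          refine hK₁.trans ?_
          rw [Real.rpow_def_of_pos hYpos]
          apply Real.exp_le_exp.mpr
          rw [← hL, mul_comm]
          exact mul_le_mul_of_nonneg_left hy1 (by linarith))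
        hM1 hN1 (by rw [abs_le]; constructor <;> linarith) (by rw [abs_le]; constructor <;> linarith)
      have hsub : F ⊆ (FK K₁).filter (fun k : ℤ => Real.exp (0.61 * y) ≤ |(k : ℝ)|) := by
        intro k hk
        rw [hF, Finset.mem_filter] at hk
        rw [Finset.mem_filter]
        refine ⟨hk.1, le_trans ?_ hk.2⟩
        rw [Real.rpow_def_of_pos hYpos]
        apply Real.exp_le_exp.mpr
        rw [← hL]
        linarith
      refine (Finset.sum_le_sum_of_subset_of_nonneg hsub fun _ _ _ => by positivity).trans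
        (h.trans ?_)
      exact one_div_le_one_div_of_le hLp hyL
    have hms := hf_ms F (fun N k => DP (Ioc M₁ N)
        (fun n => ((ArithmeticFunction.vonMangoldt n / n : ℝ) : ℂ) * χ (n : ZMod q)) k) M₁ M₂ hM12 _ hE
    have hEq : ∀ k : ℤ, DP (Ioc M₁ M₂)
        (fun n => ((ArithmeticFunction.vonMangoldt n : ℝ) : ℂ) * χ (n : ZMod q)) k =
        (M₂ : ℂ) * DP (Ioc M₁ M₂)
          (fun n => ((ArithmeticFunction.vonMangoldt n / n : ℝ) : ℂ) * χ (n : ZMod q)) k -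
        ∑ N ∈ Ico M₁ M₂, DP (Ioc M₁ N)
          (fun n => ((ArithmeticFunction.vonMangoldt n / n : ℝ) : ℂ) * χ (n : ZMod q)) k := by
      intro k
      unfold DP
      rw [← hf_abel (fun n => ((ArithmeticFunction.vonMangoldt n / n : ℝ) : ℂ) * χ (n : ZMod q) *
        ch k (Real.log n)) M₁ M₂ hM12]
      refine Finset.sum_congr rfl fun n hn => ?_
      rw [Finset.mem_Ioc] at hn
      have hn0 : (n : ℂ) ≠ 0 := by
        have : n ≠ 0 := by omega
        exact_mod_cast this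
      push_cast
      field_simp
    have h5 : ∑ k ∈ F, ‖DP (Ioc M₁ M₂)
        (fun n => ((ArithmeticFunction.vonMangoldt n : ℝ) : ℂ) * χ (n : ZMod q)) k‖ ^ 2 ≤
        4 * (M₂ : ℝ) ^ 2 * (1 / L ^ (A + 1)) := by
      refine le_trans (le_of_eq ?_) hms
      exact Finset.sum_congr rfl fun k _ => by rw [hEq k]
    refine h5.trans ?_
    have h6 : (M₂ : ℝ) ≤ 3 * Y := by exact_mod_cast hM2
    have h7 : (M₂ : ℝ) ^ 2 ≤ (3 * Y) ^ 2 := pow_le_pow_left₀ (Nat.cast_nonneg _) h6 2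
    calc 4 * (M₂ : ℝ) ^ 2 * (1 / L ^ (A + 1)) ≤ 4 * (3 * Y) ^ 2 * (1 / L ^ (A + 1)) := by
          apply mul_le_mul_of_nonneg_right _ (by positivity)
          linarith
      _ = _ := by ring
  have hlogY2 : Real.log ((2 * Y : ℕ) : ℝ) = Real.log 2 + L := by
    push_cast
    rw [Real.log_mul (by norm_num) hYpos.ne']
  have hlogY3 : Real.log ((3 * Y : ℕ) : ℝ) = Real.log 3 + L := by
    push_cast
    rw [Real.log_mul (by norm_num) hYpos.ne']
  have hA := one (L + 0.35) Y (2 * Y) (by linarith) (by linarith) hY1 (by omega) (by omega)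
    (by rw [← hL]; linarith) (by rw [hlogY2]; linarith)
  have hB := one (L + 0.9) (2 * Y) (3 * Y) (by linarith) (by linarith) (by omega) (by omega) (by omega)
    (by rw [hlogY2]; linarith) (by rw [hlogY3]; linarith)
  have hsplit : ∀ k : ℤ, DP ((Ioc Y (3 * Y)).filter (fun n => n % q = r % q))
      (fun n => ((ArithmeticFunction.vonMangoldt n : ℝ) : ℂ)) k =
      DP ((Ioc Y (2 * Y)).filter (fun n => n % q = r % q))
        (fun n => ((ArithmeticFunction.vonMangoldt n : ℝ) : ℂ)) k +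
      DP ((Ioc (2 * Y) (3 * Y)).filter (fun n => n % q = r % q))
        (fun n => ((ArithmeticFunction.vonMangoldt n : ℝ) : ℂ)) k := by
    intro k
    unfold DP
    rw [Finset.sum_filter, Finset.sum_filter, Finset.sum_filter]
    exact (Finset.sum_Ioc_consecutive _ (by omega) (by omega)).symm
  have hfin : ∑ k ∈ F, ‖DP ((Ioc Y (3 * Y)).filter (fun n => n % q = r % q))
      (fun n => ((ArithmeticFunction.vonMangoldt n : ℝ) : ℂ)) k‖ ^ 2 ≤
      2 * (36 * (Y : ℝ) ^ 2 / L ^ (A + 1)) + 2 * (36 * (Y : ℝ) ^ 2 / L ^ (A + 1)) := by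
    have h1 : ∀ k ∈ F, ‖DP ((Ioc Y (3 * Y)).filter (fun n => n % q = r % q))
        (fun n => ((ArithmeticFunction.vonMangoldt n : ℝ) : ℂ)) k‖ ^ 2 ≤
        2 * ‖DP ((Ioc Y (2 * Y)).filter (fun n => n % q = r % q))
        (fun n => ((ArithmeticFunction.vonMangoldt n : ℝ) : ℂ)) k‖ ^ 2 +
        2 * ‖DP ((Ioc (2 * Y) (3 * Y)).filter (fun n => n % q = r % q))
        (fun n => ((ArithmeticFunction.vonMangoldt n : ℝ) : ℂ)) k‖ ^ 2 := by
      intro k _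
      rw [hsplit k]
      set a := DP ((Ioc Y (2 * Y)).filter (fun n => n % q = r % q))
        (fun n => ((ArithmeticFunction.vonMangoldt n : ℝ) : ℂ)) k
      set b := DP ((Ioc (2 * Y) (3 * Y)).filter (fun n => n % q = r % q))
        (fun n => ((ArithmeticFunction.vonMangoldt n : ℝ) : ℂ)) k
      have h2 := pow_le_pow_left₀ (norm_nonneg _) (norm_add_le a b) 2
      nlinarith [sq_nonneg (‖a‖ - ‖b‖)]
    refine (Finset.sum_le_sum h1).trans ?_
    rw [Finset.sum_add_distrib, ← Finset.mul_sum, ← Finset.mul_sum]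
    linarith
  refine hfin.trans ?_
  have hLpos : 0 < L := by linarith
  have h9 : 2 * (36 * (Y : ℝ) ^ 2 / L ^ (A + 1)) + 2 * (36 * (Y : ℝ) ^ 2 / L ^ (A + 1)) =
      (144 / L) * ((Y : ℝ) ^ 2 / L ^ A) := by
    rw [pow_succ]
    field_simp
    ring
  rw [h9]
  have h10 : 144 / L ≤ 1 := by rw [div_le_one hLpos]; exact hL144
  have h11 : (0 : ℝ) ≤ (Y : ℝ) ^ 2 / L ^ A := by positivity
  calc (144 / L) * ((Y : ℝ) ^ 2 / L ^ A) ≤ 1 * ((Y : ℝ) ^ 2 / L ^ A) :=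
        mul_le_mul_of_nonneg_right h10 h11
    _ = _ := one_mul _

end Pool.Agent.H43.X6
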