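import Pool.Agent.H43.X6.PowX
import Pool.Agent.H43.G.R_pool_sql_team_seeded_3997aac3.Q211.KS.Pow
import Pool.Agent.H43.G.R_seed8.H376R2.MR.Mv

/-!
# LVMX (helper94)
-/

set_option autoImplicit false

namespace Pool.Agent.H43.X6

open Finset Pool.Agent.H376R2.MR Pool.Agent.Q240.KS Pool.Agent.Q211.KS

theorem lvmx : S_LVMX := by
  classical
  intro m ε hm hε
  obtain ⟨Cm, hCm, hmv⟩ := mv
  obtain ⟨C₁, hC₁, hpow⟩ := pow_DPX m (ε / 4) (by positivity)
  obtain ⟨C₂, hC₂, hlin⟩ := one_add_le_exp (show 0 < ε / 2 by positivity)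
  have hm0 : (1 : ℝ) ≤ m := by exact_mod_cast hm
  refine ⟨max 1 (Cm * (1 + m / 10) * (C₁ ^ 2 * ((1 + m) * C₂) * Real.exp (m / 20))),
    le_max_left _ _, ?_⟩
  intro f hf z t d K V L hK hV hL
  obtain ⟨s, b, hb1, hb2, hb3⟩ := hpow f hf z t d
  have hd : (0 : ℝ) ≤ d := Nat.cast_nonneg d
  have hK0 : (1 : ℝ) ≤ K := by exact_mod_cast hK
  set N₁ : ℝ := Real.exp (max 0 (m * (((d : ℝ) - 1) / 20))) with hN₁
  set N₂ : ℝ := Real.exp (m * (((d : ℝ) + 1) / 20)) with hN₂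
  have hN1 : 1 ≤ N₁ := Real.one_le_exp (le_max_left _ _)
  have hcmp : m * (((d : ℝ) - 1) / 20) ≤ m * (((d : ℝ) + 1) / 20) :=
    mul_le_mul_of_nonneg_left (by linarith) (by linarith)
  have hpos2 : 0 ≤ m * (((d : ℝ) + 1) / 20) := by positivity
  have hN12 : N₁ ≤ N₂ := Real.exp_le_exp.2 (max_le hpos2 hcmp)
  have hs : ∀ n ∈ s, N₁ ≤ (n : ℝ) ∧ (n : ℝ) ≤ N₂ := by
    intro n hn
    obtain ⟨h1, h2, h3⟩ := hb2 n hn
    have hn0 : (0 : ℝ) < n := by exact_mod_cast h1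
    have hlog0 : 0 ≤ Real.log n := Real.log_nonneg (by exact_mod_cast h1)
    constructor
    · rw [hN₁, ← Real.le_log_iff_exp_le hn0]
      exact max_le hlog0 h2
    · rw [hN₂, ← Real.log_le_iff_le_exp hn0]
      exact h3
  have hmain := hmv s b N₁ N₂ K hN1 hN12 hs hK
  -- the lower bound
  have hlow : (L.card : ℝ) * V ^ (2 * m) ≤ ∑ k ∈ FK K, ‖DP s b k‖ ^ 2 := by
    have h1 : ∑ k ∈ L, V ^ (2 * m) ≤ ∑ k ∈ L, ‖DP s b k‖ ^ 2 := by
      refine Finset.sum_le_sum fun k hk => ?_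
      rw [← hb1 k, norm_pow, ← pow_mul, mul_comm m 2]
      exact pow_le_pow_left₀ hV.le (hL k hk).2 _
    rw [Finset.sum_const, nsmul_eq_mul] at h1
    exact h1.trans (Finset.sum_le_sum_of_subset_of_nonneg (fun k hk => (hL k hk).1)
      fun _ _ _ => by positivity)
  -- the logarithm
  have hlog : Real.log (N₂ / N₁) ≤ m / 10 := by
    rw [Real.log_div (by positivity) (by positivity), hN₁, hN₂, Real.log_exp, Real.log_exp]
    have := le_max_right 0 (m * (((d : ℝ) - 1) / 20))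
    linarith
  -- the sum
  have hterm : ∀ n ∈ s, ‖b n‖ ^ 2 * ((n : ℝ) + K) ≤
      C₁ ^ 2 * Real.exp (ε / 2 * d) * (1 + K / N₁) * (1 / (n : ℝ)) := by
    intro n hn
    have hn0 : (0 : ℝ) < n := by exact_mod_cast (hb2 n hn).1
    have h1 := pow_le_pow_left₀ (norm_nonneg _) (hb3 n hn) 2
    have h2 : (C₁ * Real.exp (ε / 4 * d) / n) ^ 2 = C₁ ^ 2 * Real.exp (ε / 2 * d) / (n : ℝ) ^ 2 := by
      rw [div_pow, mul_pow, ← Real.exp_nat_mul]
      congr 3
      push_cast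
      ring
    rw [h2] at h1
    have h3 : (K : ℝ) / n ≤ K / N₁ := div_le_div_of_nonneg_left (by linarith) (by linarith) (hs n hn).1
    calc ‖b n‖ ^ 2 * ((n : ℝ) + K) ≤ C₁ ^ 2 * Real.exp (ε / 2 * d) / (n : ℝ) ^ 2 * ((n : ℝ) + K) :=
          mul_le_mul_of_nonneg_right h1 (by positivity)
      _ = C₁ ^ 2 * Real.exp (ε / 2 * d) * (1 + K / n) * (1 / (n : ℝ)) := by
          field_simp
      _ ≤ _ := by
          apply mul_le_mul_of_nonneg_right _ (by positivity)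
          exact mul_le_mul_of_nonneg_left (by linarith) (by positivity)
  have hinv : ∑ n ∈ s, 1 / (n : ℝ) ≤ (1 + m) * C₂ * Real.exp (ε / 2 * d) := by
    have h1 := sum_inv_le (s := s) (A := m * (((d : ℝ) + 1) / 20))
      (fun n hn => ⟨(hb2 n hn).1, (hb2 n hn).2.2⟩)
    rw [max_eq_left hpos2] at h1
    have h2 := hlin d hd
    have h3 : 1 + m * (((d : ℝ) + 1) / 20) ≤ (1 + m) * (1 + d) := by
      have : 0 ≤ (m : ℝ) * d := by positivity
      linarith
    calc _ ≤ (1 + (m : ℝ)) * (1 + d) := h1.trans h3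
      _ ≤ (1 + m) * (C₂ * Real.exp (ε / 2 * d)) := mul_le_mul_of_nonneg_left h2 (by positivity)
      _ = _ := by ring
  have hKN : 1 + K / N₁ ≤ Real.exp (m / 20) * (1 + K * Real.exp (-(m * d / 20 : ℝ))) := by
    have h1 : Real.exp (m * (((d : ℝ) - 1) / 20)) ≤ N₁ := Real.exp_le_exp.2 (le_max_right _ _)
    have h2 : (K : ℝ) / N₁ ≤ K / Real.exp (m * (((d : ℝ) - 1) / 20)) :=
      div_le_div_of_nonneg_left (by linarith) (Real.exp_pos _) h1
    have h3 : (K : ℝ) / Real.exp (m * (((d : ℝ) - 1) / 20)) =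
        Real.exp (m / 20) * (K * Real.exp (-(m * d / 20 : ℝ))) := by
      rw [div_eq_mul_inv, ← Real.exp_neg]
      have h4 : Real.exp (-(m * (((d : ℝ) - 1) / 20))) =
          Real.exp (m / 20) * Real.exp (-(m * d / 20 : ℝ)) := by
        rw [← Real.exp_add]
        congr 1
        ring
      rw [h4]
      ring
    have h4 : 1 ≤ Real.exp ((m : ℝ) / 20) := Real.one_le_exp (by positivity)
    rw [mul_add, mul_one, ← h3]
    linarith
  have hsum : ∑ n ∈ s, ‖b n‖ ^ 2 * ((n : ℝ) + K) ≤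
      (C₁ ^ 2 * ((1 + m) * C₂) * Real.exp (m / 20)) * Real.exp (ε * d) *
        (1 + K * Real.exp (-(m * d / 20 : ℝ))) := by
    refine (Finset.sum_le_sum hterm).trans ?_
    rw [← Finset.mul_sum]
    calc C₁ ^ 2 * Real.exp (ε / 2 * d) * (1 + K / N₁) * ∑ n ∈ s, 1 / (n : ℝ) ≤
        C₁ ^ 2 * Real.exp (ε / 2 * d) * (Real.exp (m / 20) * (1 + K * Real.exp (-(m * d / 20 : ℝ)))) *
          ((1 + m) * C₂ * Real.exp (ε / 2 * d)) := by
          apply mul_le_mul _ hinv (Finset.sum_nonneg fun _ _ => by positivity) (by positivity)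
          exact mul_le_mul_of_nonneg_left hKN (by positivity)
      _ = (C₁ ^ 2 * ((1 + m) * C₂) * Real.exp (m / 20)) *
          (Real.exp (ε / 2 * d) * Real.exp (ε / 2 * d)) *
            (1 + K * Real.exp (-(m * d / 20 : ℝ))) := by ring
      _ = _ := by
          rw [← Real.exp_add]
          congr 3
          ring
  rw [le_div_iff₀ (by positivity)]
  refine hlow.trans (hmain.trans ?_)
  calc Cm * (1 + Real.log (N₂ / N₁)) * ∑ n ∈ s, ‖b n‖ ^ 2 * ((n : ℝ) + K) ≤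
      Cm * (1 + m / 10) * ((C₁ ^ 2 * ((1 + m) * C₂) * Real.exp (m / 20)) * Real.exp (ε * d) *
        (1 + K * Real.exp (-(m * d / 20 : ℝ)))) := by
        apply mul_le_mul _ hsum (Finset.sum_nonneg fun _ _ => by positivity) (by positivity)
        exact mul_le_mul_of_nonneg_left (by linarith) hCm.le
    _ = (Cm * (1 + m / 10) * (C₁ ^ 2 * ((1 + m) * C₂) * Real.exp (m / 20))) * Real.exp (ε * d) *
        (1 + K * Real.exp (-(m * d / 20 : ℝ))) := by ring
    _ ≤ _ := by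
        apply mul_le_mul_of_nonneg_right _ (by positivity)
        exact mul_le_mul_of_nonneg_right (le_max_right _ _) (Real.exp_pos _).le

end Pool.Agent.H43.X6
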