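import Pool.Agent.H43.X6.Stm

/-!
Project X6: job LVRC (large values of a smooth factor in a class: the fourth moment), adapted from the vendored
`Q162/KT/Lvr.lean` (helper85)
-/

set_option autoImplicit false

namespace Pool.Agent.H43.X6

open Finset Pool.Agent.H376R2.MR Pool.Agent.Q240.KS Pool.Agent.Q240.KT

theorem lvrc_DP_neg (s : Finset ℕ) (a : ℕ → ℝ) (k : ℤ) :
    ‖DP s (fun n => ((a n : ℝ) : ℂ)) (-k)‖ = ‖DP s (fun n => ((a n : ℝ) : ℂ)) k‖ := by
  have h : DP s (fun n => ((a n : ℝ) : ℂ)) (-k) =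
      (starRingEnd ℂ) (DP s (fun n => ((a n : ℝ) : ℂ)) k) := by
    unfold DP
    rw [map_sum]
    refine Finset.sum_congr rfl fun n _ => ?_
    rw [map_mul, Complex.conj_ofReal]
    congr 1
    unfold ch
    rw [← Complex.exp_conj]
    congr 1
    rw [map_mul, map_neg, Complex.conj_I, Complex.conj_ofReal]
    push_cast
    ring
  rw [h, Complex.norm_conj]

theorem lvrc_ell (ε : ℝ) (hε : 0 < ε) : ∃ Cl : ℝ, 1 ≤ Cl ∧
    ∀ (d : ℕ) (X : ℝ), 1 ≤ X → Real.exp ((d : ℝ) / 20) ≤ 20 * X →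
      ((1 + (d : ℝ)) * (1 + Real.log X)) ^ 4 ≤ Cl * X ^ (ε / 4) := by
  set δ : ℝ := ε / 32 with hδ
  have hδ0 : 0 < δ := by positivity
  have h1δ : (1 : ℝ) ≤ 1 + 1 / δ := by
    have : 0 < 1 / δ := by positivity
    linarith
  refine ⟨381 ^ 4 * (1 + 1 / δ) ^ 8, ?_, ?_⟩
  · exact one_le_mul_of_one_le_of_one_le (one_le_pow₀ (by norm_num)) (one_le_pow₀ h1δ)
  · intro d X hX hd
    have hX0 : 0 < X := by linarith
    have hlog : 0 ≤ Real.log X := Real.log_nonneg hX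
    have h1 : (d : ℝ) / 20 ≤ Real.log 20 + Real.log X := by
      rw [← Real.log_mul (by norm_num) hX0.ne', Real.le_log_iff_exp_le (by positivity)]
      exact hd
    have h2 : Real.log 20 ≤ 19 := by
      have := Real.log_le_sub_one_of_pos (show (0 : ℝ) < 20 by norm_num)
      linarith
    have h3 : 1 + (d : ℝ) ≤ 381 * (1 + Real.log X) := by linarith
    have h4 : Real.log X ≤ X ^ δ / δ := Real.log_le_rpow_div hX0.le hδ0
    have h5 : (1 : ℝ) ≤ X ^ δ := Real.one_le_rpow hX hδ0.le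
    have h6 : 1 + Real.log X ≤ (1 + 1 / δ) * X ^ δ := by
      have h7 : X ^ δ / δ = 1 / δ * X ^ δ := by ring
      rw [h7] at h4
      linarith
    have h7 : (1 + (d : ℝ)) * (1 + Real.log X) ≤ 381 * ((1 + 1 / δ) * X ^ δ) ^ 2 := by
      calc (1 + (d : ℝ)) * (1 + Real.log X) ≤ (381 * (1 + Real.log X)) * (1 + Real.log X) :=
            mul_le_mul_of_nonneg_right h3 (by linarith)
        _ = 381 * (1 + Real.log X) ^ 2 := by ring
        _ ≤ 381 * ((1 + 1 / δ) * X ^ δ) ^ 2 := by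
            refine mul_le_mul_of_nonneg_left ?_ (by norm_num)
            exact pow_le_pow_left₀ (by linarith) h6 2
    calc ((1 + (d : ℝ)) * (1 + Real.log X)) ^ 4
        ≤ (381 * ((1 + 1 / δ) * X ^ δ) ^ 2) ^ 4 :=
          pow_le_pow_left₀ (by positivity) h7 _
      _ = 381 ^ 4 * (1 + 1 / δ) ^ 8 * (X ^ δ) ^ 8 := by ring
      _ = 381 ^ 4 * (1 + 1 / δ) ^ 8 * X ^ (ε / 4) := by
          congr 1
          rw [← Real.rpow_natCast, ← Real.rpow_mul hX0.le]
          congr 1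
          rw [hδ]
          push_cast
          ring

/-- positive frequencies, `ε ≤ 1` -/
theorem lvrc_pos (hRFL : S_RFLC) (hPMV : S_PMV) (ε : ℝ) (hε : 0 < ε) (hε1 : ε ≤ 1) :
    ∃ C : ℝ, 1 ≤ C ∧ ∀ (q a z : ℕ) (t : Fin 3) (d : ℕ) (T V : ℝ) (L : Finset ℤ),
    t ≠ 0 → 1 ≤ q → a < q → 1 ≤ T → Real.exp ((d : ℝ) / 20) ≤ 20 * q * T → 0 < V →
    (∀ k ∈ L, T ≤ (k : ℝ) ∧ (k : ℝ) ≤ 2 * T ∧ V ≤ ‖PC q a z t d k‖) →
    (L.card : ℝ) * V ^ 4 ≤
      C * q ^ 40 * T ^ ε * (T * Real.exp (-((d : ℝ) / 10)) + T ^ 2 * Real.exp (-((d : ℝ) / 5))) := by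
  classical
  obtain ⟨Cr, hCr, hrfl⟩ := hRFL
  obtain ⟨Cp, hCp, hpmv⟩ := hPMV 2 (ε / 4) (by norm_num) (by linarith)
  obtain ⟨Cl, hCl, hell⟩ := lvrc_ell ε hε
  set D : ℝ := 3 * Cp * 26 * 26 ^ 4 with hD
  have hD0 : 0 ≤ D := by positivity
  set A0 : ℝ := (2 * Cr) ^ 4 * Cl with hA0
  have hA01 : 1 ≤ A0 := one_le_mul_of_one_le_of_one_le (one_le_pow₀ (by linarith)) hCl
  refine ⟨A0 * (6 + D), by nlinarith, ?_⟩
  intro q a z t d T V L ht hq haq hT hd hV hL
  have hT0 : 0 < T := by linarith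
  have hq1 : (1 : ℝ) ≤ q := by exact_mod_cast hq
  have hq0 : (0 : ℝ) < q := by linarith
  have hqT : 1 ≤ (q : ℝ) * T := one_le_mul_of_one_le_of_one_le hq1 hT
  have hqT0 : 0 < (q : ℝ) * T := by linarith
  have hlog : 0 ≤ Real.log (q * T) := Real.log_nonneg hqT
  set n : ℝ := (L.card : ℝ) with hn
  have hn0 : 0 ≤ n := Nat.cast_nonneg _
  set N1 : ℝ := Real.exp (-((d : ℝ) / 10)) with hN1
  set N2 : ℝ := Real.exp (-((d : ℝ) / 5)) with hN2
  have hN10 : 0 < N1 := Real.exp_pos _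
  have hN20 : 0 < N2 := Real.exp_pos _
  have hd0 : (0 : ℝ) ≤ d := Nat.cast_nonneg _
  -- the cardinality
  have hcard : n ≤ 6 * T := by
    have h1 : L ⊆ Icc 0 ⌊2 * T⌋ := by
      intro k hk
      have h2 := hL k hk
      rw [mem_Icc]
      refine ⟨?_, Int.le_floor.mpr h2.2.1⟩
      have h3 : (0 : ℝ) ≤ k := by linarith [h2.1]
      exact_mod_cast h3
    have h2 := card_le_card h1
    rw [Int.card_Icc] at h2
    have h3 : (0 : ℤ) ≤ ⌊2 * T⌋ := Int.floor_nonneg.mpr (by positivity)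
    have h4 : ((L.card : ℕ) : ℤ) ≤ ⌊2 * T⌋ + 1 := by omega
    have h5 : (L.card : ℝ) ≤ (⌊2 * T⌋ : ℝ) + 1 := by exact_mod_cast h4
    have h6 := Int.floor_le (2 * T)
    rw [hn]
    linarith
  -- powers of `q T`
  have hqe : ((q : ℝ) * T) ^ (ε / 4) ≤ q * T ^ (ε / 4) := by
    rw [Real.mul_rpow hq0.le hT0.le]
    refine mul_le_mul_of_nonneg_right ?_ (by positivity)
    calc (q : ℝ) ^ (ε / 4) ≤ (q : ℝ) ^ (1 : ℝ) :=
          Real.rpow_le_rpow_of_exponent_le hq1 (by linarith)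
      _ = q := Real.rpow_one _
  have hTε : T ^ (ε / 4) ≤ T ^ ε := Real.rpow_le_rpow_of_exponent_le hT (by linarith)
  have hTε0 : 0 < T ^ ε := Real.rpow_pos_of_pos hT0 _
  have hTε40 : 0 < T ^ (ε / 4) := Real.rpow_pos_of_pos hT0 _
  have hRHS : 0 ≤ T * N1 + T ^ 2 * N2 := by positivity
  set ell : ℝ := (1 + (d : ℝ)) * (1 + Real.log (q * T)) with hell'
  have hell0 : 0 ≤ ell := by positivity
  have hellb : ell ^ 4 ≤ Cl * (q * T ^ (ε / 4)) := by
    have h1 := hell d (q * T) hqT (by rw [← mul_assoc]; exact hd)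
    exact h1.trans (mul_le_mul_of_nonneg_left hqe (by linarith))
  obtain ⟨H, s, b, hH1, hH2, hs, hb, hsum⟩ := hrfl q a z t d T L ht hq haq hT
    (fun k hk => ⟨(hL k hk).1, (hL k hk).2.1⟩) hd
  set X : ℝ := ∑ k ∈ L, ‖DP s b (-k)‖ with hX
  have hX0 : 0 ≤ X := sum_nonneg fun _ _ => norm_nonneg _
  have hnV : n * V ≤ ∑ k ∈ L, ‖PC q a z t d k‖ := by
    calc n * V = ∑ _k ∈ L, V := by rw [sum_const, nsmul_eq_mul]
      _ ≤ ∑ k ∈ L, ‖PC q a z t d k‖ := sum_le_sum fun k hk => (hL k hk).2.2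
  set G : ℝ := Cr * q ^ 3 * ell with hG
  have hG0 : 0 ≤ G := by positivity
  have hmain : n * V ≤ G * (T ^ (-(1 / 2) : ℝ) * X + N1 * n) := by
    refine hnV.trans (hsum.trans (le_of_eq ?_))
    rw [hG, hell']
    ring
  have hG4 : (2 * G) ^ 4 ≤ A0 * q ^ 13 * T ^ (ε / 4) := by
    calc (2 * G) ^ 4 = (2 * Cr) ^ 4 * q ^ 12 * ell ^ 4 := by rw [hG]; ring
      _ ≤ (2 * Cr) ^ 4 * q ^ 12 * (Cl * (q * T ^ (ε / 4))) :=
          mul_le_mul_of_nonneg_left hellb (by positivity)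
      _ = A0 * q ^ 13 * T ^ (ε / 4) := by rw [hA0]; ring
  rcases Nat.eq_zero_or_pos L.card with hL0 | hL0
  · have : n = 0 := by rw [hn, hL0, Nat.cast_zero]
    rw [this, zero_mul]
    positivity
  have hn1 : 0 < n := by rw [hn]; exact_mod_cast hL0
  rcases le_total (T ^ (-(1 / 2) : ℝ) * X) (N1 * n) with hcase | hcase
  · -- the second term dominates
    have h1 : V ≤ 2 * G * N1 := by
      have h2 : n * V ≤ n * (2 * G * N1) := by
        calc n * V ≤ G * (T ^ (-(1 / 2) : ℝ) * X + N1 * n) := hmain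
          _ ≤ G * (N1 * n + N1 * n) :=
              mul_le_mul_of_nonneg_left (by linarith) hG0
          _ = n * (2 * G * N1) := by ring
      exact le_of_mul_le_mul_left h2 hn1
    have hN14 : N1 ^ 4 ≤ N1 := by
      have h2 : N1 ≤ 1 := by
        rw [hN1, Real.exp_le_one_iff]
        linarith
      exact pow_le_of_le_one hN10.le h2 (by norm_num)
    have h2 : V ^ 4 ≤ A0 * q ^ 13 * T ^ (ε / 4) * N1 := by
      calc V ^ 4 ≤ (2 * G * N1) ^ 4 :=
            pow_le_pow_left₀ hV.le h1 _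
        _ = (2 * G) ^ 4 * N1 ^ 4 := by
            rw [mul_pow]
        _ ≤ (A0 * q ^ 13 * T ^ (ε / 4)) * N1 :=
            mul_le_mul hG4 hN14 (by positivity) (by positivity)
    calc n * V ^ 4 ≤ (6 * T) * (A0 * q ^ 13 * T ^ (ε / 4) * N1) :=
          mul_le_mul hcard h2 (by positivity) (by positivity)
      _ ≤ (6 * T) * (A0 * q ^ 40 * T ^ ε * N1) := by
          have h3 : (q : ℝ) ^ 13 ≤ q ^ 40 := pow_le_pow_right₀ hq1 (by norm_num)
          gcongr
      _ = A0 * 6 * q ^ 40 * T ^ ε * (T * N1) := by ring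
      _ ≤ A0 * (6 + D) * q ^ 40 * T ^ ε * (T * N1 + T ^ 2 * N2) := by
          gcongr
          · linarith
          · have : 0 ≤ T ^ 2 * N2 := by positivity
            linarith
  · -- the first term dominates
    have h1 : n * V ≤ 2 * G * T ^ (-(1 / 2) : ℝ) * X := by
      calc n * V ≤ G * (T ^ (-(1 / 2) : ℝ) * X + N1 * n) := hmain
        _ ≤ G * (T ^ (-(1 / 2) : ℝ) * X + T ^ (-(1 / 2) : ℝ) * X) :=
            mul_le_mul_of_nonneg_left (by linarith) hG0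
        _ = 2 * G * T ^ (-(1 / 2) : ℝ) * X := by ring
    set Y : ℝ := ∑ k ∈ L, ‖DP s b (-k)‖ ^ 4 with hY
    have hX2 : X ^ 4 ≤ n ^ 3 * Y := by
      have h2 := pow_sum_le_card_mul_sum_pow (s := L)
        (f := fun k => ‖DP s b (-k)‖) (fun _ _ => norm_nonneg _) 3
      exact h2
    set K : ℕ := ⌊2 * T⌋₊ + 1 with hK
    have hKT : (K : ℝ) ≤ 3 * T := by
      rw [hK]
      push_cast
      have := Nat.floor_le (show 0 ≤ 2 * T by positivity)
      linarith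
    have hLK : L.map (Equiv.neg ℤ).toEmbedding ⊆ FK K := by
      intro k hk
      rw [mem_map] at hk
      obtain ⟨l, hl, rfl⟩ := hk
      have h2 := hL l hl
      have h3 : |(-l : ℤ)| < (K : ℤ) := by
        have h4 : ((|(-l : ℤ)| : ℤ) : ℝ) < K := by
          push_cast
          rw [abs_neg, abs_of_nonneg (by linarith [h2.1]), hK]
          push_cast
          exact lt_of_le_of_lt h2.2.1 (Nat.lt_floor_add_one _)
        exact_mod_cast h4
      unfold FK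
      rw [mem_Ioo]
      exact abs_lt.mp h3
    have hYb : Y ≤ Cp * H ^ (ε / 4) * (H ^ 4 + K * H ^ 2) := by
      refine le_trans ?_ (hpmv s b H K hH1 (by omega) hs hb)
      have h2 : Y = ∑ k ∈ L.map (Equiv.neg ℤ).toEmbedding, ‖DP s b k‖ ^ (2 * 2) := by
        rw [sum_map]
        rfl
      rw [h2]
      exact sum_le_sum_of_subset_of_nonneg hLK fun _ _ _ => by positivity
    -- the size of `H`
    set R : ℝ := q * T * Real.exp (-((d : ℝ) / 20)) with hR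
    have hR0 : 0 < R := by positivity
    have hR1 : 1 ≤ 20 * R := by
      rw [hR, ← mul_assoc, Real.exp_neg, ← div_eq_mul_inv, le_div_iff₀ (Real.exp_pos _), one_mul,
        ← mul_assoc]
      exact hd
    have hHR : H ≤ 26 * R := by
      have h2 : H ≤ 1 + 6 * R := by
        rw [hR]
        refine hH2.trans (le_of_eq ?_)
        ring
      linarith
    have hRT : R ≤ q * T := by
      rw [hR]
      have h2 : Real.exp (-((d : ℝ) / 20)) ≤ 1 := by
        rw [Real.exp_le_one_iff]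
        linarith
      exact mul_le_of_le_one_right hqT0.le h2
    have hH0 : 0 < H := by linarith
    have hHe : H ^ (ε / 4) ≤ 26 * (q * T ^ (ε / 4)) := by
      calc H ^ (ε / 4) ≤ (26 * (q * T)) ^ (ε / 4) :=
            Real.rpow_le_rpow hH0.le (by linarith) (by linarith)
        _ = 26 ^ (ε / 4) * (q * T) ^ (ε / 4) := Real.mul_rpow (by norm_num) hqT0.le
        _ ≤ 26 * (q * T ^ (ε / 4)) := by
            refine mul_le_mul ?_ hqe (by positivity) (by norm_num)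
            calc (26 : ℝ) ^ (ε / 4) ≤ (26 : ℝ) ^ (1 : ℝ) :=
                  Real.rpow_le_rpow_of_exponent_le (by norm_num) (by linarith)
              _ = 26 := Real.rpow_one _
    have hHm : H ^ 4 + K * H ^ 2 ≤ 3 * 26 ^ 4 * (R ^ 4 + T * R ^ 2) := by
      have h2 : H ^ 4 ≤ 26 ^ 4 * R ^ 4 := by
        rw [← mul_pow]
        exact pow_le_pow_left₀ hH0.le hHR _
      have h3 : H ^ 2 ≤ 26 ^ 4 * R ^ 2 := by
        calc H ^ 2 ≤ (26 * R) ^ 2 := pow_le_pow_left₀ hH0.le hHR _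
          _ = 26 ^ 2 * R ^ 2 := mul_pow _ _ _
          _ ≤ 26 ^ 4 * R ^ 2 := by
              refine mul_le_mul_of_nonneg_right (by norm_num) (by positivity)
      have h4 : (K : ℝ) * H ^ 2 ≤ (3 * T) * (26 ^ 4 * R ^ 2) :=
        mul_le_mul hKT h3 (by positivity) (by positivity)
      have h5 : (0 : ℝ) ≤ 26 ^ 4 * R ^ 4 := by positivity
      calc H ^ 4 + K * H ^ 2
          ≤ 26 ^ 4 * R ^ 4 + (3 * T) * (26 ^ 4 * R ^ 2) := add_le_add h2 h4
        _ ≤ 3 * (26 ^ 4 * R ^ 4) + (3 * T) * (26 ^ 4 * R ^ 2) := by linarith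
        _ = 3 * 26 ^ 4 * (R ^ 4 + T * R ^ 2) := by ring
    have hRm : R ^ 2 = q ^ 2 * (T ^ 2 * N1) := by
      rw [hR, mul_pow, mul_pow, ← Real.exp_nat_mul, hN1, mul_assoc]
      congr 3
      push_cast
      ring
    have hR2m : R ^ 4 = q ^ 4 * (T ^ 2 * (T ^ 2 * N2)) := by
      rw [hR, mul_pow, mul_pow, ← Real.exp_nat_mul, hN2]
      have h2 : ((4 : ℕ) : ℝ) * (-((d : ℝ) / 20)) = -((d : ℝ) / 5) := by push_cast; ring
      rw [h2]
      ring
    have hRR : R ^ 4 + T * R ^ 2 ≤ q ^ 4 * (T ^ 2 * (T * N1 + T ^ 2 * N2)) := by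
      rw [hRm, hR2m]
      have h2 : (q : ℝ) ^ 2 ≤ q ^ 4 := pow_le_pow_right₀ hq1 (by norm_num)
      have h3 : T * ((q : ℝ) ^ 2 * (T ^ 2 * N1)) ≤ T * ((q : ℝ) ^ 4 * (T ^ 2 * N1)) := by
        gcongr
      calc (q : ℝ) ^ 4 * (T ^ 2 * (T ^ 2 * N2)) + T * ((q : ℝ) ^ 2 * (T ^ 2 * N1))
          ≤ (q : ℝ) ^ 4 * (T ^ 2 * (T ^ 2 * N2)) + T * ((q : ℝ) ^ 4 * (T ^ 2 * N1)) := by linarith
        _ = q ^ 4 * (T ^ 2 * (T * N1 + T ^ 2 * N2)) := by ring
    have hYb2 : Y ≤ D * q ^ 5 * T ^ (ε / 4) * (T ^ 2 * (T * N1 + T ^ 2 * N2)) := by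
      calc Y ≤ Cp * H ^ (ε / 4) * (H ^ 4 + K * H ^ 2) := hYb
        _ ≤ Cp * (26 * (q * T ^ (ε / 4))) *
            (3 * 26 ^ 4 * (R ^ 4 + T * R ^ 2)) := by
            refine mul_le_mul (mul_le_mul_of_nonneg_left hHe (by linarith)) hHm (by positivity)
              (by positivity)
        _ ≤ Cp * (26 * (q * T ^ (ε / 4))) *
            (3 * 26 ^ 4 * (q ^ 4 * (T ^ 2 * (T * N1 + T ^ 2 * N2)))) := by
            gcongr
        _ = D * q ^ 5 * T ^ (ε / 4) * (T ^ 2 * (T * N1 + T ^ 2 * N2)) := by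
            rw [hD]
            ring
    -- the power
    have hThalf : (T ^ (-(1 / 2) : ℝ)) ^ 4 = (T ^ 2)⁻¹ := by
      rw [← Real.rpow_natCast, ← Real.rpow_mul hT0.le, ← Real.rpow_natCast, ← Real.rpow_neg hT0.le]
      congr 1
      push_cast
      ring
    have hpow : n ^ 4 * V ^ 4 ≤ n ^ 3 *
        ((2 * G) ^ 4 * (T ^ 2)⁻¹ * Y) := by
      calc n ^ 4 * V ^ 4 = (n * V) ^ 4 := by rw [mul_pow]
        _ ≤ (2 * G * T ^ (-(1 / 2) : ℝ) * X) ^ 4 :=
            pow_le_pow_left₀ (by positivity) h1 _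
        _ = (2 * G) ^ 4 * (T ^ 2)⁻¹ * X ^ 4 := by
            rw [mul_pow, mul_pow, hThalf]
        _ ≤ (2 * G) ^ 4 * (T ^ 2)⁻¹ * (n ^ 3 * Y) :=
            mul_le_mul_of_nonneg_left hX2 (by positivity)
        _ = _ := by ring
    have hn2 : n ^ 4 = n ^ 3 * n := by ring
    rw [hn2, mul_assoc] at hpow
    have hfin := le_of_mul_le_mul_left hpow (pow_pos hn1 _)
    have hY0 : 0 ≤ Y := sum_nonneg fun _ _ => by positivity
    calc n * V ^ 4 ≤ (2 * G) ^ 4 * (T ^ 2)⁻¹ * Y := hfin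
      _ ≤ (A0 * q ^ 13 * T ^ (ε / 4)) * (T ^ 2)⁻¹ *
          (D * q ^ 5 * T ^ (ε / 4) * (T ^ 2 * (T * N1 + T ^ 2 * N2))) := by
          refine mul_le_mul ?_ hYb2 hY0 (by positivity)
          exact mul_le_mul_of_nonneg_right hG4 (by positivity)
      _ = A0 * D * q ^ 18 * (T ^ (ε / 4) * T ^ (ε / 4)) * (T * N1 + T ^ 2 * N2) := by
          field_simp
      _ ≤ A0 * (6 + D) * q ^ 40 * T ^ ε * (T * N1 + T ^ 2 * N2) := by
          refine mul_le_mul_of_nonneg_right ?_ hRHS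
          have h3 : (q : ℝ) ^ 18 ≤ q ^ 40 := pow_le_pow_right₀ hq1 (by norm_num)
          have h4 : T ^ (ε / 4) * T ^ (ε / 4) ≤ T ^ ε := by
            rw [← Real.rpow_add hT0]
            exact Real.rpow_le_rpow_of_exponent_le hT (by linarith)
          have h5 : A0 * D ≤ A0 * (6 + D) := by nlinarith
          gcongr

/-- job X6-LVRC -/
theorem lvrc (hRFL : S_RFLC) (hPMV : S_PMV) : S_LVRC := by
  classical
  intro ε hε
  obtain ⟨C, hC, hpos⟩ := lvrc_pos hRFL hPMV (min ε 1) (lt_min hε one_pos) (min_le_right _ _)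
  refine ⟨2 * C, by linarith, ?_⟩
  intro q a z t d T V L ht hq haq hT hd hV hL
  have hT0 : 0 < T := by linarith
  have hVp : 0 < V ^ 4 := pow_pos hV _
  rw [le_div_iff₀ hVp]
  have hneg : ∀ k : ℤ, ‖PC q a z t d (-k)‖ = ‖PC q a z t d k‖ := fun k => by
    unfold PC
    exact lvrc_DP_neg _ _ k
  set L1 : Finset ℤ := L.filter (fun k => 0 ≤ k) with hL1
  set L2 : Finset ℤ := (L.filter (fun k => ¬ 0 ≤ k)).map (Equiv.neg ℤ).toEmbedding with hL2
  have hc : (L.card : ℝ) = (L1.card : ℝ) + (L2.card : ℝ) := by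
    rw [hL1, hL2, card_map]
    rw [← card_filter_add_card_filter_not (s := L) (fun k => 0 ≤ k)]
    push_cast
    rfl
  have h1 := hpos q a z t d T V L1 ht hq haq hT hd hV (by
    intro k hk
    rw [hL1, mem_filter] at hk
    have h2 := hL k hk.1
    have h3 : (0 : ℝ) ≤ k := by exact_mod_cast hk.2
    rw [abs_of_nonneg h3] at h2
    exact h2)
  have h2 := hpos q a z t d T V L2 ht hq haq hT hd hV (by
    intro k hk
    rw [hL2, mem_map] at hk
    obtain ⟨l, hl, rfl⟩ := hk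
    rw [mem_filter] at hl
    have h2 := hL l hl.1
    have h3 : (l : ℝ) < 0 := by
      have := not_le.1 hl.2
      exact_mod_cast this
    rw [abs_of_neg h3] at h2
    refine ⟨?_, ?_, ?_⟩
    · show T ≤ (((-l : ℤ)) : ℝ)
      push_cast
      exact h2.1
    · show (((-l : ℤ)) : ℝ) ≤ 2 * T
      push_cast
      exact h2.2.1
    · show V ≤ ‖PC q a z t d (-l)‖
      rw [hneg]
      exact h2.2.2)
  have hTε : T ^ (min ε 1) ≤ T ^ ε := Real.rpow_le_rpow_of_exponent_le hT (min_le_left _ _)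
  have h3 : C * (q : ℝ) ^ 40 * T ^ (min ε 1) * (T * Real.exp (-((d : ℝ) / 10)) +
      T ^ 2 * Real.exp (-((d : ℝ) / 5))) ≤ C * (q : ℝ) ^ 40 * T ^ ε *
      (T * Real.exp (-((d : ℝ) / 10)) + T ^ 2 * Real.exp (-((d : ℝ) / 5))) := by
    gcongr
  calc (L.card : ℝ) * V ^ 4 = (L1.card : ℝ) * V ^ 4 + (L2.card : ℝ) * V ^ 4 := by rw [hc]; ring
    _ ≤ 2 * C * q ^ 40 * T ^ ε *
      (T * Real.exp (-((d : ℝ) / 10)) + T ^ 2 * Real.exp (-((d : ℝ) / 5))) := by
        linarith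

end Pool.Agent.H43.X6
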