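import Pool.Agent.H43.X6.Stm
import Pool.Agent.H43.G.R_pool_sql_team_seeded_3997aac3.Q298.KS.Wt
import Pool.Agent.H43.G.R_pool_sql_team_seeded_620a6dc7.helper24_UT_.Stm

/-! X6-MBX (helper4): the Moebius factors, twisted (after `Q298/KS/Mb.lean`). -/

set_option autoImplicit false

namespace Pool.Agent.H43.X6

open Finset Pool.Agent.H376R2.MR Pool.Agent.Q240.KS Pool.Agent.Q298.KS

namespace MBXh

theorem tw_ch (k : ℤ) (n : ℕ) : Pool.Agent.helper24_UT.tw (k : ℝ) n = ch k (Real.log n) := by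
  unfold Pool.Agent.helper24_UT.tw
  rw [ch_eq_er]

theorem PX_eq (f : ℕ → ℂ) (z : ℕ) (t : Fin 3) (d : ℕ) (k : ℤ) :
    PX f z t d k = ∑ n ∈ Ico (lo d) (hi d), ((cf z t d n : ℝ) : ℂ) * f n * ch k (Real.log n) := by
  unfold PX DP
  apply sum_sp_eq
  intro n h1 h
  simp [cf_lo (z := z) (t := t) h1 h]

/-- a Moebius factor from the partial sums of `μ(n) f(n) n^{-ik}`, `n ≤ z` -/
theorem PX_le_of_part0 (f : ℕ → ℂ) (z : ℕ) (d : ℕ) (k : ℤ) (B : ℝ) (hB0 : 0 ≤ B)
    (hB : ∀ m, lo d ≤ m → m ≤ hi d → ‖∑ n ∈ Ico (lo d) m,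
      (((if n ≤ z then ((ArithmeticFunction.moebius n : ℤ) : ℝ) else 0 : ℝ)) : ℂ) * f n *
        ch k (Real.log n)‖ ≤ B) :
    ‖PX f z 0 d k‖ ≤ 100 * B * Real.exp (-((d : ℝ) / 20)) := by
  rw [PX_eq]
  have e : ∑ n ∈ Ico (lo d) (hi d), ((cf z 0 d n : ℝ) : ℂ) * f n * ch k (Real.log n) =
      ∑ n ∈ Ico (lo d) (hi d), (((fun n : ℕ => hw d n / (n : ℝ)) n : ℝ) : ℂ) *
        (fun n : ℕ => (((if n ≤ z then ((ArithmeticFunction.moebius n : ℤ) : ℝ) else 0 : ℝ)) : ℂ) *
        f n * ch k (Real.log n)) n := by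
    refine sum_congr rfl fun n _ => ?_
    unfold cf hw
    rw [if_pos rfl]
    push_cast
    ring
  rw [e]
  have h1 := abel_window d (fun n : ℕ => hw d n / (n : ℝ))
    ((20 + 1) * Real.exp (-(((d : ℝ) - 1) / 20))) B _ hB0 (by positivity)
    (by simp only [hw_hi, zero_div])
    (fun n hn1 hn2 => var_div d (hw d) 20 1 (by norm_num) (by norm_num)
      (fun n h1 h2 => by rw [abs_of_nonneg (hw_nonneg d n)]; exact hw_le_one d n)
      (fun n h1 h2 => hw_var d n ((one_le_lo d).trans h1)) n hn1 hn2) hB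
  refine h1.trans ?_
  have h2 := exp_lo d
  have h3 : 0 < Real.exp (-((d : ℝ) / 20)) := Real.exp_pos _
  calc 2 * B * ((20 + 1) * Real.exp (-(((d : ℝ) - 1) / 20)))
      ≤ 2 * B * ((20 + 1) * (2 * Real.exp (-((d : ℝ) / 20)))) := by gcongr
    _ = 84 * (B * Real.exp (-((d : ℝ) / 20))) := by ring
    _ ≤ 100 * (B * Real.exp (-((d : ℝ) / 20))) := by
        have : 0 ≤ B * Real.exp (-((d : ℝ) / 20)) := by positivity
        linarith
    _ = _ := by ring

/-- initial sums of the twisted Moebius function -/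
noncomputable def mu2 (f : ℕ → ℂ) (k : ℤ) (N : ℕ) : ℂ :=
  ∑ n ∈ Icc 1 N, ((ArithmeticFunction.moebius n : ℤ) : ℂ) * f n * ch k (Real.log n)

theorem part_mu2 (f : ℕ → ℂ) (k : ℤ) (z a m : ℕ) (ha : 1 ≤ a) (ham : a ≤ m) :
    ∑ n ∈ Ico a m, (((if n ≤ z then ((ArithmeticFunction.moebius n : ℤ) : ℝ) else 0 : ℝ)) : ℂ) * f n *
        ch k (Real.log n) =
      if a ≤ z + 1 then mu2 f k (min m (z + 1) - 1) - mu2 f k (a - 1) else 0 := by
  have h1 : ∀ n, (((if n ≤ z then ((ArithmeticFunction.moebius n : ℤ) : ℝ) else 0 : ℝ)) : ℂ) * f n *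
        ch k (Real.log n) = if n ≤ z then ((ArithmeticFunction.moebius n : ℤ) : ℂ) * f n *
          ch k (Real.log n) else 0 := by
    intro n
    split_ifs
    · push_cast
      rfl
    · simp
  rw [sum_congr rfl (fun n _ => h1 n), ← sum_filter]
  have h2 : (Ico a m).filter (fun n => n ≤ z) = Ico a (min m (z + 1)) := by
    ext n
    simp only [mem_filter, mem_Ico, lt_min_iff]
    omega
  rw [h2]
  split_ifs with h3
  · have h4 : mu2 f k (min m (z + 1) - 1) = ∑ n ∈ Ico 1 (min m (z + 1)),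
        ((ArithmeticFunction.moebius n : ℤ) : ℂ) * f n * ch k (Real.log n) := by
      unfold mu2
      apply sum_congr _ (fun _ _ => rfl)
      ext n
      rw [mem_Icc, mem_Ico]
      omega
    have h5 : mu2 f k (a - 1) = ∑ n ∈ Ico 1 a,
        ((ArithmeticFunction.moebius n : ℤ) : ℂ) * f n * ch k (Real.log n) := by
      unfold mu2
      apply sum_congr _ (fun _ _ => rfl)
      ext n
      rw [mem_Icc, mem_Ico]
      omega
    rw [h4, h5, eq_sub_iff_add_eq, add_comm]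
    exact sum_Ico_consecutive _ ha (le_min ham h3)
  · rw [Ico_eq_empty_of_le (by omega), sum_empty]

/-- a power of `Y` is at most `exp (c Y)` for large `Y` -/
theorem pow_le_exp (m : ℕ) (c : ℝ) (hc : 0 < c) : ∃ Y₁ : ℝ, ∀ Y : ℝ, Y₁ ≤ Y → Y ^ m ≤ Real.exp (c * Y) := by
  have h := (isLittleO_pow_exp_pos_mul_atTop m hc).def (show (0 : ℝ) < 1 by norm_num)
  obtain ⟨Y₁, h1⟩ := Filter.eventually_atTop.1 (h.and (Filter.eventually_ge_atTop 0))
  refine ⟨Y₁, fun Y hY => ?_⟩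
  obtain ⟨h2, h3⟩ := h1 Y hY
  rw [one_mul, Real.norm_eq_abs, Real.norm_eq_abs, abs_of_nonneg (by positivity),
    abs_of_nonneg (Real.exp_pos _).le] at h2
  exact h2

end MBXh

open MBXh in
/-- X6-MBX -/
theorem mbx (hM1 : Pool.Agent.helper24_UT.S_M1) : S_MBX := by
  intro B D
  obtain ⟨K₂, L₀, hL₀, h⟩ := hM1 9 B (D + 2)
  obtain ⟨Y₁, hY₁⟩ := pow_le_exp K₂ 0.3 (by norm_num)
  refine ⟨max (max L₀ Y₁) 100, ?_⟩
  intro Y hY q hq hqB f hf hper z d k hd1 hd2 hk1 hk2
  have hYL : L₀ ≤ Y := (le_max_left _ _).trans ((le_max_left _ _).trans hY)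
  have hYY : Y₁ ≤ Y := (le_max_right _ _).trans ((le_max_left _ _).trans hY)
  have hY100 : 100 ≤ Y := (le_max_right _ _).trans hY
  have hY0 : 0 < Y := by linarith
  have hcm : Pool.Agent.helper24_UT.CM f := ⟨hf.one, hf.mul, hf.norm_le⟩
  have hP : (0 : ℝ) < Y ^ (D + 2) := by positivity
  -- initial sums
  have hS : ∀ N : ℕ, lo d - 1 ≤ N → N < hi d → ‖mu2 f k N‖ ≤
      2 * Real.exp ((d : ℝ) / 20) / Y ^ (D + 2) := by
    intro N hN1 hN2
    have hN1' : Real.exp (Y / 10) ≤ (N : ℝ) := by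
      have h1 := le_lo d
      have h2 : ((lo d - 1 : ℕ) : ℝ) ≤ N := by exact_mod_cast hN1
      rw [Nat.cast_sub (one_le_lo d)] at h2
      push_cast at h2
      have h3 : 2 * Real.exp (Y / 10) ≤ Real.exp (((d : ℝ) - 1) / 20) := by
        have h4 : Real.exp (Y / 10 + 1) ≤ Real.exp (((d : ℝ) - 1) / 20) :=
          Real.exp_le_exp.2 (by linarith)
        rw [Real.exp_add] at h4
        have h5 := Real.exp_one_gt_d9
        have h6 := Real.exp_pos (Y / 10)
        nlinarith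
      have h7 : 1 ≤ Real.exp (Y / 10) := Real.one_le_exp (by positivity)
      linarith
    have hN5 := le_of_lt_hi hN2
    have hN2' : (N : ℝ) ≤ Real.exp Y := hN5.trans (Real.exp_le_exp.2 (by linarith))
    have hkk1 : Y ^ K₂ ≤ |((k : ℤ) : ℝ)| := (hY₁ Y hYY).trans hk1
    have hkk2 : |((k : ℤ) : ℝ)| ≤ Real.exp ((9 : ℕ) * Y) :=
      hk2.trans (Real.exp_le_exp.2 (by push_cast; linarith))
    have h1 := h Y hYL q hq hqB f hcm hper (k : ℝ) hkk1 hkk2 N (by
      have : Y / (((9 : ℕ) : ℝ) + 1) = Y / 10 := by norm_num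
      rw [this]; exact hN1') hN2'
    have h2 : ∑ n ∈ Icc 1 N, ((ArithmeticFunction.moebius n : ℤ) : ℂ) * f n *
        Pool.Agent.helper24_UT.tw (k : ℝ) n = mu2 f k N := by
      unfold mu2
      exact sum_congr rfl fun n _ => by rw [tw_ch]
    rw [h2] at h1
    refine h1.trans ?_
    apply div_le_div_of_nonneg_right _ hP.le
    have h7 : Real.exp (((d : ℝ) + 1) / 20) = Real.exp (1 / 20) * Real.exp ((d : ℝ) / 20) := by
      rw [← Real.exp_add]
      congr 1
      ring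
    have h8 := exp_small (x := 1 / 20) (by norm_num)
    rw [h7] at hN5
    refine hN5.trans ?_
    gcongr
  set T := 2 * Real.exp ((d : ℝ) / 20) / Y ^ (D + 2) with hT
  have hT0 : 0 ≤ T := by positivity
  have hpart : ∀ m, lo d ≤ m → m ≤ hi d → ‖∑ n ∈ Ico (lo d) m,
    (((if n ≤ z then ((ArithmeticFunction.moebius n : ℤ) : ℝ) else 0 : ℝ)) : ℂ) * f n *
      ch k (Real.log n)‖ ≤ 2 * T := by
    intro m hm1 hm2
    have hl := one_le_lo d
    have hlh := lo_le_hi d
    rw [part_mu2 f k z (lo d) m (one_le_lo d) hm1]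
    split_ifs with h3
    · refine (norm_sub_le _ _).trans ?_
      have h1 := hS (min m (z + 1) - 1) (by
        have := le_min hm1 h3
        omega) (by
        have : min m (z + 1) ≤ m := min_le_left _ _
        have := le_min hm1 h3
        omega)
      have h2 := hS (lo d - 1) le_rfl (by omega)
      linarith
    · rw [norm_zero]
      positivity
  have h1 := PX_le_of_part0 f z d k (2 * T) (by positivity) hpart
  refine h1.trans ?_
  have hYD : (0 : ℝ) < Y ^ D := by positivity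
  have e : 100 * (2 * T) * Real.exp (-((d : ℝ) / 20)) = 400 / (Y ^ D * Y ^ 2) := by
    rw [hT, Real.exp_neg, pow_add]
    have := (Real.exp_pos ((d : ℝ) / 20)).ne'
    field_simp
    ring
  rw [e, div_le_div_iff₀ (by positivity) hYD]
  have : (400 : ℝ) ≤ Y ^ 2 := by nlinarith
  nlinarith

end Pool.Agent.H43.X6
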