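import Pool.Agent.H43.X6.Stm

/-!
# OPT6 (helper94): exponents
-/

set_option autoImplicit false

namespace Pool.Agent.H43.X6

theorem opt6 : S_OPT6 := by
  intro δ ε₀ hδ hδ1 hε hε1
  refine ⟨δ * ε₀ / 64, by positivity, ?_, ?_⟩
  · have : δ * ε₀ ≤ δ * 1 := by
      apply mul_le_mul_of_nonneg_left _ hδ.le
      linarith
    linarith
  intro lam ka al ki R hlam0 hlam hka hal hki0 hki hR hH hM
  set e := δ * ε₀ / 64 with he
  have he0 : 0 < e := by positivity
  have he1 : 64 * e = δ * ε₀ := by rw [he]; ring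
  have heδ : e ≤ δ / 6400 := by
    have : δ * ε₀ ≤ δ * (1 / 100) := mul_le_mul_of_nonneg_left hε1 hδ.le
    linarith
  have hkaδ : δ * ε₀ ≤ δ * ka := mul_le_mul_of_nonneg_left hka hδ.le
  have hka0 : 0 < ka := lt_of_lt_of_le hε hka
  by_cases h0 : (0.45 : ℝ) ≤ ka
  · linarith
  push Not at h0
  have hδka : δ * ka ≤ 1 / 100 * ka := mul_le_mul_of_nonneg_right hδ1 hka0.le
  have hδka0 : 0 < δ * ka := mul_pos hδ hka0
  set c := (1 + δ / 8) * ka with hc
  have hc1 : c = ka + δ * ka / 8 := by rw [hc]; ring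
  have hc0 : 0 < c := by rw [hc1]; linarith
  have hc46 : c ≤ 0.46 := by rw [hc1]; linarith
  have hkic : ki ≤ c * al := hki
  by_cases h1 : (0.45 : ℝ) ≤ al
  · have h2 := hH (by linarith)
    have h3 : 0 ≤ (al - 0.45) * (1 - 2 * c) := mul_nonneg (by linarith) (by linarith)
    have h4 : R ≤ lam - 2 * al + 4 * (c * al) + e := by linarith
    have h5 : (al - 0.45) * (1 - 2 * c) = al - 2 * (c * al) - 0.45 + 0.9 * c := by ring
    rw [h5] at h3
    linarith
  push Not at h1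
  set a₀ := 2 / 3 - δ with ha₀
  have ha₀p : 0 < a₀ := by rw [ha₀]; linarith
  set m := ⌈a₀ / al⌉₊ with hm
  have hmpos : 0 < a₀ / al := div_pos ha₀p hal
  have hm1 : 1 ≤ m := by
    rw [hm]; exact Nat.one_le_iff_ne_zero.mpr (by simpa [Nat.ceil_eq_zero] using hmpos)
  have hmle : a₀ / al ≤ m := Nat.le_ceil _
  have hmlt : (m : ℝ) < a₀ / al + 1 := Nat.ceil_lt_add_one hmpos.le
  have ha1 : a₀ ≤ m * al := by
    rwa [div_le_iff₀ hal] at hmle
  have ha2 : m * al < a₀ + al := by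
    have : (m : ℝ) * al < (a₀ / al + 1) * al := mul_lt_mul_of_pos_right hmlt hal
    have h' : (a₀ / al + 1) * al = a₀ + al := by field_simp
    rwa [h'] at this
  have ha3 : m * al ≤ 1 - δ := by
    by_cases h3 : al ≤ 1 / 3
    · rw [ha₀] at ha2; linarith
    · push Not at h3
      have hm2 : m ≤ 2 := by
        rw [hm, Nat.ceil_le, div_le_iff₀ hal]
        push_cast
        rw [ha₀]; linarith
      have hm2' : (m : ℝ) ≤ 2 := by exact_mod_cast hm2
      have : (m : ℝ) * al ≤ 2 * al := mul_le_mul_of_nonneg_right hm2' hal.le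
      linarith
  have hm2 : (m : ℝ) ≤ 2 / al := by
    rw [le_div_iff₀ hal]
    rw [ha₀] at ha2; linarith
  obtain ⟨hA, hB⟩ := hM m hm1 hm2
  set a := (m : ℝ) * al with ha
  have hmki : (m : ℝ) * ki ≤ c * a := by
    have : (m : ℝ) * ki ≤ m * (c * al) := mul_le_mul_of_nonneg_left hkic (Nat.cast_nonneg m)
    calc (m : ℝ) * ki ≤ m * (c * al) := this
      _ = c * a := by rw [ha]; ring
  have hca : c * a ≤ c * (1 - δ) := mul_le_mul_of_nonneg_left ha3 hc0.le
  have hδ2ka : 0 ≤ δ * (δ * ka) := by positivity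
  have h2m : 2 * m * ki ≤ 2 * ka - 2 * e := by
    have h4 : c * (1 - δ) = ka + δ * ka / 8 - δ * ka - δ * (δ * ka) / 8 := by rw [hc]; ring
    have h5 : 2 * m * ki = 2 * (m * ki) := by ring
    rw [h5]
    linarith
  by_cases h4 : (1 / 4 : ℝ) ≤ ka
  · have h5 : lam - m * al + 2 * m * ki ≤ 2 * ka - 2 * e := by
      have h6 : lam - m * al + 2 * m * ki = lam - a + 2 * (m * ki) := by rw [ha]; ring
      rw [h6]
      have h7 : 0 ≤ (a - a₀) * (1 - 2 * c) := mul_nonneg (by linarith) (by linarith)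
      have h8 : (a - a₀) * (1 - 2 * c) = a - 2 * (c * a) - (2 / 3 - δ) + 2 * (2 / 3 - δ) * c := by
        rw [ha₀]; ring
      rw [h8] at h7
      have h9 : 2 * (2 / 3 - δ) * c = 4 / 3 * ka + δ * ka / 6 - 2 * (δ * ka) - δ * (δ * ka) / 4 := by
        rw [hc]; ring
      rw [h9] at h7
      linarith
    have h6 := max_le h2m h5
    linarith
  · push Not at h4
    have h5 : lam - 2 * m * al + 6 * m * ki ≤ 2 * ka - 2 * e := by
      have h6 : lam - 2 * m * al + 6 * m * ki = lam - 2 * a + 6 * (m * ki) := by rw [ha]; ring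
      rw [h6]
      have h7 : 0 ≤ (a - a₀) * (2 - 6 * c) := mul_nonneg (by linarith) (by rw [hc1]; linarith)
      have h8 : (a - a₀) * (2 - 6 * c) = 2 * a - 6 * (c * a) - 2 * (2 / 3 - δ) + 6 * (2 / 3 - δ) * c := by
        rw [ha₀]; ring
      rw [h8] at h7
      have h9 : 6 * (2 / 3 - δ) * c = 4 * ka + δ * ka / 2 - 6 * (δ * ka) - 3 / 4 * (δ * (δ * ka)) := by
        rw [hc]; ring
      rw [h9] at h7
      have h10 : δ * (1 / 4 - ka) ≤ 1 / 100 * (1 / 4 - ka) := mul_le_mul_of_nonneg_right hδ1 (by linarith)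
      have h11 : 0 ≤ δ * (1 / 4 - ka) := mul_nonneg hδ.le (by linarith)
      have h12 : δ * (1 / 4 - ka) = δ / 4 - δ * ka := by ring
      rw [h12] at h10 h11
      linarith
    have h6 := max_le h2m h5
    linarith

end Pool.Agent.H43.X6
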