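import Pool.Agent.H43.X6.Stm
import Pool.Agent.H43.G.R_pool_sql_team_seeded_3997aac3.Q38.KT.PSN

/-!
# Project X6, job PSNC (helper92): Poisson's formula for a smooth factor in a class
-/

set_option autoImplicit false

namespace Pool.Agent.H43.X6

open Finset Pool.Agent.H376R2.MR Pool.Agent.Q240.KS Pool.Agent.Q240.KT MeasureTheory
open Pool.Agent.Q14.KS (EP am fs fs_pos fs_neg fs_small fs_large fs_cont fs_fourier int_am)
open Pool.Agent.Q38.KT (psn_neg)

namespace Psn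

theorem e1_norm (x : ℝ) : ‖e1 x‖ = 1 := by
  unfold e1
  exact Complex.norm_exp_ofReal_mul_I _

/-- the positive frequencies -/
theorem psn_pos' {p q τ s₀ : ℝ} (hτ : 0 < τ) {ξ : ℝ} (hξ0 : 0 < ξ) :
    ‖∫ s in (s₀ - 1 / 20)..(s₀ + 1 / 20), (am 20 p q s₀ s : ℂ) * EP τ (2 * Real.pi * ξ) s‖ ≤
      2700 * (|p| + |q|) * Real.exp 2 * Real.exp (-(2 * s₀)) * (1 / ξ ^ 2) := by
  have hB : 0 < ξ * Real.exp (s₀ - 1) := mul_pos hξ0 (Real.exp_pos _)
  have hpi : 3 < Real.pi := Real.pi_gt_three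
  have h1 : ∀ s, 0 < 2 * Real.pi * ξ * Real.exp s := fun s => by positivity
  have h2 := int_am (p := p) (q := q) (τ := τ) (κ := 2 * Real.pi * ξ) (s₀ := s₀) (β := 20)
    (by norm_num) le_rfl hB (fun s hs => by
      have h4 : Real.exp (s₀ - 1) ≤ Real.exp s := Real.exp_le_exp.2 hs
      rw [abs_of_pos (by linarith [h1 s])]
      have h5 : ξ * Real.exp (s₀ - 1) ≤ ξ * Real.exp s := by gcongr
      have h6 : 0 < ξ * Real.exp s := mul_pos hξ0 (Real.exp_pos _)
      nlinarith) (fun s hs => by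
      rw [abs_of_pos (h1 s), abs_of_pos (by linarith [h1 s])]
      linarith [h1 s])
  refine h2.trans (le_of_eq ?_)
  have e1 : (ξ * Real.exp (s₀ - 1)) ^ 2 = ξ ^ 2 * Real.exp (2 * s₀ - 2) := by
    rw [mul_pow, ← Real.exp_nat_mul]
    congr 2
    push_cast
    ring
  have e2 : Real.exp 2 * Real.exp (-(2 * s₀)) = (Real.exp (2 * s₀ - 2))⁻¹ := by
    rw [← Real.exp_add, ← Real.exp_neg]
    congr 1
    ring
  rw [e1, mul_assoc (2700 * (|p| + |q|)), e2]
  have := (Real.exp_pos (2 * s₀ - 2)).ne'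
  field_simp

open FourierTransform in
/-- the Fourier transform of `x ↦ f (m x + a)` -/
theorem fourier_affine (f : ℝ → ℂ) {m a : ℝ} (hm : 0 < m) (ξ : ℝ) :
    𝓕 (fun x : ℝ => f (m * x + a)) ξ = (1 / (m : ℂ)) * e1 (a * ξ / m) * 𝓕 f (ξ / m) := by
  rw [Real.fourier_real_eq_integral_exp_smul, Real.fourier_real_eq_integral_exp_smul]
  obtain ⟨h, hh⟩ : ∃ h : ℝ → ℂ, h = fun u : ℝ =>
    Complex.exp (↑(-2 * Real.pi * ((u - a) / m) * ξ) * Complex.I) • f u := ⟨_, rfl⟩
  have e0 : ∀ v : ℝ, Complex.exp (↑(-2 * Real.pi * v * ξ) * Complex.I) • f (m * v + a) =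
      (fun y => h (y + a)) (m * v) := by
    intro v
    simp only [hh]
    congr 3
    push_cast
    have : (m : ℂ) ≠ 0 := by exact_mod_cast hm.ne'
    field_simp
    ring
  simp only [e0]
  rw [Measure.integral_comp_mul_left (fun y => h (y + a)) m, integral_add_right_eq_self h a,
    abs_of_pos (inv_pos.2 hm), Complex.real_smul]
  have e3 : ∀ u : ℝ, h u = e1 (a * ξ / m) *
      (Complex.exp (↑(-2 * Real.pi * u * (ξ / m)) * Complex.I) • f u) := by
    intro u
    simp only [hh, e1, smul_eq_mul]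
    rw [← mul_assoc, ← Complex.exp_add]
    congr 2
    push_cast
    have : (m : ℂ) ≠ 0 := by exact_mod_cast hm.ne'
    field_simp
    ring
  simp only [e3]
  rw [integral_const_mul]
  push_cast
  rw [one_div, mul_assoc]

open FourierTransform in
/-- Poisson's formula in a class with the main terms kept -/
theorem psnc_gen : ∃ C : ℝ, 0 ≤ C ∧ ∀ (p q τ T : ℝ) (m a d : ℕ), 1 ≤ m → a < m → 1 ≤ T → T ≤ τ →
    τ ≤ 2 * T →
    ‖(∑ n ∈ (Icc 1 ⌊Real.exp ((d : ℝ) / 20 + 1 / 20)⌋₊).filter (fun n => n % m = a),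
      (((p + q * (Real.log n - (d : ℝ) / 20)) * w (20 * (Real.log n - (d : ℝ) / 20)) / n : ℝ) : ℂ) *
        er (-τ) (Real.log n)) - ∑ j ∈ Icc 1 ⌊2 * m * T * Real.exp (-((d : ℝ) / 20))⌋₊,
        (1 / (m : ℂ)) * e1 (-((j : ℝ) * a / m)) *
        ∫ s in ((d : ℝ) / 20 - 1 / 20)..((d : ℝ) / 20 + 1 / 20),
          (am 20 p q ((d : ℝ) / 20) s : ℂ) * EP τ (2 * Real.pi * (-((j : ℝ) / m))) s‖ ≤
      C * (|p| + |q|) * (1 / T ^ 2 + (m : ℝ) ^ 2 * Real.exp (-(2 * ((d : ℝ) / 20)))) := by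
  classical
  obtain ⟨Z, hZ⟩ : ∃ Z : ℝ, Z = (∑' n : ℤ, 1 / (n : ℝ) ^ 2 : ℝ) := ⟨_, rfl⟩
  have hZs : Summable fun n : ℤ => 1 / (n : ℝ) ^ 2 := Real.summable_one_div_int_pow.2 one_lt_two
  have hZ0 : 0 ≤ Z := by rw [hZ]; exact tsum_nonneg fun n => by positivity
  refine ⟨2700 * (1 + Real.exp 2 * Z), by positivity, ?_⟩
  intro p q τ T m a d hm ham hT hTτ hτT
  obtain ⟨s₀, hs₀⟩ : ∃ s₀ : ℝ, s₀ = (d : ℝ) / 20 := ⟨_, rfl⟩
  rw [← hs₀]
  have hτ0 : 0 < τ := by linarith
  have hm1 : (1 : ℝ) ≤ m := by exact_mod_cast hm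
  have hm0 : (0 : ℝ) < m := by linarith
  have hmc : (m : ℂ) ≠ 0 := by exact_mod_cast (by omega : m ≠ 0)
  have hpq : 0 ≤ |p| + |q| := by positivity
  have h120 : (1 : ℝ) ≤ 20 := by norm_num
  -- the kept frequencies
  obtain ⟨N, hN⟩ : ∃ N : ℕ, N = ⌊2 * m * T * Real.exp (-s₀)⌋₊ := ⟨_, rfl⟩
  rw [← hN]
  set Q : Finset ℤ := (Icc 1 N).image (fun j : ℕ => -(j : ℤ)) with hQ
  obtain ⟨g, hg⟩ : ∃ g : ℝ → ℂ, g = fun x : ℝ => fs 20 p q s₀ τ ((m : ℝ) * x + a) := ⟨_, rfl⟩
  obtain ⟨F, hF⟩ : ∃ F : ℤ → ℂ, F = fun n : ℤ => 𝓕 g n := ⟨_, rfl⟩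
  have hF' : ∀ n : ℤ, F n = (1 / (m : ℂ)) * e1 (a * n / m) * ∫ s in (s₀ - 1 / 20)..(s₀ + 1 / 20),
      (am 20 p q s₀ s : ℂ) * EP τ (2 * Real.pi * (n / m)) s := by
    intro n
    rw [hF, hg]
    simp only
    rw [fourier_affine _ hm0, fs_fourier h120]
    push_cast
    rfl
  have hFn : ∀ n : ℤ, ‖F n‖ ≤ ‖∫ s in (s₀ - 1 / 20)..(s₀ + 1 / 20),
      (am 20 p q s₀ s : ℂ) * EP τ (2 * Real.pi * (n / m)) s‖ := by
    intro n
    rw [hF', norm_mul, norm_mul, e1_norm, mul_one, norm_div, norm_one, Complex.norm_natCast]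
    exact mul_le_of_le_one_left (norm_nonneg _) (by rw [div_le_one hm0]; exact hm1)
  -- the bound
  obtain ⟨G, hG⟩ : ∃ G : ℤ → ℝ, G = fun n : ℤ => (if n = 0 then 2700 * (|p| + |q|) / T ^ 2 else 0) +
    2700 * (|p| + |q|) * Real.exp 2 * ((m : ℝ) ^ 2 * Real.exp (-(2 * s₀))) * (1 / (n : ℝ) ^ 2) :=
    ⟨_, rfl⟩
  have hGa : HasSum (fun n : ℤ => if n = 0 then 2700 * (|p| + |q|) / T ^ 2 else 0)
      (2700 * (|p| + |q|) / T ^ 2) := hasSum_ite_eq 0 _
  have hGb : HasSum (fun n : ℤ => 2700 * (|p| + |q|) * Real.exp 2 *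
      ((m : ℝ) ^ 2 * Real.exp (-(2 * s₀))) * (1 / (n : ℝ) ^ 2))
      (2700 * (|p| + |q|) * Real.exp 2 * ((m : ℝ) ^ 2 * Real.exp (-(2 * s₀))) * Z) := by
    rw [hZ]
    exact hZs.hasSum.mul_left _
  have hGs : HasSum G (2700 * (|p| + |q|) / T ^ 2 +
      2700 * (|p| + |q|) * Real.exp 2 * ((m : ℝ) ^ 2 * Real.exp (-(2 * s₀))) * Z) := by
    rw [hG]
    exact hGa.add hGb
  have hGn : ∀ n, 0 ≤ G n := by
    intro n
    rw [hG]
    simp only
    split_ifs <;> positivity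
  obtain ⟨F1, hF1⟩ : ∃ F1 : ℤ → ℂ, F1 = fun n : ℤ => if n ∈ Q then 0 else F n := ⟨_, rfl⟩
  obtain ⟨F2, hF2⟩ : ∃ F2 : ℤ → ℂ, F2 = fun n : ℤ => if n ∈ Q then F n else 0 := ⟨_, rfl⟩
  have hF1G : ∀ n : ℤ, ‖F1 n‖ ≤ G n := by
    intro n
    rw [hF1]
    simp only
    split_ifs with hn
    · rw [norm_zero]
      exact hGn n
    · refine (hFn n).trans ?_
      rw [hG]
      simp only
      rcases lt_trichotomy n 0 with hneg | h0 | hpos
      · -- negative, not kept
        rw [if_neg hneg.ne, zero_add]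
        obtain ⟨j, hj⟩ : ∃ j : ℕ, n = -(j : ℤ) := ⟨n.natAbs, by omega⟩
        have hj1 : 1 ≤ j := by omega
        have hjN : N < j := by
          by_contra hcon
          push Not at hcon
          apply hn
          rw [hQ, mem_image]
          exact ⟨j, mem_Icc.2 ⟨hj1, hcon⟩, hj.symm⟩
        have hjx : 2 * m * T * Real.exp (-s₀) < j := by
          rw [hN] at hjN
          exact Nat.lt_of_floor_lt hjN
        have hj0 : (0 : ℝ) < j := by exact_mod_cast hj1
        have hle : τ ≤ ((j : ℝ) / m) * Real.exp s₀ := by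
          have h1 : 2 * T = 2 * m * T * Real.exp (-s₀) / m * Real.exp s₀ := by
            rw [Real.exp_neg]
            have := (Real.exp_pos s₀).ne'
            field_simp
          have h2 : 2 * m * T * Real.exp (-s₀) / m * Real.exp s₀ ≤ ((j : ℝ) / m) * Real.exp s₀ := by
            gcongr
          linarith
        have h3 := psn_neg (p := p) (q := q) (s₀ := s₀) hτ0 (div_pos hj0 hm0) hle
        have e1 : (n : ℝ) / m = -((j : ℝ) / m) := by rw [hj]; push_cast; ring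
        rw [e1]
        refine h3.trans (le_of_eq ?_)
        rw [hj]
        push_cast
        field_simp
      · rw [if_pos h0, h0]
        have h1 := int_am (p := p) (q := q) (τ := τ) (κ := 2 * Real.pi * (((0 : ℤ) : ℝ) / m))
          (s₀ := s₀)
          (B := T) (β := 20) h120 le_rfl (by linarith) (fun s _ => by
            rw [Int.cast_zero, zero_div, mul_zero, zero_mul, add_zero, abs_of_pos hτ0]
            exact hTτ) (fun s _ => by
            rw [Int.cast_zero, zero_div, mul_zero, zero_mul, add_zero, abs_zero]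
            positivity)
        refine h1.trans ?_
        rw [Int.cast_zero]
        have : 2700 * (|p| + |q|) * Real.exp 2 * ((m : ℝ) ^ 2 * Real.exp (-(2 * s₀))) *
          (1 / (0 : ℝ) ^ 2) = 0 := by simp
        rw [this, add_zero]
      · rw [if_neg hpos.ne', zero_add]
        have hξ : (0 : ℝ) < (n : ℝ) := by exact_mod_cast hpos
        refine (psn_pos' hτ0 (div_pos hξ hm0)).trans (le_of_eq ?_)
        field_simp
  have hF1s : Summable F1 := Summable.of_norm_bounded hGs.summable hF1G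
  have hF2s : HasSum F2 (∑ n ∈ Q, F2 n) := hasSum_sum_of_ne_finset_zero fun n hn => by
    rw [hF2]
    exact if_neg hn
  have hF12 : ∀ n, F n = F1 n + F2 n := by
    intro n
    rw [hF1, hF2]
    simp only
    split_ifs <;> simp
  have hFs : Summable F := by
    have : F = fun n => F1 n + F2 n := funext hF12
    rw [this]
    exact hF1s.add hF2s.summable
  have hgc : Continuous g := by
    rw [hg]
    exact (fs_cont h120).comp (by fun_prop)
  have hO : g =O[Filter.cocompact ℝ] fun x : ℝ => |x| ^ (-2 : ℝ) := by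
    have h1 : g =ᶠ[Filter.cocompact ℝ] fun _ => 0 := by
      refine Filter.mem_cocompact.2 ⟨Set.Icc (-a / m) (Real.exp (s₀ + 1 / 20)), isCompact_Icc, ?_⟩
      intro x hx
      rw [Set.mem_compl_iff, Set.mem_Icc, not_and_or, not_le, not_le] at hx
      show g x = 0
      rw [hg]
      rcases hx with h | h
      · refine fs_neg ?_
        rw [lt_div_iff₀ hm0] at h
        linarith
      · refine fs_large h120 ?_
        have h3 : 0 < x := (Real.exp_pos _).trans h
        have h2 : x ≤ (m : ℝ) * x := le_mul_of_one_le_left h3.le hm1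
        have h4 : (0 : ℝ) ≤ a := Nat.cast_nonneg _
        linarith
    exact (Asymptotics.isBigO_zero _ _).congr' h1.symm (Filter.EventuallyEq.refl _ _)
  have hP := Real.tsum_eq_tsum_fourier_of_rpow_decay_of_summable
    hgc one_lt_two hO (by rw [hF] at hFs; exact hFs) 0
  have hS : ∑ n ∈ (Icc 1 ⌊Real.exp (s₀ + 1 / 20)⌋₊).filter (fun n => n % m = a),
      (((p + q * (Real.log n - s₀)) * w (20 * (Real.log n - s₀)) / n : ℝ) : ℂ) * er (-τ) (Real.log n) =
      ∑' n : ℤ, g (0 + n) := by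
    have h1 : ∑' n : ℤ, g (0 + n) =
        ∑ n ∈ ((Icc 1 ⌊Real.exp (s₀ + 1 / 20)⌋₊).filter (fun n => n % m = a)).image
          (fun n : ℕ => ((n / m : ℕ) : ℤ)), g (0 + (n : ℤ)) := by
      refine tsum_eq_sum fun n hn => ?_
      rw [zero_add, hg]
      simp only
      by_cases h0 : n < 0
      · refine fs_neg ?_
        have h2 : (n : ℝ) ≤ -1 := by exact_mod_cast (by omega : n ≤ -1)
        have h3 : (a : ℝ) ≤ m := by exact_mod_cast ham.le
        nlinarith
      · push Not at h0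
        obtain ⟨i, rfl⟩ : ∃ i : ℕ, n = (i : ℤ) := ⟨n.toNat, by omega⟩
        have e : (m : ℝ) * ((i : ℤ) : ℝ) + a = ((m * i + a : ℕ) : ℝ) := by push_cast; rfl
        rw [e]
        by_cases hz : m * i + a = 0
        · rw [hz]
          exact fs_neg (by simp)
        · refine fs_large h120 ?_
          by_contra hcon
          push Not at hcon
          refine hn ?_
          rw [mem_image]
          refine ⟨m * i + a, ?_, ?_⟩
          · rw [mem_filter, mem_Icc]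
            refine ⟨⟨by omega, Nat.le_floor hcon.le⟩, ?_⟩
            rw [Nat.mul_add_mod, Nat.mod_eq_of_lt ham]
          · have : (m * i + a) / m = i := by
              rw [Nat.mul_add_div (by omega), Nat.div_eq_of_lt ham, add_zero]
            exact_mod_cast this
    rw [h1, sum_image]
    · refine sum_congr rfl fun n hn => ?_
      rw [mem_filter, mem_Icc] at hn
      have hn0 : (0 : ℝ) < n := by exact_mod_cast hn.1.1
      rw [hg]
      simp only
      have e : (m : ℝ) * (0 + (((n / m : ℕ) : ℤ) : ℝ)) + a = (n : ℝ) := by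
        rw [zero_add]
        have h2 := Nat.div_add_mod n m
        rw [hn.2] at h2
        exact_mod_cast h2
      rw [e, fs_pos hn0]
      rfl
    · intro i hi j hj hij
      rw [mem_coe, mem_filter] at hi hj
      simp only at hij
      have h2 : i / m = j / m := by exact_mod_cast hij
      rw [← Nat.div_add_mod i m, ← Nat.div_add_mod j m, h2, hi.2, hj.2]
  rw [hS, hP]
  have hfo : ∀ n : ℤ, 𝓕 g n * fourier n ((0 : ℝ) : UnitAddCircle) = F n := by
    intro n
    have : fourier n ((0 : ℝ) : UnitAddCircle) = 1 := by simp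
    rw [this, mul_one, hF]
  simp only [hfo]
  have hkeep : ∑ n ∈ Q, F2 n = ∑ j ∈ Icc 1 N, (1 / (m : ℂ)) * e1 (-((j : ℝ) * a / m)) *
      ∫ s in (s₀ - 1 / 20)..(s₀ + 1 / 20), (am 20 p q s₀ s : ℂ) *
        EP τ (2 * Real.pi * (-((j : ℝ) / m))) s := by
    have h1 : ∑ n ∈ Q, F2 n = ∑ n ∈ Q, F n := by
      refine sum_congr rfl fun n hn => ?_
      rw [hF2]
      exact if_pos hn
    rw [h1, hQ, sum_image]
    · refine sum_congr rfl fun j _ => ?_
      rw [hF']
      push_cast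
      rw [show (a : ℝ) * -(j : ℝ) / m = -((j : ℝ) * a / m) by ring,
        show -(j : ℝ) / (m : ℝ) = -((j : ℝ) / m) by ring]
    · intro i _ j _ hij
      simp only at hij
      omega
  have hsplit : ∑' n : ℤ, F n = ∑' n : ℤ, F1 n + ∑ n ∈ Q, F2 n := by
    rw [← hF2s.tsum_eq, ← hF1s.tsum_add hF2s.summable]
    exact tsum_congr hF12
  rw [hsplit, hkeep, add_sub_cancel_right]
  refine (tsum_of_norm_bounded hGs hF1G).trans ?_
  obtain ⟨E, hE⟩ : ∃ E : ℝ, E = (m : ℝ) ^ 2 * Real.exp (-(2 * s₀)) := ⟨_, rfl⟩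
  rw [← hE]
  have e1 : 0 ≤ E := by rw [hE]; positivity
  have e2 : 2700 * (1 + Real.exp 2 * Z) * (|p| + |q|) * (1 / T ^ 2 + E) =
      2700 * (|p| + |q|) / T ^ 2 + 2700 * (|p| + |q|) * Real.exp 2 * E * Z +
      (2700 * (|p| + |q|) * E +
        2700 * (|p| + |q|) * (Real.exp 2 * Z) * (1 / T ^ 2)) := by ring
  rw [e2]
  have e3 : 0 ≤ 2700 * (|p| + |q|) * E +
      2700 * (|p| + |q|) * (Real.exp 2 * Z) * (1 / T ^ 2) := by
    positivity
  linarith

end Psn

open Psn in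
theorem psnc : S_PSNC := by
  obtain ⟨C, hC0, hC⟩ := psnc_gen
  refine ⟨1 + C * 401, by linarith, ?_⟩
  intro m a z t d T k ht hm ham hT hTk hkT hd
  have hd0 : (0 : ℝ) ≤ d := Nat.cast_nonneg d
  have hm1 : (1 : ℝ) ≤ m := by exact_mod_cast hm
  set p : ℝ := if t = 1 then 1 else (d : ℝ) / 20 with hp
  set q : ℝ := if t = 1 then 0 else 1 with hq
  have hpq : |p| + |q| ≤ 1 + d := by
    rw [hp, hq]
    split_ifs
    · rw [abs_one, abs_zero]
      linarith
    · rw [abs_one, abs_of_nonneg (by positivity)]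
      linarith
  have h1 := hC p q k T m a d hm ham hT hTk hkT
  -- the factor
  have e1' : PC m a z t d k = ∑ n ∈ (Icc 1 ⌊Real.exp ((d : ℝ) / 20 + 1 / 20)⌋₊).filter
      (fun n => n % m = a),
      (((p + q * (Real.log n - (d : ℝ) / 20)) * w (20 * (Real.log n - (d : ℝ) / 20)) / n : ℝ) : ℂ) *
        er (-(k : ℝ)) (Real.log n) := by
    unfold PC DP sp
    have e2 : ((d : ℝ) + 1) / 20 = (d : ℝ) / 20 + 1 / 20 := by ring
    rw [e2]
    refine sum_congr rfl fun n _ => ?_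
    have e3 : ch k (Real.log n) = er (-(k : ℝ)) (Real.log n) := by
      unfold ch er
      congr 1
      push_cast
      ring
    have e4 : cf z t d n = (p + q * (Real.log n - (d : ℝ) / 20)) *
        w (20 * (Real.log n - (d : ℝ) / 20)) / n := by
      unfold cf
      rw [if_neg ht]
      have e5 : 20 * (Real.log n - (d : ℝ) / 20) = 20 * Real.log n - d := by ring
      rw [e5]
      congr 2
      rw [hp, hq]
      split_ifs
      · ring
      · ring
    rw [e3, ← e4]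
  have e6 : ∑ j ∈ Icc 1 ⌊2 * m * T * Real.exp (-((d : ℝ) / 20))⌋₊,
      (1 / (m : ℂ)) * e1 (-((j : ℝ) * a / m)) *
      ∫ s in ((d : ℝ) / 20 - 1 / 20)..((d : ℝ) / 20 + 1 / 20),
        ((am20 p q ((d : ℝ) / 20) s : ℝ) : ℂ) * ep k (-(2 * Real.pi * ((j : ℝ) / m))) s =
      ∑ j ∈ Icc 1 ⌊2 * m * T * Real.exp (-((d : ℝ) / 20))⌋₊,
        (1 / (m : ℂ)) * e1 (-((j : ℝ) * a / m)) *
        ∫ s in ((d : ℝ) / 20 - 1 / 20)..((d : ℝ) / 20 + 1 / 20),
          (am 20 p q ((d : ℝ) / 20) s : ℂ) * EP k (2 * Real.pi * (-((j : ℝ) / m))) s := by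
    refine sum_congr rfl fun j _ => ?_
    have e7 : -(2 * Real.pi * ((j : ℝ) / m)) = 2 * Real.pi * (-((j : ℝ) / m)) := by ring
    rw [e7]
    rfl
  rw [e6, e1']
  refine h1.trans ?_
  have e8 : Real.exp (-(2 * ((d : ℝ) / 20))) = Real.exp (-((d : ℝ) / 10)) := by
    congr 1
    ring
  rw [e8]
  have hT0 : 0 < T := by linarith
  have e9 : 1 / T ^ 2 ≤ 400 * (m : ℝ) ^ 2 * Real.exp (-((d : ℝ) / 10)) := by
    have h2 : Real.exp ((d : ℝ) / 10) ≤ 400 * (m : ℝ) ^ 2 * T ^ 2 := by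
      have h3 : Real.exp ((d : ℝ) / 10) = Real.exp ((d : ℝ) / 20) ^ 2 := by
        rw [← Real.exp_nat_mul]
        congr 1
        push_cast
        ring
      rw [h3]
      calc Real.exp ((d : ℝ) / 20) ^ 2 ≤ (20 * m * T) ^ 2 := by gcongr
        _ = _ := by ring
    rw [Real.exp_neg, div_le_iff₀ (by positivity)]
    have h4 : 0 < Real.exp ((d : ℝ) / 10) := Real.exp_pos _
    rw [mul_right_comm, ← div_eq_mul_inv, le_div_iff₀ h4, one_mul]
    exact h2
  have hexp : 0 ≤ Real.exp (-((d : ℝ) / 10)) := (Real.exp_pos _).le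
  calc C * (|p| + |q|) * (1 / T ^ 2 + (m : ℝ) ^ 2 * Real.exp (-((d : ℝ) / 10)))
      ≤ C * (1 + d) * (400 * (m : ℝ) ^ 2 * Real.exp (-((d : ℝ) / 10)) +
        (m : ℝ) ^ 2 * Real.exp (-((d : ℝ) / 10))) := by gcongr
    _ = C * 401 * (m : ℝ) ^ 2 * (1 + d) * Real.exp (-((d : ℝ) / 10)) := by ring
    _ ≤ (1 + C * 401) * (m : ℝ) ^ 2 * (1 + d) * Real.exp (-((d : ℝ) / 10)) := by
        gcongr
        linarith

end Pool.Agent.H43.X6
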