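import Pool.Agent.H43.X6.Stm
import Pool.Agent.H43.G.R_pool_sql_team_seeded_3997aac3.Q198.KT.Rfl

/-! # Project X6, stub RFLC: reflection of the smooth factors in a class -/

set_option autoImplicit false

namespace Pool.Agent.H43.X6

open Finset Pool.Agent.H376R2.MR Pool.Agent.Q240.KS Pool.Agent.Q240.KT Pool.Agent.Q198.KT

namespace RFLC

theorem norm_e1 (x : ℝ) : ‖e1 x‖ = 1 := by
  unfold e1
  exact Complex.norm_exp_ofReal_mul_I _

theorem norm_ch (k : ℤ) (x : ℝ) : ‖ch k x‖ = 1 := by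
  unfold ch
  rw [show (-(((k : ℝ) * x : ℝ) : ℂ)) * Complex.I =
    ((-((k : ℝ) * x) : ℝ) : ℂ) * Complex.I by push_cast; ring]
  exact Complex.norm_exp_ofReal_mul_I _

/-- the coefficients at the point `r` -/
noncomputable def cc (q a : ℕ) (p₁ q₁ s₀ r : ℝ) (j : ℕ) : ℂ :=
  ((am20' p₁ q₁ s₀ (r - Real.log ((j : ℝ) / q)) : ℝ) : ℂ) * e1 (-((j : ℝ) * a / q))

theorem cc_bound (q a : ℕ) (p₁ q₁ s₀ r : ℝ) (j : ℕ) :
    ‖cc q a p₁ q₁ s₀ r j‖ ≤ 20 * |p₁| + 2 * |q₁| := by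
  unfold cc
  rw [norm_mul, norm_e1, mul_one, Complex.norm_real, Real.norm_eq_abs]
  exact am20'_bound _ _ _ _

/-- the polynomial at the point `r` -/
noncomputable def Gc (q a : ℕ) (p₁ q₁ s₀ : ℝ) (J : ℕ) (k : ℤ) (r : ℝ) : ℝ :=
  ‖DP (Icc 1 J) (cc q a p₁ q₁ s₀ r) (-k)‖

theorem Gc_int (q a : ℕ) (p₁ q₁ s₀ A B : ℝ) (J : ℕ) (k : ℤ) :
    IntervalIntegrable (Gc q a p₁ q₁ s₀ J k) MeasureTheory.volume A B := by
  have hb : ∀ r, ‖Gc q a p₁ q₁ s₀ J k r‖ ≤ ∑ j ∈ Icc 1 J, (20 * |p₁| + 2 * |q₁|) := by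
    intro r
    unfold Gc DP
    rw [norm_norm]
    refine (norm_sum_le _ _).trans (Finset.sum_le_sum fun j _ => ?_)
    rw [norm_mul, norm_ch, mul_one]
    exact cc_bound _ _ _ _ _ _ _
  have hm : MeasureTheory.AEStronglyMeasurable (Gc q a p₁ q₁ s₀ J k) MeasureTheory.volume := by
    apply Measurable.aestronglyMeasurable
    unfold Gc DP
    refine Measurable.norm ?_
    refine Finset.measurable_sum _ fun j _ => ?_
    refine Measurable.mul_const ?_ _
    unfold cc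
    refine Measurable.mul_const ?_ _
    exact Complex.measurable_ofReal.comp ((am20'_meas p₁ q₁ s₀).comp (by fun_prop))
  rw [intervalIntegrable_iff]
  exact MeasureTheory.Measure.integrableOn_of_bounded (by
    unfold Set.uIoc
    exact measure_Ioc_lt_top.ne) hm (Filter.Eventually.of_forall hb)

/-- the phase of a kept term -/
noncomputable def ph (q a : ℕ) (κ : ℝ) (j : ℕ) : ℂ :=
  (1 / (q : ℂ)) * e1 (-((j : ℝ) * a / q)) * Complex.exp (((κ * Real.log ((j : ℝ) / q) : ℝ) : ℂ) * Complex.I)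

/-- the sum of the kept terms -/
theorem kept (hI : S_IBPC) {M : ℝ} (q a : ℕ) (hq : 1 ≤ q) (p₁ q₁ s₀ κ A B : ℝ) (J : ℕ)
    (hM : ∀ r, ‖Ep κ r‖ ≤ M)
    (hA : ∀ j ∈ Icc 1 J, A ≤ s₀ - 1 / 20 + Real.log (((j : ℕ) : ℝ) / q))
    (hB : ∀ j ∈ Icc 1 J, s₀ + 1 / 20 + Real.log (((j : ℕ) : ℝ) / q) ≤ B) :
    ∑ j ∈ Icc 1 J, (1 / (q : ℂ)) * e1 (-((j : ℝ) * a / q)) * ∫ s in (s₀ - 1 / 20)..(s₀ + 1 / 20),
      ((am20 p₁ q₁ s₀ s : ℝ) : ℂ) * ep κ (-(2 * Real.pi * ((j : ℝ) / q))) s =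
    -∫ r in A..B, ∑ j ∈ Icc 1 J, ph q a κ j *
      (((am20' p₁ q₁ s₀ (r - Real.log ((j : ℝ) / q)) : ℝ) : ℂ) * Ep κ r) := by
  rw [intervalIntegral.integral_finsetSum, ← Finset.sum_neg_distrib]
  · refine Finset.sum_congr rfl fun j hj => ?_
    have hj1 : 1 ≤ j := (Finset.mem_Icc.1 hj).1
    have hj0 : (0 : ℝ) < (j : ℝ) / q := by positivity
    rw [hI p₁ q₁ s₀ κ ((j : ℝ) / q) hj0, intervalIntegral.integral_const_mul]
    have h1 := int_ext p₁ q₁ s₀ κ (Real.log ((j : ℝ) / q)) A B (hA j hj) (hB j hj)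
    rw [← h1]
    unfold ph Ep
    ring
  · intro j hj
    exact (int_term p₁ q₁ s₀ κ (Real.log ((j : ℝ) / q)) M A B hM).const_mul _

theorem kept_norm (hI : S_IBPC) {M : ℝ} (q a : ℕ) (hq : 1 ≤ q) (p₁ q₁ s₀ A B : ℝ) (J : ℕ) (k : ℤ)
    (hM : ∀ r, ‖Ep k r‖ ≤ M) (hAB : A ≤ B)
    (hA : ∀ j ∈ Icc 1 J, A ≤ s₀ - 1 / 20 + Real.log (((j : ℕ) : ℝ) / q))
    (hB : ∀ j ∈ Icc 1 J, s₀ + 1 / 20 + Real.log (((j : ℕ) : ℝ) / q) ≤ B) :
    ‖∑ j ∈ Icc 1 J, (1 / (q : ℂ)) * e1 (-((j : ℝ) * a / q)) * ∫ s in (s₀ - 1 / 20)..(s₀ + 1 / 20),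
      ((am20 p₁ q₁ s₀ s : ℝ) : ℂ) * ep k (-(2 * Real.pi * ((j : ℝ) / q))) s‖ ≤
      M * ∫ r in A..B, Gc q a p₁ q₁ s₀ J k r := by
  rw [kept hI q a hq p₁ q₁ s₀ k A B J hM hA hB, norm_neg]
  refine (intervalIntegral.norm_integral_le_integral_norm hAB).trans ?_
  rw [← intervalIntegral.integral_const_mul]
  have hq0 : (0 : ℝ) < q := by exact_mod_cast hq
  have key : ∀ r, ‖∑ j ∈ Icc 1 J, ph q a k j *
      (((am20' p₁ q₁ s₀ (r - Real.log ((j : ℝ) / q)) : ℝ) : ℂ) * Ep k r)‖ ≤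
      M * Gc q a p₁ q₁ s₀ J k r := by
    intro r
    have e : ∑ j ∈ Icc 1 J, ph q a k j *
        (((am20' p₁ q₁ s₀ (r - Real.log ((j : ℝ) / q)) : ℝ) : ℂ) * Ep k r) =
        ((1 / (q : ℂ)) * Complex.exp (((-((k : ℝ) * Real.log q) : ℝ) : ℂ) * Complex.I)) *
          (DP (Icc 1 J) (cc q a p₁ q₁ s₀ r) (-k) * Ep k r) := by
      unfold DP
      rw [Finset.sum_mul, Finset.mul_sum]
      refine Finset.sum_congr rfl fun j hj => ?_
      have hj1 : 1 ≤ j := (Finset.mem_Icc.1 hj).1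
      have hj0 : (0 : ℝ) < j := by exact_mod_cast hj1
      have h1 : Complex.exp ((((k : ℝ) * Real.log ((j : ℝ) / q) : ℝ) : ℂ) * Complex.I) =
          Complex.exp (((-((k : ℝ) * Real.log q) : ℝ) : ℂ) * Complex.I) * ch (-k) (Real.log j) := by
        unfold ch
        rw [← Complex.exp_add]
        congr 1
        rw [Real.log_div hj0.ne' hq0.ne']
        push_cast
        ring
      unfold ph cc
      rw [h1]
      ring
    rw [e, norm_mul, norm_mul, Complex.norm_exp_ofReal_mul_I, mul_one, norm_div, norm_one,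
      Complex.norm_natCast, norm_mul]
    have h2 : ‖DP (Icc 1 J) (cc q a p₁ q₁ s₀ r) (-k)‖ = Gc q a p₁ q₁ s₀ J k r := rfl
    rw [h2]
    have h3 : 0 ≤ Gc q a p₁ q₁ s₀ J k r := norm_nonneg _
    have h4 : (1 : ℝ) / q ≤ 1 := by
      rw [div_le_one hq0]
      exact_mod_cast hq
    have h5 : 0 ≤ Gc q a p₁ q₁ s₀ J k r * ‖Ep k r‖ := by positivity
    calc 1 / (q : ℝ) * (Gc q a p₁ q₁ s₀ J k r * ‖Ep k r‖)
        ≤ 1 * (Gc q a p₁ q₁ s₀ J k r * ‖Ep k r‖) := mul_le_mul_of_nonneg_right h4 h5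
      _ ≤ 1 * (Gc q a p₁ q₁ s₀ J k r * M) := by
          rw [one_mul, one_mul]
          exact mul_le_mul_of_nonneg_left (hM r) h3
      _ = _ := by ring
  refine intervalIntegral.integral_mono_on hAB ?_ ((Gc_int q a p₁ q₁ s₀ A B J k).const_mul M)
    fun r _ => key r
  apply IntervalIntegrable.norm
  have := IntervalIntegrable.sum (Icc 1 J) (μ := MeasureTheory.volume) (a := A) (b := B)
    (f := fun j r => ph q a k j *
      (((am20' p₁ q₁ s₀ (r - Real.log ((j : ℝ) / q)) : ℝ) : ℂ) * Ep k r))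
    (fun j _ => (int_term p₁ q₁ s₀ k (Real.log ((j : ℝ) / q)) M A B hM).const_mul _)
  have e : (fun r => ∑ j ∈ Icc 1 J, ph q a k j *
      (((am20' p₁ q₁ s₀ (r - Real.log ((j : ℝ) / q)) : ℝ) : ℂ) * Ep k r)) =
      ∑ j ∈ Icc 1 J, fun r => ph q a k j *
      (((am20' p₁ q₁ s₀ (r - Real.log ((j : ℝ) / q)) : ℝ) : ℂ) * Ep k r) := by
    funext r
    rw [Finset.sum_apply]
  rw [e]
  exact this

theorem fin_q {C₁ C₂ D ℓ x y U V q2 q3 S P : ℝ} (hC₁ : 0 ≤ C₁) (hC₂ : 0 ≤ C₂) (hD : 0 ≤ D)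
    (hℓ : 0 ≤ ℓ) (hx : 0 ≤ x) (_hy0 : 0 ≤ y) (hy : y ≤ 1 + ℓ) (hU : 0 ≤ U) (hV : 0 ≤ V)
    (hq3 : 1 ≤ q3) (hq23 : q2 ≤ q3) (hP : P = 50 * (1 + D) * U)
    (hS : S ≤ C₂ * x * (y * P) + C₁ * q2 * (1 + D) * V) :
    S ≤ (50 * C₂ + C₁) * q3 * (1 + D) * (1 + ℓ) * (x * U + V) := by
  have hq30 : 0 ≤ q3 := by linarith
  have h1 : C₂ * x * (y * P) ≤ 50 * C₂ * q3 * (1 + D) * (1 + ℓ) * (x * U) := by
    calc C₂ * x * (y * P) = 50 * C₂ * (1 + D) * (x * U) * y := by rw [hP]; ring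
      _ ≤ 50 * C₂ * (1 + D) * (x * U) * (1 + ℓ) := mul_le_mul_of_nonneg_left hy (by positivity)
      _ = 50 * C₂ * (1 + D) * (x * U) * (1 + ℓ) * 1 := by ring
      _ ≤ 50 * C₂ * (1 + D) * (x * U) * (1 + ℓ) * q3 := mul_le_mul_of_nonneg_left hq3 (by positivity)
      _ = _ := by ring
  have h2 : C₁ * q2 * (1 + D) * V ≤ C₁ * q3 * (1 + D) * (1 + ℓ) * V := by
    calc C₁ * q2 * (1 + D) * V = C₁ * (1 + D) * V * q2 := by ring
      _ ≤ C₁ * (1 + D) * V * q3 := mul_le_mul_of_nonneg_left hq23 (by positivity)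
      _ = C₁ * (1 + D) * V * q3 * 1 := by ring
      _ ≤ C₁ * (1 + D) * V * q3 * (1 + ℓ) := mul_le_mul_of_nonneg_left (by linarith) (by positivity)
      _ = _ := by ring
  have h3 : 0 ≤ C₁ * q3 * (1 + D) * (1 + ℓ) * (x * U) := by positivity
  have h4 : 0 ≤ 50 * C₂ * q3 * (1 + D) * (1 + ℓ) * V := by positivity
  have e : (50 * C₂ + C₁) * q3 * (1 + D) * (1 + ℓ) * (x * U + V) =
      50 * C₂ * q3 * (1 + D) * (1 + ℓ) * (x * U) + C₁ * q3 * (1 + D) * (1 + ℓ) * V +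
      C₁ * q3 * (1 + D) * (1 + ℓ) * (x * U) + 50 * C₂ * q3 * (1 + D) * (1 + ℓ) * V := by ring
  rw [e]
  linarith

end RFLC

open RFLC in
/-- **reflection in a class** -/
theorem rflc (hEI : S_EI) (hPSN : S_PSNC) (hIBP : S_IBPC) : S_RFLC := by
  classical
  obtain ⟨C₂, hC₂, hE⟩ := hEI
  obtain ⟨C₁, hC₁, hP⟩ := hPSN
  refine ⟨50 * C₂ + C₁, by linarith, ?_⟩
  intro q a z t d T L ht hq ha hT hL hd
  have hd0 : (0 : ℝ) ≤ d := Nat.cast_nonneg d
  have hC₁0 : 0 ≤ C₁ := by linarith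
  have hC₂0 : 0 ≤ C₂ := by linarith
  have hq1 : (1 : ℝ) ≤ q := by exact_mod_cast hq
  have hq0 : (0 : ℝ) < q := by linarith
  have hT0 : (0 : ℝ) < T := by linarith
  have hqT : 1 ≤ q * T := one_le_mul_of_one_le_of_one_le hq1 hT
  have hlT : 0 ≤ Real.log (q * T) := Real.log_nonneg hqT
  set s₀ : ℝ := (d : ℝ) / 20 with hs₀
  have hs₀0 : 0 ≤ s₀ := by positivity
  set p₁ : ℝ := if t = 1 then 1 else (d : ℝ) / 20 with hp
  set q₁ : ℝ := if t = 1 then 0 else 1 with hq₁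
  have hpq : 20 * |p₁| + 2 * |q₁| ≤ 50 * (1 + d) := by
    rw [hp, hq₁]
    split_ifs
    · rw [abs_one, abs_zero]
      linarith
    · rw [abs_one, abs_of_nonneg (by positivity)]
      linarith
  set J : ℕ := ⌊2 * q * T * Real.exp (-s₀)⌋₊ with hJ
  have hq3 : (1 : ℝ) ≤ (q : ℝ) ^ 3 := one_le_pow₀ hq1
  have hq23 : (q : ℝ) ^ 2 ≤ (q : ℝ) ^ 3 := pow_le_pow_right₀ hq1 (by norm_num)
  -- one factor
  have hone : ∀ k ∈ L, ‖PC q a z t d k‖ ≤ ‖∑ j ∈ Icc 1 J, (1 / (q : ℂ)) * e1 (-((j : ℝ) * a / q)) *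
      ∫ s in (s₀ - 1 / 20)..(s₀ + 1 / 20),
      ((am20 p₁ q₁ s₀ s : ℝ) : ℂ) * ep k (-(2 * Real.pi * ((j : ℝ) / q))) s‖ +
        C₁ * q ^ 2 * (1 + d) * Real.exp (-((d : ℝ) / 10)) := by
    intro k hk
    have h1 := hP q a z t d T k ht hq ha hT (hL k hk).1 (hL k hk).2 hd
    calc ‖PC q a z t d k‖ = ‖(∑ j ∈ Icc 1 J, (1 / (q : ℂ)) * e1 (-((j : ℝ) * a / q)) *
        ∫ s in (s₀ - 1 / 20)..(s₀ + 1 / 20),
        ((am20 p₁ q₁ s₀ s : ℝ) : ℂ) * ep k (-(2 * Real.pi * ((j : ℝ) / q))) s) +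
        (PC q a z t d k - ∑ j ∈ Icc 1 J, (1 / (q : ℂ)) * e1 (-((j : ℝ) * a / q)) *
        ∫ s in (s₀ - 1 / 20)..(s₀ + 1 / 20),
        ((am20 p₁ q₁ s₀ s : ℝ) : ℂ) * ep k (-(2 * Real.pi * ((j : ℝ) / q))) s)‖ := by
          congr 1
          ring
      _ ≤ _ := (norm_add_le _ _).trans (add_le_add le_rfl h1)
  have hC0 : (0 : ℝ) ≤ (50 * C₂ + C₁) * q ^ 3 * (1 + d) * (1 + Real.log (q * T)) := by positivity
  have hC1 : C₁ * q ^ 2 * (1 + d) ≤ (50 * C₂ + C₁) * q ^ 3 * (1 + d) * (1 + Real.log (q * T)) := by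
    calc C₁ * q ^ 2 * (1 + d) ≤ (50 * C₂ + C₁) * q ^ 3 * (1 + d) := by
          apply mul_le_mul_of_nonneg_right _ (by positivity)
          exact mul_le_mul (by linarith) hq23 (by positivity) (by positivity)
      _ = (50 * C₂ + C₁) * q ^ 3 * (1 + d) * 1 := by ring
      _ ≤ _ := mul_le_mul_of_nonneg_left (by linarith) (by positivity)
  by_cases hJ1 : 2 * q * T * Real.exp (-s₀) < 1
  · -- no kept terms
    have hJ0 : J = 0 := Nat.floor_eq_zero.2 hJ1
    refine ⟨1, ∅, fun _ => 0, le_rfl, ?_, by simp, by simp, ?_⟩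
    · have : 0 < q * T * Real.exp (-s₀) := by positivity
      linarith
    · have h3 : ∀ k ∈ L, ‖PC q a z t d k‖ ≤ C₁ * q ^ 2 * (1 + d) * Real.exp (-((d : ℝ) / 10)) := by
        intro k hk
        have := hone k hk
        rw [hJ0] at this
        simpa using this
      calc ∑ k ∈ L, ‖PC q a z t d k‖ ≤ ∑ k ∈ L, C₁ * q ^ 2 * (1 + d) * Real.exp (-((d : ℝ) / 10)) :=
            Finset.sum_le_sum h3
        _ = C₁ * q ^ 2 * (1 + d) * (Real.exp (-((d : ℝ) / 10)) * L.card) := by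
          rw [Finset.sum_const, nsmul_eq_mul]
          ring
        _ ≤ (50 * C₂ + C₁) * q ^ 3 * (1 + d) * (1 + Real.log (q * T)) *
            (Real.exp (-((d : ℝ) / 10)) * L.card) :=
          mul_le_mul_of_nonneg_right hC1 (by positivity)
        _ ≤ _ := by
          apply mul_le_mul_of_nonneg_left _ hC0
          have : (0 : ℝ) ≤ T ^ (-(1 / 2) : ℝ) * ∑ k ∈ L, ‖DP ∅ (fun _ => (0 : ℂ)) (-k)‖ := by
            positivity
          linarith
  · push Not at hJ1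
    set A : ℝ := s₀ - 1 / 20 - Real.log q with hA
    set B : ℝ := 1 / 20 + Real.log (2 * T) with hB
    have hlog : Real.log (2 * q * T * Real.exp (-s₀)) = Real.log (2 * T) + Real.log q - s₀ := by
      rw [show 2 * (q : ℝ) * T = 2 * T * q by ring, Real.log_mul (by positivity) (Real.exp_pos _).ne',
        Real.log_mul (by positivity) hq0.ne', Real.log_exp]
      ring
    have hlog0 : 0 ≤ Real.log (2 * T) + Real.log q - s₀ := by
      rw [← hlog]
      exact Real.log_nonneg hJ1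
    have hAB : A < B := by linarith
    have hBA : B - A ≤ 1 + Real.log (q * T) := by
      have h2 : Real.log (2 * T) = Real.log 2 + Real.log T := Real.log_mul (by norm_num) hT0.ne'
      have h3 : Real.log 2 < 0.7 := by
        have := Real.log_two_lt_d9
        linarith
      have h4 : Real.log (q * T) = Real.log q + Real.log T := Real.log_mul hq0.ne' hT0.ne'
      linarith
    have hAj : ∀ j ∈ Icc 1 J, A ≤ s₀ - 1 / 20 + Real.log (((j : ℕ) : ℝ) / q) := by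
      intro j hj
      have hj1 : 1 ≤ j := (Finset.mem_Icc.1 hj).1
      have hj0 : (0 : ℝ) < j := by exact_mod_cast hj1
      have h5 : 0 ≤ Real.log j := Real.log_nonneg (by exact_mod_cast hj1)
      rw [Real.log_div hj0.ne' hq0.ne']
      linarith
    have hBj : ∀ j ∈ Icc 1 J, s₀ + 1 / 20 + Real.log (((j : ℕ) : ℝ) / q) ≤ B := by
      intro j hj
      have hj1 : 1 ≤ j := (Finset.mem_Icc.1 hj).1
      have hj0 : (0 : ℝ) < j := by exact_mod_cast hj1
      have hj2 : (j : ℝ) ≤ 2 * q * T * Real.exp (-s₀) :=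
        (Nat.le_floor_iff (by positivity)).1 (Finset.mem_Icc.1 hj).2
      have hj3 := Real.log_le_log hj0 hj2
      rw [hlog] at hj3
      rw [Real.log_div hj0.ne' hq0.ne']
      linarith
    -- the mean over `r`
    obtain ⟨r, hr1, hr2, hr3⟩ := first_moment hAB (G := fun r => ∑ k ∈ L, Gc q a p₁ q₁ s₀ J k r) (by
      have := IntervalIntegrable.sum L (μ := MeasureTheory.volume) (a := A) (b := B)
        (f := fun k r => Gc q a p₁ q₁ s₀ J k r) (fun k _ => Gc_int q a p₁ q₁ s₀ A B J k)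
      have e : (fun r => ∑ k ∈ L, Gc q a p₁ q₁ s₀ J k r) = ∑ k ∈ L, fun r => Gc q a p₁ q₁ s₀ J k r := by
        funext r
        rw [Finset.sum_apply]
      rw [e]
      exact this)
    rw [intervalIntegral.integral_finsetSum (fun k _ => Gc_int q a p₁ q₁ s₀ A B J k)] at hr3
    have hTm : (0 : ℝ) < T ^ (-(1 / 2) : ℝ) := Real.rpow_pos_of_pos hT0 _
    have hsum1 : ∑ k ∈ L, ‖PC q a z t d k‖ ≤
        C₂ * T ^ (-(1 / 2) : ℝ) * ((B - A) * ∑ k ∈ L, Gc q a p₁ q₁ s₀ J k r) +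
        C₁ * q ^ 2 * (1 + d) * (Real.exp (-((d : ℝ) / 10)) * L.card) := by
      have h4 : ∀ k ∈ L, ‖PC q a z t d k‖ ≤
          C₂ * T ^ (-(1 / 2) : ℝ) * (∫ r in A..B, Gc q a p₁ q₁ s₀ J k r) +
          C₁ * q ^ 2 * (1 + d) * Real.exp (-((d : ℝ) / 10)) := by
        intro k hk
        refine (hone k hk).trans (add_le_add ?_ le_rfl)
        have hk1 : T ≤ (k : ℝ) := (hL k hk).1
        have h5 : ∀ r, ‖Ep (k : ℝ) r‖ ≤ C₂ * T ^ (-(1 / 2) : ℝ) := by
          intro r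
          refine (Ep_bound hE (hT.trans hk1) r).trans ?_
          rw [Real.rpow_neg hT0.le, ← div_eq_mul_inv]
          apply div_le_div_of_nonneg_left (by linarith) (Real.rpow_pos_of_pos hT0 _)
          exact Real.rpow_le_rpow hT0.le hk1 (by norm_num)
        exact kept_norm hIBP q a hq p₁ q₁ s₀ A B J k h5 hAB.le hAj hBj
      calc ∑ k ∈ L, ‖PC q a z t d k‖ ≤ ∑ k ∈ L,
          (C₂ * T ^ (-(1 / 2) : ℝ) * (∫ r in A..B, Gc q a p₁ q₁ s₀ J k r) +
          C₁ * q ^ 2 * (1 + d) * Real.exp (-((d : ℝ) / 10))) := Finset.sum_le_sum h4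
        _ = C₂ * T ^ (-(1 / 2) : ℝ) * (∑ k ∈ L, ∫ r in A..B, Gc q a p₁ q₁ s₀ J k r) +
          C₁ * q ^ 2 * (1 + d) * (Real.exp (-((d : ℝ) / 10)) * L.card) := by
          rw [Finset.sum_add_distrib, ← Finset.mul_sum, Finset.sum_const, nsmul_eq_mul]
          ring
        _ ≤ _ := by
          refine add_le_add ?_ le_rfl
          exact mul_le_mul_of_nonneg_left hr3 (by positivity)
    -- the choice of the data
    set s : Finset ℕ := (Icc 1 J).filter (fun j : ℕ => |r - Real.log ((j : ℝ) / q) - s₀| < 1 / 20) with hs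
    set b : ℕ → ℂ := fun j => ((1 / (50 * (1 + (d : ℝ))) : ℝ) : ℂ) * cc q a p₁ q₁ s₀ r j with hb
    have h50 : (0 : ℝ) < 50 * (1 + d) := by positivity
    have hGs : ∀ k, Gc q a p₁ q₁ s₀ J k r = 50 * (1 + d) * ‖DP s b (-k)‖ := by
      intro k
      have h7 : DP (Icc 1 J) (cc q a p₁ q₁ s₀ r) (-k) =
          ((50 * (1 + d) : ℝ) : ℂ) * DP s b (-k) := by
        unfold DP
        rw [Finset.mul_sum, hs, Finset.sum_filter]
        refine Finset.sum_congr rfl fun j _ => ?_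
        split_ifs with h8
        · rw [hb, ← mul_assoc, ← mul_assoc, ← Complex.ofReal_mul]
          have : (50 * (1 + (d : ℝ))) * (1 / (50 * (1 + (d : ℝ)))) = 1 := by field_simp
          rw [this, Complex.ofReal_one, one_mul]
        · unfold cc
          rw [am20'_zero h8, Complex.ofReal_zero, zero_mul, zero_mul]
      unfold Gc
      rw [h7, norm_mul, Complex.norm_real, Real.norm_of_nonneg h50.le]
    have hqe : (q : ℝ) * Real.exp (r - s₀) = Real.exp (Real.log q + r - s₀) := by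
      rw [show Real.log q + r - s₀ = Real.log q + (r - s₀) by ring, Real.exp_add, Real.exp_log hq0]
    have hlogH : Real.log (max 1 (q * Real.exp (r - s₀))) = max 0 (Real.log q + r - s₀) := by
      rw [hqe]
      rcases le_total (Real.log q + r - s₀) 0 with h | h
      · rw [max_eq_left (by
          calc Real.exp (Real.log q + r - s₀) ≤ Real.exp 0 := Real.exp_le_exp.2 h
            _ = 1 := Real.exp_zero), max_eq_left h, Real.log_one]
      · rw [max_eq_right (Real.one_le_exp h), max_eq_right h, Real.log_exp]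
    refine ⟨max 1 (q * Real.exp (r - s₀)), s, b, le_max_left _ _, ?_, ?_, ?_, ?_⟩
    · apply max_le
      · have : 0 < q * T * Real.exp (-s₀) := by positivity
        linarith
      · have h9 : Real.exp (r - s₀) ≤ 3 * T * Real.exp (-s₀) := by
          have h10 : Real.exp r ≤ 3 * T := by
            calc Real.exp r ≤ Real.exp (1 / 20 + Real.log (2 * T)) := Real.exp_le_exp.2 hr2
              _ = Real.exp (1 / 20) * (2 * T) := by rw [Real.exp_add, Real.exp_log (by positivity)]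
              _ ≤ 3 / 2 * (2 * T) := by
                apply mul_le_mul_of_nonneg_right _ (by positivity)
                have h11 : Real.exp (1 / 20) ≤ 1 / (1 - 1 / 20) := by
                  have := Real.one_sub_le_exp_neg (1 / 20)
                  rw [Real.exp_neg] at this
                  rw [le_div_iff₀ (by norm_num)]
                  have he := Real.exp_pos (1 / 20)
                  have h12 := mul_le_mul_of_nonneg_left this he.le
                  rw [mul_inv_cancel₀ he.ne'] at h12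
                  exact h12
                refine h11.trans (by norm_num)
              _ = 3 * T := by ring
          rw [sub_eq_add_neg, Real.exp_add]
          exact mul_le_mul_of_nonneg_right h10 (Real.exp_pos _).le
        have h13 := mul_le_mul_of_nonneg_left h9 hq0.le
        have h14 : 0 < q * T * Real.exp (-s₀) := by positivity
        nlinarith
    · intro n hn
      rw [hs, Finset.mem_filter, Finset.mem_Icc] at hn
      have hn1 : (0 : ℝ) < n := by exact_mod_cast hn.1.1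
      have hn0 : 0 ≤ Real.log n := Real.log_nonneg (by exact_mod_cast hn.1.1)
      refine ⟨hn.1.1, ?_⟩
      have h13 := abs_lt.1 hn.2
      rw [Real.log_div hn1.ne' hq0.ne'] at h13
      rw [hlogH]
      rcases le_total (Real.log q + r - s₀) 0 with h | h
      · rw [max_eq_left h, abs_le]
        constructor <;> linarith [h13.1, h13.2]
      · rw [max_eq_right h, abs_le]
        constructor <;> linarith [h13.1, h13.2]
    · intro n _
      rw [hb]
      show ‖((1 / (50 * (1 + (d : ℝ))) : ℝ) : ℂ) * cc q a p₁ q₁ s₀ r n‖ ≤ 1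
      rw [norm_mul, Complex.norm_real, Real.norm_of_nonneg (by positivity), one_div,
        inv_mul_le_iff₀ h50, mul_one]
      exact (cc_bound _ _ _ _ _ _ _).trans hpq
    · have h14 : ∑ k ∈ L, Gc q a p₁ q₁ s₀ J k r = 50 * (1 + d) * ∑ k ∈ L, ‖DP s b (-k)‖ := by
        rw [Finset.mul_sum]
        exact Finset.sum_congr rfl fun k _ => hGs k
      exact fin_q hC₁0 hC₂0 hd0 hlT hTm.le (sub_nonneg.2 hAB.le) hBA
        (Finset.sum_nonneg fun k _ => norm_nonneg _)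
        (mul_nonneg (Real.exp_pos _).le (Nat.cast_nonneg _)) hq3 hq23 h14 hsum1

end Pool.Agent.H43.X6
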