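import Pool.Agent.H43.X6.Stm
import Pool.Agent.H43.SL.Smc
import Pool.Agent.H43.G.R_pool_sql_team_seeded_3997aac3.Q298.KS.Wt

/-!
# X6-SBA: long smooth factors in a class (Kusmin-Landau)
-/

set_option autoImplicit false

namespace Pool.Agent.H43.X6

open Finset Pool.Agent.H376R2.MR Pool.Agent.Q240.KS Pool.Agent.Q298.KS

/-- a class factor as a sum over the window -/
theorem PC_eq (q a z : ℕ) (t : Fin 3) (d : ℕ) (k : ℤ) :
    PC q a z t d k = ∑ n ∈ Ico (lo d) (hi d), ((cf z t d n : ℝ) : ℂ) *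
      (if n % q = a then ch k (Real.log n) else 0) := by
  unfold PC DP
  rw [sum_filter]
  have e1 : ∀ n ∈ sp d, (if n % q = a then ((cf z t d n : ℝ) : ℂ) * ch k (Real.log n) else 0) =
      ((cf z t d n : ℝ) : ℂ) * (if n % q = a then ch k (Real.log n) else 0) := by
    intro n _
    split_ifs
    · rfl
    · rw [mul_zero]
  rw [sum_congr rfl e1]
  apply sum_sp_eq
  intro n h1 h
  simp [cf_lo (z := z) (t := t) h1 h]

/-- a smooth class factor from the partial sums of `n^{-ik}` over the class -/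
theorem PC_le_of_part (q a z : ℕ) (t : Fin 3) (d : ℕ) (k : ℤ) (B : ℝ) (hB0 : 0 ≤ B) (ht : t ≠ 0)
    (hB : ∀ m, lo d ≤ m → m ≤ hi d →
      ‖∑ n ∈ (Ico (lo d) m).filter (fun n => n % q = a), ch k (Real.log n)‖ ≤ B) :
    ‖PC q a z t d k‖ ≤ 100 * B * (1 + d) * Real.exp (-((d : ℝ) / 20)) := by
  have h0 : (0 : ℝ) ≤ d := Nat.cast_nonneg d
  rw [PC_eq]
  have e : ∑ n ∈ Ico (lo d) (hi d), ((cf z t d n : ℝ) : ℂ) *
        (if n % q = a then ch k (Real.log n) else 0) =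
      ∑ n ∈ Ico (lo d) (hi d), (((fun n : ℕ => gw t d n / (n : ℝ)) n : ℝ) : ℂ) *
        (fun n : ℕ => if n % q = a then ch k (Real.log n) else 0) n := by
    refine sum_congr rfl fun n _ => ?_
    rw [cf_gw ht]
  rw [e]
  have h1 := abel_window d (fun n : ℕ => gw t d n / (n : ℝ))
    ((20 * (1 + (d : ℝ)) + (1 + d)) * Real.exp (-(((d : ℝ) - 1) / 20))) B
    (fun n : ℕ => if n % q = a then ch k (Real.log n) else 0) hB0 (by positivity)
    (by simp only [gw_hi, zero_div])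
    (fun n hn1 hn2 => var_div d (gw t d) (20 * (1 + (d : ℝ))) (1 + d) (by positivity) (by positivity)
      (fun n h1 h2 => gw_abs ((one_le_lo d).trans h1) h2)
      (fun n h1 h2 => gw_var ((one_le_lo d).trans h1) h2) n hn1 hn2)
    (fun m h1 h2 => by
      have := hB m h1 h2
      rwa [sum_filter] at this)
  refine h1.trans ?_
  have h2 := exp_lo d
  have h3 : 0 < Real.exp (-((d : ℝ) / 20)) := Real.exp_pos _
  calc 2 * B * ((20 * (1 + (d : ℝ)) + (1 + d)) * Real.exp (-(((d : ℝ) - 1) / 20)))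
      ≤ 2 * B * ((20 * (1 + (d : ℝ)) + (1 + d)) * (2 * Real.exp (-((d : ℝ) / 20)))) := by gcongr
    _ = 84 * (B * (1 + d) * Real.exp (-((d : ℝ) / 20))) := by ring
    _ ≤ 100 * (B * (1 + d) * Real.exp (-((d : ℝ) / 20))) := by
        have : 0 ≤ B * (1 + (d : ℝ)) * Real.exp (-((d : ℝ) / 20)) := by positivity
        linarith
    _ = _ := by ring

/-- the size of the window -/
theorem hi_le_exp {d m : ℕ} (hm : m ≤ hi d) (hm1 : 1 ≤ m) :
    ((m - 1 : ℕ) : ℝ) ≤ 2 * Real.exp ((d : ℝ) / 20) := by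
  have h1 := le_of_lt_hi (d := d) (n := m - 1) (by omega)
  refine h1.trans ?_
  have e : ((d : ℝ) + 1) / 20 = 1 / 20 + (d : ℝ) / 20 := by ring
  rw [e, Real.exp_add]
  have := exp_small (x := 1 / 20) (by norm_num)
  gcongr

/-- the lower end of the window -/
theorem lo_ge_exp (d : ℕ) : 0.95 * Real.exp ((d : ℝ) / 20) ≤ lo d := by
  refine le_trans ?_ (le_lo d)
  have e : ((d : ℝ) - 1) / 20 = -(1 / 20) + (d : ℝ) / 20 := by ring
  rw [e, Real.exp_add]
  apply mul_le_mul_of_nonneg_right _ (Real.exp_pos _).le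
  have := Real.add_one_le_exp (-(1 / 20) : ℝ)
  linarith

/-- the bound of Kusmin and Landau for class factors -/
theorem PC_kl {q a z : ℕ} {t : Fin 3} {d : ℕ} {k : ℤ} (hq : 1 ≤ q) (ha : a < q) (ht : t ≠ 0)
    (hk : k ≠ 0) (h : |(k : ℝ)| * q ≤ Real.exp ((d : ℝ) / 20) / 10) :
    ‖PC q a z t d k‖ ≤ 12800 * (1 + d) / |(k : ℝ)| := by
  have hk1 : (1 : ℝ) ≤ |(k : ℝ)| := by
    rw [← Int.cast_abs]
    exact_mod_cast Int.one_le_abs hk
  have hk0 : (0 : ℝ) < |(k : ℝ)| := by linarith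
  have hqR : (1 : ℝ) ≤ q := by exact_mod_cast hq
  obtain ⟨E, hE⟩ : ∃ E, E = Real.exp ((d : ℝ) / 20) := ⟨_, rfl⟩
  have hlo := lo_ge_exp d
  rw [← hE] at h hlo
  have hE10 : 10 ≤ E := by nlinarith
  have hlo9 : (9 : ℝ) < lo d := by linarith
  have hlo10 : 10 ≤ lo d := by
    have : 9 < lo d := by exact_mod_cast hlo9
    omega
  have hN1 : ((lo d - 1 : ℕ) : ℝ) = (lo d : ℝ) - 1 := by
    rw [Nat.cast_sub (by omega)]
    simp
  have hB : ∀ m, lo d ≤ m → m ≤ hi d →
      ‖∑ n ∈ (Ico (lo d) m).filter (fun n => n % q = a), ch k (Real.log n)‖ ≤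
        128 * E / |(k : ℝ)| := by
    intro m hm1 hm2
    have e1 : Ico (lo d) m = Ioc (lo d - 1) (m - 1) := by
      ext n
      simp only [mem_Ico, mem_Ioc]
      omega
    rw [e1]
    have h2 := le_two_lo (d := d) (n := m - 1) (by omega)
    have hkq : |(k : ℝ)| * q ≤ ((lo d - 1 : ℕ) : ℝ) := by
      rw [hN1]
      linarith
    have hqq : q ≤ lo d - 1 := by
      have : (q : ℝ) ≤ ((lo d - 1 : ℕ) : ℝ) := by nlinarith
      exact_mod_cast this
    have h3 := Pool.Agent.H43.SL.Smc.smc_kl hk (q := q) (s := a) (N₁ := lo d - 1) (N₂ := m - 1) ha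
      hqq (by omega) (by omega) hkq
    refine h3.trans ?_
    have h4 := hi_le_exp hm2 (by omega)
    rw [← hE] at h4
    apply div_le_div_of_nonneg_right _ hk0.le
    linarith
  have h1 := PC_le_of_part q a z t d k (128 * E / |(k : ℝ)|) (by rw [hE]; positivity) ht hB
  refine h1.trans (le_of_eq ?_)
  have e2 : E * Real.exp (-((d : ℝ) / 20)) = 1 := by
    rw [hE, ← Real.exp_add]
    simp
  have e3 : 100 * (128 * E / |(k : ℝ)|) * (1 + (d : ℝ)) * Real.exp (-((d : ℝ) / 20)) =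
      12800 * (1 + d) / |(k : ℝ)| * (E * Real.exp (-((d : ℝ) / 20))) := by ring
  rw [e3, e2, mul_one]

theorem sba : S_SBA := by
  refine ⟨12800, by norm_num, ?_⟩
  intro q a z t d k hq ha ht hk h
  refine (PC_kl hq ha ht hk h).trans ?_
  have hk0 : (0 : ℝ) < |(k : ℝ)| := abs_pos.2 (by exact_mod_cast hk)
  have h0 : (0 : ℝ) ≤ d := Nat.cast_nonneg d
  apply div_le_div_of_nonneg_right _ hk0.le
  nlinarith

end Pool.Agent.H43.X6
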