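import Pool.Agent.H43.X6.SBA
import Pool.Agent.H43.G.R_pool_sql_team_seeded_620a6dc7.helper24_UT_.Stm

/-!
# X6-SBB: smooth factors in a class at all polynomial heights
-/

set_option autoImplicit false

namespace Pool.Agent.H43.X6

open Finset Pool.Agent.H376R2.MR Pool.Agent.Q240.KS Pool.Agent.Q298.KS
open Pool.Agent.helper24_UT (tw S_ZSX)
open Pool.Agent.H469R2.NK (e norm_e)

namespace SBB

/-- the terms of `Smc.param` -/
lemma e_eq_tw (k : ℤ) (x : ℝ) :
    e (|(k : ℝ)| / (2 * Real.pi) * Real.log x) = tw (-|(k : ℝ)|) x := by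
  unfold e tw er
  congr 1
  have hpi := Real.pi_ne_zero
  have : 2 * Real.pi * (|(k : ℝ)| / (2 * Real.pi) * Real.log x) = |(k : ℝ)| * Real.log x := by
    field_simp
  rw [this, neg_neg]

/-- one block -/
lemma step {C₀ : ℕ} {c : ℝ} (hc : 0 < c) (hc1 : c ≤ 1 / 10)
    (hZ : ∀ (N N' : ℕ) (θ t κ : ℝ), 2 ≤ N → N ≤ N' → N' ≤ 2 * N →
      0 ≤ θ → θ ≤ 1 → 1 / 2 ≤ κ → |t| = (N : ℝ) ^ κ →
      ‖∑ n ∈ Ioc N N', tw t (n + θ)‖ ≤
        Real.exp (C₀ * (1 + κ) ^ C₀) * (N : ℝ) ^ (1 - c / (1 + κ) ^ 2 : ℝ))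
    (M N N' : ℕ) (θ t : ℝ) (hN : 2 ≤ N) (h1 : N ≤ N') (h2 : N' ≤ 2 * N) (hθ : 0 ≤ θ) (hθ1 : θ ≤ 1)
    (ht1 : (N : ℝ) ^ (1 / 2 : ℝ) ≤ |t|) (ht2 : |t| ≤ (N : ℝ) ^ (2 * M : ℕ)) :
    ‖∑ n ∈ Ioc N N', tw t (n + θ)‖ ≤ Real.exp (C₀ * (1 + (2 * M : ℕ)) ^ C₀) *
      (N : ℝ) ^ (1 - c / (1 + (2 * M : ℕ)) ^ 2 : ℝ) := by
  have hN2 : (2 : ℝ) ≤ N := by exact_mod_cast hN
  have hN0 : (0 : ℝ) < N := by linarith
  have hlN : 0 < Real.log N := Real.log_pos (by linarith)
  have ht0 : 0 < |t| := lt_of_lt_of_le (Real.rpow_pos_of_pos hN0 _) ht1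
  obtain ⟨κ, hκ⟩ : ∃ κ, κ = Real.log |t| / Real.log N := ⟨_, rfl⟩
  have hκt : |t| = (N : ℝ) ^ κ := by
    rw [Real.rpow_def_of_pos hN0, hκ, mul_div_cancel₀ _ hlN.ne', Real.exp_log ht0]
  have hκ1 : 1 / 2 ≤ κ := by
    rw [hκ, le_div_iff₀ hlN]
    have := Real.log_le_log (Real.rpow_pos_of_pos hN0 _) ht1
    rwa [Real.log_rpow hN0] at this
  have hκ2 : κ ≤ (2 * M : ℕ) := by
    rw [hκ, div_le_iff₀ hlN]
    have := Real.log_le_log ht0 ht2
    rwa [Real.log_pow] at this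
  have h3 := hZ N N' θ t κ hN h1 h2 hθ hθ1 hκ1 hκt
  refine h3.trans ?_
  have hκ0 : 0 ≤ κ := by linarith
  apply mul_le_mul
  · apply Real.exp_le_exp.2
    apply mul_le_mul_of_nonneg_left _ (Nat.cast_nonneg _)
    exact pow_le_pow_left₀ (by linarith) (by linarith) _
  · apply Real.rpow_le_rpow_of_exponent_le (by linarith)
    have : c / (1 + (2 * M : ℕ) : ℝ) ^ 2 ≤ c / (1 + κ) ^ 2 := by
      apply div_le_div_of_nonneg_left hc.le (by positivity)
      exact pow_le_pow_left₀ (by linarith) (by linarith) _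
    linarith
  · positivity
  · positivity

/-- three blocks -/
lemma blocks {C₀ : ℕ} {c : ℝ} (hc : 0 < c) (hc1 : c ≤ 1 / 10)
    (hZ : ∀ (N N' : ℕ) (θ t κ : ℝ), 2 ≤ N → N ≤ N' → N' ≤ 2 * N →
      0 ≤ θ → θ ≤ 1 → 1 / 2 ≤ κ → |t| = (N : ℝ) ^ κ →
      ‖∑ n ∈ Ioc N N', tw t (n + θ)‖ ≤
        Real.exp (C₀ * (1 + κ) ^ C₀) * (N : ℝ) ^ (1 - c / (1 + κ) ^ 2 : ℝ))
    (M N : ℕ) (θ t : ℝ) (hN : 2 ≤ N) (hθ : 0 ≤ θ) (hθ1 : θ ≤ 1)
    (ht1 : (4 * (N : ℝ)) ^ (1 / 2 : ℝ) ≤ |t|) (ht2 : |t| ≤ (N : ℝ) ^ (2 * M : ℕ)) (r : ℕ) :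
    r ≤ 3 → ∀ N' : ℕ, N ≤ N' → N' ≤ 2 ^ r * N →
    ‖∑ n ∈ Ioc N N', tw t (n + θ)‖ ≤ r * (4 * Real.exp (C₀ * (1 + (2 * M : ℕ)) ^ C₀) *
      (N : ℝ) ^ (1 - c / (1 + (2 * M : ℕ)) ^ 2 : ℝ)) := by
  have hN2 : (2 : ℝ) ≤ N := by exact_mod_cast hN
  have hN0 : (0 : ℝ) < N := by linarith
  have hD0 : 0 ≤ 4 * Real.exp (C₀ * (1 + (2 * M : ℕ)) ^ C₀) *
      (N : ℝ) ^ (1 - c / (1 + (2 * M : ℕ)) ^ 2 : ℝ) := by positivity
  have hη : 0 ≤ c / (1 + (2 * M : ℕ) : ℝ) ^ 2 := by positivity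
  have hη1 : c / (1 + (2 * M : ℕ) : ℝ) ^ 2 ≤ 1 := by
    rw [div_le_one (by positivity)]
    have : (0 : ℝ) ≤ (2 * M : ℕ) := Nat.cast_nonneg _
    nlinarith
  induction r with
  | zero =>
    intro _ N' h1 h2
    have : N' = N := by simp at h2; omega
    subst this
    simp
  | succ r ih =>
    intro hr N' h1 h2
    have ih' := ih (by omega)
    have hpow : 1 ≤ 2 ^ r := Nat.one_le_two_pow
    rcases le_or_gt N' (2 ^ r * N) with h3 | h3
    · refine (ih' N' h1 h3).trans ?_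
      apply mul_le_mul_of_nonneg_right _ hD0
      push_cast
      linarith
    · have hNle : N ≤ 2 ^ r * N := Nat.le_mul_of_pos_left _ (by positivity)
      rw [← sum_Ioc_consecutive _ hNle h3.le]
      refine (norm_add_le _ _).trans ?_
      have h4 := ih' (2 ^ r * N) hNle le_rfl
      have hr4 : 2 ^ r ≤ 4 := by
        calc 2 ^ r ≤ 2 ^ 2 := Nat.pow_le_pow_right (by norm_num) (by omega)
          _ = 4 := by norm_num
      have hcast : ((2 ^ r * N : ℕ) : ℝ) ≤ 4 * N := by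
        have : 2 ^ r * N ≤ 4 * N := Nat.mul_le_mul_right _ hr4
        exact_mod_cast this
      have hcast' : (N : ℝ) ≤ ((2 ^ r * N : ℕ) : ℝ) := by exact_mod_cast hNle
      have h5 := step hc hc1 hZ M (2 ^ r * N) N' θ t (hN.trans hNle) h3.le
        (by rw [pow_succ] at h2; linarith) hθ hθ1
        (le_trans (Real.rpow_le_rpow (by positivity) hcast (by norm_num)) ht1)
        (ht2.trans (pow_le_pow_left₀ hN0.le hcast' _))
      have h6 : ((2 ^ r * N : ℕ) : ℝ) ^ (1 - c / (1 + (2 * M : ℕ)) ^ 2 : ℝ) ≤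
          4 * (N : ℝ) ^ (1 - c / (1 + (2 * M : ℕ)) ^ 2 : ℝ) := by
        calc ((2 ^ r * N : ℕ) : ℝ) ^ (1 - c / (1 + (2 * M : ℕ)) ^ 2 : ℝ)
            ≤ (4 * (N : ℝ)) ^ (1 - c / (1 + (2 * M : ℕ)) ^ 2 : ℝ) :=
              Real.rpow_le_rpow (by positivity) hcast (by linarith)
          _ = 4 ^ (1 - c / (1 + (2 * M : ℕ)) ^ 2 : ℝ) *
              (N : ℝ) ^ (1 - c / (1 + (2 * M : ℕ)) ^ 2 : ℝ) :=
              Real.mul_rpow (by norm_num) hN0.le
          _ ≤ 4 * (N : ℝ) ^ (1 - c / (1 + (2 * M : ℕ)) ^ 2 : ℝ) := by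
              apply mul_le_mul_of_nonneg_right _ (by positivity)
              calc (4 : ℝ) ^ (1 - c / (1 + (2 * M : ℕ)) ^ 2 : ℝ) ≤ (4 : ℝ) ^ (1 : ℝ) :=
                    Real.rpow_le_rpow_of_exponent_le (by norm_num) (by linarith)
                _ = 4 := Real.rpow_one _
      have h7 : Real.exp (C₀ * (1 + (2 * M : ℕ)) ^ C₀) *
          ((2 ^ r * N : ℕ) : ℝ) ^ (1 - c / (1 + (2 * M : ℕ)) ^ 2 : ℝ) ≤
          Real.exp (C₀ * (1 + (2 * M : ℕ)) ^ C₀) *
          (4 * (N : ℝ) ^ (1 - c / (1 + (2 * M : ℕ)) ^ 2 : ℝ)) :=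
        mul_le_mul_of_nonneg_left h6 (Real.exp_pos _).le
      push_cast at h4 h5 h7 ⊢
      linarith

end SBB

theorem sbb : S_ZSX → S_SBB := by
  rintro ⟨C₀, c, hc, hc1, hZ⟩ M
  obtain ⟨η₁, hη₁⟩ : ∃ η₁ : ℝ, η₁ = c / (1 + (2 * M : ℕ) : ℝ) ^ 2 := ⟨_, rfl⟩
  obtain ⟨C₁, hC₁⟩ : ∃ C₁ : ℝ, C₁ = Real.exp (C₀ * (1 + (2 * M : ℕ)) ^ C₀) := ⟨_, rfl⟩
  have hC₁0 : 0 < C₁ := by rw [hC₁]; positivity
  have hη0 : 0 < η₁ := by rw [hη₁]; positivity
  have hη1 : η₁ ≤ 1 / 10 := by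
    rw [hη₁, div_le_iff₀ (by positivity)]
    have : (0 : ℝ) ≤ (2 * M : ℕ) := Nat.cast_nonneg _
    nlinarith
  refine ⟨12800 + 300 * 10 ^ 6 + 2400 * C₁, η₁ / 2, by linarith, by linarith, by linarith, ?_⟩
  intro q a z t d k hq ha ht hk hq4 hkM
  have h0 : (0 : ℝ) ≤ d := Nat.cast_nonneg d
  have hk1 : (1 : ℝ) ≤ |(k : ℝ)| := by
    rw [← Int.cast_abs]
    exact_mod_cast Int.one_le_abs hk
  have hk0 : (0 : ℝ) < |(k : ℝ)| := by linarith
  have hqR : (1 : ℝ) ≤ q := by exact_mod_cast hq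
  have hX0 : 0 < Real.exp (-(η₁ / 2 * d / 20)) := Real.exp_pos _
  obtain ⟨X, hX⟩ : ∃ X, X = Real.exp (-(η₁ / 2 * d / 20)) := ⟨_, rfl⟩
  obtain ⟨E, hE⟩ : ∃ E, E = Real.exp ((d : ℝ) / 20) := ⟨_, rfl⟩
  have hE0 : 0 < E := by rw [hE]; positivity
  have hE1 : 1 ≤ E := by
    rw [hE]
    exact Real.one_le_exp (by positivity)
  rw [← hX] at hX0 ⊢
  have hEinv : E * Real.exp (-((d : ℝ) / 20)) = 1 := by
    rw [hE, ← Real.exp_add]
    simp
  -- it is enough to bound by `K (1 + d) (1 / |k| + X)`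
  have hred : ∀ K : ℝ, 0 ≤ K → K ≤ 12800 + 300 * 10 ^ 6 + 2400 * C₁ →
      ‖PC q a z t d k‖ ≤ K * (1 + d) * (1 / |(k : ℝ)| + X) →
      ‖PC q a z t d k‖ ≤ (12800 + 300 * 10 ^ 6 + 2400 * C₁) * (1 + d) ^ 2 * (1 / |(k : ℝ)| + X) := by
    intro K hK0 hK h
    refine h.trans ?_
    apply mul_le_mul_of_nonneg_right _ (by positivity)
    have : (1 : ℝ) + d ≤ (1 + d) ^ 2 := by nlinarith
    exact mul_le_mul hK this (by positivity) (by positivity)
  have hinv : 0 ≤ 1 / |(k : ℝ)| := by positivity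
  by_cases hcase : |(k : ℝ)| * q ≤ Real.exp ((d : ℝ) / 20) / 10
  · apply hred 12800 (by norm_num) (by linarith)
    refine (PC_kl hq ha ht hk hcase).trans ?_
    have : 12800 * (1 + (d : ℝ)) / |(k : ℝ)| = 12800 * (1 + d) * (1 / |(k : ℝ)|) := by ring
    rw [this]
    apply mul_le_mul_of_nonneg_left _ (by positivity)
    linarith
  rw [← hE] at hcase hq4
  push Not at hcase
  rcases lt_or_ge E (10 ^ 6) with hEs | hEl
  · -- small `d`
    apply hred (300 * 10 ^ 6) (by norm_num) (by linarith)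
    have hB : ∀ m, lo d ≤ m → m ≤ hi d →
        ‖∑ n ∈ (Ico (lo d) m).filter (fun n => n % q = a), ch k (Real.log n)‖ ≤ 3 * E := by
      intro m hm1 hm2
      refine (norm_sum_le _ _).trans ?_
      have h1 : ∑ n ∈ (Ico (lo d) m).filter (fun n => n % q = a), ‖ch k (Real.log n)‖ =
          (((Ico (lo d) m).filter (fun n => n % q = a)).card : ℝ) := by
        have h2 : ∀ n ∈ (Ico (lo d) m).filter (fun n => n % q = a),
            ‖ch k (Real.log (n : ℝ))‖ = 1 := fun n _ => norm_ch k _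
        rw [sum_congr rfl h2]
        simp
      rw [h1]
      have h2 : ((Ico (lo d) m).filter (fun n => n % q = a)).card ≤ m - 1 := by
        refine (card_filter_le _ _).trans ?_
        rw [Nat.card_Ico]
        have := one_le_lo d
        omega
      have h3 := hi_le_exp hm2 (by have := one_le_lo d; omega)
      rw [← hE] at h3
      have h4 : (((Ico (lo d) m).filter (fun n => n % q = a)).card : ℝ) ≤ ((m - 1 : ℕ) : ℝ) := by
        exact_mod_cast h2
      linarith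
    have h1 := PC_le_of_part q a z t d k (3 * E) (by positivity) ht hB
    refine h1.trans ?_
    have e3 : 100 * (3 * E) * (1 + (d : ℝ)) * Real.exp (-((d : ℝ) / 20)) =
        300 * (1 + d) * (E * Real.exp (-((d : ℝ) / 20))) := by ring
    rw [e3, hEinv, mul_one]
    have h2 : 1 / 10 ^ 6 ≤ X := by
      have h3 : 1 / E ≤ X := by
        rw [hX, hE, one_div, ← Real.exp_neg]
        apply Real.exp_le_exp.2
        nlinarith
      have h4 : 1 / 10 ^ 6 ≤ 1 / E := by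
        apply one_div_le_one_div_of_le hE0 hEs.le
      linarith
    calc 300 * (1 + (d : ℝ)) = 300 * 10 ^ 6 * (1 + d) * (1 / 10 ^ 6) := by ring
      _ ≤ 300 * 10 ^ 6 * (1 + d) * (1 / |(k : ℝ)| + X) := by
          apply mul_le_mul_of_nonneg_left _ (by positivity)
          linarith
  · -- large `d`
    apply hred (2400 * C₁) (by positivity) (by linarith)
    -- the fourth root of `E`
    obtain ⟨F, hF⟩ : ∃ F : ℝ, F = Real.exp ((d : ℝ) / 80) := ⟨_, rfl⟩
    have hF0 : 0 < F := by rw [hF]; positivity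
    have hF4 : F ^ 4 = E := by
      rw [hF, hE, ← Real.exp_nat_mul]
      congr 1
      push_cast
      ring
    have hF30 : 30 ≤ F := by
      by_contra hcon
      push Not at hcon
      have : F ^ 4 < 30 ^ 4 := pow_lt_pow_left₀ hcon hF0.le (by norm_num)
      rw [hF4] at this
      norm_num at this
      linarith
    have hF2 : 30 * F ≤ F ^ 2 := by
      rw [pow_two]
      exact mul_le_mul_of_nonneg_right hF30 hF0.le
    have hF3' : 30 * F ^ 2 ≤ F ^ 3 := by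
      rw [show F ^ 3 = F * F ^ 2 by ring]
      exact mul_le_mul_of_nonneg_right hF30 (by positivity)
    have hF4' : 30 * F ^ 3 ≤ F ^ 4 := by
      rw [show F ^ 4 = F * F ^ 3 by ring]
      exact mul_le_mul_of_nonneg_right hF30 (by positivity)
    have hqF : (q : ℝ) ≤ F := by
      rw [← hF4] at hq4
      exact le_of_pow_le_pow_left₀ (by norm_num) hF0.le hq4
    have hlo := lo_ge_exp d
    rw [← hE] at hlo
    have hlo2 : 2 ≤ lo d := by
      have : (1 : ℝ) < lo d := by linarith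
      have : 1 < lo d := by exact_mod_cast this
      omega
    have hN1 : ((lo d - 1 : ℕ) : ℝ) = (lo d : ℝ) - 1 := by
      rw [Nat.cast_sub (by omega)]
      simp
    have hN1E : E / 2 ≤ ((lo d - 1 : ℕ) : ℝ) := by
      rw [hN1]
      linarith
    have hB : ∀ m, lo d ≤ m → m ≤ hi d →
        ‖∑ n ∈ (Ico (lo d) m).filter (fun n => n % q = a), ch k (Real.log n)‖ ≤
          24 * C₁ * (E * X) := by
      intro m hm1 hm2
      have e1 : Ico (lo d) m = Ioc (lo d - 1) (m - 1) := by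
        ext n
        simp only [mem_Ico, mem_Ioc]
        omega
      rw [e1]
      have h2 := le_two_lo (d := d) (n := m - 1) (by omega)
      have hF3 : F ≤ F ^ 4 / 2 := by linarith
      have hqq : q ≤ lo d - 1 := by
        have : (q : ℝ) ≤ ((lo d - 1 : ℕ) : ℝ) := by
          rw [hF4] at hF3
          linarith
        exact_mod_cast this
      have hlo3 : 3 ≤ lo d := by
        have : (2 : ℝ) < lo d := by linarith
        have : 2 < lo d := by exact_mod_cast this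
        omega
      obtain ⟨u, L, he, hL, hu, hNu, huN⟩ := Pool.Agent.H43.SL.Smc.param k (q := q) (s := a)
        (N₁ := lo d - 1) (N₂ := m - 1) ha hqq (by omega) (by omega)
      rw [he]
      have hnonneg : 0 ≤ 24 * C₁ * (E * X) := by positivity
      rcases Nat.eq_zero_or_pos L with hL0 | hL0
      · rw [hL0]; simpa using hnonneg
      have huE : u ≤ 2 * E := by
        have h3 := huN (by omega)
        have h4 := hi_le_exp hm2 (by omega)
        rw [← hE] at h4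
        exact h3.trans h4
      have huF : F ^ 3 / 2 ≤ u := by
        refine le_trans ?_ hNu
        rw [le_div_iff₀ (by linarith)]
        have : F ^ 3 / 2 * q ≤ F ^ 3 / 2 * F := mul_le_mul_of_nonneg_left hqF (by positivity)
        have e2 : F ^ 3 / 2 * F = E / 2 := by rw [← hF4]; ring
        linarith
      -- the integral part
      obtain ⟨N, hN⟩ : ∃ N : ℕ, N = ⌊u⌋₊ - 1 := ⟨_, rfl⟩
      have hu4 : 4 ≤ u := by linarith
      have hfl : (⌊u⌋₊ : ℝ) ≤ u := Nat.floor_le (by linarith)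
      have hfl2 : u < ⌊u⌋₊ + 1 := Nat.lt_floor_add_one u
      have hfl4 : 4 ≤ ⌊u⌋₊ := Nat.le_floor (by exact_mod_cast hu4)
      have hNr : (N : ℝ) = (⌊u⌋₊ : ℝ) - 1 := by
        rw [hN, Nat.cast_sub (by omega)]
        simp
      have hN2 : 2 ≤ N := by omega
      have hNu2 : u - 2 ≤ N := by rw [hNr]; linarith
      have hNu3 : (N : ℝ) ≤ u := by rw [hNr]; linarith
      have hNF : F ^ 2 ≤ N := by linarith
      obtain ⟨θ, hθ⟩ : ∃ θ : ℝ, θ = u - ⌊u⌋₊ := ⟨_, rfl⟩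
      have hθ0 : 0 ≤ θ := by rw [hθ]; linarith
      have hθ1 : θ ≤ 1 := by rw [hθ]; linarith
      have hsum : ∑ i ∈ range L, e (|(k : ℝ)| / (2 * Real.pi) * Real.log (u + i)) =
          ∑ n ∈ Ioc N (N + L), tw (-|(k : ℝ)|) (n + θ) := by
        have e2 : Ioc N (N + L) = Ico (N + 1) (N + 1 + L) := by
          ext n
          simp only [mem_Ioc, mem_Ico]
          omega
        rw [e2, sum_Ico_eq_sum_range]
        have e3 : N + 1 + L - (N + 1) = L := by omega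
        rw [e3]
        refine sum_congr rfl fun i _ => ?_
        rw [SBB.e_eq_tw]
        congr 1
        push_cast
        rw [hNr, hθ]
        ring
      rw [hsum]
      have hL8 : N + L ≤ 2 ^ 3 * N := by
        have h5 : (L : ℝ) ≤ 7 * N := by linarith
        have h6 : L ≤ 7 * N := by exact_mod_cast h5
        omega
      have ht1 : (4 * (N : ℝ)) ^ (1 / 2 : ℝ) ≤ |(-|(k : ℝ)|)| := by
        rw [abs_neg, abs_abs, ← Real.sqrt_eq_rpow]
        have h7 : Real.sqrt (4 * (N : ℝ)) ≤ 3 * F ^ 2 := by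
          apply Real.sqrt_le_iff.mpr
          constructor
          · positivity
          · have e2 : (3 * F ^ 2) ^ 2 = 9 * E := by rw [← hF4]; ring
            rw [e2]
            linarith
        have h8 : 3 * F ^ 2 ≤ |(k : ℝ)| := by
          by_contra hcon
          push Not at hcon
          have h9 : |(k : ℝ)| * q ≤ 3 * F ^ 2 * F := mul_le_mul hcon.le hqF (by linarith)
            (by positivity)
          have h10 : 3 * F ^ 2 * F ≤ E / 10 := by
            rw [← hF4, show 3 * F ^ 2 * F = 3 * F ^ 3 by ring]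
            linarith
          linarith
        linarith
      have ht2 : |(-|(k : ℝ)|)| ≤ (N : ℝ) ^ (2 * M : ℕ) := by
        rw [abs_neg, abs_abs]
        refine hkM.trans ?_
        have e2 : Real.exp (M * d / 20) = (F ^ 2) ^ (2 * M) := by
          rw [hF, ← Real.exp_nat_mul, ← Real.exp_nat_mul]
          congr 1
          push_cast
          ring
        rw [e2]
        exact pow_le_pow_left₀ (by positivity) hNF _
      have h3 := SBB.blocks hc hc1 hZ M N θ (-|(k : ℝ)|) hN2 hθ0 hθ1 ht1 ht2 3 le_rfl (N + L)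
        (by omega) hL8
      refine h3.trans ?_
      rw [← hη₁, ← hC₁]
      have hNpos : (0 : ℝ) < N := by linarith [pow_pos hF0 2]
      have h11 : (N : ℝ) ^ (1 - η₁) ≤ 2 * E * X := by
        rw [Real.rpow_sub hNpos, Real.rpow_one]
        have h12 : X⁻¹ ≤ (N : ℝ) ^ η₁ := by
          calc X⁻¹ = (F ^ 2) ^ η₁ := by
                rw [hX, ← Real.exp_neg, hF, ← Real.exp_nat_mul, ← Real.exp_mul]
                congr 1
                push_cast
                ring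
            _ ≤ (N : ℝ) ^ η₁ := Real.rpow_le_rpow (by positivity) hNF hη0.le
        have h13 : 0 < X⁻¹ := by positivity
        calc (N : ℝ) / (N : ℝ) ^ η₁ ≤ (2 * E) / X⁻¹ :=
              div_le_div₀ (by positivity) (by linarith) h13 h12
          _ = 2 * E * X := by rw [div_inv_eq_mul]
      calc ((3 : ℕ) : ℝ) * (4 * C₁ * (N : ℝ) ^ (1 - η₁)) ≤ ((3 : ℕ) : ℝ) * (4 * C₁ * (2 * E * X)) := by
            gcongr
        _ = 24 * C₁ * (E * X) := by push_cast; ring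
    have h1 := PC_le_of_part q a z t d k (24 * C₁ * (E * X)) (by positivity) ht hB
    refine h1.trans ?_
    have e3 : 100 * (24 * C₁ * (E * X)) * (1 + (d : ℝ)) * Real.exp (-((d : ℝ) / 20)) =
        2400 * C₁ * (1 + d) * X * (E * Real.exp (-((d : ℝ) / 20))) := by ring
    rw [e3, hEinv, mul_one]
    apply mul_le_mul_of_nonneg_left _ (by positivity)
    linarith

end Pool.Agent.H43.X6
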