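import Pool.Agent.H43.X6.Stm
import Pool.Agent.H43.G.R_pool_sql_team_seeded_3997aac3.Q95.KS.Tup
import Pool.Agent.H43.G.R_seed8.H376R2.MR.Mv

/-!
# Project X6: sharp cut-offs
-/

set_option autoImplicit false

namespace Pool.Agent.H43.X6

open Finset Pool.Agent.H376R2.MR Pool.Agent.Q240.KS Pool.Agent.Q240.KT

namespace SHPh

lemma ch_sub (k m : ℤ) (x : ℝ) : ch (-m) x * ch k x = ch (k - m) x := by
  unfold ch
  rw [← Complex.exp_add]
  congr 1
  push_cast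
  ring

lemma DP_shift (s : Finset ℕ) (g : ℕ → ℂ) (M : ℕ) (c : ℤ → ℂ) (k : ℤ) :
    DP s (fun n => g n * ∑ m ∈ FK M, c m * ch (-m) (Real.log n)) k =
      ∑ m ∈ FK M, c m * DP s g (k - m) := by
  unfold DP
  simp only [mul_sum, sum_mul]
  rw [sum_comm]
  refine sum_congr rfl fun m _ => sum_congr rfl fun n _ => ?_
  rw [← ch_sub]
  ring

lemma norm_sq_shift (T : Finset ℤ) (c : ℤ → ℂ) (G : ℤ → ℂ) :
    ‖∑ m ∈ T, c m * G m‖ ^ 2 ≤ (∑ m ∈ T, ‖c m‖) * ∑ m ∈ T, ‖c m‖ * ‖G m‖ ^ 2 := by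
  have h1 : ‖∑ m ∈ T, c m * G m‖ ≤ ∑ m ∈ T, √‖c m‖ * (√‖c m‖ * ‖G m‖) := by
    refine (norm_sum_le _ _).trans (sum_le_sum fun m _ => ?_)
    rw [norm_mul, ← mul_assoc, Real.mul_self_sqrt (norm_nonneg _)]
  have h2 := sum_mul_sq_le_sq_mul_sq T (fun m => √‖c m‖) (fun m => √‖c m‖ * ‖G m‖)
  calc ‖∑ m ∈ T, c m * G m‖ ^ 2 ≤ (∑ m ∈ T, √‖c m‖ * (√‖c m‖ * ‖G m‖)) ^ 2 :=
        pow_le_pow_left₀ (norm_nonneg _) h1 2
    _ ≤ _ := h2
    _ = _ := by
      congr 1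
      · exact sum_congr rfl fun m _ => Real.sq_sqrt (norm_nonneg _)
      · refine sum_congr rfl fun m _ => ?_
        rw [mul_pow, Real.sq_sqrt (norm_nonneg _)]

lemma mean_shift (S T : Finset ℤ) (c : ℤ → ℂ) (F : ℤ → ℂ) (B : ℝ)
    (hB : ∀ m ∈ T, ∑ k ∈ S, ‖F (k - m)‖ ^ 2 ≤ B) :
    ∑ k ∈ S, ‖∑ m ∈ T, c m * F (k - m)‖ ^ 2 ≤ (∑ m ∈ T, ‖c m‖) ^ 2 * B := by
  calc ∑ k ∈ S, ‖∑ m ∈ T, c m * F (k - m)‖ ^ 2
      ≤ ∑ k ∈ S, (∑ m ∈ T, ‖c m‖) * ∑ m ∈ T, ‖c m‖ * ‖F (k - m)‖ ^ 2 :=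
        sum_le_sum fun k _ => norm_sq_shift T c (fun m => F (k - m))
    _ = (∑ m ∈ T, ‖c m‖) * ∑ m ∈ T, ‖c m‖ * ∑ k ∈ S, ‖F (k - m)‖ ^ 2 := by
      rw [← mul_sum, sum_comm]
      congr 1
      exact sum_congr rfl fun m _ => (mul_sum _ _ _).symm
    _ ≤ (∑ m ∈ T, ‖c m‖) * ∑ m ∈ T, ‖c m‖ * B := by
      refine mul_le_mul_of_nonneg_left ?_ (sum_nonneg fun _ _ => norm_nonneg _)
      exact sum_le_sum fun m hm => mul_le_mul_of_nonneg_left (hB m hm) (norm_nonneg _)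
    _ = _ := by rw [← sum_mul]; ring

lemma core_sum (Y : ℝ) (f : ℕ → ℂ) (S : Finset ℤ) (B : ℝ)
    (h : ∀ d ∈ DY Y, ∑ k ∈ S, ‖EX f (zY Y) d k‖ ^ 2 ≤ B) :
    ∑ k ∈ S, ‖∑ d ∈ DY Y, (ed d : ℂ) * EX f (zY Y) d k‖ ^ 2 ≤
      961 * ((DY Y).card : ℝ) ^ 2 * B := by
  have hk : ∀ k ∈ S, ‖∑ d ∈ DY Y, (ed d : ℂ) * EX f (zY Y) d k‖ ^ 2 ≤
      961 * ((DY Y).card : ℝ) * ∑ d ∈ DY Y, ‖EX f (zY Y) d k‖ ^ 2 := by
    intro k _
    have h1 : ‖∑ d ∈ DY Y, (ed d : ℂ) * EX f (zY Y) d k‖ ≤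
        ∑ d ∈ DY Y, 31 * ‖EX f (zY Y) d k‖ := by
      refine (norm_sum_le _ _).trans (sum_le_sum fun d _ => ?_)
      rw [norm_mul]
      refine mul_le_mul_of_nonneg_right ?_ (norm_nonneg _)
      rw [Complex.norm_intCast]
      exact Pool.Agent.Q95.KS.ed_bound d
    have h2 := sq_sum_le_card_mul_sum_sq (s := DY Y) (f := fun d => 31 * ‖EX f (zY Y) d k‖)
    calc ‖∑ d ∈ DY Y, (ed d : ℂ) * EX f (zY Y) d k‖ ^ 2
        ≤ (∑ d ∈ DY Y, 31 * ‖EX f (zY Y) d k‖) ^ 2 := pow_le_pow_left₀ (norm_nonneg _) h1 2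
      _ ≤ _ := h2
      _ = _ := by
        simp only [mul_pow]
        rw [← mul_sum]
        ring
  calc ∑ k ∈ S, ‖∑ d ∈ DY Y, (ed d : ℂ) * EX f (zY Y) d k‖ ^ 2
      ≤ ∑ k ∈ S, 961 * ((DY Y).card : ℝ) * ∑ d ∈ DY Y, ‖EX f (zY Y) d k‖ ^ 2 := sum_le_sum hk
    _ = 961 * ((DY Y).card : ℝ) * ∑ d ∈ DY Y, ∑ k ∈ S, ‖EX f (zY Y) d k‖ ^ 2 := by
      rw [← mul_sum, sum_comm]
    _ ≤ 961 * ((DY Y).card : ℝ) * ∑ d ∈ DY Y, B :=
      mul_le_mul_of_nonneg_left (sum_le_sum h) (by positivity)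
    _ = _ := by rw [sum_const, nsmul_eq_mul]; ring

lemma DY_card' {Y : ℝ} (hY : 1 ≤ Y) : ((DY Y).card : ℝ) ≤ (41 * Y) ^ 10 := by
  refine (Pool.Agent.Q95.KS.DY_card Y).trans ?_
  apply pow_le_pow_left₀ (Nat.cast_nonneg _)
  push_cast
  have := Nat.floor_le (show 0 ≤ 20 * (Y + 1) by linarith)
  linarith

lemma near_card (s : Finset ℕ) (N η : ℝ) (hN : 0 < N) (h0 : 0 < η) (h1 : η ≤ 1 / 10)
    (hs : ∀ n ∈ s, 1 ≤ n ∧ |Real.log n - Real.log N| < η) :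
    (s.card : ℝ) ≤ 3 * η * N + 1 := by
  rcases s.eq_empty_or_nonempty with h | ⟨n₀, hn₀⟩
  · rw [h]
    simp only [card_empty, Nat.cast_zero]
    positivity
  set u : ℝ := N * Real.exp (-η) with hu
  set v : ℝ := N * Real.exp η with hv
  have hmem : ∀ n ∈ s, ⌈u⌉₊ ≤ n ∧ n ≤ ⌊v⌋₊ := by
    intro n hn
    obtain ⟨hn1, hn2⟩ := hs n hn
    have hn0 : (0 : ℝ) < n := by exact_mod_cast hn1
    rw [abs_lt] at hn2
    constructor
    · rw [Nat.ceil_le]
      rw [hu]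
      have : Real.log (N * Real.exp (-η)) ≤ Real.log n := by
        rw [Real.log_mul hN.ne' (Real.exp_pos _).ne', Real.log_exp]
        linarith
      exact (Real.log_le_log_iff (by positivity) hn0).1 this
    · apply Nat.le_floor
      have : Real.log n ≤ Real.log (N * Real.exp η) := by
        rw [Real.log_mul hN.ne' (Real.exp_pos _).ne', Real.log_exp]
        linarith
      exact (Real.log_le_log_iff hn0 (by positivity)).1 this
  have hsub : s ⊆ Icc ⌈u⌉₊ ⌊v⌋₊ := fun n hn => mem_Icc.2 (hmem n hn)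
  have hc : s.card ≤ ⌊v⌋₊ + 1 - ⌈u⌉₊ := by
    have := card_le_card hsub
    rwa [Nat.card_Icc] at this
  have hle : ⌈u⌉₊ ≤ ⌊v⌋₊ + 1 := by
    have := hmem n₀ hn₀
    omega
  have hc' : (s.card : ℝ) ≤ (⌊v⌋₊ : ℝ) + 1 - ⌈u⌉₊ := by
    have : (s.card : ℝ) ≤ ((⌊v⌋₊ + 1 - ⌈u⌉₊ : ℕ) : ℝ) := by exact_mod_cast hc
    rw [Nat.cast_sub hle] at this
    push_cast at this
    exact this
  have hfl : (⌊v⌋₊ : ℝ) ≤ v := Nat.floor_le (by positivity)
  have hce : u ≤ (⌈u⌉₊ : ℝ) := Nat.le_ceil _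
  have he1 : Real.exp η ≤ 1 + η + η ^ 2 := by
    have h := Real.abs_exp_sub_one_sub_id_le (x := η) (by rw [abs_of_pos h0]; linarith)
    have := (abs_le.1 h).2
    linarith
  have he2 : 1 - η ≤ Real.exp (-η) := by
    have := Real.add_one_le_exp (-η)
    linarith
  have hdiff : v - u ≤ 3 * η * N := by
    have : Real.exp η - Real.exp (-η) ≤ 3 * η := by nlinarith
    calc v - u = (Real.exp η - Real.exp (-η)) * N := by rw [hu, hv]; ring
      _ ≤ 3 * η * N := mul_le_mul_of_nonneg_right this hN.le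
  linarith

/-- the coefficients of the difference of the sharp and the smooth cut-off -/
lemma part2 {C1 C2 C3 : ℝ} {E : ℕ} (hC1 : 1 ≤ C1) (hC2 : 1 ≤ C2) (hC3 : 1 ≤ C3) (Y : ℝ)
    (hY : 2 ≤ Y) (a : ℕ → ℝ) (f ψ : ℕ → ℂ) (hf : ∀ n, ‖f n‖ ≤ 1) (N₁ N₂ : ℕ) (hN1 : 1 ≤ N₁)
    (hN2 : 1 ≤ N₂) (hl1 : |Real.log N₁ - Y| ≤ 2 / 5) (hl2 : |Real.log N₂ - Y| ≤ 2 / 5)
    (η ξ : ℝ) (hη0 : 0 < η) (hη1 : η ≤ 1 / 10) (hξ : 0 ≤ ξ)
    (ha1 : ∀ n : ℕ, 1 ≤ n → |Real.log n - Y| ≤ 1 / 2 → a n = ArithmeticFunction.vonMangoldt n / n)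
    (ha2 : ∀ n : ℕ, 1 ≤ n → |a n| ≤ C1 * Y ^ 20 * (n.divisors.card : ℝ) ^ 10 / n)
    (htau : ∑ n ∈ Icc 1 ⌊Real.exp (Y + 3 / 2)⌋₊, (n.divisors.card : ℝ) ^ 20 / n ≤ C2 * Y ^ E)
    (hψ1 : ∀ n : ℕ, 1 ≤ n → |Real.log n - Y| ≤ 3 / 2 → ‖ψ n‖ ≤ C3)
    (hψ2 : ∀ n : ℕ, 1 ≤ n → |Real.log n - Y| ≤ 3 / 2 → η ≤ |Real.log n - Real.log N₁| →
      η ≤ |Real.log n - Real.log N₂| → ‖ψ n‖ ≤ ξ) :
    ∑ n ∈ (Icc 1 ⌊Real.exp (Y + 3 / 2)⌋₊).filter (fun n : ℕ => |Real.log n - Y| ≤ 3 / 2),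
      ‖((a n : ℝ) : ℂ) * f n * ψ n‖ ^ 2 ≤
      C1 ^ 2 * C2 * ξ ^ 2 * Y ^ (40 + E) * Real.exp (3 / 2 - Y) +
      (3 * η * N₁ + 1 + (3 * η * N₂ + 1)) * ((Y + 1) ^ 2 * Real.exp (1 - 2 * Y) * C3 ^ 2) := by
  set S := (Icc 1 ⌊Real.exp (Y + 3 / 2)⌋₊).filter (fun n : ℕ => |Real.log n - Y| ≤ 3 / 2) with hS
  have hSmem : ∀ n ∈ S, 1 ≤ n ∧ |Real.log n - Y| ≤ 3 / 2 := by
    intro n hn
    rw [hS, mem_filter, mem_Icc] at hn
    exact ⟨hn.1.1, hn.2⟩
  set A1 := S.filter (fun n : ℕ => |Real.log n - Real.log N₁| < η) with hA1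
  set A2 := S.filter (fun n : ℕ => |Real.log n - Real.log N₂| < η) with hA2
  -- the far terms
  have hfar : ∀ n ∈ S, n ∉ A1 → n ∉ A2 → ‖((a n : ℝ) : ℂ) * f n * ψ n‖ ^ 2 ≤
      C1 ^ 2 * ξ ^ 2 * Y ^ 40 * Real.exp (3 / 2 - Y) * ((n.divisors.card : ℝ) ^ 20 / n) := by
    intro n hn h1 h2
    obtain ⟨hn1, hn2⟩ := hSmem n hn
    have hn0 : (0 : ℝ) < n := by exact_mod_cast hn1
    have h1' : η ≤ |Real.log n - Real.log N₁| := by
      by_contra hc
      exact h1 (mem_filter.2 ⟨hn, not_le.1 hc⟩)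
    have h2' : η ≤ |Real.log n - Real.log N₂| := by
      by_contra hc
      exact h2 (mem_filter.2 ⟨hn, not_le.1 hc⟩)
    have hp := hψ2 n hn1 hn2 h1' h2'
    have haa := ha2 n hn1
    have hinv : 1 / (n : ℝ) ≤ Real.exp (3 / 2 - Y) := by
      have h3 : Y - 3 / 2 ≤ Real.log n := by
        have := (abs_le.1 hn2).1
        linarith
      have h4 : Real.exp (Y - 3 / 2) ≤ n := by
        rw [← Real.exp_log hn0]
        exact Real.exp_le_exp.2 h3
      rw [div_le_iff₀ hn0]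
      calc (1 : ℝ) = Real.exp (3 / 2 - Y) * Real.exp (Y - 3 / 2) := by
            rw [← Real.exp_add]
            norm_num
        _ ≤ Real.exp (3 / 2 - Y) * n := mul_le_mul_of_nonneg_left h4 (Real.exp_pos _).le
    have hnorm : ‖((a n : ℝ) : ℂ) * f n * ψ n‖ ≤
        C1 * Y ^ 20 * (n.divisors.card : ℝ) ^ 10 / n * ξ := by
      rw [norm_mul, norm_mul, Complex.norm_real, Real.norm_eq_abs]
      have h5 : |a n| * ‖f n‖ ≤ C1 * Y ^ 20 * (n.divisors.card : ℝ) ^ 10 / n := by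
        calc |a n| * ‖f n‖ ≤ |a n| * 1 := mul_le_mul_of_nonneg_left (hf n) (abs_nonneg _)
          _ ≤ _ := by rw [mul_one]; exact haa
      exact mul_le_mul h5 hp (norm_nonneg _) ((abs_nonneg _).trans haa)
    calc ‖((a n : ℝ) : ℂ) * f n * ψ n‖ ^ 2
        ≤ (C1 * Y ^ 20 * (n.divisors.card : ℝ) ^ 10 / n * ξ) ^ 2 :=
          pow_le_pow_left₀ (norm_nonneg _) hnorm 2
      _ = C1 ^ 2 * ξ ^ 2 * Y ^ 40 * (1 / (n : ℝ)) * ((n.divisors.card : ℝ) ^ 20 / n) := by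
          field_simp
      _ ≤ _ := by
          refine mul_le_mul_of_nonneg_right ?_ (by positivity)
          exact mul_le_mul_of_nonneg_left hinv (by positivity)
  -- the near terms
  have hnear : ∀ n ∈ S, (|Real.log n - Real.log N₁| < η ∨ |Real.log n - Real.log N₂| < η) →
      ‖((a n : ℝ) : ℂ) * f n * ψ n‖ ^ 2 ≤ (Y + 1) ^ 2 * Real.exp (1 - 2 * Y) * C3 ^ 2 := by
    intro n hn hor
    obtain ⟨hn1, hn2⟩ := hSmem n hn
    have hn0 : (0 : ℝ) < n := by exact_mod_cast hn1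
    have hlog : |Real.log n - Y| ≤ 1 / 2 := by
      rw [abs_le] at hl1 hl2 ⊢
      rcases hor with h | h
      · rw [abs_lt] at h
        constructor <;> linarith [hl1.1, hl1.2, h.1, h.2]
      · rw [abs_lt] at h
        constructor <;> linarith [hl2.1, hl2.2, h.1, h.2]
    have hp := hψ1 n hn1 hn2
    have hlog' := abs_le.1 hlog
    have hinv : 1 / (n : ℝ) ≤ Real.exp (1 / 2 - Y) := by
      have h4 : Real.exp (Y - 1 / 2) ≤ n := by
        rw [← Real.exp_log hn0]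
        exact Real.exp_le_exp.2 (by linarith [hlog'.1])
      rw [div_le_iff₀ hn0]
      calc (1 : ℝ) = Real.exp (1 / 2 - Y) * Real.exp (Y - 1 / 2) := by
            rw [← Real.exp_add]
            norm_num
        _ ≤ Real.exp (1 / 2 - Y) * n := mul_le_mul_of_nonneg_left h4 (Real.exp_pos _).le
    have haa : |a n| ≤ (Y + 1) * Real.exp (1 / 2 - Y) := by
      rw [ha1 n hn1 hlog, abs_div, abs_of_nonneg ArithmeticFunction.vonMangoldt_nonneg,
        abs_of_pos hn0]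
      calc ArithmeticFunction.vonMangoldt n / (n : ℝ) ≤ (Y + 1) / n := by
            refine div_le_div_of_nonneg_right ?_ hn0.le
            have := ArithmeticFunction.vonMangoldt_le_log (n := n)
            linarith [hlog'.2]
        _ = (Y + 1) * (1 / n) := by ring
        _ ≤ _ := mul_le_mul_of_nonneg_left hinv (by linarith)
    have hnorm : ‖((a n : ℝ) : ℂ) * f n * ψ n‖ ≤ (Y + 1) * Real.exp (1 / 2 - Y) * C3 := by
      rw [norm_mul, norm_mul, Complex.norm_real, Real.norm_eq_abs]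
      have h5 : |a n| * ‖f n‖ ≤ (Y + 1) * Real.exp (1 / 2 - Y) := by
        calc |a n| * ‖f n‖ ≤ |a n| * 1 := mul_le_mul_of_nonneg_left (hf n) (abs_nonneg _)
          _ ≤ _ := by rw [mul_one]; exact haa
      exact mul_le_mul h5 hp (norm_nonneg _) ((abs_nonneg _).trans haa)
    calc ‖((a n : ℝ) : ℂ) * f n * ψ n‖ ^ 2
        ≤ ((Y + 1) * Real.exp (1 / 2 - Y) * C3) ^ 2 := pow_le_pow_left₀ (norm_nonneg _) hnorm 2
      _ = (Y + 1) ^ 2 * (Real.exp (1 / 2 - Y) * Real.exp (1 / 2 - Y)) * C3 ^ 2 := by ring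
      _ = _ := by
          rw [← Real.exp_add]
          congr 3
          ring
  have hN1r : (0 : ℝ) < N₁ := by exact_mod_cast hN1
  have hN2r : (0 : ℝ) < N₂ := by exact_mod_cast hN2
  have hc1 : (A1.card : ℝ) ≤ 3 * η * N₁ + 1 := by
    refine near_card A1 N₁ η hN1r hη0 hη1 fun n hn => ?_
    rw [hA1, mem_filter] at hn
    exact ⟨(hSmem n hn.1).1, hn.2⟩
  have hc2 : (A2.card : ℝ) ≤ 3 * η * N₂ + 1 := by
    refine near_card A2 N₂ η hN2r hη0 hη1 fun n hn => ?_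
    rw [hA2, mem_filter] at hn
    exact ⟨(hSmem n hn.1).1, hn.2⟩
  set W : ℝ := (Y + 1) ^ 2 * Real.exp (1 - 2 * Y) * C3 ^ 2 with hW
  have hW0 : 0 ≤ W := by positivity
  set g : ℕ → ℝ := fun n => C1 ^ 2 * ξ ^ 2 * Y ^ 40 * Real.exp (3 / 2 - Y) *
    ((n.divisors.card : ℝ) ^ 20 / n) with hg
  have hg0 : ∀ n, 0 ≤ g n := fun n => by rw [hg]; positivity
  have hpt : ∀ n ∈ S, ‖((a n : ℝ) : ℂ) * f n * ψ n‖ ^ 2 ≤
      g n + ((if |Real.log n - Real.log N₁| < η then W else 0) +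
        (if |Real.log n - Real.log N₂| < η then W else 0)) := by
    intro n hn
    by_cases h1 : |Real.log n - Real.log N₁| < η
    · rw [if_pos h1]
      have := hnear n hn (Or.inl h1)
      have h3 := hg0 n
      split_ifs <;> linarith
    · by_cases h2 : |Real.log n - Real.log N₂| < η
      · rw [if_pos h2, if_neg h1]
        have := hnear n hn (Or.inr h2)
        have h3 := hg0 n
        linarith
      · rw [if_neg h1, if_neg h2]
        have := hfar n hn (fun hm => h1 (mem_filter.1 hm).2) (fun hm => h2 (mem_filter.1 hm).2)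
        rw [add_zero, add_zero]
        exact this
  calc ∑ n ∈ S, ‖((a n : ℝ) : ℂ) * f n * ψ n‖ ^ 2
      ≤ ∑ n ∈ S, (g n + ((if |Real.log n - Real.log N₁| < η then W else 0) +
        (if |Real.log n - Real.log N₂| < η then W else 0))) := sum_le_sum hpt
    _ = ∑ n ∈ S, g n + (A1.card * W + A2.card * W) := by
        rw [sum_add_distrib, sum_add_distrib, ← sum_filter, ← sum_filter, sum_const, sum_const,
          nsmul_eq_mul, nsmul_eq_mul]
    _ ≤ C1 ^ 2 * ξ ^ 2 * Y ^ 40 * Real.exp (3 / 2 - Y) * (C2 * Y ^ E) +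
        ((3 * η * N₁ + 1) * W + (3 * η * N₂ + 1) * W) := by
        refine add_le_add ?_ (add_le_add ?_ ?_)
        · rw [hg, ← mul_sum]
          refine mul_le_mul_of_nonneg_left (le_trans ?_ htau) (by positivity)
          exact sum_le_sum_of_subset_of_nonneg (filter_subset _ _) fun n _ _ => by positivity
        · exact mul_le_mul_of_nonneg_right hc1 hW0
        · exact mul_le_mul_of_nonneg_right hc2 hW0
    _ = _ := by ring

lemma ev_exp (k : ℕ) (t : ℝ) (ht : 0 < t) : ∃ Y₀ : ℝ, ∀ Y : ℝ, Y₀ ≤ Y →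
    1 + 2 * Y ^ k ≤ Real.exp (t * Y) := by
  have h := (isLittleO_pow_exp_pos_mul_atTop k ht).bound (show (0 : ℝ) < 1 / 3 by norm_num)
  obtain ⟨Y₀, hY₀⟩ := Filter.eventually_atTop.1 h
  refine ⟨max Y₀ 1, fun Y hY => ?_⟩
  have h1 := hY₀ Y ((le_max_left _ _).trans hY)
  have hY1 : 1 ≤ Y := (le_max_right _ _).trans hY
  rw [Real.norm_eq_abs, Real.norm_eq_abs, abs_of_pos (Real.exp_pos _), abs_of_nonneg
    (by positivity)] at h1
  have h2 : 1 ≤ Y ^ k := one_le_pow₀ hY1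
  linarith

lemma exp_gap {c t Y z : ℝ} (hc : 0 ≤ c) (hY : 0 ≤ Y) (h : 1 + z ≤ Real.exp (t * Y))
    (hz : 0 ≤ z) : Real.exp (c * Y) + z ≤ Real.exp ((c + t) * Y) := by
  have h1 : Real.exp ((c + t) * Y) = Real.exp (c * Y) * Real.exp (t * Y) := by
    rw [← Real.exp_add]
    congr 1
    ring
  have h2 : 1 ≤ Real.exp (c * Y) := Real.one_le_exp (by positivity)
  rw [h1]
  nlinarith [mul_le_mul_of_nonneg_left h (Real.exp_pos (c * Y)).le]

lemma exp32 : Real.exp (3 / 2) ≤ 5 := by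
  have h1 : Real.exp (3 / 2) ^ 2 = Real.exp 1 ^ 3 := by
    rw [← Real.exp_nat_mul, ← Real.exp_nat_mul]
    norm_num
  have h2 := Real.exp_one_lt_d9
  have h3 : Real.exp 1 ^ 3 ≤ 25 := by
    calc Real.exp 1 ^ 3 ≤ (2.7182818286 : ℝ) ^ 3 :=
          pow_le_pow_left₀ (Real.exp_pos _).le h2.le 3
      _ ≤ 25 := by norm_num
  nlinarith [Real.exp_pos (3 / 2)]

lemma exp25 : Real.exp (2 / 5) ≤ 2 := by
  have h1 : Real.exp (2 / 5) ^ 5 = Real.exp 1 ^ 2 := by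
    rw [← Real.exp_nat_mul, ← Real.exp_nat_mul]
    norm_num
  have h2 := Real.exp_one_lt_d9
  by_contra hc
  push Not at hc
  have h3 : (2 : ℝ) ^ 5 < Real.exp (2 / 5) ^ 5 := pow_lt_pow_left₀ hc (by norm_num) (by norm_num)
  have h4 : Real.exp 1 ^ 2 ≤ 9 := by nlinarith [Real.exp_pos 1]
  rw [h1] at h3
  have h5 : (2 : ℝ) ^ 5 = 32 := by norm_num
  rw [h5] at h3
  linarith

end SHPh

open SHPh in
/-- sharp cut-offs -/
theorem shp : S_TUPX → S_COREX → S_FEJ → S_TAU → S_SHP := by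
  rintro ⟨C1, Y1, hC1, hT⟩ hC ⟨C3, hC3, hF⟩ ⟨E, C2, hC2, hTau⟩ δ hδ0 hδ1 B D
  obtain ⟨C4, hC4, hmv⟩ := mv
  obtain ⟨Y2, hY2⟩ := hC (δ / 2) (by linarith) (by linarith) B
    (2 * (D + 3 + 20 + E + D + 1) + 20 + D + 1)
  obtain ⟨Y3, hY3⟩ := ev_exp (D + 3 + 20 + E + D + 1) (δ / 2) (by linarith)
  obtain ⟨Y4, hY4⟩ := ev_exp (D + 3 + 20 + E + D + 1) 0.01 (by norm_num)
  obtain ⟨Y5, hY5⟩ := ev_exp (D + 3) 1 one_pos
  set P : ℝ := 4 * C3 ^ 2 * (961 * 41 ^ 20) with hP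
  set Q : ℝ := 28 * C4 * (5 * C1 ^ 2 * C2 * C3 ^ 2 + 168 * C3 ^ 2) with hQ
  refine ⟨max Y1 (max Y2 (max Y3 (max Y4 (max Y5 (max 10 (2 * P + 2 * Q)))))), ?_⟩
  intro Y hYm q hq hqB f hf hper K N₁ N₂ hK hN1 hN12 hl1 hl2
  simp only [max_le_iff] at hYm
  obtain ⟨hYa, hYb, hYc, hYd, hYe, hY10, hYPQ⟩ := hYm
  have hYpos : (0 : ℝ) < Y := by linarith
  set D₁ : ℕ := D + 3 + 20 + E + D + 1 with hD1
  have e3 := hY3 Y hYc
  have e4 := hY4 Y hYd
  have e5 := hY5 Y hYe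
  obtain ⟨a, haF, ha1, ha2, ha3⟩ := hT Y hYa
  have hN2 : 1 ≤ N₂ := hN1.trans hN12
  have hN1r : (0 : ℝ) < N₁ := by exact_mod_cast hN1
  have hN2r : (0 : ℝ) < N₂ := by exact_mod_cast hN2
  have hYD : 1 ≤ Y ^ D₁ := one_le_pow₀ (by linarith)
  set M : ℕ := ⌈Y ^ D₁⌉₊ with hM
  have hM1 : Y ^ D₁ ≤ M := Nat.le_ceil _
  have hM2 : (M : ℝ) ≤ 2 * Y ^ D₁ := by
    have := Nat.ceil_lt_add_one (show 0 ≤ Y ^ D₁ by positivity)
    linarith
  have hMpos : 1 ≤ M := by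
    have : (1 : ℝ) ≤ M := hYD.trans hM1
    exact_mod_cast this
  have hl1' := abs_le.1 hl1
  have hl2' := abs_le.1 hl2
  obtain ⟨c, hc1, hc2⟩ := hF M (Real.log N₁) (Real.log N₂) hMpos
    (Real.log_le_log hN1r (by exact_mod_cast hN12)) (by linarith [hl1'.1, hl2'.2])
  set S0 : Finset ℕ := Icc 1 ⌊Real.exp (Y + 3 / 2)⌋₊ with hS0
  set χ : ℕ → ℂ := fun n => if Real.log N₁ < Real.log n ∧ Real.log n ≤ Real.log N₂ then (1 : ℂ)
    else 0 with hχ
  set ψ : ℕ → ℂ := fun n => χ n - ∑ m ∈ FK M, c m * ch (-m) (Real.log n) with hψ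
  -- decomposition
  have hdec : ∀ k : ℤ, DP (Ioc N₁ N₂)
      (fun n => ((ArithmeticFunction.vonMangoldt n / n : ℝ) : ℂ) * f n) k =
      ∑ m ∈ FK M, c m * DP S0 (fun n => ((a n : ℝ) : ℂ) * f n) (k - m) +
        DP S0 (fun n => ((a n : ℝ) : ℂ) * f n * ψ n) k := by
    intro k
    rw [← DP_shift]
    unfold DP
    rw [← sum_add_distrib]
    have h1 : ∀ n ∈ S0, ((a n : ℝ) : ℂ) * f n * (∑ m ∈ FK M, c m * ch (-m) (Real.log n)) *
        ch k (Real.log n) + ((a n : ℝ) : ℂ) * f n * ψ n * ch k (Real.log n) =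
        if Real.log N₁ < Real.log n ∧ Real.log n ≤ Real.log N₂ then
          ((a n : ℝ) : ℂ) * f n * ch k (Real.log n) else 0 := by
      intro n _
      have h2 : ((a n : ℝ) : ℂ) * f n * (∑ m ∈ FK M, c m * ch (-m) (Real.log n)) *
        ch k (Real.log n) + ((a n : ℝ) : ℂ) * f n * ψ n * ch k (Real.log n) =
        ((a n : ℝ) : ℂ) * f n * χ n * ch k (Real.log n) := by
        simp only [hψ]
        ring
      rw [h2]
      simp only [hχ]
      split_ifs <;> ring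
    rw [sum_congr rfl h1, ← sum_filter]
    have h3 : S0.filter (fun n : ℕ => Real.log N₁ < Real.log n ∧ Real.log n ≤ Real.log N₂) =
        Ioc N₁ N₂ := by
      ext n
      rw [mem_filter, hS0, mem_Icc, mem_Ioc]
      constructor
      · rintro ⟨⟨h4, _⟩, h5, h6⟩
        have hn0 : (0 : ℝ) < n := by exact_mod_cast h4
        exact ⟨by exact_mod_cast (Real.log_lt_log_iff hN1r hn0).1 h5,
          by exact_mod_cast (Real.log_le_log_iff hn0 hN2r).1 h6⟩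
      · rintro ⟨h5, h6⟩
        have h4 : 1 ≤ n := by omega
        have hn0 : (0 : ℝ) < n := by exact_mod_cast h4
        have h6' : (n : ℝ) ≤ N₂ := by exact_mod_cast h6
        refine ⟨⟨h4, ?_⟩, Real.log_lt_log hN1r (by exact_mod_cast h5), Real.log_le_log hn0 h6'⟩
        apply Nat.le_floor
        calc (n : ℝ) ≤ N₂ := h6'
          _ = Real.exp (Real.log N₂) := (Real.exp_log hN2r).symm
          _ ≤ _ := Real.exp_le_exp.2 (by linarith [hl2'.2])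
    rw [h3]
    refine sum_congr rfl fun n hn => ?_
    rw [mem_Ioc] at hn
    have h4 : 1 ≤ n := by omega
    have hn0 : (0 : ℝ) < n := by exact_mod_cast h4
    rw [ha1 n h4]
    have h5 : Real.log N₁ < Real.log n := Real.log_lt_log hN1r (by exact_mod_cast hn.1)
    have h6 : Real.log n ≤ Real.log N₂ := Real.log_le_log hn0 (by exact_mod_cast hn.2)
    rw [abs_le]
    constructor <;> linarith [hl1'.1, hl2'.2]
  set S := (FK K).filter (fun k : ℤ => Real.exp (0.61 * Y) ≤ |(k : ℝ)|) with hS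
  -- part one
  have hpow0 : 0 < Y ^ (2 * D₁ + 20 + D + 1) := by positivity
  have hI : ∑ k ∈ S, ‖∑ m ∈ FK M, c m * DP S0 (fun n => ((a n : ℝ) : ℂ) * f n) (k - m)‖ ^ 2 ≤
      P / Y ^ (D + 1) := by
    set Bd : ℝ := 961 * ((DY Y).card : ℝ) ^ 2 * (1 / Y ^ (2 * D₁ + 20 + D + 1)) with hBd
    have h1 := mean_shift S (FK M) c (fun k => DP S0 (fun n => ((a n : ℝ) : ℂ) * f n) k) Bd ?_
    · refine h1.trans ?_
      have h2 : ∑ m ∈ FK M, ‖c m‖ ≤ 2 * C3 * Y ^ D₁ := by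
        refine hc1.trans ?_
        have hM0 : (0 : ℝ) < M := by exact_mod_cast hMpos
        have h3 := Real.log_le_sub_one_of_pos hM0
        calc C3 * (1 + Real.log M) ≤ C3 * (2 * Y ^ D₁) :=
              mul_le_mul_of_nonneg_left (by linarith) (by linarith)
          _ = _ := by ring
      have h3 : (∑ m ∈ FK M, ‖c m‖) ^ 2 ≤ (2 * C3 * Y ^ D₁) ^ 2 :=
        pow_le_pow_left₀ (sum_nonneg fun _ _ => norm_nonneg _) h2 2
      have h4 : ((DY Y).card : ℝ) ^ 2 ≤ ((41 * Y) ^ 10) ^ 2 :=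
        pow_le_pow_left₀ (Nat.cast_nonneg _) (DY_card' (by linarith)) 2
      calc (∑ m ∈ FK M, ‖c m‖) ^ 2 * Bd
          ≤ (2 * C3 * Y ^ D₁) ^ 2 * (961 * ((41 * Y) ^ 10) ^ 2 *
            (1 / Y ^ (2 * D₁ + 20 + D + 1))) := by
            refine mul_le_mul h3 ?_ (by positivity) (by positivity)
            exact mul_le_mul_of_nonneg_right (mul_le_mul_of_nonneg_left h4 (by norm_num))
              (by positivity)
        _ = P * (Y ^ (2 * D₁ + 20) / Y ^ (2 * D₁ + 20 + D + 1)) := by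
            rw [hP]
            ring
        _ = P / Y ^ (D + 1) := by
            rw [show 2 * D₁ + 20 + D + 1 = (2 * D₁ + 20) + (D + 1) by ring, pow_add Y (2 * D₁ + 20)]
            have : Y ^ (2 * D₁ + 20) ≠ 0 := by positivity
            field_simp
    · intro m hm
      set S' := (FK (K + M)).filter (fun k : ℤ => Real.exp (0.6 * Y) ≤ |(k : ℝ)|) with hS'
      have hmM : |(m : ℝ)| ≤ M := by
        simp only [FK, mem_Ioo] at hm
        rw [abs_le]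
        constructor
        · have := hm.1.le
          exact_mod_cast this
        · have := hm.2.le
          exact_mod_cast this
      have h2 : ∑ k ∈ S, ‖DP S0 (fun n => ((a n : ℝ) : ℂ) * f n) (k - m)‖ ^ 2 =
          ∑ k' ∈ S.image (fun k => k - m), ‖DP S0 (fun n => ((a n : ℝ) : ℂ) * f n) k'‖ ^ 2 := by
        rw [sum_image]
        intro x _ y _ hxy
        simpa using hxy
      have h3 : S.image (fun k => k - m) ⊆ S' := by
        intro k' hk'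
        rw [mem_image] at hk'
        obtain ⟨k, hk, rfl⟩ := hk'
        rw [hS, mem_filter] at hk
        rw [hS', mem_filter]
        refine ⟨?_, ?_⟩
        · have h4 := hk.1
          simp only [FK, mem_Ioo] at h4 hm ⊢
          push_cast
          omega
        · have h4 := exp_gap (c := 0.6) (t := 0.01) (Y := Y) (z := 2 * Y ^ D₁) (by norm_num)
            hYpos.le e4 (by positivity)
          have h5 : Real.exp ((0.6 + 0.01) * Y) = Real.exp (0.61 * Y) := by norm_num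
          rw [h5] at h4
          have h6 : |(k : ℝ)| ≤ |((k - m : ℤ) : ℝ)| + |(m : ℝ)| := by
            push_cast
            have := abs_add_le ((k : ℝ) - m) m
            simpa using this
          linarith [hk.2]
      have h4 : ∑ k' ∈ S', ‖DP S0 (fun n => ((a n : ℝ) : ℂ) * f n) k'‖ ^ 2 ≤ Bd := by
        have h5 : ∀ k' ∈ S', ‖DP S0 (fun n => ((a n : ℝ) : ℂ) * f n) k'‖ ^ 2 =
            ‖∑ d ∈ DY Y, (ed d : ℂ) * EX f (zY Y) d k'‖ ^ 2 := by
          intro k' _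
          rw [haF f hf k']
        rw [sum_congr rfl h5]
        apply core_sum
        intro d hd
        refine hY2 Y hYb q hq hqB f hf hper d hd (K + M) ?_
        have h6 := exp_gap (c := 5 / 6 - δ) (t := δ / 2) (Y := Y) (z := 2 * Y ^ D₁) (by linarith)
            hYpos.le e3 (by positivity)
        have h7 : (5 / 6 - δ + δ / 2) * Y = (5 / 6 - δ / 2) * Y := by ring
        rw [h7] at h6
        push_cast
        linarith
      calc ∑ k ∈ S, ‖DP S0 (fun n => ((a n : ℝ) : ℂ) * f n) (k - m)‖ ^ 2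
          ≤ ∑ k' ∈ S', ‖DP S0 (fun n => ((a n : ℝ) : ℂ) * f n) k'‖ ^ 2 := by
            rw [h2]
            exact sum_le_sum_of_subset_of_nonneg h3 fun _ _ _ => by positivity
        _ ≤ Bd := h4
  -- part two
  have hII : ∑ k ∈ S, ‖DP S0 (fun n => ((a n : ℝ) : ℂ) * f n * ψ n) k‖ ^ 2 ≤ Q / Y ^ (D + 1) := by
    set S1 := S0.filter (fun n : ℕ => |Real.log n - Y| ≤ 3 / 2) with hS1
    have h1 : ∀ k : ℤ, DP S0 (fun n => ((a n : ℝ) : ℂ) * f n * ψ n) k =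
        DP S1 (fun n => ((a n : ℝ) : ℂ) * f n * ψ n) k := by
      intro k
      unfold DP
      rw [hS1, sum_filter]
      refine sum_congr rfl fun n hn => ?_
      split_ifs with h
      · rfl
      · rw [hS0, mem_Icc] at hn
        show ((a n : ℝ) : ℂ) * f n * ψ n * ch k (Real.log n) = 0
        rw [ha3 n hn.1 (not_le.1 h)]
        simp
    have hS1mem : ∀ n ∈ S1, 1 ≤ n ∧ Real.exp (Y - 3 / 2) ≤ (n : ℝ) ∧
        (n : ℝ) ≤ Real.exp (Y + 3 / 2) := by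
      intro n hn
      rw [hS1, mem_filter, hS0, mem_Icc] at hn
      have hn0 : (0 : ℝ) < n := by exact_mod_cast hn.1.1
      have h3 := abs_le.1 hn.2
      refine ⟨hn.1.1, ?_, ?_⟩
      · rw [← Real.exp_log hn0]
        exact Real.exp_le_exp.2 (by linarith [h3.1])
      · rw [← Real.exp_log hn0]
        exact Real.exp_le_exp.2 (by linarith [h3.2])
    have h2 : ∑ k ∈ S, ‖DP S0 (fun n => ((a n : ℝ) : ℂ) * f n * ψ n) k‖ ^ 2 ≤
        ∑ k ∈ FK (K + 1), ‖DP S1 (fun n => ((a n : ℝ) : ℂ) * f n * ψ n) k‖ ^ 2 := by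
      simp only [h1]
      refine sum_le_sum_of_subset_of_nonneg ?_ fun _ _ _ => by positivity
      intro k hk
      rw [hS, mem_filter] at hk
      have := hk.1
      simp only [FK, mem_Ioo] at this ⊢
      push_cast
      omega
    have h3 := hmv S1 (fun n => ((a n : ℝ) : ℂ) * f n * ψ n) (Real.exp (Y - 3 / 2))
      (Real.exp (Y + 3 / 2)) (K + 1) (Real.one_le_exp (by linarith))
      (Real.exp_le_exp.2 (by linarith)) (fun n hn => (hS1mem n hn).2) (by omega)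
    have hlog3 : Real.log (Real.exp (Y + 3 / 2) / Real.exp (Y - 3 / 2)) = 3 := by
      rw [← Real.exp_sub, Real.log_exp]
      ring
    rw [hlog3] at h3
    set eY : ℝ := Real.exp Y with heY
    have heY1 : 1 ≤ eY := Real.one_le_exp hYpos.le
    have hK1 : (K : ℝ) ≤ eY := hK.trans (Real.exp_le_exp.2 (by nlinarith))
    have h4 : ∑ n ∈ S1, ‖((a n : ℝ) : ℂ) * f n * ψ n‖ ^ 2 * ((n : ℝ) + ((K + 1 : ℕ) : ℝ)) ≤
        (7 * eY) * ∑ n ∈ S1, ‖((a n : ℝ) : ℂ) * f n * ψ n‖ ^ 2 := by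
      rw [mul_sum]
      refine sum_le_sum fun n hn => ?_
      have h5 := (hS1mem n hn).2.2
      have h6 : Real.exp (Y + 3 / 2) ≤ 5 * eY := by
        rw [Real.exp_add, mul_comm]
        exact mul_le_mul_of_nonneg_right exp32 (by positivity)
      rw [mul_comm (7 * eY)]
      refine mul_le_mul_of_nonneg_left ?_ (by positivity)
      push_cast
      linarith
    set η : ℝ := 1 / Y ^ (D + 3) with hη
    have hη0 : 0 < η := by positivity
    have hYD3 : 10 ≤ Y ^ (D + 3) := by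
      calc (10 : ℝ) ≤ Y := hY10
        _ = Y ^ 1 := (pow_one Y).symm
        _ ≤ Y ^ (D + 3) := pow_le_pow_right₀ (by linarith) (by omega)
    have hη1 : η ≤ 1 / 10 := one_div_le_one_div_of_le (by norm_num) hYD3
    set ξ : ℝ := C3 * Y ^ (D + 3) / Y ^ D₁ with hξ
    have hξ0 : 0 ≤ ξ := by positivity
    have h5 := part2 hC1 hC2 hC3 Y (by linarith) a f ψ hf.norm_le N₁ N₂ hN1 hN2 hl1 hl2 η ξ hη0
      hη1 hξ0 ha1 ha2 (hTau Y (by linarith)) ?_ ?_
    rotate_left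
    · intro n _ hn2
      have h6 := abs_le.1 hn2
      refine (hc2 (Real.log n) ?_ ?_).1
      · rw [abs_le]
        constructor <;> linarith [h6.1, h6.2, hl1'.1, hl1'.2]
      · rw [abs_le]
        constructor <;> linarith [h6.1, h6.2, hl2'.1, hl2'.2]
    · intro n _ hn2 hn3 hn4
      have h6 := abs_le.1 hn2
      have h7 := (hc2 (Real.log n) (by rw [abs_le]; constructor <;> linarith [h6.1, h6.2, hl1'.1, hl1'.2])
        (by rw [abs_le]; constructor <;> linarith [h6.1, h6.2, hl2'.1, hl2'.2])).2 η hη0 hn3 hn4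
      refine h7.trans ?_
      have h8 : Y ^ D₁ * η ≤ M * η := mul_le_mul_of_nonneg_right hM1 hη0.le
      calc C3 / (M * η) ≤ C3 / (Y ^ D₁ * η) := div_le_div_of_nonneg_left (by linarith)
            (by positivity) h8
        _ = ξ := by
            rw [hξ, hη]
            field_simp
    have hN1e : (N₁ : ℝ) ≤ 2 * eY := by
      calc (N₁ : ℝ) = Real.exp (Real.log N₁) := (Real.exp_log hN1r).symm
        _ ≤ Real.exp (2 / 5 + Y) := Real.exp_le_exp.2 (by linarith [hl1'.2])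
        _ = Real.exp (2 / 5) * eY := Real.exp_add _ _
        _ ≤ _ := mul_le_mul_of_nonneg_right exp25 (by positivity)
    have hN2e : (N₂ : ℝ) ≤ 2 * eY := by
      calc (N₂ : ℝ) = Real.exp (Real.log N₂) := (Real.exp_log hN2r).symm
        _ ≤ Real.exp (2 / 5 + Y) := Real.exp_le_exp.2 (by linarith [hl2'.2])
        _ = Real.exp (2 / 5) * eY := Real.exp_add _ _
        _ ≤ _ := mul_le_mul_of_nonneg_right exp25 (by positivity)
    have hone : 1 ≤ η * eY := by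
      rw [hη, one_div, inv_mul_eq_div, le_div_iff₀ (by positivity), one_mul]
      rw [one_mul] at e5
      have : 0 ≤ Y ^ (D + 3) := by positivity
      linarith
    have h6 : 3 * η * N₁ + 1 + (3 * η * N₂ + 1) ≤ 14 * (η * eY) := by
      have h7 : 3 * η * N₁ ≤ 3 * η * (2 * eY) := mul_le_mul_of_nonneg_left hN1e (by positivity)
      have h8 : 3 * η * N₂ ≤ 3 * η * (2 * eY) := mul_le_mul_of_nonneg_left hN2e (by positivity)
      linarith
    have h7 : (Y + 1) ^ 2 * Real.exp (1 - 2 * Y) * C3 ^ 2 ≤ 12 * Y ^ 2 * C3 ^ 2 / eY ^ 2 := by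
      have h8 : Real.exp (1 - 2 * Y) = Real.exp 1 / eY ^ 2 := by
        rw [Real.exp_sub, heY, ← Real.exp_nat_mul]
        norm_num
      have h9 : Real.exp 1 ≤ 3 := Real.exp_one_lt_d9.le.trans (by norm_num)
      have h10 : (Y + 1) ^ 2 ≤ 4 * Y ^ 2 := by nlinarith
      rw [h8]
      calc (Y + 1) ^ 2 * (Real.exp 1 / eY ^ 2) * C3 ^ 2
          ≤ (4 * Y ^ 2) * (3 / eY ^ 2) * C3 ^ 2 := by gcongr
        _ = _ := by ring
    have h8 : ∑ n ∈ S1, ‖((a n : ℝ) : ℂ) * f n * ψ n‖ ^ 2 ≤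
        (5 * C1 ^ 2 * C2 * C3 ^ 2 + 168 * C3 ^ 2) / Y ^ (D + 1) / eY := by
      refine h5.trans ?_
      have h9 : C1 ^ 2 * C2 * ξ ^ 2 * Y ^ (40 + E) * Real.exp (3 / 2 - Y) ≤
          5 * C1 ^ 2 * C2 * C3 ^ 2 / Y ^ (D + 1) / eY := by
        have h10 : Real.exp (3 / 2 - Y) ≤ 5 / eY := by
          rw [Real.exp_sub]
          exact div_le_div_of_nonneg_right exp32 (by positivity)
        have h11 : ξ ^ 2 * Y ^ (40 + E) ≤ C3 ^ 2 / Y ^ (D + 1) := by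
          rw [hξ, div_pow, mul_pow, ← pow_mul, ← pow_mul, div_mul_eq_mul_div, div_le_div_iff₀
            (by positivity) (by positivity)]
          have h12 : C3 ^ 2 * Y ^ ((D + 3) * 2) * Y ^ (40 + E) * Y ^ (D + 1) =
              C3 ^ 2 * Y ^ ((D + 3) * 2 + (40 + E) + (D + 1)) := by
            rw [pow_add, pow_add]
            ring
          rw [h12]
          refine mul_le_mul_of_nonneg_left ?_ (by positivity)
          exact pow_le_pow_right₀ (by linarith) (by omega)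
        calc C1 ^ 2 * C2 * ξ ^ 2 * Y ^ (40 + E) * Real.exp (3 / 2 - Y)
            = C1 ^ 2 * C2 * (ξ ^ 2 * Y ^ (40 + E)) * Real.exp (3 / 2 - Y) := by ring
          _ ≤ C1 ^ 2 * C2 * (C3 ^ 2 / Y ^ (D + 1)) * (5 / eY) := by
              have : 0 ≤ C2 := by linarith
              gcongr
          _ = _ := by ring
      have h10 : (3 * η * N₁ + 1 + (3 * η * N₂ + 1)) *
          ((Y + 1) ^ 2 * Real.exp (1 - 2 * Y) * C3 ^ 2) ≤
          168 * C3 ^ 2 / Y ^ (D + 1) / eY := by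
        calc (3 * η * N₁ + 1 + (3 * η * N₂ + 1)) * ((Y + 1) ^ 2 * Real.exp (1 - 2 * Y) * C3 ^ 2)
            ≤ (14 * (η * eY)) * (12 * Y ^ 2 * C3 ^ 2 / eY ^ 2) :=
              mul_le_mul h6 h7 (by positivity) (by positivity)
          _ = 168 * C3 ^ 2 / Y ^ (D + 1) / eY := by
              rw [hη, show D + 3 = (D + 1) + 2 by ring, pow_add Y (D + 1) 2]
              have : eY ≠ 0 := by positivity
              field_simp
              ring
      calc _ ≤ 5 * C1 ^ 2 * C2 * C3 ^ 2 / Y ^ (D + 1) / eY + 168 * C3 ^ 2 / Y ^ (D + 1) / eY :=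
            add_le_add h9 h10
        _ = _ := by ring
    have heY0 : eY ≠ 0 := by positivity
    calc ∑ k ∈ S, ‖DP S0 (fun n => ((a n : ℝ) : ℂ) * f n * ψ n) k‖ ^ 2
        ≤ ∑ k ∈ FK (K + 1), ‖DP S1 (fun n => ((a n : ℝ) : ℂ) * f n * ψ n) k‖ ^ 2 := h2
      _ ≤ C4 * (1 + 3) * ∑ n ∈ S1, ‖((a n : ℝ) : ℂ) * f n * ψ n‖ ^ 2 *
            ((n : ℝ) + ((K + 1 : ℕ) : ℝ)) := h3
      _ ≤ C4 * (1 + 3) * ((7 * eY) * ((5 * C1 ^ 2 * C2 * C3 ^ 2 + 168 * C3 ^ 2) /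
            Y ^ (D + 1) / eY)) := by
          refine mul_le_mul_of_nonneg_left (h4.trans ?_) (by positivity)
          exact mul_le_mul_of_nonneg_left h8 (by positivity)
      _ = Q / Y ^ (D + 1) := by
          rw [hQ]
          field_simp
          ring
  -- conclusion
  calc ∑ k ∈ S, ‖DP (Ioc N₁ N₂)
        (fun n => ((ArithmeticFunction.vonMangoldt n / n : ℝ) : ℂ) * f n) k‖ ^ 2
      ≤ ∑ k ∈ S, (2 * ‖∑ m ∈ FK M, c m * DP S0 (fun n => ((a n : ℝ) : ℂ) * f n) (k - m)‖ ^ 2 +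
          2 * ‖DP S0 (fun n => ((a n : ℝ) : ℂ) * f n * ψ n) k‖ ^ 2) := by
        refine sum_le_sum fun k _ => ?_
        rw [hdec k]
        have h1 := norm_add_le (∑ m ∈ FK M, c m * DP S0 (fun n => ((a n : ℝ) : ℂ) * f n) (k - m))
          (DP S0 (fun n => ((a n : ℝ) : ℂ) * f n * ψ n) k)
        have h2 := pow_le_pow_left₀ (norm_nonneg _) h1 2
        nlinarith [sq_nonneg (‖∑ m ∈ FK M, c m * DP S0 (fun n => ((a n : ℝ) : ℂ) * f n) (k - m)‖ -
          ‖DP S0 (fun n => ((a n : ℝ) : ℂ) * f n * ψ n) k‖)]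
    _ ≤ 2 * (P / Y ^ (D + 1)) + 2 * (Q / Y ^ (D + 1)) := by
        rw [sum_add_distrib, ← mul_sum, ← mul_sum]
        linarith
    _ = (2 * P + 2 * Q) / Y ^ (D + 1) := by ring
    _ ≤ Y / Y ^ (D + 1) := div_le_div_of_nonneg_right hYPQ (by positivity)
    _ = 1 / Y ^ D := by
        rw [pow_succ]
        field_simp

end Pool.Agent.H43.X6
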