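import Pool.Agent.H43.X6.Stm

set_option autoImplicit false

namespace Pool.Agent.H43.X6

open Finset

theorem card_div_mul_le (d e : ℕ) : (d * e).divisors.card ≤ d.divisors.card * e.divisors.card := by
  classical
  rcases Nat.eq_zero_or_pos d with rfl | hd
  · simp
  rcases Nat.eq_zero_or_pos e with rfl | he
  · simp
  have : (d * e).divisors ⊆ (d.divisors ×ˢ e.divisors).image (fun p => p.1 * p.2) := by
    intro x hx
    rw [Nat.mem_divisors] at hx
    obtain ⟨a, b, ha, hb, hab⟩ := (Nat.dvd_mul.mp hx.1)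
    rw [Finset.mem_image]
    exact ⟨(a, b), by simp [Nat.mem_divisors, ha, hb, hd.ne', he.ne'], hab⟩
  calc _ ≤ _ := Finset.card_le_card this
    _ ≤ _ := Finset.card_image_le
    _ = _ := by rw [Finset.card_product]

theorem tau_step (N k : ℕ) : ∑ n ∈ Icc 1 N, (n.divisors.card : ℝ) ^ (k + 1) / n ≤
    (∑ n ∈ Icc 1 N, (n.divisors.card : ℝ) ^ k / n) ^ 2 := by
  classical
  have h1 : ∀ n ∈ Icc 1 N, (n.divisors.card : ℝ) ^ (k + 1) / n ≤
      ∑ d ∈ n.divisors, ((d.divisors.card : ℝ) ^ k / d) * (((n / d).divisors.card : ℝ) ^ k / (n / d : ℕ)) := by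
    intro n hn
    rw [Finset.mem_Icc] at hn
    have : ∀ d ∈ n.divisors, (n.divisors.card : ℝ) ^ k / n ≤
        ((d.divisors.card : ℝ) ^ k / d) * (((n / d).divisors.card : ℝ) ^ k / (n / d : ℕ)) := by
      intro d hd
      rw [Nat.mem_divisors] at hd
      obtain ⟨e, he⟩ := hd.1
      have hd0 : 0 < d := Nat.pos_of_ne_zero (by rintro rfl; omega)
      have hde : n / d = e := by rw [he]; exact Nat.mul_div_cancel_left e hd0
      rw [hde, div_mul_div_comm, ← mul_pow, he]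
      have := card_div_mul_le d e
      push_cast
      have he0 : 0 < e := Nat.pos_of_ne_zero (by rintro rfl; omega)
      have h2 : ((d * e).divisors.card : ℝ) ≤ d.divisors.card * e.divisors.card := by exact_mod_cast this
      gcongr
    calc (n.divisors.card : ℝ) ^ (k + 1) / n = ∑ d ∈ n.divisors, (n.divisors.card : ℝ) ^ k / n := by
          rw [Finset.sum_const, nsmul_eq_mul, pow_succ]; ring
      _ ≤ _ := Finset.sum_le_sum this
  refine (Finset.sum_le_sum h1).trans ?_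
  rw [sq, Finset.sum_mul_sum, Finset.sum_sigma', ← Finset.sum_product']
  have hinj : Set.InjOn (fun x : (_ : ℕ) × ℕ => ((x.2, x.1 / x.2) : ℕ × ℕ))
      (((Icc 1 N).sigma fun n => n.divisors : Finset ((_ : ℕ) × ℕ)) : Set ((_ : ℕ) × ℕ)) := by
    rintro ⟨n, d⟩ hx ⟨n', d'⟩ hx' h
    simp only [Finset.coe_sigma, Set.mem_sigma_iff, Finset.mem_coe, Nat.mem_divisors] at hx hx'
    simp only [Prod.mk.injEq] at h
    obtain ⟨rfl, h2⟩ := h
    have e1 := Nat.div_mul_cancel hx.2.1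
    have e2 := Nat.div_mul_cancel hx'.2.1
    have : n = n' := by rw [← e1, ← e2, h2]
    subst this
    rfl
  rw [← Finset.sum_image (f := fun p : ℕ × ℕ => ((p.1.divisors.card : ℝ) ^ k / p.1) *
    ((p.2.divisors.card : ℝ) ^ k / (p.2 : ℕ))) hinj]
  refine Finset.sum_le_sum_of_subset_of_nonneg ?_ (fun _ _ _ => by positivity)
  intro p hp
  rw [Finset.mem_image] at hp
  obtain ⟨⟨n, d⟩, hx, rfl⟩ := hp
  simp only [Finset.mem_sigma, Finset.mem_Icc, Nat.mem_divisors] at hx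
  obtain ⟨⟨h1, h2⟩, h3, h4⟩ := hx
  have hd0 : 0 < d := Nat.pos_of_ne_zero (by rintro rfl; simp at h3; omega)
  have hdn : d ≤ n := Nat.le_of_dvd (by omega) h3
  simp only [Finset.mem_product, Finset.mem_Icc]
  refine ⟨⟨hd0, hdn.trans h2⟩, Nat.div_pos hdn hd0, (Nat.div_le_self n d).trans h2⟩

theorem tau_all (N : ℕ) : ∀ k : ℕ, ∑ n ∈ Icc 1 N, (n.divisors.card : ℝ) ^ k / n ≤
    (∑ n ∈ Icc 1 N, (1 : ℝ) / n) ^ (2 ^ k) := by
  intro k
  induction k with
  | zero => simp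
  | succ k ih =>
    refine (tau_step N k).trans ?_
    rw [pow_succ 2 k, pow_mul]
    exact pow_le_pow_left₀ (Finset.sum_nonneg fun _ _ => by positivity) ih 2

theorem harm_le (Y : ℝ) (hY : 1 ≤ Y) : ∑ n ∈ Icc 1 ⌊Real.exp (Y + 3 / 2)⌋₊, (1 : ℝ) / n ≤ 4 * Y := by
  have h1 := harmonic_floor_le_one_add_log (Real.exp (Y + 3 / 2)) (by
    have := Real.add_one_le_exp (Y + 3 / 2); linarith)
  rw [Real.log_exp, harmonic_eq_sum_Icc] at h1
  push_cast at h1
  simp only [one_div]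
  linarith

theorem tau : S_TAU := by
  have key : ∀ k : ℕ, ∃ (E : ℕ) (C : ℝ), 1 ≤ C ∧ ∀ Y : ℝ, 1 ≤ Y →
      ∑ n ∈ Icc 1 ⌊Real.exp (Y + 3 / 2)⌋₊, (n.divisors.card : ℝ) ^ k / n ≤ C * Y ^ E := by
    intro k
    refine ⟨2 ^ k, 4 ^ (2 ^ k), one_le_pow₀ (by norm_num), fun Y hY => ?_⟩
    refine (tau_all _ k).trans ?_
    rw [← mul_pow]
    exact pow_le_pow_left₀ (Finset.sum_nonneg fun _ _ => by positivity) (harm_le Y hY) _
  exact key 20

end Pool.Agent.H43.X6
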