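import Pool.Agent.H43.X6.Stm
import Pool.Agent.H43.G.R_pool_sql_team_seeded_3997aac3.Q298.KS.Tri

/-! # X6-TRIX: trivial bounds for the twisted factors -/

set_option autoImplicit false

namespace Pool.Agent.H43.X6

open Finset Pool.Agent.H376R2.MR Pool.Agent.Q240.KS Pool.Agent.Q298.KS

theorem norm_PX_le {f : ℕ → ℂ} (hf : ∀ n, ‖f n‖ ≤ 1) (z : ℕ) (t : Fin 3) (d : ℕ) (k : ℤ) :
    ‖PX f z t d k‖ ≤ 2 * cb t d := by
  unfold PX DP
  rw [sum_sp_eq d _ (fun n h1 h => by
    dsimp only
    rw [cf_lo h1 h]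
    simp)]
  refine (norm_sum_le _ _).trans ?_
  have h4 : (0 : ℝ) ≤ cb t d := (zero_le_one).trans (one_le_cb t d)
  calc ∑ n ∈ Ico (lo d) (hi d), ‖((cf z t d n : ℝ) : ℂ) * f n * ch k (Real.log n)‖
      ≤ ∑ n ∈ Ico (lo d) (hi d), cb t d * (1 / n) := by
        refine sum_le_sum fun n hn => ?_
        rw [mem_Ico] at hn
        rw [norm_mul, norm_ch, mul_one, norm_mul, Complex.norm_real, Real.norm_eq_abs]
        have h5 := cf_abs z t d n ((one_le_lo d).trans hn.1) hn.2
        calc |cf z t d n| * ‖f n‖ ≤ |cf z t d n| * 1 :=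
              mul_le_mul_of_nonneg_left (hf n) (abs_nonneg _)
          _ = |cf z t d n| := mul_one _
          _ ≤ cb t d / n := h5
          _ = cb t d * (1 / n) := by ring
    _ = cb t d * ∑ n ∈ Ico (lo d) (hi d), (1 : ℝ) / n := by rw [mul_sum]
    _ ≤ cb t d * (1 + 1 / 10) := mul_le_mul_of_nonneg_left (sum_inv_window d) h4
    _ ≤ 2 * cb t d := by linarith

theorem per_mod {q : ℕ} {f : ℕ → ℂ} (hf : ∀ n, f (n + q) = f n) (n : ℕ) : f (n % q) = f n := by
  have h : ∀ m r : ℕ, f (r + q * m) = f r := by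
    intro m
    induction m with
    | zero => intro r; simp
    | succ m ih =>
      intro r
      have : r + q * (m + 1) = (r + q * m) + q := by ring
      rw [this, hf, ih]
  conv_rhs => rw [← Nat.mod_add_div n q]
  rw [h]

theorem trix : S_TRIX := by
  refine ⟨fun f hf z t d k => ⟨?_, fun ht => ?_⟩, fun q f hq hf z t d k => ?_⟩
  · have h1 := norm_PX_le hf z t d k
    have h3 := cb_le t d
    linarith
  · have h1 := norm_PX_le hf z t d k
    rw [cb_ne ht] at h1
    linarith
  · unfold PX PC DP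
    have h1 : ∀ a ∈ range q, f a * ∑ n ∈ (sp d).filter (fun n => n % q = a),
        ((cf z t d n : ℝ) : ℂ) * ch k (Real.log n) =
        ∑ n ∈ (sp d).filter (fun n => n % q = a), ((cf z t d n : ℝ) : ℂ) * f n * ch k (Real.log n) := by
      intro a _
      rw [mul_sum]
      refine sum_congr rfl fun n hn => ?_
      rw [mem_filter] at hn
      rw [← per_mod hf n, hn.2]
      ring
    rw [sum_congr rfl h1]
    symm
    exact sum_fiberwise_of_maps_to (fun n _ => mem_range.2 (Nat.mod_lt n hq)) _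

end Pool.Agent.H43.X6
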