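import Pool.Agent.H43.X6.Stm
import Pool.Agent.H43.G.R_pool_sql_team_seeded_3997aac3.Q95.KS.Tup
import Pool.Agent.H43.G.R_pool_sql_team_seeded_3997aac3.Q257.KS.HB

/-!
# X6-TUPX: Heath-Brown's identity twisted by a completely multiplicative function
-/

set_option autoImplicit false

namespace Pool.Agent.H43.X6.TUPX

open Finset Pool.Agent.H376R2.MR Pool.Agent.Q240.KS Pool.Agent.Q95.KS

/-- the twisted Dirichlet polynomial -/
noncomputable def Lx (φ : ℕ → ℂ) (k : ℤ) (N : ℕ) (f : ArithmeticFunction ℝ) : ℂ :=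
  ∑ n ∈ Icc 1 N, ((f n : ℝ) : ℂ) * φ n * ch k (Real.log n)

theorem Lx_mono (φ : ℕ → ℂ) (k : ℤ) {N M : ℕ} (h : N ≤ M) {f : ArithmeticFunction ℝ}
    (hf : Sup f N) : Lx φ k N f = Lx φ k M f := by
  unfold Lx
  apply sum_subset (Icc_subset_Icc_right h)
  intro n hn hn'
  rw [mem_Icc] at hn hn'
  have : N < n := by
    by_contra hc
    exact hn' ⟨hn.1, not_lt.mp hc⟩
  rw [hf n this]
  simp

theorem Lx_indep (φ : ℕ → ℂ) (k : ℤ) {N M : ℕ} {f : ArithmeticFunction ℝ} (hf : Sup f N)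
    (hf' : Sup f M) : Lx φ k N f = Lx φ k M f := by
  rw [Lx_mono φ k (le_max_left N M) hf, Lx_mono φ k (le_max_right N M) hf']

theorem Lx_mul {φ : ℕ → ℂ} (hφ : CM φ) (k : ℤ) {f g : ArithmeticFunction ℝ} {N M : ℕ}
    (hf : Sup f N) (hg : Sup g M) : Lx φ k N f * Lx φ k M g = Lx φ k (N * M) (f * g) := by
  unfold Lx
  rw [sum_mul_sum, ← sum_product']
  have hmaps : ∀ p ∈ Icc 1 N ×ˢ Icc 1 M, p.1 * p.2 ∈ Icc 1 (N * M) := by
    rintro ⟨x, y⟩ hp
    rw [mem_product, mem_Icc, mem_Icc] at hp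
    rw [mem_Icc]
    exact ⟨Nat.mul_pos hp.1.1 hp.2.1, Nat.mul_le_mul hp.1.2 hp.2.2⟩
  rw [← sum_fiberwise_of_maps_to hmaps]
  apply sum_congr rfl
  intro n hn
  rw [mem_Icc] at hn
  rw [ArithmeticFunction.mul_apply]
  push_cast
  rw [sum_mul, sum_mul]
  have hsub : (Icc 1 N ×ˢ Icc 1 M).filter (fun p => p.1 * p.2 = n) ⊆ n.divisorsAntidiagonal := by
    rintro ⟨x, y⟩ hp
    rw [mem_filter] at hp
    rw [Nat.mem_divisorsAntidiagonal]
    exact ⟨hp.2, by omega⟩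
  rw [← sum_subset hsub]
  · apply sum_congr rfl
    rintro ⟨x, y⟩ hp
    rw [mem_filter, mem_product, mem_Icc, mem_Icc] at hp
    obtain ⟨⟨hx, hy⟩, hxy⟩ := hp
    simp only at hx hy hxy ⊢
    have hx0 : (x : ℝ) ≠ 0 := by
      have : x ≠ 0 := by omega
      exact_mod_cast this
    have hy0 : (y : ℝ) ≠ 0 := by
      have : y ≠ 0 := by omega
      exact_mod_cast this
    have e1 : Real.log (n : ℝ) = Real.log x + Real.log y := by
      rw [← hxy]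
      push_cast
      exact Real.log_mul hx0 hy0
    have e2 : φ n = φ x * φ y := by
      rw [← hxy]
      exact hφ.mul x y hx.1 hy.1
    rw [e1, ch_add, e2]
    ring
  · rintro ⟨x, y⟩ hp hnp
    rw [Nat.mem_divisorsAntidiagonal] at hp
    rw [mem_filter, mem_product, mem_Icc, mem_Icc] at hnp
    obtain ⟨h1, h2⟩ := hp
    simp only at h1 hnp ⊢
    have hx1 : 1 ≤ x := by
      rcases Nat.eq_zero_or_pos x with h | h
      · rw [h, zero_mul] at h1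
        omega
      · exact h
    have hy1 : 1 ≤ y := by
      rcases Nat.eq_zero_or_pos y with h | h
      · rw [h, mul_zero] at h1
        omega
      · exact h
    by_cases hx : N < x
    · rw [hf x hx]
      simp
    · by_cases hy : M < y
      · rw [hg y hy]
        simp
      · exfalso
        exact hnp ⟨⟨⟨hx1, not_lt.mp hx⟩, ⟨hy1, not_lt.mp hy⟩⟩, h1⟩

theorem Lx_prod {φ : ℕ → ℂ} (hφ : CM φ) (k : ℤ) (s : Finset (Fin 10)) (N : Fin 10 → ℕ)
    (f : Fin 10 → ArithmeticFunction ℝ) (hf : ∀ i, Sup (f i) (N i)) :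
    Sup (∏ i ∈ s, f i) (∏ i ∈ s, N i) ∧
      ∏ i ∈ s, Lx φ k (N i) (f i) = Lx φ k (∏ i ∈ s, N i) (∏ i ∈ s, f i) := by
  induction s using Finset.induction_on with
  | empty =>
    constructor
    · intro n hn
      rw [prod_empty] at hn ⊢
      exact ArithmeticFunction.one_apply_ne (by omega)
    · simp [Lx, ch_zero, hφ.one]
  | insert a s ha ih =>
    rw [prod_insert ha, prod_insert ha, prod_insert ha, ih.2]
    exact ⟨Sup_mul (hf a) ih.1, Lx_mul hφ k (hf a) ih.1⟩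

theorem EX_eq {φ : ℕ → ℂ} (hφ : CM φ) {z : ℕ} {Y : ℝ} {d : Fin 10 → ℕ} (hd : d ∈ DY Y) (k : ℤ) :
    EX φ z d k = Lx φ k ⌊Real.exp (Y + 3 / 2)⌋₊ (TT z d) := by
  have h1 := Lx_prod hφ k univ (fun i => ⌊Real.exp (((d i : ℝ) + 1) / 20)⌋₊)
    (fun i => af z (ty i) (d i)) (fun i => af_sup z (ty i) (d i))
  have h2 : EX φ z d k =
      ∏ i, Lx φ k ⌊Real.exp (((d i : ℝ) + 1) / 20)⌋₊ (af z (ty i) (d i)) := rfl
  rw [h2, h1.2]
  exact Lx_indep φ k h1.1 (TT_sup hd)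

theorem AX_eq {φ : ℕ → ℂ} (hφ : CM φ) (Y : ℝ) (k : ℤ) :
    ∑ d ∈ DY Y, (ed d : ℂ) * EX φ (zY Y) d k =
      DP (Icc 1 ⌊Real.exp (Y + 3 / 2)⌋₊) (fun n => ((aY Y n : ℝ) : ℂ) * φ n) k := by
  have h1 : ∑ d ∈ DY Y, (ed d : ℂ) * EX φ (zY Y) d k = ∑ d ∈ DY Y, (ed d : ℂ) *
      ∑ n ∈ Icc 1 ⌊Real.exp (Y + 3 / 2)⌋₊,
        ((TT (zY Y) d n : ℝ) : ℂ) * φ n * ch k (Real.log n) := by
    apply sum_congr rfl
    intro d hd
    rw [EX_eq hφ hd]
    rfl
  rw [h1]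
  unfold DP
  simp only [mul_sum]
  rw [sum_comm]
  apply sum_congr rfl
  intro n _
  unfold aY
  push_cast
  rw [sum_mul, sum_mul]
  apply sum_congr rfl
  intro d _
  ring

theorem aY_bd {Y : ℝ} (hY : 2 ≤ Y) {n : ℕ} (hn : 1 ≤ n) :
    |aY Y n| ≤ (31 * 41 ^ 10 * 4 ^ 10) * Y ^ 20 * (n.divisors.card : ℝ) ^ 10 / n := by
  by_cases hfar : 3 / 2 < |Real.log n - Y|
  · rw [aY_zero hfar, abs_zero]
    positivity
  · have hlog := (abs_le.mp (not_lt.mp hfar)).2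
    have hn0 : n ≠ 0 := by omega
    have hnpos : (0 : ℝ) < n := by exact_mod_cast hn
    have hln : 0 ≤ Real.log (n : ℝ) := Real.log_natCast_nonneg n
    have hT : ∀ d ∈ DY Y, |(ed d : ℝ) * TT (zY Y) d n| ≤
        31 * ((4 * Y) ^ 10 * (n.divisors.card : ℝ) ^ 10 / n) := by
      intro d _
      rw [abs_mul]
      apply mul_le_mul (ed_bound d) _ (abs_nonneg _) (by norm_num)
      refine (TT_bound (zY Y) d hn0).trans ?_
      apply div_le_div_of_nonneg_right _ hnpos.le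
      apply mul_le_mul_of_nonneg_right _ (by positivity)
      apply pow_le_pow_left₀ (by positivity)
      linarith
    have hR : ((⌊20 * (Y + 1)⌋₊ + 1 : ℕ) : ℝ) ≤ 41 * Y := by
      push_cast
      have := Nat.floor_le (show 0 ≤ 20 * (Y + 1) by linarith)
      linarith
    have hcard : ((DY Y).card : ℝ) ≤ (41 * Y) ^ 10 :=
      (DY_card Y).trans (pow_le_pow_left₀ (Nat.cast_nonneg _) hR 10)
    calc |aY Y n| ≤ ∑ d ∈ DY Y, |(ed d : ℝ) * TT (zY Y) d n| := abs_sum_le_sum_abs _ _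
      _ ≤ ∑ d ∈ DY Y, 31 * ((4 * Y) ^ 10 * (n.divisors.card : ℝ) ^ 10 / n) := sum_le_sum hT
      _ = ((DY Y).card : ℝ) * (31 * ((4 * Y) ^ 10 * (n.divisors.card : ℝ) ^ 10 / n)) := by
          rw [sum_const, nsmul_eq_mul]
      _ ≤ (41 * Y) ^ 10 * (31 * ((4 * Y) ^ 10 * (n.divisors.card : ℝ) ^ 10 / n)) :=
          mul_le_mul_of_nonneg_right hcard (by positivity)
      _ = (31 * 41 ^ 10 * 4 ^ 10) * Y ^ 20 * (n.divisors.card : ℝ) ^ 10 / n := by ring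

end Pool.Agent.H43.X6.TUPX

namespace Pool.Agent.H43.X6

open Finset Pool.Agent.H376R2.MR Pool.Agent.Q240.KS Pool.Agent.Q95.KS

theorem tupx_of (hHB : S_HB) : S_TUPX := by
  refine ⟨31 * 41 ^ 10 * 4 ^ 10, 2, by norm_num, fun Y hY => ⟨aY Y, ?_, ?_, ?_, ?_⟩⟩
  · intro f hf k
    exact TUPX.AX_eq hf Y k
  · intro n hn h
    exact aY_eq hHB hY hn h
  · intro n hn
    exact TUPX.aY_bd hY hn
  · intro n _ h
    exact aY_zero h

theorem tupx : S_TUPX := tupx_of Pool.Agent.Q257.KS.hb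

end Pool.Agent.H43.X6
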