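import Pool.Agent.H43.X6.Sie6
import Pool.Agent.H43.X6.SHP
import Pool.Agent.H43.X6.TUPX
import Pool.Agent.H43.X6.COREX
import Pool.Agent.H43.X6.FARX
import Pool.Agent.H43.X6.LVMX
import Pool.Agent.H43.X6.LVHX
import Pool.Agent.H43.X6.LVRC
import Pool.Agent.H43.X6.RFLC
import Pool.Agent.H43.X6.SBA
import Pool.Agent.H43.X6.SBB
import Pool.Agent.H43.X6.PSNC
import Pool.Agent.H43.X6.IBPC
import Pool.Agent.H43.X6.TRIX
import Pool.Agent.H43.X6.OPT6
import Pool.Agent.H43.X6.NEARX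
import Pool.Agent.H43.X6.MBX
import Pool.Agent.H43.X6.FEJ
import Pool.Agent.H43.X6.TAU
import Pool.Agent.H43.X6.HF
import Pool.Agent.H43.SL.Chn
import Pool.Agent.H43.G.R_pool_sql_team_seeded_3997aac3.Q209.KS.Hu
import Pool.Agent.H43.G.R_pool_sql_team_seeded_3997aac3.Q209.KS.Ker
import Pool.Agent.H43.G.R_pool_sql_team_seeded_3997aac3.Q14.KS.Smo
import Pool.Agent.H43.G.R_pool_sql_team_seeded_3997aac3.Q222.KS.KERV
import Pool.Agent.H43.G.R_pool_sql_team_seeded_3997aac3.Q198.KT.Pmv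
import Pool.Agent.H43.G.R_pool_sql_team_seeded_3997aac3.Q177.KT.EI

/-!
# Primes in progressions in almost all intervals of length `X ^ θ`, `θ > 1 / 6`: assembly
-/

set_option autoImplicit false

namespace Pool.Agent.H43.X6

open Pool.Agent.helper24_UT Pool.Agent.H43.SL Pool.Agent.Q240.KS Pool.Agent.Q240.KT

theorem c_KER : S_KER := Pool.Agent.Q209.KS.ker Pool.Agent.Q14.KS.smo
theorem c_HU : S_HU := Pool.Agent.Q209.KS.hu Pool.Agent.Q209.KS.hmg c_KER
theorem c_RFLC : S_RFLC := rflc Pool.Agent.Q177.KT.EI.ei psnc ibpc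
theorem c_SBA : S_SBA := sba
theorem c_SBB : S_SBB := sbb Zsx.main
theorem c_LVRC : S_LVRC := lvrc c_RFLC Pool.Agent.Q198.KT.pmv
theorem c_FARX : S_FARX := farx lvmx (lvhx c_HU) c_LVRC c_SBA trix opt6
theorem c_NEARX : S_NEARX :=
  nearx c_SBB (mbx c_M1) lvmx trix Pool.Agent.Q222.KS.kerv Pool.Agent.Q209.KS.hmg
theorem c_SHP : S_SHP := shp tupx (corex c_FARX c_NEARX trix) fej tau

/-- the logarithmic second moment of the primes in a class, up to the height `Y ^ (5/6 - δ)` -/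
theorem c_HF : S_HF := hf c_SHP

/-- primes in progressions in almost all intervals of length at least `X ^ θ` -/
theorem c_SIe6 {θ : ℝ} (hθ : 1 / 6 < θ) : SIe θ := sie6 hθ c_T1 c_MAP Win.main c_HF

theorem c_SIg6 {θ : ℝ} (hθ : 1 / 6 < θ) : SIg θ := sig_of_sie θ (c_SIe6 hθ)

end Pool.Agent.H43.X6
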