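import Mathlib
import Pool.Agent.H43.G.R_pool_sql_team_seeded_3997aac3.Q240.KS.Stm1
import Pool.Agent.H43.G.R_pool_sql_team_seeded_3997aac3.Q240.KT.Stm

/-!
# Project X6 (helper43): primes in progressions in almost all intervals of length `X ^ (1/6 + ε)`. Definitions

Heath-Brown's identity twisted by completely multiplicative periodic functions, Huxley's large values and the
fourth moment, at integer frequencies `k` with `Y^0.6 ≤ |k| ≤ Y^(5/6 - δ)` (here `Y` is the logarithm of the main
parameter, as in project KS).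
-/

set_option autoImplicit false

namespace Pool.Agent.H43.X6

open Finset Pool.Agent.H376R2.MR Pool.Agent.Q240.KS

/-- completely multiplicative functions bounded by one -/
structure CM (f : ℕ → ℂ) : Prop where
  one : f 1 = 1
  mul : ∀ m n : ℕ, 1 ≤ m → 1 ≤ n → f (m * n) = f m * f n
  norm_le : ∀ n, ‖f n‖ ≤ 1

/-- the factors twisted by `f` -/
noncomputable def PX (f : ℕ → ℂ) (z : ℕ) (t : Fin 3) (d : ℕ) (k : ℤ) : ℂ :=
  DP (sp d) (fun n => ((cf z t d n : ℝ) : ℂ) * f n) k

/-- the factors restricted to the class `a` modulo `q` -/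
noncomputable def PC (q a z : ℕ) (t : Fin 3) (d : ℕ) (k : ℤ) : ℂ :=
  DP ((sp d).filter (fun n => n % q = a)) (fun n => ((cf z t d n : ℝ) : ℂ)) k

/-- the product of the ten twisted factors -/
noncomputable def EX (f : ℕ → ℂ) (z : ℕ) (d : Fin 10 → ℕ) (k : ℤ) : ℂ := ∏ i, PX f z (ty i) (d i) k

/-- `e(x) = exp (2 π i x)` -/
noncomputable def e1 (x : ℝ) : ℂ := Complex.exp ((2 * Real.pi * x : ℝ) * Complex.I)

end Pool.Agent.H43.X6
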