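import Pool.Agent.H43.X6.Defs

/-!
# Project X6 (helper43): statements

`Y` = logarithm of the main parameter. Every statement is a `Prop`, with a complete proof in its docstring. Most proofs are
adaptations of a file of the library (projects KS, KT in `Pool/Graph/R_pool_sql_team_seeded_3997aac3/`); the same files are
vendored under `Pool/Agent/H43/G/R_pool_sql_team_seeded_3997aac3/` and MUST be imported from there (never from Pool.Graph).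
-/

set_option autoImplicit false

namespace Pool.Agent.H43.X6

open Finset Pool.Agent.H376R2.MR Pool.Agent.Q240.KS Pool.Agent.Q240.KT

/-- **TRIX** trivial bounds; and the twisted factor is a combination of the class factors. Proof: as `Q298/KS/Tri.lean`
(`norm_PF_le`, `cf_abs`), `‖f n‖ ≤ 1`; second part: split `sp d` by `n % q`, `f n = f (n % q)`. -/
def S_TRIX : Prop :=
  (∀ (f : ℕ → ℂ), (∀ n, ‖f n‖ ≤ 1) → ∀ (z : ℕ) (t : Fin 3) (d : ℕ) (k : ℤ),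
    ‖PX f z t d k‖ ≤ 2 * (1 + d) ∧ (t ≠ 2 → ‖PX f z t d k‖ ≤ 2)) ∧
  (∀ (q : ℕ) (f : ℕ → ℂ), 1 ≤ q → (∀ n, f (n + q) = f n) → ∀ (z : ℕ) (t : Fin 3) (d : ℕ) (k : ℤ),
    PX f z t d k = ∑ a ∈ range q, f a * PC q a z t d k)

/-- **TUPX** Heath-Brown's identity, twisted. Proof: `Q95/KS/TupA.lean` and `Q95/KS/Tup.lean` (theorem `tup`) with `ch k (log n)`
replaced by `f n * ch k (log n)` in `Lf` (only `Lf_mul`, `Lf_prod`, `EE_eq`, `AA_eq` change; the coefficients `aY Y n` and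
`aY_eq`, `aY_zero` are used as they are: import the vendored `Q95.KS.Tup`). Last bound: the first half of `aY_bound` (`TT_bound`,
`ed_bound`, `DY_card`): `|aY Y n| ≤ 31 (41 Y)^10 (4 Y)^10 τ(n)^10 / n`, and `aY Y n = 0` for `|log n - Y| > 3/2`. `S_HB` is
proved in `Q178/KS/HB.lean` (or a sister file); take it as a hypothesis if it is not vendored. -/
def S_TUPX : Prop := ∃ C Y₀ : ℝ, 1 ≤ C ∧ ∀ Y : ℝ, Y₀ ≤ Y → ∃ a : ℕ → ℝ,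
  (∀ f : ℕ → ℂ, CM f → ∀ k : ℤ, ∑ d ∈ DY Y, (ed d : ℂ) * EX f (zY Y) d k =
    DP (Icc 1 ⌊Real.exp (Y + 3 / 2)⌋₊) (fun n => ((a n : ℝ) : ℂ) * f n) k) ∧
  (∀ n : ℕ, 1 ≤ n → |Real.log n - Y| ≤ 1 / 2 → a n = ArithmeticFunction.vonMangoldt n / n) ∧
  (∀ n : ℕ, 1 ≤ n → |a n| ≤ C * Y ^ 20 * (n.divisors.card : ℝ) ^ 10 / n) ∧
  (∀ n : ℕ, 1 ≤ n → 3 / 2 < |Real.log n - Y| → a n = 0)

/-- **LVMX** large values, mean value theorem. Proof: `Q211/KS/Pow.lean` and `Q211/KS/Lvm.lean` with the coefficients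
`b n * f n` instead of `b n`: `PX f z t d k ^ m = DP s (b · f) k` with the SAME `s`, `b` as in `pow_DP` (induction with `DP_mul`, or:
`pow_DP` gives `b` for `f = 1`; the twisted identity holds because `f` is completely multiplicative; simplest is to repeat the
induction of `pow_DP` with the extra conclusion, `b` independent of `f`). -/
def S_LVMX : Prop := ∀ (m : ℕ) (ε : ℝ), 1 ≤ m → 0 < ε → ∃ C : ℝ, 1 ≤ C ∧ ∀ (f : ℕ → ℂ), CM f → ∀ (z : ℕ) (t : Fin 3)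
  (d K : ℕ) (V : ℝ) (L : Finset ℤ), 1 ≤ K → 0 < V → (∀ k ∈ L, k ∈ FK K ∧ V ≤ ‖PX f z t d k‖) →
  (L.card : ℝ) ≤ C * Real.exp (ε * d) * (1 + K * Real.exp (-(m * d / 20 : ℝ))) / V ^ (2 * m)

/-- **LVHX** large values, Huxley. Proof: `Q211/KS/Lvh.lean` (from `S_HU`) in the same way. -/
def S_LVHX : Prop := ∀ (m : ℕ) (ε : ℝ), 1 ≤ m → 0 < ε → ∃ C : ℝ, 1 ≤ C ∧ ∀ (f : ℕ → ℂ), CM f → ∀ (z : ℕ) (t : Fin 3)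
  (d K : ℕ) (V : ℝ) (L : Finset ℤ), 1 ≤ K → 0 < V → (∀ k ∈ L, k ∈ FK K ∧ V ≤ ‖PX f z t d k‖) →
  (L.card : ℝ) ≤ C * Real.exp (ε * d) * (1 / V ^ (2 * m) + K * Real.exp (-(m * d / 10 : ℝ)) / V ^ (6 * m))

/-- **SBA** long smooth factors in a class (Kusmin-Landau). Proof: `Pool.Agent.H43.SL.Smc.smc_kl` (file
`Pool/Agent/H43/SL/Smc.lean`): `‖∑_{N₁ < n ≤ N₂, n ≡ a (q)} n^{-ik}‖ ≤ 64 N₂ / |k|` for `q ≤ N₁`, `|k| q ≤ N₁`, `N₂ ≤ 3 N₁`; then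
Abel summation with the tent weight as in `Q298/KS/Base.lean`, `Wt.lean` (`PF_le_of_part`, `abel_window`). The hypothesis gives
`exp (d/20) ≥ 10`, `N₁ = lo d - 1 ≥ exp (d/20)/10 ≥ |k| q`. -/
def S_SBA : Prop := ∃ C : ℝ, 1 ≤ C ∧ ∀ (q a z : ℕ) (t : Fin 3) (d : ℕ) (k : ℤ), 1 ≤ q → a < q → t ≠ 0 → k ≠ 0 →
  |(k : ℝ)| * q ≤ Real.exp ((d : ℝ) / 20) / 10 → ‖PC q a z t d k‖ ≤ C * (1 + d) ^ 2 / |(k : ℝ)|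

/-- **SBB** smooth factors in a class at all polynomial heights. Proof: `∑_{n ≡ a (q)} n^{-ik} = q^{-ik} ∑_m (m + a/q)^{-ik}`
(see `param` in `Pool/Agent/H43/SL/Smc.lean`); if `|k| ≥ (N/q)^{1/2}`: `Zsx.main : S_ZSX` (file
`Pool/Agent/H43/G/R_pool_sql_team_seeded_620a6dc7/helper24_UT_/Zsx.lean`; take `Pool.Agent.helper24_UT.S_ZSX` as a hypothesis) on
dyadic blocks, `κ ≤ 2 M + 2`; otherwise `|k| q ≤ N/10` for large `d` and `smc_kl` as in SBA (small `d`: trivial bound, `C` large).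
Then Abel summation as in `Q298/KS/Sbv.lean`. The condition `q^4 ≤ exp (d/20)` makes the loss in `q` harmless. -/
def S_SBB : Prop := ∀ M : ℕ, ∃ C η : ℝ, 1 ≤ C ∧ 0 < η ∧ η ≤ 1 / 2 ∧ ∀ (q a z : ℕ) (t : Fin 3) (d : ℕ) (k : ℤ),
  1 ≤ q → a < q → t ≠ 0 → k ≠ 0 → (q : ℝ) ^ 4 ≤ Real.exp ((d : ℝ) / 20) → |(k : ℝ)| ≤ Real.exp (M * d / 20) →
  ‖PC q a z t d k‖ ≤ C * (1 + d) ^ 2 * (1 / |(k : ℝ)| + Real.exp (-(η * d / 20)))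

/-- **MBX** the Moebius factors. Proof: `Pool.Agent.H43.SL.c_M1 : S_M1` (file `Pool/Agent/H43/SL/Chn.lean`; statement `S_M1` in
`Pool/Agent/H43/G/R_pool_sql_team_seeded_620a6dc7/helper24_UT_/Stm.lean`) with `A = 9`, `L = Y`, `t = k`, `K = D + 2`:
`‖∑_{n ≤ N} μ(n) f(n) n^{-ik}‖ ≤ N / Y^(D+2)` for `e^{Y/10} ≤ N ≤ e^Y`, and Abel summation as in `Q298/KS/Mb.lean` (`part_mu`: the cut
`n ≤ z`; `PF_le_of_part0`). Take `Pool.Agent.helper24_UT.S_M1` as a hypothesis. -/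
def S_MBX : Prop := ∀ B D : ℕ, ∃ Y₀ : ℝ, ∀ Y : ℝ, Y₀ ≤ Y → ∀ q : ℕ, 1 ≤ q → (q : ℝ) ≤ Y ^ B → ∀ f : ℕ → ℂ, CM f →
  (∀ n, f (n + q) = f n) → ∀ (z d : ℕ) (k : ℤ), 3 * Y ≤ d → (d : ℝ) ≤ 19 * Y → Real.exp (0.3 * Y) ≤ |(k : ℝ)| →
  |(k : ℝ)| ≤ Real.exp Y → ‖PX f z 0 d k‖ ≤ 1 / Y ^ D

/-! ### The fourth moment of the smooth factors in a class (reflection) -/

/-- **PSNC** Poisson's formula for a smooth factor in a class. Proof: `Q38/KT/PSN.lean` with `g(x) = f(q x + a)` instead of `f`: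
`∑_{n ≡ a (q)} f(n) = ∑_m f (q m + a) = ∑_ξ (1/q) e(ξ a/q) 𝓕 f (ξ/q)`, so the frequency `ξ` of `PSN.lean` becomes `ξ/q` with a factor
of modulus `1/q`. `ξ = 0`: `C (1 + d)/k² ≤ C (1+d) 400 q² e^{-d/10}`; `ξ > 0`: `C (1+d)/((ξ/q) e^{s₀})²`; `ξ = -j`, `j/q > 2 T e^{-s₀}`: the
same. The terms `ξ = -j`, `1 ≤ j ≤ 2 q T e^{-s₀}` are kept. -/
def S_PSNC : Prop := ∃ C : ℝ, 1 ≤ C ∧ ∀ (q a z : ℕ) (t : Fin 3) (d : ℕ) (T : ℝ) (k : ℤ), t ≠ 0 → 1 ≤ q → a < q → 1 ≤ T →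
  T ≤ (k : ℝ) → (k : ℝ) ≤ 2 * T → Real.exp ((d : ℝ) / 20) ≤ 20 * q * T →
  ‖PC q a z t d k - ∑ j ∈ Icc 1 ⌊2 * q * T * Real.exp (-((d : ℝ) / 20))⌋₊, (1 / (q : ℂ)) * e1 (-((j : ℝ) * a / q)) *
    ∫ s in ((d : ℝ) / 20 - 1 / 20)..((d : ℝ) / 20 + 1 / 20),
      ((am20 (if t = 1 then 1 else (d : ℝ) / 20) (if t = 1 then 0 else 1) ((d : ℝ) / 20) s : ℝ) : ℂ) *
        ep k (-(2 * Real.pi * ((j : ℝ) / q))) s‖ ≤ C * q ^ 2 * (1 + d) * Real.exp (-((d : ℝ) / 10))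

/-- **IBPC** integration by parts in a kept term, `y > 0` real. Proof: `Q162/KT/Ibp.lean` with `y` instead of `j`. -/
def S_IBPC : Prop := ∀ (p q s₀ k y : ℝ), 0 < y →
  ∫ s in (s₀ - 1 / 20)..(s₀ + 1 / 20), ((am20 p q s₀ s : ℝ) : ℂ) * ep k (-(2 * Real.pi * y)) s =
    -Complex.exp (((k * Real.log y : ℝ) : ℂ) * Complex.I) *
      ∫ r in (s₀ - 1 / 20 + Real.log y)..(s₀ + 1 / 20 + Real.log y),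
        ((am20' p q s₀ (r - Real.log y) : ℝ) : ℂ) * ∫ x in (0 : ℝ)..r, ep k (-(2 * Real.pi)) x

/-- **RFLC** reflection (from `S_EI`, PSNC, IBPC), positive frequencies. Proof: `Q198/KT/Rfl.lean` (`rfl_of`) with `j/q` in place of
`j`: `e^{ik log (j/q)} = e^{ik log j} e^{-ik log q}`, the factor `e^{-ik log q}` does not depend on `j`; the coefficients
`am20' (r - log (j/q)) e(-ja/q) / (50 (1+d))` are complex of modulus `≤ 1`; `r` runs over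
`[s₀ - 1 - log q, log (2T) + 1 + log q]`; `H = max 1 (q e^{r - s₀})`. For `k ≥ T > 0` only (no symmetry used). -/
def S_RFLC : Prop := ∃ C : ℝ, 1 ≤ C ∧ ∀ (q a z : ℕ) (t : Fin 3) (d : ℕ) (T : ℝ) (L : Finset ℤ), t ≠ 0 → 1 ≤ q → a < q →
  1 ≤ T → (∀ k ∈ L, T ≤ (k : ℝ) ∧ (k : ℝ) ≤ 2 * T) → Real.exp ((d : ℝ) / 20) ≤ 20 * q * T →
  ∃ (H : ℝ) (s : Finset ℕ) (b : ℕ → ℂ), 1 ≤ H ∧ H ≤ 1 + 6 * q * T * Real.exp (-((d : ℝ) / 20)) ∧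
    (∀ n ∈ s, 1 ≤ n ∧ |Real.log n - Real.log H| ≤ 1) ∧ (∀ n ∈ s, ‖b n‖ ≤ 1) ∧
    ∑ k ∈ L, ‖PC q a z t d k‖ ≤ C * q ^ 3 * (1 + d) * (1 + Real.log (q * T)) *
      (T ^ (-(1 / 2) : ℝ) * ∑ k ∈ L, ‖DP s b (-k)‖ + Real.exp (-((d : ℝ) / 10)) * L.card)

/-- **LVRC** large values of a smooth factor in a class: the fourth moment (from RFLC and `S_PMV` with `m = 2`). Proof:
`Q162/KT/Lvr.lean` with `m = 2`. Split `L` into positive and negative frequencies; `‖PC q a z t d (-k)‖ = ‖PC q a z t d k‖` (real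
coefficients, complex conjugation), so the negative ones are treated through `-L`. -/
def S_LVRC : Prop := ∀ ε : ℝ, 0 < ε → ∃ C : ℝ, 1 ≤ C ∧ ∀ (q a z : ℕ) (t : Fin 3) (d : ℕ) (T V : ℝ) (L : Finset ℤ),
  t ≠ 0 → 1 ≤ q → a < q → 1 ≤ T → Real.exp ((d : ℝ) / 20) ≤ 20 * q * T → 0 < V →
  (∀ k ∈ L, T ≤ |(k : ℝ)| ∧ |(k : ℝ)| ≤ 2 * T ∧ V ≤ ‖PC q a z t d k‖) →
  (L.card : ℝ) ≤ C * q ^ 40 * T ^ ε * (T * Real.exp (-((d : ℝ) / 10)) + T ^ 2 * Real.exp (-((d : ℝ) / 5))) / V ^ 4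

/-! ### Exponents -/

/-- **OPT6**. `al` relative length and `ki` exponent of the chosen factor, `ka` total exponent, `lam` exponent of the height,
`R` exponent of the number of frequencies. Proof. Take `ρ = 1/20`-ish small, `τ = δ/8`, `e = min (δ ε₀) δ / 64`. Let
`c = (1 + δ/8) ka`, so `ki ≤ c al`.
(0) `ka ≥ 0.45`: `R ≤ lam + e ≤ 5/6 + e ≤ 0.9 - e ≤ 2 ka - e`. From now on `ka < 0.45`, `c ≤ 0.46`, `1 - 2c > 0`.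
(1) `al ≥ 0.45`: `R ≤ lam - 2 al + 4 ki + e ≤ 5/6 - 2 al (1 - 2c) + e ≤ 5/6 - 0.9 (1 - 2c) + e ≤ -0.066 + 1.8 c + e ≤ 2 ka - e`.
(2) `al < 0.45`: let `a₀ = 2/3 - δ`, `m = ⌈a₀/al⌉`, `a = m al ∈ [a₀, a₀ + al)`. If `al ≤ 1/3` then `a < 1 - δ`; if `1/3 < al < 0.45` then
`m = 2`, `a < 0.9 ≤ 1 - δ`. So `2 m ki ≤ 2 c a ≤ 2 (1 + δ/8)(1 - δ) ka ≤ (2 - δ) ka ≤ 2 ka - 2e` (`ka ≥ ε₀`).
 If `ka ≥ 1/4`: `lam - a + 2 m ki ≤ 5/6 - δ - a (1 - 2c) ≤ 5/6 - δ - (2/3 - δ)(1 - 2c) = 1/6 + (4/3) c - 2 δ c ≤ 2 ka - 2e`.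
 If `ka < 1/4`: `2 - 6c > 0`, `lam - 2a + 6 m ki ≤ 5/6 - δ - a (2 - 6c) ≤ 5/6 - δ - (2/3 - δ)(2 - 6c) = -1/2 + δ + 4c - 6δc ≤ 2 ka - 2e`
 (linear in `ka`; check at `ka = 0` and `ka = 1/4`).
 `m ≤ 1/al + 1 ≤ 2/al`. -/
def S_OPT6 : Prop := ∀ δ ε₀ : ℝ, 0 < δ → δ ≤ 1 / 100 → 0 < ε₀ → ε₀ ≤ 1 / 100 → ∃ e : ℝ, 0 < e ∧ e ≤ δ / 64 ∧
  ∀ lam ka al ki R : ℝ, 0 ≤ lam → lam ≤ 5 / 6 - δ → ε₀ ≤ ka → 0 < al → 0 ≤ ki → ki ≤ (1 + δ / 8) * ka * al →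
  R ≤ lam + e → (0.42 ≤ al → R ≤ lam - 2 * al + 4 * ki + e) →
  (∀ m : ℕ, 1 ≤ m → (m : ℝ) ≤ 2 / al → R ≤ max (2 * m * ki) (lam - m * al + 2 * m * ki) + e ∧
    R ≤ max (2 * m * ki) (lam - 2 * m * al + 6 * m * ki) + e) →
  R ≤ 2 * ka - e

/-- **FARX** few frequencies with given sizes of the factors, up to the height `e^{(5/6 - δ)Y}` (from LVMX, LVHX, LVRC, SBA, TRIX,
OPT6; adapt `Q278/KS/Far.lean`, theorem `far`: `bndM`, `bndH`, `pick`, `DY_le`, `DY_sum`, `moe_short`, `sup_const`, `card_le`).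
Proof. Let `e` be as in OPT6, `ρ = δ/1000` (so `1/(1 - 11 ρ) ≤ 1 + δ/8`), `ε' = ρ e/1000` (or smaller), `η = e/2`, `Y` large,
`λ = log T₁ / Y`, `α_i = d_i/(20Y)`, `R = log |L| / Y`, `κ = ∑ κ_i`. `|L| ≤ 6 T₁`, so `R ≤ λ + e`. Suppose `R > 2κ - η`.
(1) If some `i ≥ 5` has `T₁ q ≤ e^{d_i/20}/20`: by TRIX (second part) and SBA, for `k ∈ L`
`e^{-(κ_i + ε')Y} ≤ ‖PX‖ ≤ q · C (1 + d_i)² / |k| ≤ C Y^{B+2} / T₁ ≤ C Y^{B+2} e^{-0.55 Y}`, so `κ ≥ κ_i ≥ 0.54` and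
`R ≤ λ + e ≤ 0.84 ≤ 2κ - η`.
(2) Otherwise `e^{d_i/20} ≤ 20 q T₁` for all `i ≥ 5`; by LVRC (some class `a` has `‖PC q a …‖ ≥ V/q`; sum over the `q` classes) for
`i ≥ 5` with `α_i ≥ 0.42 ≥ λ/2`: `R ≤ λ - 2 α_i + 4 κ_i + e` (the factor `q^50 ≤ Y^{50B}` is harmless, `T² e^{-d/5} ≤ T e^{-d/10}`). For
`i < 5`: `α_i ≤ 0.21` (`moe_short`: `PX ≠ 0` forces `d_i < 4 (Y+2) + 1`).
(3) Some `i` has `α_i ≥ ρ` and `κ_i ≤ (1 + δ/8) κ α_i` (as `pick`). LVMX and LVHX for this `i` and all `m ≤ 2/ρ`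
(`2/α_i ≤ 2/ρ`), with `V = e^{-(κ_i + ε')Y}`, `K = ⌈2 T₁⌉`. OPT6 gives `R ≤ 2κ - e`, a contradiction. -/
def S_FARX : Prop := ∀ δ ε₀ : ℝ, 0 < δ → δ ≤ 1 / 100 → 0 < ε₀ → ε₀ ≤ 1 / 100 → ∀ B : ℕ, ∃ ε' η Y₀ : ℝ, 0 < ε' ∧
  ε' ≤ ε₀ ∧ 0 < η ∧ ∀ Y : ℝ, Y₀ ≤ Y → ∀ q : ℕ, 1 ≤ q → (q : ℝ) ≤ Y ^ B → ∀ f : ℕ → ℂ, CM f → (∀ n, f (n + q) = f n) →
  ∀ d ∈ DY Y, ∀ T₁ : ℝ, Real.exp (0.55 * Y) ≤ T₁ → T₁ ≤ Real.exp ((5 / 6 - δ) * Y) →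
  ∀ L : Finset ℤ, L.Nonempty → (∀ k ∈ L, T₁ ≤ |(k : ℝ)| ∧ |(k : ℝ)| < 2 * T₁) → ∀ κ : Fin 10 → ℝ, (∀ i, 0 ≤ κ i) →
  ε₀ ≤ ∑ i, κ i → (∀ k ∈ L, ∀ i, Real.exp (-((κ i + ε') * Y)) ≤ ‖PX f (zY Y) (ty i) (d i) k‖) →
  (L.card : ℝ) ≤ Real.exp ((2 * ∑ i, κ i - η) * Y)

/-- **NEARX** the neighbourhood of the line one (from SBB, MBX, LVMX, TRIX, `S_KERV`, `S_HMG`; adapt `Q211/KS/Near.lean`). Proof. Let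
`M = 1700`, `C, η` from SBB(M), `C', η'` from KERV(5), `ε₀ = min (η/6000) (η'/200) (1/2000)`.
(1) Let `i ≥ 5` with `d_i ≥ Y/100`. Then `|k| ≤ e^{0.84 Y} ≤ e^{M d_i/20}`, `q^4 ≤ e^{d_i/20}`, and TRIX, SBB give
`e^{-ε₀Y} ≤ q C (1 + d_i)² (e^{-0.5Y} + e^{-ηY/2000})`, impossible for large `Y`. So `d_i < Y/100` for `i ≥ 5`.
(2) `i < 5`: `PX ≠ 0` gives `d_i < 4Y + 9` (`mob_short`), so each `d_i`, `i < 5`, is `≥ 20Y - 20 - 5Y/100 - 4(4Y+9) ≥ 3.8 Y`.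
(3) LVMX with `m = 5` for the factor `0`, `V = e^{-ε₀Y}`, `K = ⌈e^{0.84Y}⌉ + 1`: `|L| ≤ C e^{ε₀Y}(1 + 2 e^{0.84Y - 0.95Y}) e^{10ε₀Y} ≤ e^{12ε₀Y}`.
(4) Let `N = e^{d_0/20} ≥ e^{0.19Y}`: `|k - l| ≤ 2 e^{0.84Y} ≤ N^5`, row sums of `kn N` are `≤ C' + 4C' + C'|L|N^{-η'} ≤ 6C'` (`row_le`). HMG
with the coefficients `cf · f` (`‖f‖ ≤ 1`) and TRI: `∑_{k ∈ L} ‖PX_0(k)‖² ≤ 12 C'`.
(5) `‖PX_1(k)‖ ≤ Y^{-D-6}` by MBX (`3.8Y ≤ d_1 ≤ 4Y + 9`); the other factors are `≤ 2` or `≤ 2(1 + d_9) ≤ 50Y`.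
So `∑_L ‖EX‖² ≤ 12 C' Y^{-2D-12} 2^{14} (50Y)² ≤ Y^{-D}`. -/
def S_NEARX : Prop := ∃ ε₀ : ℝ, 0 < ε₀ ∧ ε₀ ≤ 1 / 100 ∧ ∀ B D : ℕ, ∃ Y₀ : ℝ, ∀ Y : ℝ, Y₀ ≤ Y →
  ∀ q : ℕ, 1 ≤ q → (q : ℝ) ≤ Y ^ B → ∀ f : ℕ → ℂ, CM f → (∀ n, f (n + q) = f n) → ∀ d ∈ DY Y, ∀ L : Finset ℤ,
  (∀ k ∈ L, Real.exp (0.5 * Y) ≤ |(k : ℝ)| ∧ |(k : ℝ)| ≤ Real.exp (0.84 * Y)) →
  (∀ k ∈ L, ∀ i, Real.exp (-(ε₀ * Y)) ≤ ‖PX f (zY Y) (ty i) (d i) k‖) →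
  ∑ k ∈ L, ‖EX f (zY Y) d k‖ ^ 2 ≤ 1 / Y ^ D

/-- **COREX** mean square of a product (from FARX, NEARX, TRIX; adapt the classification in `Q278/KS/Main.lean` and
`Q222/KS/CLS.lean`). Proof. `ε₀` from NEARX, `ε', η` from FARX with `(δ, ε₀/2, B)`; `G = ⌈3/ε'⌉`, `s = ε' Y`. Split the frequencies
`e^{0.6Y} ≤ |k| < K` by `r = ⌊log₂ |k|⌋` and by the grid classes `g i = cg G s ‖PX f (zY Y) (ty i) (d i) k‖`; at most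
`(2Y + 2)(G+1)^10` classes. Let `L` be a nonempty class, `κ_i = ε' g_i`, `κ = ∑ κ_i`; `‖PX_i(k)‖ ≤ e^{-κ_i Y}` if `g_i ≥ 1`, `≤ 50Y` always, so
`‖EX‖² ≤ (50Y)^20 e^{-2κY}`; and `‖PX_i(k)‖ > e^{-(κ_i + ε')Y}` if `g_i < G`.
(1) some `g_i = G`: `κ ≥ 3`, the sum is `≤ 2K (50Y)^20 e^{-6Y}`. (2) all `g_i < G`, `κ < ε₀/2`: NEARX (`D + 2`). (3) all `g_i < G`,
`κ ≥ ε₀/2`: FARX with `T₁ = 2^r ≥ e^{0.6Y}/2 ≥ e^{0.55Y}`: `≤ (50Y)^20 e^{-ηY}`. -/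
def S_COREX : Prop := ∀ δ : ℝ, 0 < δ → δ ≤ 1 / 100 → ∀ B D : ℕ, ∃ Y₀ : ℝ, ∀ Y : ℝ, Y₀ ≤ Y →
  ∀ q : ℕ, 1 ≤ q → (q : ℝ) ≤ Y ^ B → ∀ f : ℕ → ℂ, CM f → (∀ n, f (n + q) = f n) → ∀ d ∈ DY Y, ∀ K : ℕ,
  (K : ℝ) ≤ Real.exp ((5 / 6 - δ) * Y) →
  ∑ k ∈ (FK K).filter (fun k : ℤ => Real.exp (0.6 * Y) ≤ |(k : ℝ)|), ‖EX f (zY Y) d k‖ ^ 2 ≤ 1 / Y ^ D

/-! ### Sharp cut-offs -/

/-- **FEJ** the Fejer-smoothed indicator function. Proof. `c m = (1 - |m|/M) (1/2π) ∫_α^β e^{-imy} dy` for `|m| < M`, so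
`∑_{|m|<M} c_m e^{imx} = (1/2π) ∫_α^β Fj M (x - y) dy` (`Pool.Agent.H376R2.MR.Fj`), `‖c m‖ ≤ 2/(π |m|)` (`m ≠ 0`), `‖c 0‖ ≤ 1`. `Fj ≥ 0`
(`Fj_nonneg`), `∫_{x-π}^{x+π} Fj M = 2π`, and `Fj M u ≤ C/(M u²)` for `|u| ≤ 4 < 2π - 2` (`Fj_le_sq` in the vendored
`R_seed8/H376R2/MR/Fej.lean` for `|u| ≤ π`; for `π ≤ |u| ≤ 4` use periodicity). So the sum is in `[0, 1]`, at distance `η` from the end
points it is `≤ C/(M η)` outside and `≥ 1 - C/(M η)` inside `(α, β]` (`β - α ≤ 1`). -/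
def S_FEJ : Prop := ∃ C : ℝ, 1 ≤ C ∧ ∀ (M : ℕ) (α β : ℝ), 1 ≤ M → α ≤ β → β ≤ α + 1 → ∃ c : ℤ → ℂ,
  (∑ m ∈ FK M, ‖c m‖ ≤ C * (1 + Real.log M)) ∧ ∀ x : ℝ, |x - α| ≤ 5 / 2 → |x - β| ≤ 5 / 2 →
    ‖(if α < x ∧ x ≤ β then (1 : ℂ) else 0) - ∑ m ∈ FK M, c m * ch (-m) x‖ ≤ C ∧
    ∀ η : ℝ, 0 < η → η ≤ |x - α| → η ≤ |x - β| →
      ‖(if α < x ∧ x ≤ β then (1 : ℂ) else 0) - ∑ m ∈ FK M, c m * ch (-m) x‖ ≤ C / (M * η)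

/-- **TAU** moments of the number of divisors. Proof: in the library (helper24 `II`, or by induction:
`τ(n)^{k+1} ≤ ∑_{d ∣ n} τ(n)^k ≤ …`, `∑_{n ≤ x} τ(n)^k/n ≤ (∑_{n ≤ x} 1/n)^{2^k}`). -/
def S_TAU : Prop := ∃ (E : ℕ) (C : ℝ), 1 ≤ C ∧ ∀ Y : ℝ, 1 ≤ Y →
  ∑ n ∈ Icc 1 ⌊Real.exp (Y + 3 / 2)⌋₊, (n.divisors.card : ℝ) ^ 20 / n ≤ C * Y ^ E

/-- **SHP** sharp cut-offs (from TUPX, COREX, FEJ, TAU and the mean value theorem `Pool.Agent.H376R2.MR.mv`). Proof. Let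
`α = log N₁`, `β = log N₂`, `a` from TUPX, `F(k) = DP (Icc 1 ⌊e^{Y+3/2}⌋) (a f) k`, `M = ⌈Y^{D₁}⌉` with a large `D₁`, `c` from FEJ.
(1) `∑_m c_m F(k - m) = DP (…) (a f Φ) k` with `Φ(n) = ∑_m c_m ch (-m) (log n)`. By Cauchy-Schwarz (Minkowski) its mean square over
`k ∈ FK K`, `|k| ≥ e^{0.61Y}` is `≤ (∑‖c_m‖)² max_m ∑_k ‖F(k - m)‖²`, and `k - m ∈ FK (K + M)`, `|k - m| ≥ e^{0.6Y}`,
`K + M ≤ e^{(5/6 - δ/2)Y}`: by TUPX, Cauchy-Schwarz (`|ed d| ≤ 31`, `|DY Y| ≤ (20Y + 21)^10`) and COREX (`δ/2`, a large `D`) it is `≤ Y^{-D-1}`.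
(2) The rest is `DP (…) (a f (1_{(N₁,N₂]} - Φ)) k` (on `(N₁, N₂]` one has `|log n - Y| ≤ 2/5`, so `a n = Λ(n)/n`). By `mv` (cut into
pieces or directly, all `n` in the support satisfy `|log n - Y| ≤ 3/2`) its mean square is `≤ C ∑ |a_n|² |1 - Φ|² (n + K)
≤ C' e^Y ∑_n |a_n|² |…|²`. For `n` with `|log n - α| ≥ Y^{-D₂}` and `|log n - β| ≥ Y^{-D₂}`: `|…| ≤ C Y^{D₂ - D₁}` and
`∑ |a_n|² ≤ C Y^{40} e^{-Y+3/2} ∑ τ(n)^20/n ≤ e^{-Y} Y^{E'}`. For the others `|log n - Y| ≤ 1/2`, so `|a_n| ≤ (Y + 1)/n` and there are at most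
`C (Y^{-D₂} e^Y + 1)` of them: contribution `≤ C Y² Y^{-D₂}`. -/
def S_SHP : Prop := ∀ δ : ℝ, 0 < δ → δ ≤ 1 / 100 → ∀ B D : ℕ, ∃ Y₀ : ℝ, ∀ Y : ℝ, Y₀ ≤ Y →
  ∀ q : ℕ, 1 ≤ q → (q : ℝ) ≤ Y ^ B → ∀ f : ℕ → ℂ, CM f → (∀ n, f (n + q) = f n) → ∀ K N₁ N₂ : ℕ,
  (K : ℝ) ≤ Real.exp ((5 / 6 - δ) * Y) → 1 ≤ N₁ → N₁ ≤ N₂ → |Real.log N₁ - Y| ≤ 2 / 5 → |Real.log N₂ - Y| ≤ 2 / 5 →
  ∑ k ∈ (FK K).filter (fun k : ℤ => Real.exp (0.61 * Y) ≤ |(k : ℝ)|),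
    ‖DP (Ioc N₁ N₂) (fun n => ((ArithmeticFunction.vonMangoldt n / n : ℝ) : ℂ) * f n) k‖ ^ 2 ≤ 1 / Y ^ D

/-- **HF** the final statement: high frequencies, primes in a class (from SHP). Proof. (1) Abel summation removes `1/n`: for
`S_N(k) = DP (Ioc N₁ N) (Λ(n)/n f(n)) k`: `DP (Ioc N₁ N₂) (Λ f) k = N₂ S_{N₂}(k) - ∑_{N₁ ≤ N < N₂} S_N(k)`, so its mean square is
`≤ 2 N₂² E + 2 (N₂ - N₁)² E` with the bound `E` of SHP (Cauchy-Schwarz). (2) Characters: for `r` coprime to `q`,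
`1_{n ≡ r (q)} = (1/φ(q)) ∑_χ conj χ(r) χ(n)` (Mathlib `DirichletCharacter`, e.g. `DirichletCharacter.sum_char_inv_mul_char_eq`), `f n = χ n` is
`CM` and periodic; the mean square for the class is at most the maximum over `χ`. (3) `(Y, 3Y] = (Y, 2Y] ∪ (2Y, 3Y]`, SHP with the centres
`log Y + 0.35` and `log Y + 0.9`. -/
def S_HF : Prop := ∀ δ : ℝ, 0 < δ → δ ≤ 1 / 100 → ∀ A B : ℕ, ∃ Y₀ : ℕ, ∀ Y : ℕ, Y₀ ≤ Y → ∀ q r : ℕ, 1 ≤ q →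
  (q : ℝ) ≤ (Real.log Y) ^ B → r.Coprime q → ∀ K₁ : ℕ, (K₁ : ℝ) ≤ (Y : ℝ) ^ (5 / 6 - δ : ℝ) →
  ∑ k ∈ (FK K₁).filter (fun k : ℤ => (Y : ℝ) ^ (0.65 : ℝ) ≤ |(k : ℝ)|),
    ‖DP ((Ioc Y (3 * Y)).filter (fun n => n % q = r % q)) (fun n => ((ArithmeticFunction.vonMangoldt n : ℝ) : ℂ)) k‖ ^ 2 ≤
    (Y : ℝ) ^ 2 / (Real.log Y) ^ A

end Pool.Agent.H43.X6
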