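import Pool.Agent.H43.X6.Stm
import Pool.Agent.H43.G.R_pool_sql_team_seeded_3997aac3.Q211.KS.Near
import Pool.Agent.H43.G.R_pool_sql_team_seeded_3997aac3.Q298.KS.Tri

/-!
# Project X6 (helper43), job NEARX: the neighbourhood of the line one, twisted factors (helper6)
-/

set_option autoImplicit false

namespace Pool.Agent.H43.X6

open Finset Pool.Agent.H376R2.MR Pool.Agent.Q240.KS

namespace NEARX

open Pool.Agent.Q211.KS

theorem PX_eq (f : ℕ → ℂ) (z : ℕ) (t : Fin 3) (d : ℕ) (k : ℤ) :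
    PX f z t d k = DP (sp0 d) (fun n => ((cf z t d n : ℝ) : ℂ) * f n) k := by
  classical
  unfold PX DP sp0
  rw [Finset.sum_filter]
  refine Finset.sum_congr rfl fun n _ => ?_
  by_cases h : w (20 * Real.log n - d) = 0
  · rw [if_neg (by simpa using h)]
    simp only [cf, h]
    simp
  · rw [if_pos h]

/-- polynomials are smaller than exponentials -/
theorem ev_pow (n : ℕ) (c b : ℝ) (hb : 0 < b) : ∃ Y₀ : ℝ, ∀ Y : ℝ, Y₀ ≤ Y → c * Y ^ n < Real.exp (b * Y) := by
  have h := isLittleO_pow_exp_pos_mul_atTop n hb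
  have h2 := (h.const_mul_left c).bound (show (0 : ℝ) < 1 / 2 by norm_num)
  obtain ⟨Y₀, hY⟩ := Filter.eventually_atTop.1 h2
  refine ⟨Y₀, fun Y hY' => ?_⟩
  have h3 := hY Y hY'
  rw [Real.norm_eq_abs, Real.norm_eq_abs, abs_of_pos (Real.exp_pos _)] at h3
  have h4 := le_abs_self (c * Y ^ n)
  have h5 := Real.exp_pos (b * Y)
  linarith

theorem sq_sum {C : ℝ} (hC : 1 ≤ C) (hhmg : S_HMG) (htri : S_TRI) {f : ℕ → ℂ} (hf : ∀ n, ‖f n‖ ≤ 1)
    {z : ℕ} {t : Fin 3} (ht : t ≠ 2) {d : ℕ} {L : Finset ℤ}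
    (hrow : ∀ k ∈ L, ∑ l ∈ L, ‖kn (Real.exp ((d : ℝ) / 20)) (k - l)‖ ≤ 6 * C) :
    ∑ k ∈ L, ‖PX f z t d k‖ ^ 2 ≤ 12 * C := by
  classical
  have hd : (0 : ℝ) ≤ d := Nat.cast_nonneg d
  have h1 := hhmg (sp0 d) (fun n => ((cf z t d n : ℝ) : ℂ) * f n) (Real.exp ((d : ℝ) / 20)) (6 * C) L
    (Real.one_le_exp (by positivity)) (by linarith) (by
      intro n hn
      obtain ⟨h1, h2, h3⟩ := mem_sp0 hn
      refine ⟨h1, ?_⟩
      rw [Real.log_exp, abs_le]
      constructor <;> linarith) hrow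
  have h2 : ∑ k ∈ L, ‖PX f z t d k‖ ^ 2 =
      ∑ k ∈ L, ‖DP (sp0 d) (fun n => ((cf z t d n : ℝ) : ℂ) * f n) k‖ ^ 2 :=
    Finset.sum_congr rfl fun k _ => by rw [PX_eq]
  rw [h2]
  have h3 : ∑ n ∈ sp0 d, (n : ℝ) * ‖((cf z t d n : ℝ) : ℂ) * f n‖ ^ 2 ≤ 2 := by
    have h4 := (htri z t d 0).2.2.2 ht
    refine le_trans ?_ h4
    have h5 : ∀ n ∈ sp0 d, (n : ℝ) * ‖((cf z t d n : ℝ) : ℂ) * f n‖ ^ 2 ≤ (n : ℝ) * cf z t d n ^ 2 := by
      intro n _
      apply mul_le_mul_of_nonneg_left _ (Nat.cast_nonneg n)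
      rw [norm_mul, mul_pow, Complex.norm_real, Real.norm_eq_abs, sq_abs]
      have h6 : ‖f n‖ ^ 2 ≤ 1 := pow_le_one₀ (norm_nonneg _) (hf n)
      nlinarith [sq_nonneg (cf z t d n)]
    refine (Finset.sum_le_sum h5).trans ?_
    apply Finset.sum_le_sum_of_subset_of_nonneg
    · unfold sp0
      exact Finset.filter_subset _ _
    · intro n _ _
      positivity
  calc _ ≤ 6 * C * ∑ n ∈ sp0 d, (n : ℝ) * ‖((cf z t d n : ℝ) : ℂ) * f n‖ ^ 2 := h1
    _ ≤ 6 * C * 2 := mul_le_mul_of_nonneg_left h3 (by linarith)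
    _ = 12 * C := by ring

/-- a nonzero Moebius factor is short -/
theorem mob_short {f : ℕ → ℂ} {Y : ℝ} {d : ℕ} {k : ℤ} (h : PX f (zY Y) 0 d k ≠ 0) :
    (d : ℝ) < 4 * Y + 9 := by
  classical
  rw [PX_eq] at h
  unfold DP at h
  obtain ⟨n, hn, hne⟩ := Finset.exists_ne_zero_of_sum_ne_zero h
  obtain ⟨h1, h2, h3⟩ := mem_sp0 hn
  have hn0 : (0 : ℝ) < n := by exact_mod_cast h1
  have h4 : cf (zY Y) 0 d n ≠ 0 := by
    intro hc
    apply hne
    beta_reduce
    rw [hc]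
    simp
  have h5 : n ≤ zY Y := by
    by_contra hc
    apply h4
    unfold cf
    rw [if_pos rfl, if_neg hc]
    simp
  have h6 : w (20 * Real.log n - d) ≠ 0 := by
    intro hc
    apply h4
    unfold cf
    rw [hc]
    simp
  have h7 := abs_lt.1 (w_ne h6)
  have h8 : Real.log n ≤ (Y + 2) / 5 := by
    rw [Real.log_le_iff_le_exp hn0]
    exact (Nat.cast_le.2 h5).trans (Nat.floor_le (Real.exp_pos _).le)
  linarith [h7.1]

end NEARX

open NEARX in
open Pool.Agent.Q211.KS (row_le) in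
theorem nearx (hsbb : S_SBB) (hmbx : S_MBX) (hlvmx : S_LVMX) (htrix : S_TRIX) (hkerv : S_KERV)
    (hhmg : S_HMG) : S_NEARX := by
  classical
  have htri : S_TRI := Pool.Agent.Q298.KS.tri
  obtain ⟨C, η, hC, hη, hη2, hs⟩ := hsbb 1700
  obtain ⟨C', η', hC', hη', hη'2, hk⟩ := hkerv 5
  obtain ⟨ε₀, he0, he2, he3, he4⟩ : ∃ ε₀ : ℝ, 0 < ε₀ ∧ ε₀ ≤ η / 6000 ∧
      ε₀ ≤ η' / 200 ∧ ε₀ ≤ 1 / 2000 := by
    refine ⟨min (η / 6000) (min (η' / 200) (1 / 2000)), ?_, ?_, ?_, ?_⟩
    · exact lt_min (by positivity) (lt_min (by positivity) (by norm_num))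
    · exact min_le_left _ _
    · exact (min_le_right _ _).trans (min_le_left _ _)
    · exact (min_le_right _ _).trans (min_le_right _ _)
  refine ⟨ε₀, he0, by linarith, fun B D => ?_⟩
  obtain ⟨C₁, hC₁, hl⟩ := hlvmx 5 (ε₀ / 100) (by norm_num) (by positivity)
  obtain ⟨Y₁, hm⟩ := hmbx B (D + 2)
  obtain ⟨Y₂, hY₂⟩ := ev_pow (B + 2) (2 * C * 1764) (2 * ε₀) (by positivity)
  obtain ⟨Y₃, hY₃⟩ := ev_pow (B * 4) 1 (1 / 2000) (by norm_num)
  refine ⟨max (max (max 400 Y₁) (max Y₂ Y₃)) (max (4 * C₁ / (0.6 * ε₀)) (12 * C' * 6400 ^ 2)), ?_⟩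
  intro Y hY q hq1 hqY f hf hper d hd L hL hPF
  have hY1 : 400 ≤ Y := ((((le_max_left _ _).trans (le_max_left _ _)).trans (le_max_left _ _))).trans hY
  have hYm : Y₁ ≤ Y := ((((le_max_right _ _).trans (le_max_left _ _)).trans (le_max_left _ _))).trans hY
  have hYp : 2 * C * 1764 * Y ^ (B + 2) < Real.exp (2 * ε₀ * Y) :=
    hY₂ Y (((((le_max_left _ _).trans (le_max_right _ _)).trans (le_max_left _ _))).trans hY)
  have hYq : 1 * Y ^ (B * 4) < Real.exp (1 / 2000 * Y) :=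
    hY₃ Y (((((le_max_right _ _).trans (le_max_right _ _)).trans (le_max_left _ _))).trans hY)
  have hY3 : 4 * C₁ ≤ 0.6 * ε₀ * Y := by
    have h := ((le_max_left _ _).trans (le_max_right _ _)).trans hY
    rw [div_le_iff₀ (by positivity)] at h
    linarith
  have hY4 : 12 * C' * 6400 ^ 2 ≤ Y := ((le_max_right _ _).trans (le_max_right _ _)).trans hY
  have hY0 : 0 < Y := by linarith
  rcases L.eq_empty_or_nonempty with rfl | ⟨k₀, hk₀⟩
  · rw [Finset.sum_empty]
    positivity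
  unfold DY at hd
  rw [Finset.mem_filter, Fintype.mem_piFinset] at hd
  obtain ⟨hd1, hd2⟩ := hd
  have hdu : ∀ i, (d i : ℝ) ≤ 20 * (Y + 1) := by
    intro i
    have h1 := Finset.mem_range.1 (hd1 i)
    have h2 : d i ≤ ⌊20 * (Y + 1)⌋₊ := by omega
    exact (Nat.cast_le.2 h2).trans (Nat.floor_le (by linarith))
  have hpos : ∀ k ∈ L, k ≠ 0 := by
    intro k hk' hc
    have h1 := (hL k hk').1
    rw [hc] at h1
    simp only [Int.cast_zero, abs_zero] at h1
    linarith [Real.exp_pos (0.5 * Y)]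
  have hq0 : (0 : ℝ) ≤ q := Nat.cast_nonneg q
  -- step 1: the smooth factors are short
  have h5 : ∀ i : Fin 10, 5 ≤ (i : ℕ) → (d i : ℝ) < Y / 100 := by
    intro i hi
    by_contra hc
    push Not at hc
    have hty : ty i ≠ 0 := by
      unfold ty
      rw [if_neg (by omega)]
      split_ifs <;> decide
    have hkle : |(k₀ : ℝ)| ≤ Real.exp ((1700 : ℕ) * (d i : ℝ) / 20) := by
      refine (hL k₀ hk₀).2.trans (Real.exp_le_exp.2 ?_)
      push_cast
      linarith
    have hq4 : (q : ℝ) ^ 4 ≤ Real.exp ((d i : ℝ) / 20) := by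
      have h1 : (q : ℝ) ^ 4 ≤ (Y ^ B) ^ 4 := pow_le_pow_left₀ hq0 hqY 4
      rw [← pow_mul] at h1
      have h2 : Real.exp (1 / 2000 * Y) ≤ Real.exp ((d i : ℝ) / 20) := Real.exp_le_exp.2 (by linarith)
      linarith
    have h1 : ∀ a ∈ range q, ‖f a * PC q a (zY Y) (ty i) (d i) k₀‖ ≤
        C * (1 + (d i : ℝ)) ^ 2 * (1 / |(k₀ : ℝ)| + Real.exp (-(η * d i / 20))) := by
      intro a ha
      rw [norm_mul]
      have h1 := hs q a (zY Y) (ty i) (d i) k₀ hq1 (Finset.mem_range.1 ha) hty (hpos k₀ hk₀) hq4 hkle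
      have h2 := mul_le_mul (hf.norm_le a) h1 (norm_nonneg _) zero_le_one
      linarith
    have h2 := hPF k₀ hk₀ i
    rw [htrix.2 q f hq1 hper] at h2
    have h2' := h2.trans ((norm_sum_le _ _).trans (Finset.sum_le_sum h1))
    rw [Finset.sum_const, Finset.card_range, nsmul_eq_mul] at h2'
    have h3 : 1 / |(k₀ : ℝ)| ≤ Real.exp (-(3 * ε₀ * Y)) := by
      have h4 : Real.exp (3 * ε₀ * Y) ≤ |(k₀ : ℝ)| := by
        refine le_trans (Real.exp_le_exp.2 ?_) (hL k₀ hk₀).1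
        exact mul_le_mul_of_nonneg_right (by linarith) hY0.le
      rw [Real.exp_neg, ← one_div]
      exact one_div_le_one_div_of_le (Real.exp_pos _) h4
    have h4 : Real.exp (-(η * d i / 20)) ≤ Real.exp (-(3 * ε₀ * Y)) := by
      apply Real.exp_le_exp.2
      have h6 : 3 * ε₀ * Y ≤ η / 2000 * Y := mul_le_mul_of_nonneg_right (by linarith) hY0.le
      have h7 : η * (Y / 100) ≤ η * d i := mul_le_mul_of_nonneg_left hc hη.le
      linarith
    have h6 : (q : ℝ) * (C * (1 + (d i : ℝ)) ^ 2 * (1 / |(k₀ : ℝ)| + Real.exp (-(η * d i / 20)))) ≤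
        Y ^ B * (C * (42 * Y) ^ 2 * (2 * Real.exp (-(3 * ε₀ * Y)))) := by
      have h8 := hdu i
      apply mul_le_mul hqY _ (by positivity) (by positivity)
      apply mul_le_mul _ (by linarith) (by positivity) (by positivity)
      apply mul_le_mul_of_nonneg_left _ (by linarith)
      exact pow_le_pow_left₀ (by positivity) (by linarith) 2
    have h8 : Real.exp (-(ε₀ * Y)) ≤ (2 * C * 1764 * Y ^ (B + 2)) * Real.exp (-(3 * ε₀ * Y)) := by
      refine h2'.trans (h6.trans (le_of_eq ?_))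
      rw [pow_add]
      ring
    have h9 : Real.exp (-(ε₀ * Y)) = Real.exp (2 * ε₀ * Y) * Real.exp (-(3 * ε₀ * Y)) := by
      rw [← Real.exp_add]
      congr 1
      ring
    rw [h9] at h8
    have h10 := le_of_mul_le_mul_right h8 (Real.exp_pos _)
    linarith
  -- step 2
  have h4 : ∀ i : Fin 10, (i : ℕ) < 5 → (d i : ℝ) < 4 * Y + 9 := by
    intro i hi
    have hty : ty i = 0 := by
      unfold ty
      rw [if_pos hi]
    have h1 := hPF k₀ hk₀ i
    rw [hty] at h1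
    refine mob_short (f := f) (k := k₀) ?_
    intro hc
    rw [hc, norm_zero] at h1
    linarith [Real.exp_pos (-(ε₀ * Y))]
  have h3 : ∀ j : Fin 10, (j : ℕ) < 5 → 3.8 * Y ≤ (d j : ℝ) := by
    intro j hj
    have h1 : ∑ i, (d i : ℝ) = d j + ∑ i ∈ univ.erase j, (d i : ℝ) :=
      (Finset.add_sum_erase univ (fun i => (d i : ℝ)) (Finset.mem_univ j)).symm
    have h2 : ∑ i ∈ univ.erase j, (d i : ℝ) ≤
        ∑ i ∈ univ.erase j, (if (i : ℕ) < 5 then 4 * Y + 9 else Y / 100) := by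
      refine Finset.sum_le_sum fun i _ => ?_
      split_ifs with hi
      · exact (h4 i hi).le
      · exact (h5 i (by omega)).le
    have h6 : ∑ i : Fin 10, (if (i : ℕ) < 5 then 4 * Y + 9 else Y / 100) =
        (4 * Y + 9) + ∑ i ∈ univ.erase j, (if (i : ℕ) < 5 then 4 * Y + 9 else Y / 100) := by
      rw [← Finset.add_sum_erase univ _ (Finset.mem_univ j), if_pos hj]
    have h7 : ∑ i : Fin 10, (if (i : ℕ) < 5 then 4 * Y + 9 else Y / 100) =
        5 * (4 * Y + 9) + 5 * (Y / 100) := by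
      simp only [Fin.sum_univ_succ, Fin.val_succ, Fin.val_zero]
      norm_num
      ring
    have h8 := (abs_le.1 hd2).1
    linarith
  -- step 3: the number of frequencies
  have hexp : (2 : ℝ) ≤ Real.exp (0.11 * Y) := by
    have := Real.add_one_le_exp (0.11 * Y)
    linarith
  have hcard : (L.card : ℝ) ≤ Real.exp (11 * ε₀ * Y) := by
    set K : ℕ := ⌈Real.exp (0.84 * Y)⌉₊ + 1 with hK
    have hKle : (K : ℝ) ≤ 3 * Real.exp (0.84 * Y) := by
      have h1 := Nat.ceil_lt_add_one (Real.exp_pos (0.84 * Y)).le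
      have h2 : (1 : ℝ) ≤ Real.exp (0.84 * Y) := Real.one_le_exp (by positivity)
      rw [hK]
      push_cast
      linarith
    have h1 := hl f hf (zY Y) (ty 0) (d 0) K (Real.exp (-(ε₀ * Y))) L (by omega) (Real.exp_pos _) (by
      intro k hk'
      refine ⟨?_, hPF k hk' 0⟩
      have h1 : |(k : ℝ)| ≤ Real.exp (0.84 * Y) := (hL k hk').2
      have h2 : |(k : ℝ)| < K := by
        rw [hK]
        push_cast
        linarith [Nat.le_ceil (Real.exp (0.84 * Y))]
      have h3 : |k| < (K : ℤ) := by exact_mod_cast h2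
      unfold FK
      rw [Finset.mem_Ioo]
      exact abs_lt.1 h3)
    have hd0 := h3 0 (by norm_num)
    have hdu0 := hdu 0
    have h2 : (K : ℝ) * Real.exp (-(((5 : ℕ) : ℝ) * (d 0 : ℝ) / 20)) ≤ 3 := by
      calc (K : ℝ) * Real.exp (-(((5 : ℕ) : ℝ) * (d 0 : ℝ) / 20))
          ≤ 3 * Real.exp (0.84 * Y) * Real.exp (-(0.84 * Y)) := by
            apply mul_le_mul hKle _ (Real.exp_pos _).le (by positivity)
            apply Real.exp_le_exp.2
            push_cast
            linarith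
        _ = 3 * (Real.exp (0.84 * Y) * Real.exp (-(0.84 * Y))) := by ring
        _ = 3 := by
            rw [← Real.exp_add]
            simp
    have h6 : Real.exp (ε₀ / 100 * (d 0 : ℝ)) ≤ Real.exp (0.4 * ε₀ * Y) := by
      apply Real.exp_le_exp.2
      have : ε₀ * (d 0 : ℝ) ≤ ε₀ * (40 * Y) := mul_le_mul_of_nonneg_left (by linarith) he0.le
      linarith
    have h7 : (Real.exp (-(ε₀ * Y))) ^ (2 * 5) = Real.exp (-(10 * ε₀ * Y)) := by
      rw [← Real.exp_nat_mul]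
      congr 1
      push_cast
      ring
    rw [h7] at h1
    calc (L.card : ℝ) ≤ C₁ * Real.exp (ε₀ / 100 * (d 0 : ℝ)) *
          (1 + K * Real.exp (-(((5 : ℕ) : ℝ) * (d 0 : ℝ) / 20))) / Real.exp (-(10 * ε₀ * Y)) := h1
      _ ≤ C₁ * Real.exp (0.4 * ε₀ * Y) * 4 / Real.exp (-(10 * ε₀ * Y)) := by
          apply div_le_div_of_nonneg_right _ (Real.exp_pos _).le
          apply mul_le_mul _ (by linarith) (by positivity) (by positivity)
          exact mul_le_mul_of_nonneg_left h6 (by linarith)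
      _ = 4 * C₁ * (Real.exp (0.4 * ε₀ * Y) * Real.exp (10 * ε₀ * Y)) := by
          rw [Real.exp_neg, div_inv_eq_mul]
          ring
      _ ≤ Real.exp (0.6 * ε₀ * Y) * (Real.exp (0.4 * ε₀ * Y) * Real.exp (10 * ε₀ * Y)) := by
          apply mul_le_mul_of_nonneg_right _ (by positivity)
          linarith [Real.add_one_le_exp (0.6 * ε₀ * Y)]
      _ = Real.exp (11 * ε₀ * Y) := by
          rw [← Real.exp_add, ← Real.exp_add]
          congr 1
          ring
  -- step 4: mean square of the factor 0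
  have hms : ∑ k ∈ L, ‖PX f (zY Y) (ty 0) (d 0) k‖ ^ 2 ≤ 12 * C' := by
    have hty : ty 0 ≠ 2 := by decide
    have hdi := h3 0 (by norm_num)
    apply sq_sum hC' hhmg htri hf.norm_le hty
    have hN := hk (Real.exp ((d 0 : ℝ) / 20)) (Real.one_le_exp (by positivity))
    apply row_le (R := Real.exp ((d 0 : ℝ) / 20) ^ (-η')) hC' hN.1
    · intro k hk' l hl' hkl
      apply hN.2 (k - l) (sub_ne_zero.2 hkl)
      have h1 : |(((k - l : ℤ)) : ℝ)| ≤ |(k : ℝ)| + |(l : ℝ)| := by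
        push_cast
        exact abs_sub _ _
      rw [← Real.exp_nat_mul]
      have h2 : Real.exp (0.95 * Y) ≤ Real.exp (((5 : ℕ) : ℝ) * ((d 0 : ℝ) / 20)) := by
        apply Real.exp_le_exp.2
        push_cast
        linarith
      have h6 : Real.exp (0.95 * Y) = Real.exp (0.11 * Y) * Real.exp (0.84 * Y) := by
        rw [← Real.exp_add]
        congr 1
        ring
      have h7 : 2 * Real.exp (0.84 * Y) ≤ Real.exp (0.11 * Y) * Real.exp (0.84 * Y) :=
        mul_le_mul_of_nonneg_right hexp (Real.exp_pos _).le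
      linarith [(hL k hk').2, (hL l hl').2]
    · positivity
    · have h1 : Real.exp ((d 0 : ℝ) / 20) ^ (-η') ≤ Real.exp (-(11 * ε₀ * Y)) := by
        rw [← Real.exp_mul]
        apply Real.exp_le_exp.2
        have h6 : 0.19 * Y * η' ≤ (d 0 : ℝ) / 20 * η' := mul_le_mul_of_nonneg_right (by linarith) hη'.le
        have h7 : ε₀ * Y ≤ η' / 200 * Y := mul_le_mul_of_nonneg_right he3 hY0.le
        have h8 : 0 < η' * Y := by positivity
        linarith
      calc (L.card : ℝ) * Real.exp ((d 0 : ℝ) / 20) ^ (-η')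
          ≤ Real.exp (11 * ε₀ * Y) * Real.exp (-(11 * ε₀ * Y)) :=
            mul_le_mul hcard h1 (by positivity) (Real.exp_pos _).le
        _ = 1 := by
            rw [← Real.exp_add]
            simp
  -- step 5
  have hEX : ∀ k ∈ L, ‖EX f (zY Y) d k‖ ≤
      6400 * Y / Y ^ (D + 2) * ‖PX f (zY Y) (ty 0) (d 0) k‖ := by
    intro k hk'
    have hb : ∀ i : Fin 10, ‖PX f (zY Y) (ty i) (d i) k‖ ≤
        (![‖PX f (zY Y) (ty 0) (d 0) k‖, 1 / Y ^ (D + 2), 2, 2, 2, 2, 2, 2, 2,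
          50 * Y] : Fin 10 → ℝ) i := by
      have hT : ∀ i : Fin 10, ty i ≠ 2 → ‖PX f (zY Y) (ty i) (d i) k‖ ≤ 2 := fun i hi =>
        (htrix.1 f hf.norm_le (zY Y) (ty i) (d i) k).2 hi
      have h2' : ‖PX f (zY Y) (ty 1) (d 1) k‖ ≤ 1 / Y ^ (D + 2) := by
        have hd2' := h3 1 (by norm_num)
        have hd3' := h4 1 (by norm_num)
        have h6 : ty 1 = 0 := by decide
        rw [h6]
        apply hm Y hYm q hq1 hqY f hf hper (zY Y) (d 1) k (by linarith) (by linarith)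
        · exact (Real.exp_le_exp.2 (by linarith)).trans (hL k hk').1
        · exact (hL k hk').2.trans (Real.exp_le_exp.2 (by linarith))
      have h9' : ‖PX f (zY Y) (ty 9) (d 9) k‖ ≤ 50 * Y := by
        have h1 := (htrix.1 f hf.norm_le (zY Y) (ty 9) (d 9) k).1
        linarith [hdu 9]
      intro i
      fin_cases i
      · exact le_rfl
      · exact h2'
      · exact hT 2 (by decide)
      · exact hT 3 (by decide)
      · exact hT 4 (by decide)
      · exact hT 5 (by decide)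
      · exact hT 6 (by decide)
      · exact hT 7 (by decide)
      · exact hT 8 (by decide)
      · exact h9'
    unfold EX
    rw [norm_prod]
    refine (Finset.prod_le_prod (fun i _ => norm_nonneg _) fun i _ => hb i).trans (le_of_eq ?_)
    simp [Fin.prod_univ_succ]
    ring
  have hEX2 : ∀ k ∈ L, ‖EX f (zY Y) d k‖ ^ 2 ≤
      (6400 * Y / Y ^ (D + 2)) ^ 2 * ‖PX f (zY Y) (ty 0) (d 0) k‖ ^ 2 := by
    intro k hk'
    rw [← mul_pow]
    exact pow_le_pow_left₀ (norm_nonneg _) (hEX k hk') 2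
  refine (Finset.sum_le_sum hEX2).trans ?_
  rw [← Finset.mul_sum]
  have hYD : (1 : ℝ) ≤ Y ^ D := one_le_pow₀ (by linarith)
  calc (6400 * Y / Y ^ (D + 2)) ^ 2 * ∑ k ∈ L, ‖PX f (zY Y) (ty 0) (d 0) k‖ ^ 2
      ≤ (6400 * Y / Y ^ (D + 2)) ^ 2 * (12 * C') := mul_le_mul_of_nonneg_left hms (by positivity)
    _ = 12 * C' * 6400 ^ 2 * (Y / Y ^ (D + 2)) ^ 2 := by ring
    _ ≤ Y * (Y / Y ^ (D + 2)) ^ 2 := mul_le_mul_of_nonneg_right hY4 (by positivity)
    _ = 1 / (Y ^ D * (Y * Y ^ D)) := by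
        rw [pow_add]
        field_simp
    _ ≤ 1 / Y ^ D := by
        apply one_div_le_one_div_of_le (by positivity)
        have h1 : (1 : ℝ) ≤ Y * Y ^ D := by
          nlinarith
        have h2 : 0 < Y ^ D := by positivity
        nlinarith

end Pool.Agent.H43.X6
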