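import Pool.Agent.H43.X6.Stm
import Pool.Agent.H43.G.R_pool_sql_team_seeded_3997aac3.Q211.KS.Pow

/-!
# powers of the twisted factors (helper94)
-/

set_option autoImplicit false

namespace Pool.Agent.H43.X6

open Finset Pool.Agent.H376R2.MR Pool.Agent.Q240.KS Pool.Agent.Q211.KS

theorem PX_eq (f : ℕ → ℂ) (z : ℕ) (t : Fin 3) (d : ℕ) (k : ℤ) :
    PX f z t d k = DP (sp0 d) (fun n => ((cf z t d n : ℝ) : ℂ) * f n) k := by
  classical
  unfold PX DP sp0
  rw [Finset.sum_filter]
  refine Finset.sum_congr rfl fun n _ => ?_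
  by_cases h : w (20 * Real.log n - d) = 0
  · rw [if_neg (by simpa using h)]
    simp only [cf, h]
    simp
  · rw [if_pos h]

/-- **powers of the factors** -/
theorem pow_DPX (m : ℕ) : ∀ ε : ℝ, 0 < ε → ∃ C : ℝ, 1 ≤ C ∧ ∀ (f : ℕ → ℂ), CM f → ∀ (z : ℕ) (t : Fin 3) (d : ℕ),
    ∃ (s : Finset ℕ) (b : ℕ → ℂ), (∀ k : ℤ, PX f z t d k ^ m = DP s b k) ∧
      (∀ n ∈ s, 1 ≤ n ∧ m * (((d : ℝ) - 1) / 20) ≤ Real.log n ∧
        Real.log n ≤ m * (((d : ℝ) + 1) / 20)) ∧
      ∀ n ∈ s, ‖b n‖ ≤ C * Real.exp (ε * d) / n := by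
  classical
  induction m with
  | zero =>
    intro ε hε
    refine ⟨1, le_rfl, fun f hf z t d => ⟨{1}, fun _ => 1, fun k => ?_, fun n hn => ?_, fun n hn => ?_⟩⟩
    · simp [DP, ch]
    · rw [Finset.mem_singleton] at hn
      subst hn
      simp
    · rw [Finset.mem_singleton] at hn
      subst hn
      have : 1 ≤ Real.exp (ε * d) := Real.one_le_exp (by positivity)
      simpa using this
  | succ m ih =>
    intro ε hε
    obtain ⟨C₁, hC₁, h1⟩ := ih (ε / 4) (by positivity)
    obtain ⟨C₂, hC₂, h2⟩ := one_add_le_exp (show 0 < ε / 4 by positivity)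
    obtain ⟨C₃, hC₃, h3⟩ := Pool.Agent.Helper112.divisor_bound (5 * ε / (m + 1)) (by positivity)
    refine ⟨max 1 (C₃ * Real.exp (ε / 4) * C₂ * C₁), le_max_left _ _, fun f hf z t d => ?_⟩
    obtain ⟨s, b, hb1, hb2, hb3⟩ := h1 f hf z t d
    have hs0 : ∀ n ∈ sp0 d, 1 ≤ n := fun n hn => (mem_sp0 hn).1
    have hs : ∀ n ∈ s, 1 ≤ n := fun n hn => (hb2 n hn).1
    refine ⟨(s ×ˢ sp0 d).image (fun p => p.1 * p.2),
      fun n => ∑ p ∈ (s ×ˢ sp0 d).filter (fun p => p.1 * p.2 = n),
        b p.1 * (((cf z t d p.2 : ℝ) : ℂ) * f p.2), fun k => ?_, ?_, ?_⟩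
    · rw [pow_succ, hb1 k, PX_eq]
      exact DP_mul s (sp0 d) b _ hs hs0 k
    · intro n hn
      rw [Finset.mem_image] at hn
      obtain ⟨p, hp, rfl⟩ := hn
      rw [Finset.mem_product] at hp
      obtain ⟨a1, a2, a3⟩ := hb2 _ hp.1
      obtain ⟨c1, c2, c3⟩ := mem_sp0 hp.2
      have e1 : (p.1 : ℝ) ≠ 0 := by
        have : p.1 ≠ 0 := by omega
        exact_mod_cast this
      have e2 : (p.2 : ℝ) ≠ 0 := by
        have : p.2 ≠ 0 := by omega
        exact_mod_cast this
      refine ⟨Nat.mul_pos a1 c1, ?_, ?_⟩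
      · rw [Nat.cast_mul, Real.log_mul e1 e2]
        push_cast
        linarith
      · rw [Nat.cast_mul, Real.log_mul e1 e2]
        push_cast
        linarith
    · intro n hn
      have hn1 : 1 ≤ n ∧ Real.log n ≤ (m + 1) * (((d : ℝ) + 1) / 20) := by
        rw [Finset.mem_image] at hn
        obtain ⟨p, hp, rfl⟩ := hn
        rw [Finset.mem_product] at hp
        obtain ⟨a1, a2, a3⟩ := hb2 _ hp.1
        obtain ⟨c1, c2, c3⟩ := mem_sp0 hp.2
        have e1 : (p.1 : ℝ) ≠ 0 := by
          have : p.1 ≠ 0 := by omega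
          exact_mod_cast this
        have e2 : (p.2 : ℝ) ≠ 0 := by
          have : p.2 ≠ 0 := by omega
          exact_mod_cast this
        refine ⟨Nat.mul_pos a1 c1, ?_⟩
        rw [Nat.cast_mul, Real.log_mul e1 e2]
        linarith
      have hn0 : (0 : ℝ) < n := by exact_mod_cast hn1.1
      have hcard : (((s ×ˢ sp0 d).filter (fun p => p.1 * p.2 = n)).card : ℝ) ≤
          n.divisors.card := by
        have : ((s ×ˢ sp0 d).filter (fun p => p.1 * p.2 = n)).card ≤ n.divisors.card := by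
          refine Finset.card_le_card_of_injOn (fun p => p.1) ?_ ?_
          · intro p hp
            rw [Finset.mem_coe, Finset.mem_filter] at hp
            rw [Finset.mem_coe, Nat.mem_divisors]
            exact ⟨⟨p.2, hp.2.symm⟩, by omega⟩
          · intro p hp q hq hpq
            rw [Finset.mem_coe, Finset.mem_filter, Finset.mem_product] at hp hq
            have hpq' : p.1 = q.1 := hpq
            refine Prod.ext hpq' ?_
            have h5 : p.1 * p.2 = p.1 * q.2 := by
              rw [hp.2, hpq', hq.2]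
            exact Nat.eq_of_mul_eq_mul_left (hs _ hp.1.1) h5
        exact_mod_cast this
      have hdiv : (n.divisors.card : ℝ) ≤ C₃ * (Real.exp (ε / 4) * Real.exp (ε / 4 * d)) := by
        refine (h3 n hn1.1).trans (mul_le_mul_of_nonneg_left ?_ hC₃.le)
        rw [Real.rpow_def_of_pos hn0, ← Real.exp_add]
        apply Real.exp_le_exp.2
        calc Real.log n * (5 * ε / (m + 1)) ≤ (m + 1) * (((d : ℝ) + 1) / 20) * (5 * ε / (m + 1)) :=
              mul_le_mul_of_nonneg_right hn1.2 (by positivity)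
          _ = ε / 4 + ε / 4 * d := by
            field_simp
            ring
      have hterm : ∀ p ∈ (s ×ˢ sp0 d).filter (fun p => p.1 * p.2 = n),
          ‖b p.1 * (((cf z t d p.2 : ℝ) : ℂ) * f p.2)‖ ≤
            C₁ * Real.exp (ε / 4 * d) * (C₂ * Real.exp (ε / 4 * d)) / n := by
        intro p hp
        rw [Finset.mem_filter, Finset.mem_product] at hp
        have e1 : (0 : ℝ) < p.1 := by exact_mod_cast hs _ hp.1.1
        have e2 : (0 : ℝ) < p.2 := by exact_mod_cast hs0 _ hp.1.2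
        have hfn : ‖b p.1 * (((cf z t d p.2 : ℝ) : ℂ) * f p.2)‖ ≤ ‖b p.1‖ * |cf z t d p.2| := by
          rw [norm_mul, norm_mul, Complex.norm_real, Real.norm_eq_abs]
          apply mul_le_mul_of_nonneg_left _ (norm_nonneg _)
          exact mul_le_of_le_one_right (abs_nonneg _) (hf.norm_le _)
        refine hfn.trans ?_
        have h5 := hb3 _ hp.1.1
        have h6 : |cf z t d p.2| ≤ C₂ * Real.exp (ε / 4 * d) / p.2 :=
          (cf_le hp.1.2).trans (div_le_div_of_nonneg_right (h2 d (Nat.cast_nonneg d)) e2.le)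
        calc ‖b p.1‖ * |cf z t d p.2| ≤ (C₁ * Real.exp (ε / 4 * d) / p.1) *
              (C₂ * Real.exp (ε / 4 * d) / p.2) := mul_le_mul h5 h6 (abs_nonneg _) (by positivity)
          _ = C₁ * Real.exp (ε / 4 * d) * (C₂ * Real.exp (ε / 4 * d)) / ((p.1 * p.2 : ℕ) : ℝ) := by
            push_cast
            field_simp
          _ = _ := by rw [hp.2]
      have hexp : Real.exp (ε / 4 * d) * Real.exp (ε / 4 * d) * Real.exp (ε / 4 * d) ≤
          Real.exp (ε * d) := by
        rw [← Real.exp_add, ← Real.exp_add]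
        apply Real.exp_le_exp.2
        have : (0 : ℝ) ≤ ε * d := by positivity
        linarith
      calc ‖∑ p ∈ (s ×ˢ sp0 d).filter (fun p => p.1 * p.2 = n),
            b p.1 * (((cf z t d p.2 : ℝ) : ℂ) * f p.2)‖ ≤
          ∑ p ∈ (s ×ˢ sp0 d).filter (fun p => p.1 * p.2 = n),
            ‖b p.1 * (((cf z t d p.2 : ℝ) : ℂ) * f p.2)‖ := norm_sum_le _ _
        _ ≤ ∑ p ∈ (s ×ˢ sp0 d).filter (fun p => p.1 * p.2 = n),
            C₁ * Real.exp (ε / 4 * d) * (C₂ * Real.exp (ε / 4 * d)) / n := Finset.sum_le_sum hterm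
        _ = ((s ×ˢ sp0 d).filter (fun p => p.1 * p.2 = n)).card *
            (C₁ * Real.exp (ε / 4 * d) * (C₂ * Real.exp (ε / 4 * d)) / n) := by
            rw [Finset.sum_const, nsmul_eq_mul]
        _ ≤ (C₃ * (Real.exp (ε / 4) * Real.exp (ε / 4 * d))) *
            (C₁ * Real.exp (ε / 4 * d) * (C₂ * Real.exp (ε / 4 * d)) / n) :=
            mul_le_mul_of_nonneg_right (hcard.trans hdiv) (by positivity)
        _ = (C₃ * Real.exp (ε / 4) * C₂ * C₁) *
            (Real.exp (ε / 4 * d) * Real.exp (ε / 4 * d) * Real.exp (ε / 4 * d)) / n := by ring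
        _ ≤ (C₃ * Real.exp (ε / 4) * C₂ * C₁) * Real.exp (ε * d) / n := by
            apply div_le_div_of_nonneg_right _ hn0.le
            exact mul_le_mul_of_nonneg_left hexp (by positivity)
        _ ≤ _ := by
            apply div_le_div_of_nonneg_right _ hn0.le
            exact mul_le_mul_of_nonneg_right (le_max_right _ _) (Real.exp_pos _).le

end Pool.Agent.H43.X6
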